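import Pool.Agent.helper213_PG.B2LabA

set_option autoImplicit false

/-!
# Labelled local systems: retraction (paper 3.5)
-/

namespace Pool.Agent.H213PG

section

variable {V : Type} [DecidableEq V] {star : V → Prop} {H : Type} [Group H]
  {U : (V → V) → (V → V) → H}

/-! ### values of `hk` -/

theorem b3labb_fst (a : V → V) (x y : V) : hk a x y x = y := by simp [hk]

theorem b3labb_snd {a : V → V} {x y : V} (h : x ≠ y) : hk a x y y = x := by simp [hk, h.symm]

theorem b3labb_ax {a : V → V} {x y : V} (h1 : a x ≠ x) (h2 : a x ≠ y) :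
    hk a x y (a x) = a y := by simp [hk, h1, h2]

theorem b3labb_ay {a : V → V} {x y : V} (h1 : a y ≠ x) (h2 : a y ≠ y) (h3 : a y ≠ a x) :
    hk a x y (a y) = a x := by simp [hk, h1, h2, h3]

theorem b3labb_off {a : V → V} {x y z : V} (h1 : z ≠ x) (h2 : z ≠ y) (h3 : z ≠ a x)
    (h4 : z ≠ a y) : hk a x y z = a z := by simp [hk, h1, h2, h3, h4]

theorem b3labb_inj {a : V → V} (ha : ∀ x, a (a x) = x) {x y : V} (h : a x = a y) : x = y := by
  rw [← ha x, h, ha y]

theorem b3labb_self {a : V → V} (ha : ∀ x, a (a x) = x) {x y : V} (h : a x = y) :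
    hk a x y = a := by
  subst h
  funext z
  unfold hk
  by_cases h1 : z = x
  · simp [h1]
  · by_cases h2 : z = a x
    · subst h2; simp [h1, ha]
    · simp [h1, h2, ha]

theorem b3labb_sw {a : V → V} (ha : ∀ x, a (a x) = x) {x y : V} (h : x ≠ y) :
    hk a x y = hk a y x := by
  have hxy : a x ≠ a y := fun h' => h (b3labb_inj ha h')
  funext z
  unfold hk
  by_cases h1 : z = x
  · subst h1; simp [h]
  · by_cases h2 : z = y
    · subst h2; simp [h1]
    · by_cases h3 : z = a x
      · subst h3; simp [h1, h2, hxy]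
      · simp [h1, h2, h3]

theorem b3labb_tri {a : V → V} (ha : ∀ x, a (a x) = x) (hne : ∀ x, a x ≠ x) {x y : V}
    (h : x ≠ y) (h' : a x ≠ y) : hk (hk a x (a y)) x y = hk a x y := by
  have hxy : a x ≠ a y := fun h' => h (b3labb_inj ha h')
  have h2 : a y ≠ x := fun h2 => h' (by rw [← h2, ha])
  have e1 : hk a x (a y) x = a y := b3labb_fst a x (a y)
  have e2 : hk a x (a y) y = a x := by
    have := b3labb_ay (a := a) (x := x) (y := a y) (by rw [ha]; exact h.symm)
      (by rw [ha]; exact (hne y).symm) (by rw [ha]; exact h'.symm)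
    rwa [ha] at this
  funext z
  by_cases z1 : z = x
  · subst z1; rw [b3labb_fst, b3labb_fst]
  by_cases z2 : z = y
  · subst z2; rw [b3labb_snd h, b3labb_snd h]
  have z1' := hne x
  have z2' := hne y
  by_cases z3 : z = a x
  · subst z3
    rw [b3labb_ax z1' h']
    have := b3labb_ay (a := hk a x (a y)) (x := x) (y := y) (by rw [e2]; exact z1')
      (by rw [e2]; exact h') (by rw [e2, e1]; exact hxy)
    rw [e2, e1] at this
    exact this
  by_cases z4 : z = a y
  · subst z4
    rw [b3labb_ay h2 z2' hxy.symm]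
    have := b3labb_ax (a := hk a x (a y)) (x := x) (y := y) (by rw [e1]; exact h2)
      (by rw [e1]; exact z2')
    rw [e1, e2] at this
    exact this
  rw [b3labb_off z1 z2 (by rw [e1]; exact z4) (by rw [e2]; exact z3), b3labb_off z1 z2 z3 z4,
    b3labb_off z1 z4 z3 (by rw [ha]; exact z2)]

/-! ### admissible moves -/

theorem b3labb_ok_compl {a : V → V} (ha : Vm star a) {x y : V} (h : ok star a x y) :
    ok star a (a x) (a y) where
  ne := fun h' => h.ne (b3labb_inj ha.inv h')
  ne' := by rw [ha.inv]; intro h'; exact h.ne' (by rw [h', ha.inv])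
  s1 := h.s4
  s2 := by rw [ha.inv]; exact h.s3
  s3 := by rw [ha.inv]; exact h.s2
  s4 := by rw [ha.inv, ha.inv]; exact h.s1

theorem b3labb_ok_sw {a : V → V} (ha : Vm star a) {x y : V} (h : ok star a x y) :
    ok star a y x where
  ne := h.ne.symm
  ne' := fun h' => h.ne' (by rw [← h', ha.inv])
  s1 := fun ⟨p, q⟩ => h.s1 ⟨q, p⟩
  s2 := fun ⟨p, q⟩ => h.s3 ⟨q, p⟩
  s3 := fun ⟨p, q⟩ => h.s2 ⟨q, p⟩
  s4 := fun ⟨p, q⟩ => h.s4 ⟨q, p⟩

theorem b3labb_ok_back {a : V → V} (ha : Vm star a) {x y : V} (h : ok star a x y) :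
    ok star (hk a x y) x (a x) := by
  have e1 : hk a x y x = y := b3labb_fst a x y
  have e2 : hk a x y (a x) = a y := b3labb_ax (ha.ne x) h.ne'
  refine ⟨(ha.ne x).symm, by rw [e1]; exact h.ne'.symm, ?_, ?_, ?_, ?_⟩
  · exact fun ⟨p, q⟩ => ha.st x p q
  · rw [e2]; exact h.s2
  · rw [e1]; exact fun ⟨p, q⟩ => h.s3 ⟨q, p⟩
  · rw [e1, e2]; exact fun ⟨p, q⟩ => ha.st y p q

/-- a move touching `α` is a hook at `α` -/
theorem b3labb_at {a : V → V} (ha : Vm star a) {x y α : V} (h : ok star a x y)
    (hα : α = x ∨ α = y ∨ α = a x ∨ α = a y) :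
    ∃ c, hk a x y = hk a α c ∧ ok star a α c := by
  rcases hα with rfl | rfl | rfl | rfl
  · exact ⟨y, rfl, h⟩
  · exact ⟨x, b3labb_sw ha.inv h.ne, b3labb_ok_sw ha h⟩
  · exact ⟨a y, (hk_compl ha.inv ha.ne x y h.ne).symm, b3labb_ok_compl ha h⟩
  · refine ⟨a x, ?_, b3labb_ok_sw ha (b3labb_ok_compl ha h)⟩
    rw [← b3labb_sw ha.inv (b3labb_ok_compl ha h).ne]
    exact (hk_compl ha.inv ha.ne x y h.ne).symm

theorem b3labb_gauge (hU : LS1 star U) (G : (V → V) → H) :
    LS1 star (fun a a' => (G a)⁻¹ * U a a' * G a') where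
  self a ha := by simp [hU.self a ha]
  inv a x y ha h := by
    have := hU.inv a x y ha h
    calc (G a)⁻¹ * U a (hk a x y) * G (hk a x y) * ((G (hk a x y))⁻¹ * U (hk a x y) a * G a)
        = (G a)⁻¹ * (U a (hk a x y) * U (hk a x y) a) * G a := by group
      _ = 1 := by rw [this]; group
  com a x y z w ha h1 h2 h3 h4 o1 o2 o3 o4 := by
    have := hU.com a x y z w ha h1 h2 h3 h4 o1 o2 o3 o4
    calc (G a)⁻¹ * U a (hk a x y) * G (hk a x y) *
          ((G (hk a x y))⁻¹ * U (hk a x y) (hk (hk a x y) z w) * G (hk (hk a x y) z w))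
        = (G a)⁻¹ * (U a (hk a x y) * U (hk a x y) (hk (hk a x y) z w)) *
            G (hk (hk a x y) z w) := by group
      _ = (G a)⁻¹ * (U a (hk a z w) * U (hk a z w) (hk (hk a x y) z w)) *
            G (hk (hk a x y) z w) := by rw [this]
      _ = _ := by group
  tri a x y ha h := by
    have := hU.tri a x y ha h
    calc (G a)⁻¹ * U a (hk a x y) * G (hk a x y) *
          ((G (hk a x y))⁻¹ * U (hk a x y) (hk a x (a y)) * G (hk a x (a y))) *
          ((G (hk a x (a y)))⁻¹ * U (hk a x (a y)) a * G a)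
        = (G a)⁻¹ * (U a (hk a x y) * U (hk a x y) (hk a x (a y)) * U (hk a x (a y)) a) * G a := by
          group
      _ = 1 := by rw [this]; group

/-! ### frozen points -/

variable (star) in
/-- matchings which agree with `a0` on the frozen points -/
def b3labb_Adm (a0 : V → V) (K : Set V) (a : V → V) : Prop := Vm star a ∧ ∀ z ∈ K, a z = a0 z

theorem b3labb_adm_not {a0 : V → V} {K : Set V} (hK : ∀ z ∈ K, a0 z ∈ K) {a : V → V}
    (ha : b3labb_Adm star a0 K a) {z : V} (hz : z ∉ K) : a z ∉ K := fun h => by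
  have h1 := ha.2 _ h
  rw [ha.1.inv] at h1
  exact hz (by rw [h1]; exact hK _ h)

theorem b3labb_adm_hk {a0 : V → V} {K : Set V} (hK : ∀ z ∈ K, a0 z ∈ K) {a : V → V}
    (ha : b3labb_Adm star a0 K a) {x y : V} (h : ok star a x y) (hx : x ∉ K) (hy : y ∉ K) :
    b3labb_Adm star a0 K (hk a x y) := by
  refine ⟨hk_vm ha.1 h, fun z hz => ?_⟩
  have h1 : z ≠ x := fun e => hx (by rw [← e]; exact hz)
  have h2 : z ≠ y := fun e => hy (by rw [← e]; exact hz)
  have h3 : z ≠ a x := fun e => b3labb_adm_not hK ha hx (by rw [← e]; exact hz)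
  have h4 : z ≠ a y := fun e => b3labb_adm_not hK ha hy (by rw [← e]; exact hz)
  rw [b3labb_off h1 h2 h3 h4]
  exact ha.2 z hz

theorem b3labb_adm_ok {a0 : V → V} {K : Set V} {a : V → V}
    (ha : b3labb_Adm star a0 K a) {x y : V} (h : ok star a x y)
    (ha' : b3labb_Adm star a0 K (hk a x y)) : x ∉ K ∧ y ∉ K := by
  constructor
  · intro hx
    have h1 := ha'.2 x hx
    rw [b3labb_fst, ← ha.2 x hx] at h1
    exact h.ne' h1.symm
  · intro hy
    have h1 := ha'.2 y hy
    rw [b3labb_snd h.ne, ← ha.2 y hy] at h1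
    exact h.ne' (by rw [h1, ha.1.inv])

variable (star) in
/-- the situation when the pair `{α, β}` of `a0` gets unfrozen -/
structure b3labb_Stp (a0 : V → V) (K : Set V) (α β : V) : Prop where
  hK : ∀ z ∈ K, a0 z ∈ K
  ha : α ∉ K
  hb : β ∉ K
  hab : a0 α = β
  hba : a0 β = α
  ne : α ≠ β
  sa : ¬ star α
  sb : ∀ a, b3labb_Adm star a0 K a → ¬ star (a β)

variable {a0 : V → V} {K : Set V} {α β : V}

theorem b3labb_ab {a : V → V} (S : b3labb_Stp star a0 K α β) (ha : b3labb_Adm star a0 K a)
    (h : a α ≠ β) (h' : ¬ star (a α)) : ok star a α β where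
  ne := S.ne
  ne' := h
  s1 := fun h => S.sa h.1
  s2 := fun h => S.sa h.1
  s3 := fun h => h' h.1
  s4 := fun h => h' h.1

theorem b3labb_adm_ins {a : V → V} (S : b3labb_Stp star a0 K α β) (ha : b3labb_Adm star a0 K a)
    (h : a α = β) : b3labb_Adm star a0 (K ∪ {α, β}) a := by
  refine ⟨ha.1, ?_⟩
  rintro z (hz | rfl | rfl)
  · exact ha.2 z hz
  · rw [h, S.hab]
  · rw [S.hba, ← h, ha.1.inv]

/-- the basic computation: edges between matchings with `a α` real or `a α = β` -/
theorem b3labb_nn (S : b3labb_Stp star a0 K α β) (hU : LS1 star U)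
    (h1 : ∀ a x y, b3labb_Adm star a0 (K ∪ {α, β}) a → ok star a x y →
      b3labb_Adm star a0 (K ∪ {α, β}) (hk a x y) → U a (hk a x y) = 1)
    {a : V → V} {x y : V} (ha : b3labb_Adm star a0 K a) (h : ok star a x y)
    (ha' : b3labb_Adm star a0 K (hk a x y)) (hn : a α = β ∨ ¬ star (a α))
    (hn' : hk a x y α = β ∨ ¬ star (hk a x y α)) :
    U a (hk a x y) * U (hk a x y) (hk (hk a x y) α β) = U a (hk a α β) := by
  have inv := ha.1.inv
  have ne := ha.1.ne
  by_cases e : a α = β
  · have e0 : hk a α β = a := b3labb_self inv e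
    by_cases e' : hk a x y α = β
    · have e1 : hk (hk a x y) α β = hk a x y := b3labb_self ha'.1.inv e'
      rw [e1, e0, hU.self _ ha'.1, hU.self _ ha.1,
        h1 a x y (b3labb_adm_ins S ha e) h (b3labb_adm_ins S ha' e'), one_mul]
    · have hα : α = x ∨ α = y ∨ α = a x ∨ α = a y := by
        by_contra hc
        push Not at hc
        exact e' (by rw [b3labb_off hc.1 hc.2.1 hc.2.2.1 hc.2.2.2, e])
      obtain ⟨c, hc, hok⟩ := b3labb_at ha.1 h hα
      have e1 : hk (hk a α c) α β = a := by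
        rw [← e]; exact hk_back inv ne hok.ne
      rw [hc, e1, e0, hU.self _ ha.1, hU.inv a α c ha.1 hok]
  · have sα : ¬ star (a α) := hn.resolve_left e
    have okab := b3labb_ab S ha e sα
    by_cases e' : hk a x y α = β
    · have hα : α = x ∨ α = y ∨ α = a x ∨ α = a y := by
        by_contra hc
        push Not at hc
        exact e (by rw [← e', b3labb_off hc.1 hc.2.1 hc.2.2.1 hc.2.2.2])
      obtain ⟨c, hc, hok⟩ := b3labb_at ha.1 h hα
      have hcβ : c = β := by rw [← e', hc, b3labb_fst]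
      subst hcβ
      rw [b3labb_self ha'.1.inv e', hU.self _ ha'.1, mul_one, hc]
    · have sα' : ¬ star (hk a x y α) := hn'.resolve_left e'
      have okab' := b3labb_ab S ha' e' sα'
      -- the triangle
      have tri : hk a x y = hk a α (a β) →
          U a (hk a x y) * U (hk a x y) (hk (hk a x y) α β) = U a (hk a α β) := by
        intro ht
        have e2 : hk (hk a x y) α β = hk a α β := by rw [ht]; exact b3labb_tri inv ne S.ne e
        have t := hU.tri a α β ha.1 okab
        have i1 := hU.inv a x y ha.1 h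
        have i2 := hU.inv (hk a x y) α β ha'.1 okab'
        rw [e2] at i2 ⊢
        rw [← ht] at t
        have i1' : U (hk a x y) a = (U a (hk a x y))⁻¹ := (inv_eq_of_mul_eq_one_right i1).symm
        have i2' : U (hk a α β) (hk a x y) = (U (hk a x y) (hk a α β))⁻¹ :=
          (inv_eq_of_mul_eq_one_right i2).symm
        rw [i1', i2'] at t
        have t1 := eq_inv_of_mul_eq_one_left t
        rw [inv_inv] at t1
        rw [← t1]; group
      -- disjoint hooks
      have main : ∀ x' y', hk a x y = hk a x' y' → ok star a x' y' → x' ∉ K → y' ∉ K →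
          x' ≠ α → x' ≠ β → y' ≠ α → y' ≠ β →
          U a (hk a x y) * U (hk a x y) (hk (hk a x y) α β) = U a (hk a α β) := by
        intro x' y' hxy' h' hxK hyK n1 n2 n3 n4
        rw [hxy'] at e' okab' ha' ⊢
        have sβ := S.sb a ha
        have d1 : a α ≠ a β := fun hh => S.ne (b3labb_inj inv hh)
        have bα : hk a α β α = β := b3labb_fst a α β
        have bβ : hk a α β β = α := b3labb_snd S.ne
        have e2 : a β ≠ α := fun hh => e (by rw [← hh, inv])
        have baα : hk a α β (a α) = a β := b3labb_ax (ne α) e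
        have baβ : hk a α β (a β) = a α := b3labb_ay e2 (ne β) d1.symm
        have hb := b3labb_adm_hk S.hK ha okab S.ha S.hb
        -- values of `b` at a point other than `α`, `β`
        have val : ∀ z, z ≠ α → z ≠ β → (hk a α β z = a z ∨ ¬ star (hk a α β z)) := by
          intro z z1 z2
          by_cases z3 : z = a α
          · right; rw [z3, baα]; exact sβ
          by_cases z4 : z = a β
          · right; rw [z4, baβ]; exact sα
          left; exact b3labb_off z1 z2 z3 z4
        have okb : ok star (hk a α β) x' y' := by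
          refine ⟨h'.ne, ?_, h'.s1, ?_, ?_, ?_⟩
          · intro hh
            by_cases z3 : x' = a α
            · rw [z3, baα] at hh
              apply e'
              rw [z3, ← hh, hk_compl inv ne α β S.ne, bα]
            by_cases z4 : x' = a β
            · rw [z4, baβ] at hh
              apply e'
              rw [z4, ← hh, ← b3labb_sw inv d1, hk_compl inv ne α β S.ne, bα]
            rw [b3labb_off n1 n2 z3 z4] at hh
            exact h'.ne' hh
          · rintro ⟨p, q⟩
            rcases val y' n3 n4 with v | v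
            · exact h'.s2 ⟨p, by rwa [v] at q⟩
            · exact v q
          · rintro ⟨p, q⟩
            rcases val x' n1 n2 with v | v
            · exact h'.s3 ⟨by rwa [v] at p, q⟩
            · exact v p
          · rintro ⟨p, q⟩
            rcases val x' n1 n2 with v | v
            · rcases val y' n3 n4 with v' | v'
              · exact h'.s4 ⟨by rwa [v] at p, by rwa [v'] at q⟩
              · exact v' q
            · exact v p
        have hc := hU.com a x' y' α β ha.1 n1 n2 n3 n4 h' okab okab' okb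
        have hcm := hk_comm inv ne h'.ne S.ne n1 n2 n3 n4
        have hb' := b3labb_adm_hk S.hK hb okb hxK hyK
        have hbα : hk (hk a α β) x' y' α = β := by
          rw [b3labb_off n1.symm n3.symm, bα]
          · intro hh; exact n2 (b3labb_inj hb.1.inv (by rw [← hh, bβ]))
          · intro hh; exact n4 (b3labb_inj hb.1.inv (by rw [← hh, bβ]))
        rw [hc, hcm, h1 _ x' y' (b3labb_adm_ins S hb bα) okb (b3labb_adm_ins S hb' hbα), mul_one]
      obtain ⟨hxK, hyK⟩ := b3labb_adm_ok ha h ha'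
      have haxK := b3labb_adm_not S.hK ha hxK
      have hayK := b3labb_adm_not S.hK ha hyK
      by_cases c1 : x ≠ α ∧ x ≠ β ∧ y ≠ α ∧ y ≠ β
      · exact main x y rfl h hxK hyK c1.1 c1.2.1 c1.2.2.1 c1.2.2.2
      by_cases c2 : a x ≠ α ∧ a x ≠ β ∧ a y ≠ α ∧ a y ≠ β
      · exact main (a x) (a y) (hk_compl inv ne x y h.ne).symm (b3labb_ok_compl ha.1 h) haxK hayK
          c2.1 c2.2.1 c2.2.2.1 c2.2.2.2
      -- the remaining case
      apply tri
      have nab : α ≠ a β := fun hh => e (by rw [hh, inv])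
      have F : hk a (a α) β = hk a α (a β) := by
        have := hk_compl inv ne α (a β) nab
        rwa [inv] at this
      have F1 : hk a β (a α) = hk a α (a β) := by rw [← F]; exact b3labb_sw inv (Ne.symm e)
      have F2 : hk a (a β) α = hk a α (a β) := b3labb_sw inv nab.symm
      have hay : ∀ {p q : V}, a p = q → p = a q := fun hh => by rw [← hh, inv]
      rw [not_and_or, not_and_or, not_and_or, not_not, not_not, not_not, not_not] at c1 c2
      rcases c1 with c1 | c1 | c1 | c1 <;> rcases c2 with c2 | c2 | c2 | c2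
      · exact absurd (by rw [← c1] at c2; exact c2) (ne x)
      · exact absurd (by rw [← c2, c1]) e
      · exact absurd (by rw [c1, ← c2, inv]) h.ne'
      · rw [c1, hay c2]
      · exact absurd (by rw [← c2, c1, inv]) e
      · exact absurd (by rw [← c1] at c2; exact c2) (ne x)
      · rw [c1, hay c2, F1]
      · exact absurd (by rw [c1, ← c2, inv]) h.ne'
      · exact absurd (by rw [c1, c2]) h.ne'
      · rw [c1, hay c2, F2]
      · exact absurd (by rw [← c1] at c2; exact c2) (ne y)
      · exact absurd (by rw [← c2, c1]) e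
      · rw [c1, hay c2, F]
      · exact absurd (by rw [c1, c2]) h.ne'
      · exact absurd (by rw [← c2, c1, inv]) e
      · exact absurd (by rw [← c1] at c2; exact c2) (ne y)

/-- `U` is a coboundary over the matchings frozen on `K` -/
def b3labb_Tr (star : V → Prop) (U : (V → V) → (V → V) → H) (a0 : V → V) (K : Set V)
    (G : (V → V) → H) : Prop :=
  ∀ a x y, b3labb_Adm star a0 K a → ok star a x y → b3labb_Adm star a0 K (hk a x y) →
    U a (hk a x y) = G a * (G (hk a x y))⁻¹

theorem b3labb_tr_gauge (G0 : (V → V) → H)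
    (h : ∃ G, b3labb_Tr star (fun a a' => (G0 a)⁻¹ * U a a' * G0 a') a0 K G) :
    ∃ G, b3labb_Tr star U a0 K G := by
  obtain ⟨G, hG⟩ := h
  refine ⟨fun a => G0 a * G a, fun a x y ha h ha' => ?_⟩
  have : (G0 a)⁻¹ * U a (hk a x y) * G0 (hk a x y) = G a * (G (hk a x y))⁻¹ :=
    hG a x y ha h ha'
  calc U a (hk a x y) = G0 a * ((G0 a)⁻¹ * U a (hk a x y) * G0 (hk a x y)) *
        (G0 (hk a x y))⁻¹ := by group
    _ = G0 a * (G a * (G (hk a x y))⁻¹) * (G0 (hk a x y))⁻¹ := by rw [this]
    _ = _ := by group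

theorem b3labb_step1 (S : b3labb_Stp star a0 K α β) (hs : ∀ z, star z → z ∈ K)
    (hU : LS1 star U) (h : ∃ G, b3labb_Tr star U a0 (K ∪ {α, β}) G) :
    ∃ G, b3labb_Tr star U a0 K G := by
  obtain ⟨G0, h0⟩ := h
  apply b3labb_tr_gauge G0
  have hU' := b3labb_gauge hU G0
  have h1 : ∀ a x y, b3labb_Adm star a0 (K ∪ {α, β}) a → ok star a x y →
      b3labb_Adm star a0 (K ∪ {α, β}) (hk a x y) →
      (G0 a)⁻¹ * U a (hk a x y) * G0 (hk a x y) = 1 := by
    intro a x y ha h ha'
    rw [h0 a x y ha h ha']; group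
  refine ⟨fun a => (G0 a)⁻¹ * U a (hk a α β) * G0 (hk a α β), fun a x y ha h ha' => ?_⟩
  have re : ∀ b, b3labb_Adm star a0 K b → ¬ star (b α) := fun b hb hst =>
    b3labb_adm_not S.hK hb S.ha (hs _ hst)
  have := b3labb_nn S hU' h1 ha h ha' (Or.inr (re a ha)) (Or.inr (re _ ha'))
  exact eq_mul_inv_of_mul_eq this

/-- type J matchings: the value does not depend on the choice -/
theorem b3labb_F (S : b3labb_Stp star a0 K α β) (hU : LS1 star U)
    (h1 : ∀ a x y, b3labb_Adm star a0 (K ∪ {α, β}) a → ok star a x y →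
      b3labb_Adm star a0 (K ∪ {α, β}) (hk a x y) → U a (hk a x y) = 1)
    (hK2 : ∀ z ∈ K, star z ∨ star (a0 z))
    {a : V → V} (ha : b3labb_Adm star a0 K a) (hs : star (a α)) {c d : V}
    (hc : ¬ star c) (hc' : ¬ star (a c)) (hd : ¬ star d) (hd' : ¬ star (a d)) :
    U a (hk a α c) * U (hk a α c) (hk (hk a α c) α β) =
      U a (hk a α d) * U (hk a α d) (hk (hk a α d) α β) := by
  have inv := ha.1.inv
  have ne := ha.1.ne
  have real : ∀ c, ¬ star c → ¬ star (a c) → c ∉ K ∧ α ≠ c ∧ a α ≠ c ∧ ok star a α c := by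
    intro c hc hc'
    have n1 : α ≠ c := fun h => hc' (by rw [← h]; exact hs)
    have n2 : a α ≠ c := fun h => hc (by rw [← h]; exact hs)
    refine ⟨fun h => ?_, n1, n2, n1, n2, fun h => S.sa h.1, fun h => S.sa h.1,
      fun h => hc h.2, fun h => hc' h.2⟩
    rcases hK2 c h with h' | h'
    · exact hc h'
    · rw [← ha.2 c h] at h'; exact hc' h'
  obtain ⟨cK, nc, nc', okc⟩ := real c hc hc'
  obtain ⟨dK, nd, nd', okd⟩ := real d hd hd'
  have hcc : ¬ star (a (a c)) := by rw [inv]; exact hc
  have hdd : ¬ star (a (a d)) := by rw [inv]; exact hd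
  obtain ⟨cK', mc, mc', okc'⟩ := real (a c) hc' hcc
  obtain ⟨dK', md, md', okd'⟩ := real (a d) hd' hdd
  have hp := b3labb_adm_hk S.hK ha okc S.ha cK
  have hq := b3labb_adm_hk S.hK ha okd S.ha dK
  have hαK : a α ∉ K := b3labb_adm_not S.hK ha S.ha
  have pα : hk a α c α = c := b3labb_fst a α c
  have qα : hk a α d α = d := b3labb_fst a α d
  by_cases e1 : d = c
  · rw [e1]
  by_cases e2 : d = a c
  · subst e2
    have ht : hk (hk a α c) α (a c) = hk a α (a c) := by
      have := b3labb_tri inv ne mc mc'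
      rwa [inv] at this
    have okp : ok star (hk a α c) α (a c) := by
      refine ⟨mc, by rw [pα]; exact (ne c).symm, fun h => S.sa h.1, fun h => S.sa h.1, ?_, ?_⟩
      · rw [pα]; exact fun h => hc h.1
      · rw [pα]; exact fun h => hc h.1
    have n := b3labb_nn S hU h1 hp okp (by rw [ht]; exact hq) (Or.inr (by rw [pα]; exact hc))
      (Or.inr (by rw [ht, qα]; exact hc'))
    rw [ht] at n
    have t := hU.tri a α c ha.1 okc
    have i := hU.inv a α (a c) ha.1 okc'
    have t' : U a (hk a α c) * U (hk a α c) (hk a α (a c)) = U a (hk a α (a c)) := by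
      rw [eq_inv_of_mul_eq_one_left t, eq_inv_of_mul_eq_one_left i]
    rw [← n, ← mul_assoc, t']
  · have n1 : c ≠ a d := fun h => e2 (by rw [h, inv])
    have n2 : d ≠ c := e1
    have eq1 : hk a (a d) (a α) = hk a α d := by
      rw [hk_compl inv ne d α nd.symm, b3labb_sw inv nd.symm]
    have pαα : hk a α c (a α) = a c := b3labb_ax (ne α) nc'
    have pad : hk a α c (a d) = d := by
      rw [b3labb_off md.symm n1.symm (fun h => nd (b3labb_inj inv h.symm))
        (fun h => e1 (b3labb_inj inv h)), inv]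
    have pd : hk a α c d = a d := by
      rw [b3labb_off nd.symm e1 nd'.symm e2]
    have qc : hk a α d c = a c := by
      rw [b3labb_off nc.symm (Ne.symm e1) nc'.symm n1]
    have okp : ok star (hk a α c) (a d) (a α) := by
      refine ⟨md'.symm, by rw [pad]; exact nd'.symm, fun h => hd' h.1, fun h => hd' h.1, ?_, ?_⟩
      · rw [pad]; exact fun h => hd h.1
      · rw [pad]; exact fun h => hd h.1
    have oka : ok star a (a d) (a α) := by
      refine ⟨md'.symm, by rw [inv]; exact nd'.symm, fun h => hd' h.1, fun h => hd' h.1, ?_, ?_⟩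
      · rw [inv]; exact fun h => hd h.1
      · rw [inv]; exact fun h => hd h.1
    have okq : ok star (hk a α d) α c := by
      refine ⟨nc, by rw [qα]; exact e1, fun h => S.sa h.1, fun h => S.sa h.1, ?_, ?_⟩
      · rw [qα]; exact fun h => hd h.1
      · rw [qα]; exact fun h => hd h.1
    have hcom := hU.com a α c (a d) (a α) ha.1 md (ne α).symm n1 nc'.symm okc oka okp
      (by rw [eq1]; exact okq)
    rw [eq1] at hcom
    have hY : hk (hk a α c) (a d) (a α) = hk (hk a α d) α c := by
      have := hk_comm inv ne nc md'.symm md (ne α).symm n1 nc'.symm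
      rw [this, eq1]
    have Yα : hk (hk a α c) (a d) (a α) α = c := by rw [hY, b3labb_fst]
    have hYa := b3labb_adm_hk S.hK hp okp dK' hαK
    have m1 := b3labb_nn S hU h1 hp okp hYa (Or.inr (by rw [pα]; exact hc))
      (Or.inr (by rw [Yα]; exact hc))
    have m2 := b3labb_nn S hU h1 hq okq (by rw [← hY]; exact hYa) (Or.inr (by rw [qα]; exact hd))
      (Or.inr (by rw [b3labb_fst]; exact hc))
    rw [← m1, ← m2, ← mul_assoc, ← mul_assoc, ← hY, hcom]

/-- a matching with two real arcs has one which avoids the points of a move with a star -/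
theorem b3labb_arc {a : V → V} (ha : Vm star a)
    (harc : ∃ x y, x ≠ y ∧ a x ≠ y ∧ ¬ star x ∧ ¬ star (a x) ∧ ¬ star y ∧ ¬ star (a y))
    {x y : V} (hq : ¬ (¬ star x ∧ ¬ star (a x) ∧ ¬ star y ∧ ¬ star (a y))) :
    ∃ c, ¬ star c ∧ ¬ star (a c) ∧ c ≠ x ∧ c ≠ y ∧ c ≠ a x ∧ c ≠ a y := by
  obtain ⟨u, v, huv, huv', su, su', sv, sv'⟩ := harc
  by_contra hc
  push Not at hc
  have hu : (u = x ∨ u = a x) ∨ (u = y ∨ u = a y) := by
    by_contra h
    push Not at h
    exact h.2.2 (hc u su su' h.1.1 h.2.1 h.1.2)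
  have hv : (v = x ∨ v = a x) ∨ (v = y ∨ v = a y) := by
    by_contra h
    push Not at h
    exact h.2.2 (hc v sv sv' h.1.1 h.2.1 h.1.2)
  have key : ∀ {p q : V}, ¬ star p → ¬ star (a p) → (p = q ∨ p = a q) →
      ¬ star q ∧ ¬ star (a q) := by
    rintro p q h1 h2 (rfl | rfl)
    · exact ⟨h1, h2⟩
    · rw [ha.inv] at h2; exact ⟨h2, h1⟩
  have dis : ∀ {q : V}, (u = q ∨ u = a q) → (v = q ∨ v = a q) → False := by
    rintro q (rfl | rfl) (rfl | rfl)
    · exact huv rfl
    · exact huv' rfl
    · exact huv' (ha.inv _)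
    · exact huv rfl
  rcases hu with hu | hu <;> rcases hv with hv | hv
  · exact dis hu hv
  · exact hq ⟨(key su su' hu).1, (key su su' hu).2, (key sv sv' hv).1, (key sv sv' hv).2⟩
  · exact hq ⟨(key sv sv' hv).1, (key sv sv' hv).2, (key su su' hu).1, (key su su' hu).2⟩
  · exact dis hu hv

/-- edges between two type J matchings -/
theorem b3labb_JJ (S : b3labb_Stp star a0 K α β) (hU : LS1 star U)
    (h1 : ∀ a x y, b3labb_Adm star a0 (K ∪ {α, β}) a → ok star a x y →
      b3labb_Adm star a0 (K ∪ {α, β}) (hk a x y) → U a (hk a x y) = 1)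
    (hK2 : ∀ z ∈ K, star z ∨ star (a0 z))
    {a : V → V} {x y : V} (ha : b3labb_Adm star a0 K a) (hs : star (a α)) (h : ok star a x y)
    (ha' : b3labb_Adm star a0 K (hk a x y)) (n1 : α ≠ x) (n2 : α ≠ y) (n3 : α ≠ a x)
    (n4 : α ≠ a y) {c : V} (hc : ¬ star c) (hc' : ¬ star (a c)) (hc'' : ¬ star (hk a x y c))
    (cx : c ≠ x) (cy : c ≠ y) (k1 : x = a c → ¬ star y ∧ ¬ star (a y))
    (k2 : y = a c → ¬ star x ∧ ¬ star (a x)) :
    U a (hk a x y) * (U (hk a x y) (hk (hk a x y) α c) *
      U (hk (hk a x y) α c) (hk (hk (hk a x y) α c) α β)) =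
      U a (hk a α c) * U (hk a α c) (hk (hk a α c) α β) := by
  have inv := ha.1.inv
  have ne := ha.1.ne
  obtain ⟨hxK, hyK⟩ := b3labb_adm_ok ha h ha'
  have a'α : hk a x y α = a α := b3labb_off n1 n2 n3 n4
  have m1 : α ≠ c := fun h => hc' (by rw [← h]; exact hs)
  have m2 : a α ≠ c := fun h => hc (by rw [← h]; exact hs)
  have cK : c ∉ K := by
    intro h
    rcases hK2 c h with h' | h'
    · exact hc h'
    · rw [← ha.2 c h] at h'; exact hc' h'
  have okc : ok star a α c :=
    ⟨m1, m2, fun h => S.sa h.1, fun h => S.sa h.1, fun h => hc h.2, fun h => hc' h.2⟩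
  have okc' : ok star (hk a x y) α c :=
    ⟨m1, by rw [a'α]; exact m2, fun h => S.sa h.1, fun h => S.sa h.1, fun h => hc h.2,
      fun h => hc'' h.2⟩
  have hb := b3labb_adm_hk S.hK ha okc S.ha cK
  have bα : hk a α c α = c := b3labb_fst a α c
  have bac : hk a α c (a c) = a α := by
    refine b3labb_ay ?_ (ne c) ?_
    · intro h; exact m2 (by rw [← h, inv])
    · intro h; exact m1 (b3labb_inj inv h.symm)
  have xα : x ≠ a α := fun h => n3 (by rw [h, inv])
  have yα : y ≠ a α := fun h => n4 (by rw [h, inv])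
  have bx : x ≠ a c → hk a α c x = a x := fun h => b3labb_off n1.symm cx.symm xα h
  have bY : y ≠ a c → hk a α c y = a y := fun h => b3labb_off n2.symm cy.symm yα h
  have okb : ok star (hk a α c) x y := by
    refine ⟨h.ne, ?_, h.s1, ?_, ?_, ?_⟩
    · by_cases e : x = a c
      · rw [e, bac]; exact yα.symm
      · rw [bx e]; exact h.ne'
    · rintro ⟨p, q⟩
      by_cases e : y = a c
      · exact (k2 e).1 p
      · rw [bY e] at q; exact h.s2 ⟨p, q⟩
    · rintro ⟨p, q⟩
      by_cases e : x = a c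
      · exact (k1 e).1 q
      · rw [bx e] at p; exact h.s3 ⟨p, q⟩
    · rintro ⟨p, q⟩
      by_cases e : x = a c
      · have e' : y ≠ a c := fun e' => h.ne (by rw [e, e'])
        rw [bY e'] at q; exact (k1 e).2 q
      · rw [bx e] at p
        by_cases e' : y = a c
        · exact (k2 e').2 p
        · rw [bY e'] at q; exact h.s4 ⟨p, q⟩
  have hcom := hU.com a x y α c ha.1 n1.symm cx.symm n2.symm cy.symm h okc okc' okb
  have hcm := hk_comm inv ne h.ne m1 n1.symm cx.symm n2.symm cy.symm
  have hb' := b3labb_adm_hk S.hK hb okb hxK hyK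
  have b'α : hk (hk a α c) x y α = c := by rw [← hcm, b3labb_fst]
  have n := b3labb_nn S hU h1 hb okb hb' (Or.inr (by rw [bα]; exact hc))
    (Or.inr (by rw [b'α]; exact hc))
  rw [← mul_assoc, hcom, hcm, mul_assoc, n]

theorem b3labb_step2 (S : b3labb_Stp star a0 K α β)
    (hK2 : ∀ z ∈ K, star z ∨ star (a0 z)) (hU : LS1 star U)
    (harc : ∀ a, Vm star a → ∃ x y, x ≠ y ∧ a x ≠ y ∧ ¬ star x ∧ ¬ star (a x) ∧ ¬ star y ∧
      ¬ star (a y))
    (h : ∃ G, b3labb_Tr star U a0 (K ∪ {α, β}) G) :
    ∃ G, b3labb_Tr star U a0 K G := by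
  classical
  obtain ⟨G0, h0⟩ := h
  apply b3labb_tr_gauge G0
  have h1 : ∀ a x y, b3labb_Adm star a0 (K ∪ {α, β}) a → ok star a x y →
      b3labb_Adm star a0 (K ∪ {α, β}) (hk a x y) →
      (fun a a' => (G0 a)⁻¹ * U a a' * G0 a') a (hk a x y) = 1 := by
    intro a x y ha h ha'
    change (G0 a)⁻¹ * U a (hk a x y) * G0 (hk a x y) = 1
    rw [h0 a x y ha h ha']; group
  have hU' := b3labb_gauge hU G0
  obtain ⟨W, hW⟩ : ∃ W : (V → V) → (V → V) → H, W = fun a a' => (G0 a)⁻¹ * U a a' * G0 a' :=
    ⟨_, rfl⟩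
  rw [← hW] at h1 hU' ⊢
  clear h0
  let g : (V → V) → H := fun a => W a (hk a α β)
  let F : (V → V) → V → H := fun a c => W a (hk a α c) * g (hk a α c)
  let G : (V → V) → H := fun a =>
    if h : (a α ≠ β ∧ star (a α)) ∧ ∃ c, ¬ star c ∧ ¬ star (a c) then F a h.2.choose else g a
  have GJ : ∀ a, b3labb_Adm star a0 K a → a α ≠ β → star (a α) → ∀ c, ¬ star c →
      ¬ star (a c) → G a = F a c := by
    intro a ha j1 j2 c hc hc'
    have hh : (a α ≠ β ∧ star (a α)) ∧ ∃ c, ¬ star c ∧ ¬ star (a c) := ⟨⟨j1, j2⟩, c, hc, hc'⟩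
    have e : G a = F a hh.2.choose := dif_pos hh
    rw [e]
    exact b3labb_F S hU' h1 hK2 ha j2 hh.2.choose_spec.1 hh.2.choose_spec.2 hc hc'
  have GN : ∀ a, (a α = β ∨ ¬ star (a α)) → G a = g a := by
    intro a hn
    refine dif_neg ?_
    rintro ⟨⟨p, q⟩, _⟩
    rcases hn with hn | hn
    · exact p hn
    · exact hn q
  -- from J to N
  have JN : ∀ a x y, b3labb_Adm star a0 K a → ok star a x y → a α ≠ β → star (a α) →
      (hk a x y α = β ∨ ¬ star (hk a x y α)) → W a (hk a x y) * G (hk a x y) = G a := by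
    intro a x y ha hok j1 j2 hn
    have hα : α = x ∨ α = y ∨ α = a x ∨ α = a y := by
      by_contra hc
      push Not at hc
      rw [b3labb_off hc.1 hc.2.1 hc.2.2.1 hc.2.2.2] at hn
      rcases hn with hn | hn
      · exact j1 hn
      · exact hn j2
    obtain ⟨c, hc, okc⟩ := b3labb_at ha.1 hok hα
    have c1 : ¬ star c := fun h => okc.s3 ⟨j2, h⟩
    have c2 : ¬ star (a c) := fun h => okc.s4 ⟨j2, h⟩
    rw [GJ a ha j1 j2 c c1 c2, GN _ hn, hc]
  refine ⟨G, fun a x y ha hok ha' => ?_⟩
  by_cases t1 : a α = β ∨ ¬ star (a α)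
  · by_cases t2 : hk a x y α = β ∨ ¬ star (hk a x y α)
    · rw [GN _ t1, GN _ t2]
      exact eq_mul_inv_of_mul_eq (b3labb_nn S hU' h1 ha hok ha' t1 t2)
    · push Not at t2
      have okb := b3labb_ok_back ha.1 hok
      have hbk : hk (hk a x y) x (a x) = a := hk_back ha.1.inv ha.1.ne hok.ne
      have := JN (hk a x y) x (a x) ha' okb t2.1 t2.2 (by rw [hbk]; exact t1)
      rw [hbk] at this
      have i := hU'.inv a x y ha.1 hok
      rw [eq_inv_of_mul_eq_one_left i, ← this]
      group
  · push Not at t1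
    by_cases t2 : hk a x y α = β ∨ ¬ star (hk a x y α)
    · exact eq_mul_inv_of_mul_eq (JN a x y ha hok t1.1 t1.2 t2)
    · push Not at t2
      have hα : ¬ (α = x ∨ α = y ∨ α = a x ∨ α = a y) := by
        intro hα
        obtain ⟨c, hc, okc⟩ := b3labb_at ha.1 hok hα
        have : hk a x y α = c := by rw [hc, b3labb_fst]
        rw [this] at t2
        exact okc.s3 ⟨t1.2, t2.2⟩
      push Not at hα
      obtain ⟨n1, n2, n3, n4⟩ := hα
      apply eq_mul_inv_of_mul_eq
      by_cases hq : ¬ star x ∧ ¬ star (a x) ∧ ¬ star y ∧ ¬ star (a y)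
      · have hca : ¬ star (a (a x)) := by rw [ha.1.inv]; exact hq.1
        have hc'' : ¬ star (hk a x y (a x)) := by
          rw [b3labb_ax (ha.1.ne x) hok.ne']; exact hq.2.2.2
        rw [GJ a ha t1.1 t1.2 (a x) hq.2.1 hca, GJ _ ha' t2.1 t2.2 (a x) hq.2.1 hc'']
        exact b3labb_JJ S hU' h1 hK2 ha t1.2 hok ha' n1 n2 n3 n4 hq.2.1 hca hc'' (ha.1.ne x)
          hok.ne' (fun _ => hq.2.2) (fun _ => ⟨hq.1, hq.2.1⟩)
      · obtain ⟨c, hc, hc', cx, cy, cax, cay⟩ := b3labb_arc ha.1 (harc a ha.1) hq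
        have hc'' : ¬ star (hk a x y c) := by
          rw [b3labb_off cx cy cax cay]; exact hc'
        rw [GJ a ha t1.1 t1.2 c hc hc', GJ _ ha' t2.1 t2.2 c hc hc'']
        exact b3labb_JJ S hU' h1 hK2 ha t1.2 hok ha' n1 n2 n3 n4 hc hc' hc'' cx cy
          (fun e => absurd (by rw [e, ha.1.inv]) cax) (fun e => absurd (by rw [e, ha.1.inv]) cay)

/-! ### induction on the frozen points -/

theorem b3labb_ind [Fintype V] {a0 : V → V} (h0 : Vm star a0) (P : Set V → Prop)
    (p0 : P Set.univ)
    (p1 : ∀ K α β, b3labb_Stp star a0 K α β → (∀ z, star z → z ∈ K) → P (K ∪ {α, β}) → P K)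
    (p2 : ∀ K α β, b3labb_Stp star a0 K α β → (∀ z ∈ K, star z ∨ star (a0 z)) →
      P (K ∪ {α, β}) → P K) : P ∅ := by
  classical
  have inv := h0.inv
  have st1 : ∀ F : Finset V, (∀ z ∈ F, ¬ star z ∧ ¬ star (a0 z)) →
      P {z | z ∉ F ∧ a0 z ∉ F} := by
    intro F
    induction F using Finset.induction_on with
    | empty =>
      intro _
      convert p0 using 1
      ext z; simp
    | insert α F hα ih =>
      intro hF
      have ihF := ih fun z hz => hF z (Finset.mem_insert_of_mem hz)
      obtain ⟨sα, sβ⟩ := hF α (Finset.mem_insert_self _ _)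
      by_cases hβ : a0 α ∈ F
      · convert ihF using 1
        ext z
        simp only [Set.mem_ofPred_eq, Finset.mem_insert, not_or]
        constructor
        · rintro ⟨⟨_, h2⟩, _, h4⟩; exact ⟨h2, h4⟩
        · rintro ⟨h2, h4⟩
          refine ⟨⟨?_, h2⟩, ?_, h4⟩
          · rintro rfl; exact h4 hβ
          · rintro rfl; rw [inv] at hβ; exact h2 hβ
      · apply p1 _ α (a0 α)
        · refine ⟨?_, ?_, ?_, rfl, inv α, (h0.ne α).symm, sα, ?_⟩
          · rintro z ⟨h1, h2⟩; exact ⟨h2, by rw [inv]; exact h1⟩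
          · rintro ⟨h1, _⟩; exact h1 (Finset.mem_insert_self _ _)
          · rintro ⟨_, h1⟩; rw [inv] at h1; exact h1 (Finset.mem_insert_self _ _)
          · rintro a ha hst
            have hK : ∀ z ∈ {z | z ∉ insert α F ∧ a0 z ∉ insert α F},
                a0 z ∈ {z | z ∉ insert α F ∧ a0 z ∉ insert α F} := by
              rintro z ⟨h1, h2⟩; exact ⟨h2, by rw [inv]; exact h1⟩
            refine b3labb_adm_not hK ha (z := a0 α) ?_ ?_
            · rintro ⟨_, h1⟩; rw [inv] at h1; exact h1 (Finset.mem_insert_self _ _)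
            · refine ⟨fun h => (hF _ h).1 hst, fun h => (hF _ h).2 ?_⟩
              rw [inv]; exact hst
        · intro z hz
          refine ⟨fun h => (hF _ h).1 hz, fun h => (hF _ h).2 ?_⟩
          rw [inv]; exact hz
        · convert ihF using 1
          ext z
          simp only [Set.mem_union, Set.mem_ofPred_eq, Finset.mem_insert, not_or,
            Set.mem_insert_iff, Set.mem_singleton_iff]
          constructor
          · rintro (⟨⟨_, h2⟩, _, h4⟩ | rfl | rfl)
            · exact ⟨h2, h4⟩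
            · exact ⟨hα, hβ⟩
            · exact ⟨hβ, by rw [inv]; exact hα⟩
          · rintro ⟨h2, h4⟩
            by_cases e1 : z = α
            · exact Or.inr (Or.inl e1)
            by_cases e2 : z = a0 α
            · exact Or.inr (Or.inr e2)
            · exact Or.inl ⟨⟨e1, h2⟩, fun h => e2 (by rw [← h, inv]), h4⟩
  have st2 : ∀ F : Finset V, P {z | (star z ∨ star (a0 z)) ∧ z ∉ F ∧ a0 z ∉ F} := by
    intro F
    induction F using Finset.induction_on with
    | empty =>
      convert st1 (Finset.univ.filter fun z => ¬ star z ∧ ¬ star (a0 z)) (by simp) using 1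
      ext z
      simp only [Set.mem_ofPred_eq, Finset.notMem_empty, not_false_eq_true, and_true,
        Finset.mem_filter, Finset.mem_univ, true_and, inv]
      tauto
    | insert α F hα ih =>
      by_cases hs : (star α ∨ star (a0 α)) ∧ a0 α ∉ F
      · obtain ⟨hsp, hβ⟩ := hs
        obtain ⟨α', β', e1, e2, hset, sα, sβ⟩ : ∃ α' β', a0 α' = β' ∧ a0 β' = α' ∧
            ({α', β'} : Set V) = {α, a0 α} ∧ ¬ star α' ∧ star β' := by
          by_cases h : star α
          · exact ⟨a0 α, α, inv α, rfl, Set.pair_comm _ _, h0.st α h, h⟩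
          · exact ⟨α, a0 α, rfl, inv α, rfl, h, hsp.resolve_left h⟩
        have hmem : ∀ z ∈ ({α', β'} : Set V), z = α ∨ z = a0 α := by
          intro z hz; rw [hset] at hz; simpa using hz
        apply p2 _ α' β'
        · refine ⟨?_, ?_, ?_, e1, e2, ?_, sα, ?_⟩
          · rintro z ⟨h0', h1, h2⟩
            exact ⟨by rw [inv]; exact h0'.symm, h2, by rw [inv]; exact h1⟩
          · rintro ⟨_, h1, h2⟩
            rcases hmem α' (by simp) with h | h
            · rw [h] at h1; exact h1 (Finset.mem_insert_self _ _)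
            · rw [h, inv] at h2; exact h2 (Finset.mem_insert_self _ _)
          · rintro ⟨_, h1, h2⟩
            rcases hmem β' (by simp) with h | h
            · rw [h] at h1; exact h1 (Finset.mem_insert_self _ _)
            · rw [h, inv] at h2; exact h2 (Finset.mem_insert_self _ _)
          · rintro rfl; exact sα sβ
          · intro a ha; exact ha.1.st _ sβ
        · rintro z ⟨hz, _⟩; exact hz
        · rw [hset]
          convert ih using 1
          ext z
          simp only [Set.mem_union, Set.mem_ofPred_eq, Finset.mem_insert, not_or,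
            Set.mem_insert_iff, Set.mem_singleton_iff]
          constructor
          · rintro (⟨h1, ⟨_, h2⟩, _, h4⟩ | rfl | rfl)
            · exact ⟨h1, h2, h4⟩
            · exact ⟨hsp, hα, hβ⟩
            · exact ⟨by rw [inv]; exact hsp.symm, hβ, by rw [inv]; exact hα⟩
          · rintro ⟨h1, h2, h4⟩
            by_cases e1 : z = α
            · exact Or.inr (Or.inl e1)
            by_cases e2 : z = a0 α
            · exact Or.inr (Or.inr e2)
            · exact Or.inl ⟨h1, ⟨e1, h2⟩, fun h => e2 (by rw [← h, inv]), h4⟩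
      · convert ih using 1
        ext z
        simp only [Set.mem_ofPred_eq, Finset.mem_insert, not_or]
        constructor
        · rintro ⟨h1, ⟨_, h2⟩, _, h4⟩; exact ⟨h1, h2, h4⟩
        · rintro ⟨h1, h2, h4⟩
          refine ⟨h1, ⟨?_, h2⟩, ?_, h4⟩
          · rintro rfl; exact hs ⟨h1, h4⟩
          · rintro rfl; exact hs ⟨by rw [inv]; exact h1.symm, by rw [inv]; exact h2⟩
  convert st2 Finset.univ using 1
  ext z; simp

end

section

variable {V : Type} [Fintype V] [DecidableEq V] {star : V → Prop} {H : Type} [Group H]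
  {U : (V → V) → (V → V) → H}

theorem vm_conn (harc : ∀ a, Vm star a → ∃ x y, x ≠ y ∧ a x ≠ y ∧ ¬ star x ∧ ¬ star (a x) ∧
      ¬ star y ∧ ¬ star (a y)) (a a' : V → V) (ha : Vm star a) (ha' : Vm star a') :
    Relation.ReflTransGen (fun a a' => ∃ x y, ok star a x y ∧ a' = hk a x y) a a' := by
  have key := b3labb_ind ha' (fun K => ∀ a, b3labb_Adm star a' K a →
    Relation.ReflTransGen (fun a a' => ∃ x y, ok star a x y ∧ a' = hk a x y) a a') ?_ ?_ ?_
  · exact key a ⟨ha, fun z hz => absurd hz (Set.notMem_empty z)⟩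
  · intro a h
    have : a = a' := funext fun z => h.2 z (Set.mem_univ z)
    rw [this]
  · intro K α β S hs ih a h
    by_cases e : a α = β
    · exact ih a (b3labb_adm_ins S h e)
    · have okab := b3labb_ab S h e fun hst => b3labb_adm_not S.hK h S.ha (hs _ hst)
      have hb := b3labb_adm_hk S.hK h okab S.ha S.hb
      exact Relation.ReflTransGen.head ⟨α, β, okab, rfl⟩
        (ih _ (b3labb_adm_ins S hb (b3labb_fst a α β)))
  · intro K α β S hs ih
    have N : ∀ a, b3labb_Adm star a' K a → (a α = β ∨ ¬ star (a α)) →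
        Relation.ReflTransGen (fun a a' => ∃ x y, ok star a x y ∧ a' = hk a x y) a a' := by
      intro a h hn
      by_cases e : a α = β
      · exact ih a (b3labb_adm_ins S h e)
      · have okab := b3labb_ab S h e (hn.resolve_left e)
        have hb := b3labb_adm_hk S.hK h okab S.ha S.hb
        exact Relation.ReflTransGen.head ⟨α, β, okab, rfl⟩
          (ih _ (b3labb_adm_ins S hb (b3labb_fst a α β)))
    intro a h
    by_cases hn : a α = β ∨ ¬ star (a α)
    · exact N a h hn
    · push Not at hn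
      obtain ⟨c, _, _, _, hc, hc', _, _⟩ := harc a h.1
      have n1 : α ≠ c := fun e => hc' (by rw [← e]; exact hn.2)
      have n2 : a α ≠ c := fun e => hc (by rw [← e]; exact hn.2)
      have okc : ok star a α c :=
        ⟨n1, n2, fun h => S.sa h.1, fun h => S.sa h.1, fun h => hc h.2, fun h => hc' h.2⟩
      have cK : c ∉ K := by
        intro hK
        rcases hs c hK with h' | h'
        · exact hc h'
        · rw [← h.2 c hK] at h'; exact hc' h'
      have hb := b3labb_adm_hk S.hK h okc S.ha cK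
      exact Relation.ReflTransGen.head ⟨α, c, okc, rfl⟩
        (N _ hb (Or.inr (by rw [b3labb_fst]; exact hc)))

theorem ls_cob (hU : LS1 star U)
    (harc : ∀ a, Vm star a → ∃ x y, x ≠ y ∧ a x ≠ y ∧ ¬ star x ∧ ¬ star (a x) ∧ ¬ star y ∧
      ¬ star (a y)) :
    ∃ G : (V → V) → H, ∀ a x y, Vm star a → ok star a x y →
      U a (hk a x y) = G a * (G (hk a x y))⁻¹ := by
  by_cases hex : ∃ a0 : V → V, Vm star a0
  · obtain ⟨a0, h0⟩ := hex
    have key : ∃ G, b3labb_Tr star U a0 ∅ G := by
      refine b3labb_ind h0 (fun K => ∃ G, b3labb_Tr star U a0 K G) ?_ ?_ ?_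
      · refine ⟨fun _ => 1, fun a x y ha h ha' => ?_⟩
        exact absurd (Set.mem_univ x) (b3labb_adm_ok ha h ha').1
      · exact fun K α β S hs ih => b3labb_step1 S hs hU ih
      · exact fun K α β S hs ih => b3labb_step2 S hs hU harc ih
    obtain ⟨G, hG⟩ := key
    exact ⟨G, fun a x y ha h => hG a x y ⟨ha, fun z hz => absurd hz (Set.notMem_empty z)⟩ h
      ⟨hk_vm ha h, fun z hz => absurd hz (Set.notMem_empty z)⟩⟩
  · exact ⟨fun _ => 1, fun a x y ha _ => absurd ⟨a, ha⟩ hex⟩

end

end Pool.Agent.H213PG
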