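import Pool.Agent.helper213_PG.M2Elem
import Pool.Agent.helper213_PG.B3LabB

set_option autoImplicit false

/-!
# Upper bound for the Brauer monoids (paper 3.2, 3.6)
-/

namespace Pool.Agent.H213PG

open PA Pj

section

variable {n r : ℕ}

/-! ### stars -/

/-- the stars -/
def b4up_star (v : Fin n ⊕ Fin r) : Prop := v.isRight = true

theorem b4up_inl (x : Fin n) : ¬ b4up_star (Sum.inl x : Fin n ⊕ Fin r) := by
  simp [b4up_star]

theorem b4up_inr (i : Fin r) : b4up_star (Sum.inr i : Fin n ⊕ Fin r) := rfl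

theorem b4up_real {v : Fin n ⊕ Fin r} (h : ¬ b4up_star v) : ∃ x, v = Sum.inl x := by
  rcases v with x | i
  · exact ⟨x, rfl⟩
  · exact absurd (b4up_inr i) h

theorem b4up_st {v : Fin n ⊕ Fin r} (h : b4up_star v) : ∃ i, v = Sum.inr i := by
  rcases v with x | i
  · exact absurd h (b4up_inl x)
  · exact ⟨i, rfl⟩

/-- the projection of a labelled matching -/
def b4up_pj {a : Fin n ⊕ Fin r → Fin n ⊕ Fin r} (ha : Vm b4up_star a) : BP n :=
  ⟨{ a := fun x => (a (Sum.inl x)).elim id (fun _ => x)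
     t := fun x => b4up_star (a (Sum.inl x))
     inv := by
      intro x
      rcases h : a (Sum.inl x) with y | i
      · have : a (Sum.inl y) = Sum.inl x := by rw [← h, ha.inv]
        simp [this]
      · simp [h]
     ht := by
      intro x hx
      obtain ⟨i, hi⟩ := b4up_st hx
      simp [hi] }, by
      intro x hx
      show b4up_star (a (Sum.inl x))
      have hx' : (a (Sum.inl x)).elim id (fun _ => x) = x := hx
      rcases h : a (Sum.inl x) with y | i
      · rw [h] at hx'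
        have hx2 : y = x := hx'
        subst hx2
        exact absurd h (ha.ne _)
      · exact b4up_inr i⟩

open Classical in
/-- the projection, total version -/
noncomputable def b4up_P (b : BP n) (a : Fin n ⊕ Fin r → Fin n ⊕ Fin r) : BP n :=
  if h : Vm b4up_star a then b4up_pj h else b

variable {b : BP n} {a q : Fin n ⊕ Fin r → Fin n ⊕ Fin r}

theorem b4up_P_t (ha : Vm b4up_star a) (x : Fin n) :
    (b4up_P b a).1.t x ↔ b4up_star (a (Sum.inl x)) := by
  rw [b4up_P, dif_pos ha]; rfl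

theorem b4up_P_inl (ha : Vm b4up_star a) {x y : Fin n} (h : a (Sum.inl x) = Sum.inl y) :
    (b4up_P b a).1.a x = y := by
  rw [b4up_P, dif_pos ha]
  show (a (Sum.inl x)).elim id (fun _ => x) = y
  rw [h]; rfl

theorem b4up_P_inr (ha : Vm b4up_star a) {x : Fin n} {i : Fin r}
    (h : a (Sum.inl x) = Sum.inr i) : (b4up_P b a).1.a x = x := by
  rw [b4up_P, dif_pos ha]
  show (a (Sum.inl x)).elim id (fun _ => x) = x
  rw [h]; rfl

theorem b4up_ext {p q : BP n} (h : ∀ x, p.1.a x = q.1.a x) : p = q := by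
  apply Subtype.ext
  apply Pj.ext
  · funext x; exact h x
  · funext x
    apply propext
    constructor
    · intro hx; apply q.2; rw [← h, p.1.ht x hx]
    · intro hx; apply p.2; rw [h, q.1.ht x hx]

/-- hook moves -/
theorem b4up_P_hk (ha : Vm b4up_star a) {x y : Fin n}
    (h : ok b4up_star a (Sum.inl x) (Sum.inl y)) :
    b4up_P b (hk a (Sum.inl x) (Sum.inl y)) =
      th (b4up_P b a) ⟨hook x y, brauer_hook x y⟩ := by
  have hxy : x ≠ y := fun e => h.ne (by rw [e])
  have hb := hk_vm ha h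
  apply b4up_ext
  intro z
  rw [bp_th, step_hook (b4up_P b a).2 hxy]
  by_cases z1 : z = x
  · subst z1
    rw [if_pos rfl]
    exact b4up_P_inl hb (b3labb_fst a _ _)
  rw [if_neg z1]
  by_cases z2 : z = y
  · subst z2
    rw [if_pos rfl]
    exact b4up_P_inl hb (b3labb_snd h.ne)
  rw [if_neg z2]
  by_cases z3 : a (Sum.inl x) = Sum.inl z
  · have e3 : hk a (Sum.inl x) (Sum.inl y) (Sum.inl z) = a (Sum.inl y) := by
      rw [← z3]; exact b3labb_ax (ha.ne _) h.ne'
    rw [b4up_P_inl ha z3, if_pos rfl]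
    rcases e4 : a (Sum.inl y) with w | j
    · have hw : w ≠ y := by rintro rfl; exact ha.ne _ e4
      rw [b4up_P_inl ha e4, if_neg hw]
      exact b4up_P_inl hb (e3.trans e4)
    · rw [b4up_P_inr ha e4, if_pos rfl]
      exact b4up_P_inr hb (e3.trans e4)
  have z3' : z ≠ (b4up_P b a).1.a x := by
    rcases e : a (Sum.inl x) with w | j
    · rw [b4up_P_inl ha e]
      rintro rfl
      exact z3 e
    · rw [b4up_P_inr ha e]; exact z1
  rw [if_neg z3']
  by_cases z4 : a (Sum.inl y) = Sum.inl z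
  · have e3 : hk a (Sum.inl x) (Sum.inl y) (Sum.inl z) = a (Sum.inl x) := by
      rw [← z4]
      apply b3labb_ay
      · intro e; exact h.ne' (by rw [← e, ha.inv])
      · exact ha.ne _
      · intro e; exact h.ne (b3labb_inj ha.inv e.symm)
    rw [b4up_P_inl ha z4, if_pos rfl]
    rcases e4 : a (Sum.inl x) with w | j
    · have hw : w ≠ x := by rintro rfl; exact ha.ne _ e4
      rw [b4up_P_inl ha e4, if_neg hw]
      exact b4up_P_inl hb (e3.trans e4)
    · rw [b4up_P_inr ha e4, if_pos rfl]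
      exact b4up_P_inr hb (e3.trans e4)
  have z4' : z ≠ (b4up_P b a).1.a y := by
    rcases e : a (Sum.inl y) with w | j
    · rw [b4up_P_inl ha e]
      rintro rfl
      exact z4 e
    · rw [b4up_P_inr ha e]; exact z2
  rw [if_neg z4']
  have e5 : hk a (Sum.inl x) (Sum.inl y) (Sum.inl z) = a (Sum.inl z) :=
    b3labb_off (fun e => z1 (Sum.inl.inj e)) (fun e => z2 (Sum.inl.inj e)) (fun e => z3 e.symm)
      (fun e => z4 e.symm)
  rcases e : a (Sum.inl z) with w | j
  · rw [b4up_P_inl ha e]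
    exact b4up_P_inl hb (e5.trans e)
  · rw [b4up_P_inr ha e]
    exact b4up_P_inr hb (e5.trans e)

theorem b4up_keep (ha : Vm b4up_star a) {x y : Fin n}
    (h : ok b4up_star a (Sum.inl x) (Sum.inl y)) :
    th (⟨hook x y, brauer_hook x y⟩ : BP n) (b4up_P b a) = b4up_P b a := by
  have hxy : x ≠ y := fun e => h.ne (by rw [e])
  apply Subtype.ext
  rw [bp_th, keep_hook (b4up_P b a).2 hxy, b4up_P_t ha, b4up_P_t ha]
  exact h.s4

theorem b4up_le (ha : Vm b4up_star a) {x y : Fin n} (hxy : x ≠ y)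
    (h : a (Sum.inl x) = Sum.inl y) :
    th (b4up_P b a) (⟨hook x y, brauer_hook x y⟩ : BP n) = b4up_P b a := by
  apply Subtype.ext
  rw [bp_th, le_hook hxy]
  exact b4up_P_inl ha h

/-- a hook move is a hook move with a real hook -/
theorem b4up_rep (ha : Vm b4up_star a) {x y : Fin n ⊕ Fin r} (h : ok b4up_star a x y) :
    ∃ x' y' : Fin n, hk a x y = hk a (Sum.inl x') (Sum.inl y') ∧
      ok b4up_star a (Sum.inl x') (Sum.inl y') ∧
      ((x = Sum.inl x' ∧ y = Sum.inl y') ∨ (a x = Sum.inl x' ∧ a y = Sum.inl y')) := by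
  by_cases hx : b4up_star x ∨ b4up_star y
  · have h1 : ¬ b4up_star (a x) := by
      rcases hx with hx | hx
      · exact ha.st x hx
      · exact fun h' => h.s3 ⟨h', hx⟩
    have h2 : ¬ b4up_star (a y) := by
      rcases hx with hx | hx
      · exact fun h' => h.s2 ⟨hx, h'⟩
      · exact ha.st y hx
    obtain ⟨x', hx'⟩ := b4up_real h1
    obtain ⟨y', hy'⟩ := b4up_real h2
    refine ⟨x', y', ?_, ?_, Or.inr ⟨hx', hy'⟩⟩
    · rw [← hx', ← hy', hk_compl ha.inv ha.ne x y h.ne]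
    · rw [← hx', ← hy']; exact b3labb_ok_compl ha h
  · rw [not_or] at hx
    obtain ⟨x', hx'⟩ := b4up_real hx.1
    obtain ⟨y', hy'⟩ := b4up_real hx.2
    subst hx'; subst hy'
    exact ⟨x', y', rfl, h, Or.inl ⟨rfl, rfl⟩⟩

theorem b4up_fr1 (ha : Vm b4up_star a) {x y : Fin n ⊕ Fin r} (h : ok b4up_star a x y) :
    Fr (b4up_P b a) (b4up_P b (hk a x y)) := by
  obtain ⟨x', y', h1, h2, -⟩ := b4up_rep ha h
  rw [h1, b4up_P_hk ha h2]
  exact fr_th (b4up_keep ha h2)

/-- two commuting hooks -/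
theorem b4up_fr2 (ha : Vm b4up_star a) {x y z w : Fin n}
    (h : ok b4up_star a (Sum.inl x) (Sum.inl y))
    (h2 : ok b4up_star (hk a (Sum.inl x) (Sum.inl y)) (Sum.inl z) (Sum.inl w))
    (h3 : hk (hk a (Sum.inl x) (Sum.inl y)) (Sum.inl z) (Sum.inl w) (Sum.inl x) = Sum.inl y) :
    Fr (b4up_P b a) (b4up_P b (hk (hk a (Sum.inl x) (Sum.inl y)) (Sum.inl z) (Sum.inl w))) := by
  have hb := hk_vm ha h
  have hc := hk_vm hb h2
  have hxy : x ≠ y := fun e => h.ne (by rw [e])
  have k1 := b4up_keep (b := b) ha h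
  have k2 := b4up_keep (b := b) hb h2
  have e1 := b4up_P_hk (b := b) ha h
  have e2 := b4up_P_hk (b := b) hb h2
  have e3 := b4up_le (b := b) hc hxy h3
  rw [e1] at k2
  have k3 := kept_tri.1 ⟨k1, k2⟩
  have f := fr_th k3
  rw [th_th] at f
  rw [e1] at e2
  rw [← e2, e3] at f
  exact f

end


section

variable {n r : ℕ} {b : BP n} {a q : Fin n ⊕ Fin r → Fin n ⊕ Fin r} {H : Type} [Group H]
  {u : BP n → BP n → H}

/-- (T) with a real hook -/
theorem b4up_T (hc : Coc b u) (hr : Rch b (b4up_P b a)) (ha : Vm b4up_star a)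
    (hq : Vm b4up_star q) (hf : Fr (b4up_P b a) (b4up_P b q)) {x y : Fin n ⊕ Fin r}
    (rx : ¬ b4up_star x) (ry : ¬ b4up_star y) (h : ok b4up_star a x y) (h2 : q x = y) :
    u (b4up_P b a) (b4up_P b q) =
      u (b4up_P b a) (b4up_P b (hk a x y)) * u (b4up_P b (hk a x y)) (b4up_P b q) := by
  obtain ⟨x, rfl⟩ := b4up_real rx
  obtain ⟨y, rfl⟩ := b4up_real ry
  have hxy : x ≠ y := fun e => h.ne (by rw [e])
  rw [b4up_P_hk ha h]
  exact hc.tri _ _ _ hr hf (b4up_le hq hxy h2) (b4up_keep ha h)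

/-- (T) for the reversed pair -/
theorem b4up_T' (hc : Coc b u) (hr : Rch b (b4up_P b a)) (ha : Vm b4up_star a)
    (hq : Vm b4up_star q) (hf : Fr (b4up_P b a) (b4up_P b q)) {x y : Fin n ⊕ Fin r}
    (rx : ¬ b4up_star x) (ry : ¬ b4up_star y) (h : ok b4up_star q x y) (h2 : a x = y)
    {m : Fin n ⊕ Fin r → Fin n ⊕ Fin r} (hm : hk q x y = m)
    (h3 : Fr (b4up_P b a) (b4up_P b m)) :
    u (b4up_P b a) (b4up_P b q) =
      u (b4up_P b a) (b4up_P b m) * u (b4up_P b m) (b4up_P b q) := by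
  subst hm
  obtain ⟨x, rfl⟩ := b4up_real rx
  obtain ⟨y, rfl⟩ := b4up_real ry
  have hxy : x ≠ y := fun e => h.ne (by rw [e])
  rw [b4up_P_hk hq h] at h3 ⊢
  exact hc.tri' (hr.step hf) hf.symm (b4up_le ha hxy h2) (b4up_keep hq h) h3.symm

/-- (T) when both arcs of the move are in `q` -/
theorem b4up_T2 (hc : Coc b u) (hr : Rch b (b4up_P b a)) (ha : Vm b4up_star a)
    (hq : Vm b4up_star q) (hf : Fr (b4up_P b a) (b4up_P b q)) {x y : Fin n ⊕ Fin r}
    (h : ok b4up_star a x y) (h2 : q x = y) (h3 : q (a x) = a y) :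
    u (b4up_P b a) (b4up_P b q) =
      u (b4up_P b a) (b4up_P b (hk a x y)) * u (b4up_P b (hk a x y)) (b4up_P b q) := by
  obtain ⟨x', y', e1, e2, e3⟩ := b4up_rep ha h
  rw [e1]
  apply b4up_T hc hr ha hq hf (b4up_inl x') (b4up_inl y') e2
  rcases e3 with ⟨e3, e4⟩ | ⟨e3, e4⟩
  · rw [← e3, ← e4]; exact h2
  · rw [← e3, ← e4]; exact h3

theorem b4up_fr3 (ha : Vm b4up_star a) {x y z w : Fin n ⊕ Fin r}
    (rx : ¬ b4up_star x) (ry : ¬ b4up_star y) (rz : ¬ b4up_star z) (rw : ¬ b4up_star w)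
    (h : ok b4up_star a x y) (h2 : ok b4up_star (hk a x y) z w)
    (hq : hk (hk a x y) z w = q) (h3 : q x = y) :
    Fr (b4up_P b a) (b4up_P b q) := by
  subst hq
  obtain ⟨x, rfl⟩ := b4up_real rx
  obtain ⟨y, rfl⟩ := b4up_real ry
  obtain ⟨z, rfl⟩ := b4up_real rz
  obtain ⟨w, rfl⟩ := b4up_real rw
  exact b4up_fr2 ha h h2 h3

theorem b4up_hex (hc : Coc b u) (hr : ∀ a, Vm b4up_star (V := Fin n ⊕ Fin r) a → Rch b (b4up_P b a))
    (ha : Vm b4up_star a) {v0 v1 v2 v3 v4 v5 : Fin n ⊕ Fin r}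
    (n01 : v0 ≠ v1) (n02 : v0 ≠ v2) (n03 : v0 ≠ v3) (n04 : v0 ≠ v4) (n05 : v0 ≠ v5)
    (n12 : v1 ≠ v2) (n13 : v1 ≠ v3) (n14 : v1 ≠ v4) (n15 : v1 ≠ v5)
    (n23 : v2 ≠ v3) (n24 : v2 ≠ v4) (n25 : v2 ≠ v5) (n34 : v3 ≠ v4) (n35 : v3 ≠ v5)
    (n45 : v4 ≠ v5)
    (s01 : ¬ (b4up_star v0 ∧ b4up_star v1)) (s02 : ¬ (b4up_star v0 ∧ b4up_star v2))
    (s03 : ¬ (b4up_star v0 ∧ b4up_star v3)) (s04 : ¬ (b4up_star v0 ∧ b4up_star v4))
    (s05 : ¬ (b4up_star v0 ∧ b4up_star v5)) (s12 : ¬ (b4up_star v1 ∧ b4up_star v2))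
    (s13 : ¬ (b4up_star v1 ∧ b4up_star v3)) (s14 : ¬ (b4up_star v1 ∧ b4up_star v4))
    (s15 : ¬ (b4up_star v1 ∧ b4up_star v5)) (s23 : ¬ (b4up_star v2 ∧ b4up_star v3))
    (s24 : ¬ (b4up_star v2 ∧ b4up_star v4)) (s25 : ¬ (b4up_star v2 ∧ b4up_star v5))
    (s34 : ¬ (b4up_star v3 ∧ b4up_star v4)) (s35 : ¬ (b4up_star v3 ∧ b4up_star v5))
    (s45 : ¬ (b4up_star v4 ∧ b4up_star v5))
    (a01 : a v0 = v1) (a23 : a v2 = v3) (a45 : a v4 = v5) :
    u (b4up_P b a) (b4up_P b (hk a v1 v2)) *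
        u (b4up_P b (hk a v1 v2)) (b4up_P b (hk (hk a v1 v2) v3 v4)) =
      u (b4up_P b a) (b4up_P b (hk a v3 v4)) *
        u (b4up_P b (hk a v3 v4)) (b4up_P b (hk (hk a v1 v2) v3 v4)) := by
  have a10 : a v1 = v0 := by rw [← a01, ha.inv]
  have a32 : a v3 = v2 := by rw [← a23, ha.inv]
  have a54 : a v5 = v4 := by rw [← a45, ha.inv]
  have h12 : ok b4up_star a v1 v2 := ⟨n12, by rw [a10]; exact n02, s12, by rw [a23]; exact s13,
    by rw [a10]; exact s02, by rw [a10, a23]; exact s03⟩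
  have h34 : ok b4up_star a v3 v4 := ⟨n34, by rw [a32]; exact n24, s34, by rw [a45]; exact s35,
    by rw [a32]; exact s24, by rw [a32, a45]; exact s25⟩
  obtain ⟨M, hM⟩ : ∃ M, hk a v1 v2 = M := ⟨_, rfl⟩
  obtain ⟨N, hN⟩ : ∃ N, hk a v3 v4 = N := ⟨_, rfl⟩
  have vM : Vm b4up_star M := by rw [← hM]; exact hk_vm ha h12
  have vN : Vm b4up_star N := by rw [← hN]; exact hk_vm ha h34
  have M1 : M v1 = v2 := by rw [← hM]; exact b3labb_fst _ _ _
  have M2 : M v2 = v1 := by rw [← M1, vM.inv]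
  have M0 : M v0 = v3 := by
    rw [← hM]
    have := b3labb_ax (a := a) (x := v1) (y := v2) (ha.ne _) h12.ne'
    rwa [a10, a23] at this
  have M3 : M v3 = v0 := by rw [← M0, vM.inv]
  have M4 : M v4 = v5 := by
    rw [← hM, b3labb_off n14.symm n24.symm (by rw [a10]; exact n04.symm)
      (by rw [a23]; exact n34.symm), a45]
  have M5 : M v5 = v4 := by rw [← M4, vM.inv]
  have N3 : N v3 = v4 := by rw [← hN]; exact b3labb_fst _ _ _
  have N4 : N v4 = v3 := by rw [← N3, vN.inv]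
  have N2 : N v2 = v5 := by
    rw [← hN]
    have := b3labb_ax (a := a) (x := v3) (y := v4) (ha.ne _) h34.ne'
    rwa [a32, a45] at this
  have N5 : N v5 = v2 := by rw [← N2, vN.inv]
  have N0 : N v0 = v1 := by
    rw [← hN, b3labb_off n03 n04 (by rw [a32]; exact n02) (by rw [a45]; exact n05), a01]
  have N1 : N v1 = v0 := by rw [← N0, vN.inv]
  have hM34 : ok b4up_star M v3 v4 := ⟨n34, by rw [M3]; exact n04, s34, by rw [M4]; exact s35,
    by rw [M3]; exact s04, by rw [M3, M4]; exact s05⟩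
  have hN12 : ok b4up_star N v1 v2 := ⟨n12, by rw [N1]; exact n02, s12, by rw [N2]; exact s15,
    by rw [N1]; exact s02, by rw [N1, N2]; exact s05⟩
  obtain ⟨q, hq⟩ : ∃ q, hk M v3 v4 = q := ⟨_, rfl⟩
  have hq2 : hk N v1 v2 = q := by
    rw [← hq, ← hM, ← hN]
    exact (hk_comm ha.inv ha.ne n12 n34 n13 n14 n23 n24).symm
  have vq : Vm b4up_star q := by rw [← hq]; exact hk_vm vM hM34
  have q3 : q v3 = v4 := by rw [← hq]; exact b3labb_fst _ _ _
  have q4 : q v4 = v3 := by rw [← q3, vq.inv]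
  have q1 : q v1 = v2 := by rw [← hq2]; exact b3labb_fst _ _ _
  have q2 : q v2 = v1 := by rw [← q1, vq.inv]
  have q0 : q v0 = v5 := by
    rw [← hq]
    have := b3labb_ax (a := M) (x := v3) (y := v4) (vM.ne _) hM34.ne'
    rwa [M3, M4] at this
  have q5 : q v5 = v0 := by rw [← q0, vq.inv]
  rw [hM, hN, hq]
  -- friendly
  have hf : Fr (b4up_P b a) (b4up_P b q) := by
    by_cases c12 : b4up_star v1 ∨ b4up_star v2
    · have r3 : ¬ b4up_star v3 := fun h => by
        rcases c12 with h' | h'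
        · exact s13 ⟨h', h⟩
        · exact s23 ⟨h', h⟩
      have r4 : ¬ b4up_star v4 := fun h => by
        rcases c12 with h' | h'
        · exact s14 ⟨h', h⟩
        · exact s24 ⟨h', h⟩
      have r5 : ¬ b4up_star v5 := fun h => by
        rcases c12 with h' | h'
        · exact s15 ⟨h', h⟩
        · exact s25 ⟨h', h⟩
      have r0 : ¬ b4up_star v0 := fun h => by
        rcases c12 with h' | h'
        · exact s01 ⟨h, h'⟩
        · exact s02 ⟨h, h'⟩
      -- `v3 v4`, `v5 v0`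
      have hN50 : ok b4up_star N v0 v5 := by
        have := b3labb_ok_compl vN hN12
        rwa [N1, N2] at this
      refine b4up_fr3 ha r3 r4 r0 r5 h34 (by rw [hN]; exact hN50) ?_ q3
      rw [hN, ← hq2]
      have := hk_compl vN.inv vN.ne v1 v2 n12
      rwa [N1, N2] at this
    · rw [not_or] at c12
      by_cases c34 : b4up_star v3 ∨ b4up_star v4
      · have r5 : ¬ b4up_star v5 := fun h => by
          rcases c34 with h' | h'
          · exact s35 ⟨h', h⟩
          · exact s45 ⟨h', h⟩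
        have r0 : ¬ b4up_star v0 := fun h => by
          rcases c34 with h' | h'
          · exact s03 ⟨h, h'⟩
          · exact s04 ⟨h, h'⟩
        have hM05 : ok b4up_star M v0 v5 := by
          have := b3labb_ok_compl vM hM34
          rwa [M3, M4] at this
        refine b4up_fr3 ha c12.1 c12.2 r0 r5 h12 (by rw [hM]; exact hM05) ?_ q1
        rw [hM, ← hq]
        have := hk_compl vM.inv vM.ne v3 v4 n34
        rwa [M3, M4] at this
      · rw [not_or] at c34
        exact b4up_fr3 ha c12.1 c12.2 c34.1 c34.2 h12 (by rw [hM]; exact hM34)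
          (by rw [hM]; exact hq) q1
  have fM : Fr (b4up_P b a) (b4up_P b M) := by rw [← hM]; exact b4up_fr1 ha h12
  have fN : Fr (b4up_P b a) (b4up_P b N) := by rw [← hN]; exact b4up_fr1 ha h34
  have hra := hr a ha
  have e1 : u (b4up_P b a) (b4up_P b q) =
      u (b4up_P b a) (b4up_P b M) * u (b4up_P b M) (b4up_P b q) := by
    by_cases c12 : b4up_star v1 ∨ b4up_star v2
    · have r4 : ¬ b4up_star v4 := fun h => by
        rcases c12 with h' | h'
        · exact s14 ⟨h', h⟩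
        · exact s24 ⟨h', h⟩
      have r5 : ¬ b4up_star v5 := fun h => by
        rcases c12 with h' | h'
        · exact s15 ⟨h', h⟩
        · exact s25 ⟨h', h⟩
      have hback : hk q v4 v5 = M := by
        have := hk_back vM.inv vM.ne n34.symm
        rwa [← b3labb_sw vM.inv n34, hq, M4] at this
      refine b4up_T' hc hra ha vq hf r4 r5 ?_ a45 hback fM
      exact ⟨n45, by rw [q4]; exact n35, fun h => r4 h.1, fun h => r4 h.1, fun h => r5 h.2,
        by rw [q4, q5]; exact fun h => s03 ⟨h.2, h.1⟩⟩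
    · rw [not_or] at c12
      have := b4up_T hc hra ha vq hf c12.1 c12.2 h12 q1
      rwa [hM] at this
  have e2 : u (b4up_P b a) (b4up_P b q) =
      u (b4up_P b a) (b4up_P b N) * u (b4up_P b N) (b4up_P b q) := by
    by_cases c34 : b4up_star v3 ∨ b4up_star v4
    · have r0 : ¬ b4up_star v0 := fun h => by
        rcases c34 with h' | h'
        · exact s03 ⟨h, h'⟩
        · exact s04 ⟨h, h'⟩
      have r1 : ¬ b4up_star v1 := fun h => by
        rcases c34 with h' | h'
        · exact s13 ⟨h, h'⟩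
        · exact s14 ⟨h, h'⟩
      have hback : hk q v1 v0 = N := by
        have := hk_back vN.inv vN.ne n12
        rwa [hq2, N1] at this
      refine b4up_T' hc hra ha vq hf r1 r0 ?_ a10 hback fN
      exact ⟨n01.symm, by rw [q1]; exact n02.symm, fun h => r1 h.1, fun h => r1 h.1,
        fun h => r0 h.2, by rw [q1, q0]; exact s25⟩
    · rw [not_or] at c34
      have := b4up_T hc hra ha vq hf c34.1 c34.2 h34 q3
      rwa [hN] at this
  rw [← e1, ← e2]

theorem b4up_ls0 (hc : Coc b u) (hr : ∀ a, Vm b4up_star (V := Fin n ⊕ Fin r) a → Rch b (b4up_P b a)) :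
    LS0 (b4up_star (n := n) (r := r)) (fun a a' => u (b4up_P b a) (b4up_P b a')) where
  self a ha := hc.self (hr a ha)
  inv a x y ha h := hc.inv _ _ (hr a ha) (b4up_fr1 ha h)
  sq a x y z w ha h1 h2 n1 n2 n3 n4 n5 n6 n7 n8 := by
    show u (b4up_P b a) (b4up_P b (hk a x y)) *
        u (b4up_P b (hk a x y)) (b4up_P b (hk (hk a x y) z w)) =
      u (b4up_P b a) (b4up_P b (hk a z w)) *
        u (b4up_P b (hk a z w)) (b4up_P b (hk (hk a x y) z w))
    have hb := hk_vm ha h1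
    have ez : hk a x y z = a z := b3labb_off n1 n2 n3 n4
    have ew : hk a x y w = a w := b3labb_off n5 n6 n7 n8
    have h2' : ok b4up_star (hk a x y) z w :=
      ⟨h2.ne, by rw [ez]; exact h2.ne', h2.s1, by rw [ew]; exact h2.s2, by rw [ez]; exact h2.s3,
        by rw [ez, ew]; exact h2.s4⟩
    have hq := hk_vm hb h2'
    have m1 : ∀ {s t : Fin n ⊕ Fin r}, a s ≠ t → s ≠ a t := fun {s t} h e => h (by rw [e, ha.inv])
    have m2 : ∀ {s t : Fin n ⊕ Fin r}, s ≠ t → a s ≠ a t := fun {s t} h e => h (b3labb_inj ha.inv e)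
    -- values of the composite
    have q1 : hk (hk a x y) z w x = y := by
      rw [b3labb_off n1.symm n5.symm (by rw [ez]; exact m1 n3.symm)
        (by rw [ew]; exact m1 n7.symm), b3labb_fst]
    have q2 : hk (hk a x y) z w (a x) = a y := by
      rw [b3labb_off n3.symm n7.symm (by rw [ez]; exact m2 n1.symm)
        (by rw [ew]; exact m2 n5.symm), b3labb_ax (ha.ne x) h1.ne']
    have q3 : hk (hk a x y) z w z = w := b3labb_fst _ _ _
    have q4 : hk (hk a x y) z w (a z) = a w := by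
      have := b3labb_ax (a := hk a x y) (x := z) (y := w) (hb.ne z) h2'.ne'
      rw [ez, ew] at this
      exact this
    -- friendly
    have hf : Fr (b4up_P b a) (b4up_P b (hk (hk a x y) z w)) := by
      obtain ⟨x', y', e1, e2, e3⟩ := b4up_rep ha h1
      obtain ⟨z', w', f1, f2, -⟩ := b4up_rep hb h2'
      have e1' := e1
      rw [e1] at f2
      refine b4up_fr3 ha (b4up_inl x') (b4up_inl y') (b4up_inl z') (b4up_inl w') e2 f2 ?_ ?_
      · rw [← e1]; exact f1.symm
      · rcases e3 with ⟨e3, e4⟩ | ⟨e3, e4⟩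
        · rw [← e3, ← e4]; exact q1
        · rw [← e3, ← e4]; exact q2
    rw [← b4up_T2 hc (hr a ha) ha hq hf h1 q1 q2, ← b4up_T2 hc (hr a ha) ha hq hf h2 q3 q4]
  hex a v0 v1 v2 v3 v4 v5 ha hnd a01 a23 a45 hst := by
    simp only [List.nodup_cons, List.mem_cons, List.not_mem_nil, or_false, not_or, not_false_eq_true,
      List.nodup_nil, and_true] at hnd
    obtain ⟨⟨n01, n02, n03, n04, n05⟩, ⟨n12, n13, n14, n15⟩, ⟨n23, n24, n25⟩, ⟨n34, n35⟩, n45⟩ := hnd
    simp only [List.pairwise_cons, List.mem_cons, List.not_mem_nil, or_false, forall_eq_or_imp,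
      forall_eq, List.Pairwise.nil, and_true, IsEmpty.forall_iff, implies_true] at hst
    obtain ⟨⟨s01, s02, s03, s04, s05⟩, ⟨s12, s13, s14, s15⟩, ⟨s23, s24, s25⟩, ⟨s34, s35⟩, s45⟩ := hst
    exact b4up_hex hc hr ha n01 n02 n03 n04 n05 n12 n13 n14 n15 n23 n24 n25 n34 n35 n45
      s01 s02 s03 s04 s05 s12 s13 s14 s15 s23 s24 s25 s34 s35 s45 a01 a23 a45

end


section

variable {n r : ℕ} {b : BP n} {a a' : Fin n ⊕ Fin r → Fin n ⊕ Fin r}

/-! ### relabelling -/

/-- relabelling of the stars on points -/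
def b4up_sg (σ : Equiv.Perm (Fin r)) : Equiv.Perm (Fin n ⊕ Fin r) :=
  Equiv.sumCongr (Equiv.refl _) σ

theorem b4up_sg_inl (σ : Equiv.Perm (Fin r)) (x : Fin n) :
    b4up_sg (n := n) σ (Sum.inl x) = Sum.inl x := rfl

theorem b4up_sg_inr (σ : Equiv.Perm (Fin r)) (i : Fin r) :
    b4up_sg (n := n) σ (Sum.inr i) = Sum.inr (σ i) := rfl

theorem b4up_sg_star (σ : Equiv.Perm (Fin r)) (v : Fin n ⊕ Fin r) :
    b4up_star (b4up_sg σ v) ↔ b4up_star v := by
  rcases v with x | i
  · rfl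
  · exact ⟨fun _ => b4up_inr _, fun _ => b4up_inr _⟩

/-- relabelling of the stars on matchings -/
def b4up_act (σ : Equiv.Perm (Fin r)) (a : Fin n ⊕ Fin r → Fin n ⊕ Fin r) :
    Fin n ⊕ Fin r → Fin n ⊕ Fin r := fun v => b4up_sg σ (a ((b4up_sg σ).symm v))

theorem b4up_act_at (σ : Equiv.Perm (Fin r)) (a : Fin n ⊕ Fin r → Fin n ⊕ Fin r)
    (v : Fin n ⊕ Fin r) : b4up_act σ a (b4up_sg σ v) = b4up_sg σ (a v) := by
  simp [b4up_act]

theorem b4up_act_mul (σ τ : Equiv.Perm (Fin r)) (a : Fin n ⊕ Fin r → Fin n ⊕ Fin r) :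
    b4up_act (σ * τ) a = b4up_act σ (b4up_act τ a) := by
  funext v
  obtain ⟨w, rfl⟩ := (b4up_sg (n := n) (σ * τ)).surjective v
  rw [b4up_act_at]
  have e : ∀ w : Fin n ⊕ Fin r, b4up_sg (n := n) (σ * τ) w = b4up_sg σ (b4up_sg τ w) := by
    intro w
    rcases w with x | i <;> rfl
  rw [e, e, b4up_act_at, b4up_act_at]

theorem b4up_act_vm (σ : Equiv.Perm (Fin r)) (ha : Vm b4up_star a) :
    Vm b4up_star (b4up_act σ a) where
  inv v := by
    obtain ⟨w, rfl⟩ := (b4up_sg (n := n) σ).surjective v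
    rw [b4up_act_at, b4up_act_at, ha.inv]
  ne v := by
    obtain ⟨w, rfl⟩ := (b4up_sg (n := n) σ).surjective v
    rw [b4up_act_at]
    exact fun h => ha.ne w ((b4up_sg σ).injective h)
  st v := by
    obtain ⟨w, rfl⟩ := (b4up_sg (n := n) σ).surjective v
    rw [b4up_act_at, b4up_sg_star, b4up_sg_star]
    exact ha.st w

theorem b4up_act_hk (σ : Equiv.Perm (Fin r)) (x y : Fin n ⊕ Fin r) :
    b4up_act σ (hk a x y) = hk (b4up_act σ a) (b4up_sg σ x) (b4up_sg σ y) := by
  funext v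
  obtain ⟨w, rfl⟩ := (b4up_sg (n := n) σ).surjective v
  rw [b4up_act_at]
  unfold hk
  simp only [b4up_act_at, (b4up_sg (n := n) σ).injective.eq_iff]
  split_ifs <;> rfl

theorem b4up_act_ok (σ : Equiv.Perm (Fin r)) {x y : Fin n ⊕ Fin r} (h : ok b4up_star a x y) :
    ok b4up_star (b4up_act σ a) (b4up_sg σ x) (b4up_sg σ y) where
  ne := fun e => h.ne ((b4up_sg σ).injective e)
  ne' := by rw [b4up_act_at]; exact fun e => h.ne' ((b4up_sg σ).injective e)
  s1 := by rw [b4up_sg_star, b4up_sg_star]; exact h.s1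
  s2 := by rw [b4up_act_at, b4up_sg_star, b4up_sg_star]; exact h.s2
  s3 := by rw [b4up_act_at, b4up_sg_star, b4up_sg_star]; exact h.s3
  s4 := by rw [b4up_act_at, b4up_act_at, b4up_sg_star, b4up_sg_star]; exact h.s4

theorem b4up_P_act (σ : Equiv.Perm (Fin r)) (ha : Vm b4up_star a) :
    b4up_P b (b4up_act σ a) = b4up_P b a := by
  apply b4up_ext
  intro x
  have e := b4up_act_at σ a (Sum.inl x)
  rw [b4up_sg_inl] at e
  rcases h : a (Sum.inl x) with y | i
  · rw [h, b4up_sg_inl] at e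
    rw [b4up_P_inl ha h, b4up_P_inl (b4up_act_vm σ ha) e]
  · rw [h, b4up_sg_inr] at e
    rw [b4up_P_inr ha h, b4up_P_inr (b4up_act_vm σ ha) e]

/-- two labellings of one projection -/
theorem b4up_uniq (ha : Vm b4up_star a) (ha' : Vm b4up_star a')
    (h : b4up_P b a = b4up_P b a') : ∃ σ, a = b4up_act σ a' := by
  have hr : ∀ i : Fin r, ∃ x, a' (Sum.inr i) = Sum.inl x := fun i =>
    b4up_real (ha'.st _ (b4up_inr i))
  have hj : ∀ i : Fin r, ∃ j : Fin r, a (Sum.inr j) = a' (Sum.inr i) := by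
    intro i
    obtain ⟨x, hx⟩ := hr i
    have h1 : a' (Sum.inl x) = Sum.inr i := by rw [← hx, ha'.inv]
    have h2 : (b4up_P b a').1.t x := by rw [b4up_P_t ha', h1]; exact b4up_inr i
    rw [← h, b4up_P_t ha] at h2
    obtain ⟨j, hj⟩ := b4up_st h2
    exact ⟨j, by rw [hx, ← hj, ha.inv]⟩
  choose f hf using hj
  have hinj : Function.Injective f := by
    intro i i' e
    have := hf i'
    rw [← e, hf i] at this
    exact Sum.inr.inj (b3labb_inj ha'.inv this)
  refine ⟨Equiv.ofBijective f (Finite.injective_iff_bijective.1 hinj), ?_⟩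
  set σ := Equiv.ofBijective f (Finite.injective_iff_bijective.1 hinj) with hσ
  have hσi : ∀ i, σ i = f i := fun i => rfl
  have key : ∀ i, a (Sum.inr (σ i)) = b4up_act σ a' (Sum.inr (σ i)) := by
    intro i
    have e := b4up_act_at σ a' (Sum.inr i)
    rw [b4up_sg_inr] at e
    rw [e, hσi, hf]
    obtain ⟨x, hx⟩ := hr i
    rw [hx, b4up_sg_inl]
  funext v
  rcases v with x | j
  · have e := b4up_act_at σ a' (Sum.inl x)
    rw [b4up_sg_inl] at e
    rw [e]
    rcases h1 : a' (Sum.inl x) with y | i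
    · rw [b4up_sg_inl]
      have hyx : y ≠ x := by rintro rfl; exact ha'.ne _ h1
      have h2 := b4up_P_inl (b := b) ha' h1
      rw [← h] at h2
      rcases h3 : a (Sum.inl x) with w | j
      · rw [b4up_P_inl ha h3] at h2; rw [h2]
      · rw [b4up_P_inr ha h3] at h2; exact absurd h2.symm hyx
    · rw [b4up_sg_inr]
      have h2 := key i
      have e2 := b4up_act_at σ a' (Sum.inr i)
      rw [b4up_sg_inr] at e2
      have h3 : a' (Sum.inr i) = Sum.inl x := by rw [← h1, ha'.inv]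
      rw [e2, h3, b4up_sg_inl] at h2
      rw [← h2, ha.inv]
  · obtain ⟨i, rfl⟩ := σ.surjective j
    exact key i

/-- every projection of rank `r` has a labelling -/
theorem b4up_lab (p : BP n) (hp : (TT p.1).card = r) :
    ∃ a : Fin n ⊕ Fin r → Fin n ⊕ Fin r, Vm b4up_star a ∧ b4up_P b a = p := by
  classical
  obtain ⟨E⟩ : Nonempty ({x // x ∈ TT p.1} ≃ Fin r) := ⟨Finset.equivFinOfCardEq hp⟩
  have hE : ∀ i : Fin r, p.1.t (E.symm i).1 := fun i => mem_TT.1 (E.symm i).2
  set a : Fin n ⊕ Fin r → Fin n ⊕ Fin r := fun v => match v with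
    | Sum.inl x => if h : p.1.t x then Sum.inr (E ⟨x, mem_TT.2 h⟩) else Sum.inl (p.1.a x)
    | Sum.inr i => Sum.inl (E.symm i).1 with hadef
  have a1 : ∀ x, ∀ h : p.1.t x, a (Sum.inl x) = Sum.inr (E ⟨x, mem_TT.2 h⟩) := by
    intro x h
    simp only [hadef, dif_pos h]
  have a2 : ∀ x, ¬ p.1.t x → a (Sum.inl x) = Sum.inl (p.1.a x) := by
    intro x h
    simp only [hadef, dif_neg h]
  have a3 : ∀ i, a (Sum.inr i) = Sum.inl (E.symm i).1 := fun i => rfl
  have hnt : ∀ x, ¬ p.1.t x → ¬ p.1.t (p.1.a x) := by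
    intro x h h'
    have := p.1.ht _ h'
    rw [p.1.inv] at this
    rw [← this] at h'
    exact h h'
  have ha : Vm b4up_star a := by
    refine ⟨?_, ?_, ?_⟩
    · rintro (x | i)
      · by_cases h : p.1.t x
        · rw [a1 x h, a3, Equiv.symm_apply_apply]
        · rw [a2 x h, a2 _ (hnt x h), p.1.inv]
      · rw [a3, a1 _ (hE i)]
        congr 1
        exact E.apply_symm_apply i
    · rintro (x | i)
      · by_cases h : p.1.t x
        · rw [a1 x h]; exact fun h => by cases h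
        · rw [a2 x h]
          intro e
          exact h (p.2 x (Sum.inl.inj e))
      · rw [a3]; exact fun h => by cases h
    · rintro (x | i) h
      · exact absurd h (b4up_inl x)
      · rw [a3]; exact b4up_inl _
  refine ⟨a, ha, ?_⟩
  apply b4up_ext
  intro x
  by_cases h : p.1.t x
  · rw [b4up_P_inr ha (a1 x h), p.1.ht x h]
  · exact b4up_P_inl ha (a2 x h)

/-- two arcs between real points -/
theorem b4up_harc (hn : r + 4 ≤ n) (ha : Vm b4up_star a) :
    ∃ x y, x ≠ y ∧ a x ≠ y ∧ ¬ b4up_star x ∧ ¬ b4up_star (a x) ∧ ¬ b4up_star y ∧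
      ¬ b4up_star (a y) := by
  classical
  set S : Finset (Fin n) := Finset.univ.filter (fun x => ¬ b4up_star (a (Sum.inl x))) with hS
  set S' : Finset (Fin n) := Finset.univ.filter (fun x => b4up_star (a (Sum.inl x))) with hS'
  have hcard : S'.card + S.card = n := by
    have := Finset.card_filter_add_card_filter_not (s := (Finset.univ : Finset (Fin n)))
      (fun x => b4up_star (a (Sum.inl x)))
    rw [Finset.card_univ, Fintype.card_fin] at this
    exact this
  have hS'c : S'.card ≤ r := by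
    have := Finset.card_le_card_of_injOn (s := S')
      (t := (Finset.univ : Finset (Fin r)).map ⟨Sum.inr, Sum.inr_injective⟩)
      (fun x => a (Sum.inl x)) (by
        intro x hx
        obtain ⟨i, hi⟩ := b4up_st (Finset.mem_filter.1 (Finset.mem_coe.1 hx)).2
        exact Finset.mem_coe.2 (Finset.mem_map.2 ⟨i, Finset.mem_univ _, hi.symm⟩)) (by
        intro x _ y _ e
        exact Sum.inl.inj (b3labb_inj ha.inv e))
    rwa [Finset.card_map, Finset.card_univ, Fintype.card_fin] at this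
  have h4 : 4 ≤ S.card := by omega
  obtain ⟨x, hx⟩ : S.Nonempty := Finset.card_pos.1 (by omega)
  have hxr := (Finset.mem_filter.1 hx).2
  obtain ⟨x', hx'⟩ := b4up_real hxr
  have h2 : 2 ≤ ((S.erase x).erase x').card := by
    have h1 := Finset.pred_card_le_card_erase (s := S) (a := x)
    have h2 := Finset.pred_card_le_card_erase (s := S.erase x) (a := x')
    omega
  obtain ⟨y, hy⟩ : ((S.erase x).erase x').Nonempty := Finset.card_pos.1 (by omega)
  rw [Finset.mem_erase, Finset.mem_erase] at hy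
  refine ⟨Sum.inl x, Sum.inl y, fun e => hy.2.1 (Sum.inl.inj e).symm, ?_, b4up_inl x, hxr,
    b4up_inl y, (Finset.mem_filter.1 hy.2.2).2⟩
  rw [hx']
  exact fun e => hy.1 (Sum.inl.inj e).symm

theorem b4up_rch (hn : r + 4 ≤ n) (hb : (TT b.1).card = r) {a : Fin n ⊕ Fin r → Fin n ⊕ Fin r}
    (ha : Vm b4up_star a) : Rch b (b4up_P b a) := by
  obtain ⟨a0, h0, h1⟩ := b4up_lab (b := b) b hb
  have hconn := vm_conn (star := b4up_star (n := n) (r := r)) (fun a ha => b4up_harc hn ha)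
    a0 a h0 ha
  have key : Vm b4up_star a ∧ Rch b (b4up_P b a) := by
    clear ha
    induction hconn with
    | refl => exact ⟨h0, by rw [h1]; exact Relation.ReflTransGen.refl⟩
    | tail _ h2 ih =>
      obtain ⟨x, y, h3, h4⟩ := h2
      obtain ⟨ih1, ih2⟩ := ih
      rw [h4]
      exact ⟨hk_vm ih1 h3, ih2.step (b4up_fr1 ih1 h3)⟩
  exact key.2

theorem b4up_six (hn : r + 4 ≤ n) (hn5 : 5 ≤ n) (hb : (TT b.1).card = r) :
    6 ≤ Fintype.card (Fin n ⊕ Fin r) := by
  classical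
  rw [Fintype.card_sum, Fintype.card_fin, Fintype.card_fin]
  by_contra hlt
  have h5 : n = 5 := by omega
  have h0 : r = 0 := by omega
  subst h5
  subst h0
  have := card_zero_of_inv (Finset.univ : Finset (Fin 5)) b.1.a (fun x _ => Finset.mem_univ _)
    (fun x _ hx => by
      have : x ∈ TT b.1 := mem_TT.2 (b.2 x hx)
      rw [Finset.card_eq_zero.1 hb] at this
      simp at this) (fun x _ => b.1.inv x)
  rw [Finset.card_univ, Fintype.card_fin] at this
  exact absurd this (by decide)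

end


section

variable {n r : ℕ} {b : BP n} {H : Type} [Group H] {u : BP n → BP n → H}

/-- the data of a cocycle -/
theorem b4up_data (hn : r + 4 ≤ n) (hn5 : 5 ≤ n) (hb : (TT b.1).card = r) (hc : Coc b u) :
    ∃ (G : (Fin n ⊕ Fin r → Fin n ⊕ Fin r) → H) (z : H) (K : Equiv.Perm (Fin r) → H),
      z * z = 1 ∧ (∀ σ, K σ * z = z * K σ) ∧ (∀ σ τ, K (σ * τ) = K σ * K τ) ∧
      (∀ a x y, Vm b4up_star a → ok b4up_star a x y →
        u (b4up_P b a) (b4up_P b (hk a x y)) = G a * z * (G (hk a x y))⁻¹) ∧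
      (∀ σ a, Vm b4up_star a → (G (b4up_act σ a))⁻¹ * G a = K σ) := by
  have hr : ∀ a, Vm (b4up_star (n := n) (r := r)) a → Rch b (b4up_P b a) :=
    fun a ha => b4up_rch (b := b) hn hb ha
  have harc : ∀ a, Vm (b4up_star (n := n) (r := r)) a → ∃ x y, x ≠ y ∧ a x ≠ y ∧
      ¬ b4up_star x ∧ ¬ b4up_star (a x) ∧ ¬ b4up_star y ∧ ¬ b4up_star (a y) :=
    fun a ha => b4up_harc hn ha
  obtain ⟨Z, Z2, Zc, Zt, hL⟩ := ls_twist (b4up_ls0 hc hr) harc (b4up_six hn hn5 hb)
  obtain ⟨G, hG⟩ := ls_cob hL harc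
  obtain ⟨a0, h0, -⟩ := b4up_lab (b := b) b hb
  have hconn : ∀ a, Vm (b4up_star (n := n) (r := r)) a → Relation.ReflTransGen
      (fun a a' => ∃ x y, ok b4up_star a x y ∧ a' = hk a x y) a0 a :=
    fun a ha => vm_conn harc a0 a h0 ha
  -- induction along steps
  have hind : ∀ (Q : (Fin n ⊕ Fin r → Fin n ⊕ Fin r) → Prop), Q a0 →
      (∀ a x y, Vm b4up_star a → ok b4up_star a x y → Q a → Q (hk a x y)) →
      ∀ a, Vm b4up_star a → Q a := by
    intro Q q0 qs a ha
    have key : Vm b4up_star a ∧ Q a := by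
      have := hconn a ha
      clear ha
      induction this with
      | refl => exact ⟨h0, q0⟩
      | tail _ h2 ih =>
        obtain ⟨x, y, h3, h4⟩ := h2
        rw [h4]
        exact ⟨hk_vm ih.1 h3, qs _ x y ih.1 h3 ih.2⟩
    exact key.2
  have e1 : ∀ a x y, Vm b4up_star a → ok b4up_star a x y →
      u (b4up_P b a) (b4up_P b (hk a x y)) * Z (hk a x y) = G a * (G (hk a x y))⁻¹ := by
    intro a x y ha h
    have h1 := hG a x y ha h
    have hne : a ≠ hk a x y := by
      intro e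
      apply h.ne'
      rw [e]; exact b3labb_fst _ _ _
    have h2 : (if a = hk a x y then 1 else
        u (b4up_P b a) (b4up_P b (hk a x y)) * Z (hk a x y)) = G a * (G (hk a x y))⁻¹ := h1
    rwa [if_neg hne] at h2
  have Zi : ∀ a, Vm b4up_star a → (Z a)⁻¹ = Z a := fun a ha =>
    inv_eq_of_mul_eq_one_left (Z2 a ha)
  have e3 : ∀ a x y, Vm b4up_star a → ok b4up_star a x y →
      u (b4up_P b a) (b4up_P b (hk a x y)) = G a * (G (hk a x y))⁻¹ * Z (hk a x y) := by
    intro a x y ha h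
    rw [← e1 a x y ha h, mul_assoc, Z2 _ (hk_vm ha h), mul_one]
  have hz : ∀ a, Vm b4up_star a → (G a)⁻¹ * Z a * G a = (G a0)⁻¹ * Z a0 * G a0 := by
    apply hind
    · rfl
    · intro a x y ha h ih
      have e4 : Z a * (G a * (G (hk a x y))⁻¹ * Z (hk a x y)) = G a * (G (hk a x y))⁻¹ := by
        rw [← e3 a x y ha h, ← e1 a x y ha h]
        exact Zc a x y ha h
      rw [← ih]
      calc (G (hk a x y))⁻¹ * Z (hk a x y) * G (hk a x y)
          = (G (hk a x y))⁻¹ * (Z (hk a x y))⁻¹ * G (hk a x y) := by rw [Zi _ (hk_vm ha h)]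
        _ = (G a)⁻¹ * (G a * (G (hk a x y))⁻¹) * (Z (hk a x y))⁻¹ * G (hk a x y) := by group
        _ = (G a)⁻¹ * (Z a * (G a * (G (hk a x y))⁻¹ * Z (hk a x y))) * (Z (hk a x y))⁻¹ *
            G (hk a x y) := by rw [e4]
        _ = (G a)⁻¹ * Z a * G a := by group
  obtain ⟨z, hzd⟩ : ∃ z, (G a0)⁻¹ * Z a0 * G a0 = z := ⟨_, rfl⟩
  rw [hzd] at hz
  have zz : z * z = 1 := by
    rw [← hzd]
    calc (G a0)⁻¹ * Z a0 * G a0 * ((G a0)⁻¹ * Z a0 * G a0)
        = (G a0)⁻¹ * (Z a0 * Z a0) * G a0 := by group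
      _ = 1 := by rw [Z2 a0 h0]; group
  have hZ : ∀ a, Vm b4up_star a → Z a = G a * z * (G a)⁻¹ := by
    intro a ha
    rw [← hz a ha]; group
  have hU : ∀ a x y, Vm b4up_star a → ok b4up_star a x y →
      u (b4up_P b a) (b4up_P b (hk a x y)) = G a * z * (G (hk a x y))⁻¹ := by
    intro a x y ha h
    rw [e3 a x y ha h, hZ _ (hk_vm ha h)]; group
  have hZs : ∀ (σ : Equiv.Perm (Fin r)) a, Vm b4up_star a → Z (b4up_act σ a) = Z a := by
    intro σ a ha
    obtain ⟨x, y, hxy, haxy, rx, rax, ry, ray⟩ := harc a ha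
    have h1 : ok b4up_star a x y := ⟨hxy, haxy, fun h => rx h.1, fun h => rx h.1,
      fun h => rax h.1, fun h => rax h.1⟩
    have h2 : ok b4up_star a x (a y) := ⟨fun e => haxy (by rw [e, ha.inv]),
      fun e => hxy (b3labb_inj ha.inv e), fun h => rx h.1, fun h => rx h.1,
      fun h => rax h.1, fun h => rax h.1⟩
    have k1 := Zt a x y ha h1
    have k2 := Zt (b4up_act σ a) (b4up_sg σ x) (b4up_sg σ y) (b4up_act_vm σ ha)
      (b4up_act_ok σ h1)
    rw [b4up_act_at, ← b4up_act_hk, ← b4up_act_hk] at k2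
    have k3 : Z (b4up_act σ a) =
        u (b4up_P b (b4up_act σ a)) (b4up_P b (b4up_act σ (hk a x y))) *
        u (b4up_P b (b4up_act σ (hk a x y))) (b4up_P b (b4up_act σ (hk a x (a y)))) *
        u (b4up_P b (b4up_act σ (hk a x (a y)))) (b4up_P b (b4up_act σ a)) := k2
    rw [b4up_P_act σ ha, b4up_P_act σ (hk_vm ha h1), b4up_P_act σ (hk_vm ha h2)] at k3
    rw [k3]
    exact k1.symm
  have hKz : ∀ (σ : Equiv.Perm (Fin r)) a, Vm b4up_star a →
      (G (b4up_act σ a))⁻¹ * G a * z = z * ((G (b4up_act σ a))⁻¹ * G a) := by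
    intro σ a ha
    have h1 := hz _ (b4up_act_vm σ ha)
    rw [hZs σ a ha, hZ a ha] at h1
    calc (G (b4up_act σ a))⁻¹ * G a * z
        = ((G (b4up_act σ a))⁻¹ * (G a * z * (G a)⁻¹) * G (b4up_act σ a)) *
          ((G (b4up_act σ a))⁻¹ * G a) := by group
      _ = z * ((G (b4up_act σ a))⁻¹ * G a) := by rw [h1]
  have hK : ∀ (σ : Equiv.Perm (Fin r)) a, Vm b4up_star a →
      (G (b4up_act σ a))⁻¹ * G a = (G (b4up_act σ a0))⁻¹ * G a0 := by
    intro σ
    apply hind
    · rfl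
    · intro a x y ha h ih
      rw [← ih]
      have h1 := hU a x y ha h
      have h2 := hU (b4up_act σ a) (b4up_sg σ x) (b4up_sg σ y) (b4up_act_vm σ ha)
        (b4up_act_ok σ h)
      rw [← b4up_act_hk, b4up_P_act σ ha, b4up_P_act σ (hk_vm ha h), h1] at h2
      have h3 := hKz σ a ha
      calc (G (b4up_act σ (hk a x y)))⁻¹ * G (hk a x y)
          = z⁻¹ * (G (b4up_act σ a))⁻¹ *
            (G (b4up_act σ a) * z * (G (b4up_act σ (hk a x y)))⁻¹) * G (hk a x y) := by group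
        _ = z⁻¹ * (G (b4up_act σ a))⁻¹ * (G a * z * (G (hk a x y))⁻¹) * G (hk a x y) := by
            rw [← h2]
        _ = z⁻¹ * ((G (b4up_act σ a))⁻¹ * G a * z) := by group
        _ = (G (b4up_act σ a))⁻¹ * G a := by rw [h3]; group
  refine ⟨G, z, fun σ => (G (b4up_act σ a0))⁻¹ * G a0, zz, fun σ => hKz σ a0 h0, ?_, hU, hK⟩
  intro σ τ
  show (G (b4up_act (σ * τ) a0))⁻¹ * G a0 =
    (G (b4up_act σ a0))⁻¹ * G a0 * ((G (b4up_act τ a0))⁻¹ * G a0)
  rw [b4up_act_mul, ← hK σ _ (b4up_act_vm τ h0)]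
  group

/-- the order two part -/
def b4up_two {z : H} (hz : z * z = 1) : Multiplicative (ZMod 2) →* H :=
  MonoidHom.mk' (fun x => if x = 1 then 1 else z) (by
    intro x y
    have h : ∀ x y : Multiplicative (ZMod 2), x ≠ 1 → y ≠ 1 → x * y = 1 := by decide
    by_cases hx : x = 1
    · subst hx; simp
    · by_cases hy : y = 1
      · subst hy; simp
      · rw [if_pos (h x y hx hy), if_neg hx, if_neg hy, hz])

theorem b4up_two_val {z : H} (hz : z * z = 1) : b4up_two hz (Multiplicative.ofAdd 1) = z := by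
  show (if (Multiplicative.ofAdd (1 : ZMod 2)) = 1 then (1 : H) else z) = z
  rw [if_neg (by decide)]

theorem b4up_eps (p s : BP n) (h : s.1 = eps ∅) : th p s = p := by
  apply Subtype.ext
  rw [bp_th, h, Pj.th_eq]
  have ht : ∀ x, (eps (n := n) ∅).t x := fun x hx => by simp at hx
  apply cj_eq
  · intro x hx; exact absurd (ht x) hx
  · intro x _ hx; exact ⟨x, hx, J.rfl' x⟩
  · intro x _ _; exact ⟨ht _, J.right x⟩
  · intro x _ h1 h2; exact Or.inl ⟨h1, h2⟩

end

section

variable {n : ℕ}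

theorem brauer_upper {r : ℕ} (hn : r + 4 ≤ n) (hn5 : 5 ≤ n) (b : BP n)
    (hb : (TT b.1).card = r) :
    ∃ e : BP n → BP n → Multiplicative (ZMod 2) × Equiv.Perm (Fin r),
      ∀ (H : Type) (_ : Group H) (u : BP n → BP n → H), Coc b u →
        ∃ (ψ : Multiplicative (ZMod 2) × Equiv.Perm (Fin r) →* H) (G : BP n → H),
          ∀ p s, Rch b p → EB s → th s p = p →
            u p (th p s) = G p * ψ (e p (th p s)) * (G (th p s))⁻¹ := by
  classical
  obtain ⟨lb, hlb⟩ : ∃ lb : BP n → (Fin n ⊕ Fin r → Fin n ⊕ Fin r),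
      ∀ p, Rch b p → Vm b4up_star (lb p) ∧ b4up_P b (lb p) = p := by
    refine ⟨fun p => if h : ∃ a, Vm (b4up_star (n := n) (r := r)) a ∧ b4up_P b a = p
      then h.choose else id, ?_⟩
    intro p hp
    have h : ∃ a, Vm (b4up_star (n := n) (r := r)) a ∧ b4up_P b a = p :=
      b4up_lab (b := b) p (by rw [rch_card_B hp, hb])
    simp only [dif_pos h]
    exact h.choose_spec
  obtain ⟨e, he1, he2⟩ : ∃ e : BP n → BP n → Multiplicative (ZMod 2) × Equiv.Perm (Fin r),
      (∀ p, e p p = 1) ∧ ∀ p q, p ≠ q → (∃ σ, ∃ x y, ok b4up_star (lb p) x y ∧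
        hk (lb p) x y = b4up_act σ (lb q)) →
        ∃ σ, e p q = (Multiplicative.ofAdd 1, σ) ∧ ∃ x y, ok b4up_star (lb p) x y ∧
          hk (lb p) x y = b4up_act σ (lb q) := by
    refine ⟨fun p q => if p = q then 1 else if h : ∃ σ, ∃ x y, ok b4up_star (lb p) x y ∧
        hk (lb p) x y = b4up_act σ (lb q) then (Multiplicative.ofAdd 1, h.choose) else 1, ?_, ?_⟩
    · intro p
      simp only [if_true]
    · intro p q hpq h
      refine ⟨h.choose, ?_, h.choose_spec⟩
      simp only [if_neg hpq, dif_pos h]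
  refine ⟨e, ?_⟩
  intro H iH u hc
  obtain ⟨G, z, K, zz, Kz, Kmul, hU, hK⟩ := b4up_data hn hn5 hb hc
  refine ⟨MonoidHom.noncommCoprod (b4up_two zz) (MonoidHom.mk' K Kmul) ?_, fun p => G (lb p), ?_⟩
  · intro x σ
    show (if x = 1 then 1 else z) * K σ = K σ * (if x = 1 then 1 else z)
    by_cases hx : x = 1
    · rw [if_pos hx, one_mul, mul_one]
    · rw [if_neg hx]; exact (Kz σ).symm
  · intro p s hp hs hk'
    by_cases hps : th p s = p
    · rw [hps, he1, map_one, hc.self hp, mul_one, mul_inv_cancel]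
    · rcases hs with hs | ⟨x, y, hxy, hs⟩
      · exact absurd (b4up_eps p s hs) hps
      · have hs' : s = ⟨hook x y, brauer_hook x y⟩ := Subtype.ext hs
        subst hs'
        obtain ⟨v1, v2⟩ := hlb p hp
        have hok : ok b4up_star (lb p) (Sum.inl x) (Sum.inl y) := by
          refine ⟨fun h => hxy (Sum.inl.inj h), ?_, fun h => b4up_inl _ h.1,
            fun h => b4up_inl _ h.1, fun h => b4up_inl _ h.2, ?_⟩
          · intro h
            apply hps
            have := b4up_le (b := b) v1 hxy h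
            rwa [v2] at this
          · have h1 := congrArg Subtype.val hk'
            rw [bp_th, keep_hook p.2 hxy, ← v2, b4up_P_t v1, b4up_P_t v1] at h1
            exact h1
        have e1 := b4up_P_hk (b := b) v1 hok
        rw [v2] at e1
        have hq : Rch b (th p (⟨hook x y, brauer_hook x y⟩ : BP n)) := hp.step (fr_th hk')
        obtain ⟨w1, w2⟩ := hlb _ hq
        obtain ⟨σ, hσ⟩ := b4up_uniq (b := b) (hk_vm v1 hok) w1 (by rw [e1, w2])
        obtain ⟨τ, e2, x', y', ok', hτ⟩ := he2 p _ (fun h => hps h.symm) ⟨σ, _, _, hok, hσ⟩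
        have h1 := hU _ x' y' v1 ok'
        rw [hτ, b4up_P_act τ w1, w2, v2] at h1
        have h2 := hK τ _ w1
        rw [h1, e2, MonoidHom.noncommCoprod_apply]
        show G (lb p) * z * (G (b4up_act τ (lb (th p ⟨hook x y, brauer_hook x y⟩))))⁻¹ =
          G (lb p) * (b4up_two zz (Multiplicative.ofAdd 1) * K τ) *
            (G (lb (th p ⟨hook x y, brauer_hook x y⟩)))⁻¹
        rw [b4up_two_val, ← h2]
        group

end

end Pool.Agent.H213PG
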