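import Pool.Agent.helper213_PG.Defs

set_option autoImplicit false

/-!
# Cocycles are determined by their values on elementary steps (helper213)
-/

namespace Pool.Agent.H213PG

open PA

/-- the value of a cocycle along `s t s` -/
theorem coc_tst {P : Type} [PA P] {b : P} {G : Type} [Group G] {c : P → P → G} (hc : Coc b c)
    {p s t : P} (hp : Rch b p) (h1 : th s p = p) (h2 : th t (th p s) = th p s) :
    c p (th p (th t s)) = c p (th p s) * c (th p s) (th (th p s) t) *
      c (th (th p s) t) (th (th (th p s) t) s) := by
  have h : th (th t s) p = p := kept_tri.1 ⟨h1, h2⟩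
  have h3 := kept_chain h1 h2
  have hd : th (th (th p s) t) s = th p (th t s) := (th_th p s t).symm
  rw [hd]
  set a := th p s with ha
  set bb := th a t with hbb
  set d := th p (th t s) with hdd
  have hab : Fr a bb := fr_th h2
  have hpa : Fr p a := fr_th h1
  have hpd : Fr p d := fr_th h
  have hra : Rch b a := hp.step hpa
  have hrb : Rch b bb := hra.step hab
  have hbd : Fr bb d := by
    have := fr_th h3
    rw [hd] at this
    exact this
  have hds : th d s = d := by rw [← hd, th_idem]
  have has : th a s = a := th_idem p s
  have had : Fr a d := by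
    constructor
    · rw [← hd, th_th, has, hab.1]
    · have k1 : th (th bb s) a = th (th (th bb s) a) s := by
        conv_lhs => rw [← has]
        rw [th_th, th_idem]
      have k2 : th bb a = th (th (th bb s) a) s := by
        conv_lhs => rw [← has]
        rw [th_th]
      rw [← hd, k1, ← k2, hab.2]
  have e1 : c p d = c p a * c a d := hc.tri p d s hp hpd hds h1
  have e2 : c a bb = c a d * c d bb := by
    have := hc.tri' (p := bb) (q := a) (s := s) hrb hab.symm has h3 (by rw [hd]; exact had.symm)
    rwa [hd] at this
  rw [e1, e2]
  have e4 := hc.inv' hrb hbd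
  rw [e4]
  simp only [mul_assoc, inv_mul_cancel, mul_one]

/-- two cocycles which agree on the elementary steps agree -/
theorem coc_ext {P : Type} [PA P] {b : P} {G : Type} [Group G] {u u' : P → P → G}
    (hu : Coc b u) (hu' : Coc b u') (E : P → Prop) (hgen : ∀ s, Gen E s)
    (hE : ∀ p s, Rch b p → E s → th s p = p → u p (th p s) = u' p (th p s)) :
    ∀ p q, Rch b p → Fr p q → u p q = u' p q := by
  have key : ∀ s, Gen E s → ∀ p, Rch b p → th s p = p → u p (th p s) = u' p (th p s) := by
    intro s hs
    induction hs with
    | base h => exact fun p hp hk => hE p _ hp h hk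
    | @step s t _ _ ihs iht =>
      intro p hp hk
      obtain ⟨h1, h2⟩ := kept_tri.2 hk
      have hra := hp.step (fr_th h1)
      have hrb := hra.step (fr_th h2)
      rw [coc_tst hu hp h1 h2, coc_tst hu' hp h1 h2, ihs p hp h1, iht _ hra h2,
        ihs _ hrb (kept_chain h1 h2)]
  intro p q hp h
  have := key q (hgen q) p hp h.2
  rwa [h.1] at this

theorem Coc.map {P : Type} [PA P] {b : P} {G K : Type} [Group G] [Group K] {c : P → P → G}
    (hc : Coc b c) (φ : G →* K) : Coc b (fun p q => φ (c p q)) := by
  constructor
  · intro p q hp h
    rw [← map_mul, hc.inv p q hp h, map_one]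
  · intro p q s hp h h1 h2
    rw [← map_mul, hc.tri p q s hp h h1 h2]

theorem Coc.gauge {P : Type} [PA P] {b : P} {G : Type} [Group G] {c : P → P → G}
    (hc : Coc b c) (g : P → G) : Coc b (fun p q => g p * c p q * (g q)⁻¹) := by
  constructor
  · intro p q hp h
    have := hc.inv p q hp h
    calc g p * c p q * (g q)⁻¹ * (g q * c q p * (g p)⁻¹) = g p * (c p q * c q p) * (g p)⁻¹ := by
          group
      _ = 1 := by rw [this]; group
  · intro p q s hp h h1 h2
    have := hc.tri p q s hp h h1 h2
    rw [this]
    group

end Pool.Agent.H213PG
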