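import Pool.Agent.helper213_PG.B1Low
import Pool.Agent.helper213_PG.B4Up
import Pool.Agent.helper213_PG.Com

set_option autoImplicit false

/-!
# The maximal subgroups, Brauer case, main part (helper213)
-/

namespace Pool.Agent.H213PG

open PA Pj

theorem coc_mem {P : Type} [PA P] {b : P} {G : Type} [Group G] {c : P → P → G}
    (hc : Coc b c) (E : P → Prop) (hgen : ∀ s, Gen E s) (g : P → G) (K : Subgroup G)
    (hE : ∀ p s, Rch b p → E s → th s p = p → (g p)⁻¹ * c p (th p s) * g (th p s) ∈ K) :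
    ∀ p q, Rch b p → Fr p q → (g p)⁻¹ * c p q * g q ∈ K := by
  have key : ∀ s, Gen E s → ∀ p, Rch b p → th s p = p →
      (g p)⁻¹ * c p (th p s) * g (th p s) ∈ K := by
    intro s hs
    induction hs with
    | base h => exact fun p hp hk => hE p _ hp h hk
    | @step s t _ _ ihs iht =>
      intro p hp hk
      obtain ⟨h1, h2⟩ := kept_tri.2 hk
      have hra := hp.step (fr_th h1)
      have hrb := hra.step (fr_th h2)
      have e1 := ihs p hp h1
      have e2 := iht _ hra h2
      have e3 := ihs _ hrb (kept_chain h1 h2)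
      have hd : th (th (th p s) t) s = th p (th t s) := (th_th p s t).symm
      rw [coc_tst hc hp h1 h2]
      rw [hd] at e3 ⊢
      have := K.mul_mem (K.mul_mem e1 e2) e3
      convert this using 1
      group
  intro p q hp h
  have := key q (hgen q) p hp h.2
  rwa [h.1] at this

theorem pth_mem {P : Type} [PA P] {b : P} {G : Type} [Group G] {c : P → P → G}
    (g : P → G) (K : Subgroup G)
    (h : ∀ p q, Rch b p → Fr p q → (g p)⁻¹ * c p q * g q ∈ K) {p q : P} {x : G}
    (hp : Rch b p) (hx : Pth c p q x) : (g p)⁻¹ * x * g q ∈ K := by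
  induction hx with
  | nil p => simp
  | @cons p q r x h1 _ ih =>
    have e1 := h p q hp h1
    have e2 := ih (hp.step h1)
    have := K.mul_mem e1 e2
    convert this using 1
    group

section

variable {n : ℕ}

theorem brauer_main (hn5 : 5 ≤ n) (b : BP n) (hb : (TT b.1).card + 4 ≤ n) :
    Nonempty (MaxSub (xx b) ≃* QQ (TT b.1).card) := by
  obtain ⟨c, hc, hs⟩ := brauer_lower hb b rfl
  obtain ⟨e, he⟩ := brauer_upper hb hn5 b rfl
  obtain ⟨ψ, Gc, hψ⟩ := he (QQ (TT b.1).card) inferInstance c hc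
  have hmem := coc_mem hc EB gen_B Gc ψ.range (by
    intro p s hp hE hk
    rw [hψ p s hp hE hk]
    refine ⟨e p (th p s), ?_⟩
    group)
  have hsur : Function.Surjective ψ := by
    intro x
    have := pth_mem Gc ψ.range hmem (Rch.rf b) (hs (Gc b * x * (Gc b)⁻¹))
    obtain ⟨y, hy⟩ := this
    refine ⟨y, ?_⟩
    rw [hy]
    group
  have hfin : Finite (QQ (TT b.1).card) := by
    have : Finite (Multiplicative (ZMod 2)) := inferInstanceAs (Finite (ZMod 2))
    exact Finite.instProd
  have hinj : Function.Injective ψ := Finite.injective_iff_surjective.2 hsur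
  set E : QQ (TT b.1).card ≃* QQ (TT b.1).card := MulEquiv.ofBijective ψ ⟨hinj, hsur⟩ with hE
  refine maxsub_main hc (hmin_B b) hs ?_
  intro H iH u hu
  obtain ⟨ψu, Gu, hψu⟩ := he H iH u hu
  set φ : QQ (TT b.1).card →* H := ψu.comp E.symm.toMonoidHom with hφ
  refine ⟨φ, fun p => Gu p * (φ (Gc p))⁻¹, ?_⟩
  apply coc_ext hu ((hc.map φ).gauge (fun p => Gu p * (φ (Gc p))⁻¹)) EB gen_B
  intro p s hp hEs hk
  rw [hψu p s hp hEs hk]
  have h1 : φ (c p (th p s)) = φ (Gc p) * ψu (e p (th p s)) * (φ (Gc (th p s)))⁻¹ := by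
    rw [hψ p s hp hEs hk, map_mul, map_mul, map_inv]
    congr 2
    show ψu (E.symm (ψ (e p (th p s)))) = ψu (e p (th p s))
    congr 1
    exact E.symm_apply_apply _
  rw [h1]
  group

end

end Pool.Agent.H213PG
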