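import Pool.Agent.helper213_PG.M1Fri

set_option autoImplicit false

/-!
# Computing `s p s`; elementary projections (paper 1.5, first lines of 2.3)
-/

namespace Pool.Agent.H213PG

open PA Pj

section

variable {n : ℕ}

/-- certificate for `s p s = q` -/
theorem cj_eq {p s q : Pj n} (h1 : ∀ x, ¬ s.t x → q.a x = s.a x ∧ ¬ q.t x)
    (h2 : ∀ x, s.t x → q.t x → ∃ z, p.t z ∧ J s.a p.a x z)
    (h3 : ∀ x, s.t x → q.a x ≠ x → s.t (q.a x) ∧ J s.a p.a x (q.a x))
    (h4 : ∀ x, s.t x → q.a x = x → ¬ q.t x → (p.a x = x ∧ ¬ p.t x) ∨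
      ∃ z, z ≠ x ∧ J s.a p.a x z ∧ ((p.a z = z ∧ ¬ p.t z) ∨ (s.a z = z ∧ ¬ s.t z))) :
    cj p s = q := by
  ext x
  · by_cases hx : s.t x
    · by_cases hq : q.t x
      · obtain ⟨z, hz, hj⟩ := h2 x hx hq
        rw [(cj p s).ht x (cj_t.2 ⟨hx, z, hz, hj⟩), q.ht x hq]
      · by_cases ha : q.a x = x
        · have hn : ¬ ∃ y, Lk p s x y := by
            rintro ⟨y, hy⟩
            have hsx := s.ht _ hy.1
            have hsy := s.ht _ hy.2.1
            rcases h4 x hx ha hq with ⟨e1, _⟩ | ⟨z, hzx, hj, h5⟩
            · exact hy.2.2.1 (J.eq_of_fixed s.inv p.inv hsx e1 hy.2.2.2)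
            · have hend : s.a z = z ∨ p.a z = z := by
                rcases h5 with h5 | h5
                · exact Or.inr h5.1
                · exact Or.inl h5.1
              have e := ends_le_two s.inv p.inv hy.2.2.2 hj (Or.inl hsx) (Or.inl hsy) hend
                hy.2.2.1 hzx
              subst e
              rcases h5 with h5 | h5
              · exact hzx (J.eq_of_fixed s.inv p.inv hsy h5.1 hj.symm').symm
              · exact h5.2 hy.2.1
          rw [cj_a_none hx hn, ha]
        · obtain ⟨h5, h6⟩ := h3 x hx ha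
          rw [cj_a_lk (show Lk p s x (q.a x) from ⟨hx, h5, ha, h6⟩)]
    · rw [cj_a_not hx, (h1 x hx).1]
  · rw [cj_t]
    constructor
    · rintro ⟨hx, w, hw, hj⟩
      by_contra hq
      by_cases ha : q.a x = x
      · have hsx := s.ht _ hx
        have hpw := p.ht _ hw
        rcases h4 x hx ha hq with ⟨e1, e2⟩ | ⟨z, hzx, hj2, h5⟩
        · have := J.eq_of_fixed s.inv p.inv hsx e1 hj
          rw [this] at hw
          exact e2 hw
        · by_cases hwx : w = x
          · subst hwx
            exact hzx (J.eq_of_fixed s.inv p.inv hsx hpw hj2)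
          · have hend : s.a z = z ∨ p.a z = z := by
              rcases h5 with h5 | h5
              · exact Or.inr h5.1
              · exact Or.inl h5.1
            have e := ends_le_two s.inv p.inv hj hj2 (Or.inl hsx) (Or.inr hpw) hend hwx hzx
            subst e
            rcases h5 with h5 | h5
            · exact h5.2 hw
            · exact hzx (J.eq_of_fixed s.inv p.inv h5.1 hpw hj2.symm').symm
      · obtain ⟨h5, h6⟩ := h3 x hx ha
        exact Lk.not_through p s (show Lk p s x (q.a x) from ⟨hx, h5, ha, h6⟩) hw hj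
    · intro hq
      by_cases hx : s.t x
      · obtain ⟨z, hz, hj⟩ := h2 x hx hq
        exact ⟨hx, z, hz, hj⟩
      · exact absurd hq (h1 x hx).2

/-- make the points `x` and `y = a x` through -/
def m2elem_up (s : Pj n) (x y : Fin n) (h : s.a x = y) : Pj n where
  a z := if z = x ∨ z = y then z else s.a z
  t z := s.t z ∨ z = x ∨ z = y
  inv z := by
    by_cases hz : z = x ∨ z = y
    · simp only [if_pos hz]
    · have h2 : ¬ (s.a z = x ∨ s.a z = y) := by
        rintro (h3 | h3)
        · apply hz; right; rw [← h, ← h3, s.inv]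
        · apply hz; left; rw [← h] at h3; exact s.a_inj h3
      simp only [if_neg hz, if_neg h2, s.inv]
  ht z hz := by
    by_cases h2 : z = x ∨ z = y
    · simp only [if_pos h2]
    · simp only [if_neg h2]
      rcases hz with h3 | h3
      · exact s.ht z h3
      · exact absurd h3 h2

theorem m2elem_planar_up {s : Pj n} (hs : Planar s) {x y : Fin n} (h : s.a x = y)
    (hc : ∀ u, u < s.a u → ¬ (u < x ∧ x < s.a u) ∧ ¬ (u < y ∧ y < s.a u)) :
    Planar (m2elem_up s x y h) := by
  intro u v huv hv
  have hu : ¬ (u = x ∨ u = y) := by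
    intro h2
    have e : (m2elem_up s x y h).a u = u := by simp only [m2elem_up, if_pos h2]
    rw [e] at hv
    exact lt_asymm huv hv
  have e : (m2elem_up s x y h).a u = s.a u := by simp only [m2elem_up, if_neg hu]
  rw [e] at hv ⊢
  have h3 := hs u v huv hv
  have hv2 : ¬ (v = x ∨ v = y) := by
    rintro (rfl | rfl)
    · exact (hc u (huv.trans hv)).1 ⟨huv, hv⟩
    · exact (hc u (huv.trans hv)).2 ⟨huv, hv⟩
  have e2 : (m2elem_up s x y h).a v = s.a v := by simp only [m2elem_up, if_neg hv2]
  rw [e2]
  refine ⟨?_, h3.2⟩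
  rintro (h4 | h4)
  · exact h3.1 h4
  · exact hv2 h4

open Classical in
theorem m2elem_up_lt {s : Pj n} {x y : Fin n} (h : s.a x = y) (hx : ¬ s.t x) :
    (Finset.univ.filter (fun z => ¬ (m2elem_up s x y h).t z)).card <
      (Finset.univ.filter (fun z => ¬ s.t z)).card := by
  apply Finset.card_lt_card
  rw [Finset.ssubset_iff_of_subset]
  · refine ⟨x, ?_, ?_⟩
    · rw [Finset.mem_filter]; exact ⟨Finset.mem_univ _, hx⟩
    · rw [Finset.mem_filter]
      rintro ⟨_, h2⟩
      exact h2 (Or.inr (Or.inl rfl))
  · intro w hw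
    rw [Finset.mem_filter] at hw ⊢
    exact ⟨hw.1, fun h2 => hw.2 (Or.inl h2)⟩

theorem m2elem_arc_t {x y z : Fin n} (h : x < y) : (arc x y).t z ↔ z < x ∨ y < z := by
  show (z < x ∧ z < y ∨ x < z ∧ y < z) ↔ _
  constructor
  · rintro (h1 | h1)
    · exact Or.inl h1.1
    · exact Or.inr h1.2
  · rintro (h1 | h1)
    · exact Or.inl ⟨h1, h1.trans h⟩
    · exact Or.inr ⟨h.trans h1, h1⟩

theorem m2elem_planar_arc {x y : Fin n} (h : x < y) : Planar (arc x y) := by
  intro u v huv hv
  have hv' : v < Equiv.swap x y u := hv
  by_cases hu : u = x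
  · subst hu
    rw [Equiv.swap_apply_left] at hv'
    have e : (arc u y).a v = v := Equiv.swap_apply_of_ne_of_ne huv.ne' hv'.ne
    have e2 : (arc u y).a u = y := Equiv.swap_apply_left u y
    rw [e, e2]
    refine ⟨?_, huv, hv'⟩
    rw [m2elem_arc_t h]
    rintro (h1 | h1)
    · exact lt_asymm h1 huv
    · exact lt_asymm h1 hv'
  · by_cases hu2 : u = y
    · subst hu2
      rw [Equiv.swap_apply_right] at hv'
      exact absurd (huv.trans (hv'.trans h)) (lt_irrefl _)
    · rw [Equiv.swap_apply_of_ne_of_ne hu hu2] at hv'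
      exact absurd (huv.trans hv') (lt_irrefl _)

/-- the main certificate for the closure of the elementary projections -/
theorem m2elem_cj_up {s A : Pj n} {x y : Fin n} (h : s.a x = y)
    (hx : ¬ s.t x) (hAt : ∀ z, s.t z → A.t z) (h1 : x ≠ y → A.a x = y)
    (h2 : x = y → A.a x = x ∧ ¬ A.t x) : cj A (m2elem_up s x y h) = s := by
  have hy : ¬ s.t y := by
    intro h2
    have := s.ht y h2
    rw [← h, s.inv, h] at this
    rw [← this] at h2
    exact hx h2
  apply cj_eq
  · intro z hz
    have hz1 : ¬ s.t z := fun h3 => hz (Or.inl h3)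
    have hz2 : ¬ (z = x ∨ z = y) := fun h3 => hz (Or.inr h3)
    refine ⟨?_, hz1⟩
    simp only [m2elem_up, if_neg hz2]
  · intro z _ hz
    exact ⟨z, hAt z hz, J.rfl' z⟩
  · intro z hz hne
    rcases hz with hz | hz | hz
    · exact absurd (s.ht z hz) hne
    · subst hz
      rw [h] at hne ⊢
      refine ⟨Or.inr (Or.inr rfl), ?_⟩
      have := h1 hne.symm
      have h3 := J.right (f := (m2elem_up s z y h).a) (g := A.a) z
      rw [this] at h3
      exact h3
    · subst hz
      have e : s.a z = x := by rw [← h, s.inv]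
      rw [e] at hne ⊢
      refine ⟨Or.inr (Or.inl rfl), ?_⟩
      have := h1 hne
      have h3 := J.right (f := (m2elem_up s x z h).a) (g := A.a) x
      rw [this] at h3
      exact h3.symm'
  · intro z hz hne hnt
    rcases hz with hz | hz | hz
    · exact absurd hz hnt
    · subst hz
      rw [h] at hne
      exact Or.inl (h2 hne.symm)
    · subst hz
      have e : s.a z = x := by rw [← h, s.inv]
      rw [e] at hne
      subst hne
      exact Or.inl (h2 rfl)

theorem gen_M (s : MP n) : Gen EM s := by
  classical
  induction' hm : (Finset.univ.filter (fun x => ¬ s.1.t x)).card using Nat.strong_induction_on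
    with m ih generalizing s
  by_cases harc : ∃ x, s.1.a x ≠ x
  · obtain ⟨x, hx, hmin⟩ : ∃ x, s.1.a x ≠ x ∧ ∀ z, s.1.a z ≠ z → x ≤ z := by
      have hne : (Finset.univ.filter (fun x => s.1.a x ≠ x)).Nonempty := by
        obtain ⟨x, hx⟩ := harc
        exact ⟨x, Finset.mem_filter.2 ⟨Finset.mem_univ _, hx⟩⟩
      refine ⟨_, (Finset.mem_filter.1 (Finset.min'_mem _ hne)).2, ?_⟩
      intro z hz
      apply Finset.min'_le
      rw [Finset.mem_filter]
      exact ⟨Finset.mem_univ _, hz⟩
    have hle : x ≤ s.1.a x := hmin _ (by rw [s.1.inv]; exact hx.symm)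
    have hxy : x < s.1.a x := lt_of_le_of_ne hle hx.symm
    have hxt : ¬ s.1.t x := fun h => hx (s.1.ht x h)
    have hpl : Planar (m2elem_up s.1 x (s.1.a x) rfl) := by
      apply m2elem_planar_up s.2
      intro u hu
      have hxu : x ≤ u := hmin u hu.ne'
      refine ⟨fun h => absurd h.1 (not_lt.2 hxu), ?_⟩
      rintro ⟨h1, h2⟩
      rcases lt_or_eq_of_le hxu with h3 | h3
      · have := (s.2 x u h3 h1).2.2
        exact lt_asymm this h2
      · rw [h3] at h2
        exact lt_irrefl _ h2
    have hs' := ih _ (by rw [← hm]; exact m2elem_up_lt rfl hxt)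
      (⟨m2elem_up s.1 x (s.1.a x) rfl, hpl⟩ : MP n) rfl
    have e : th (⟨arc x (s.1.a x), m2elem_planar_arc hxy⟩ : MP n)
        (⟨m2elem_up s.1 x (s.1.a x) rfl, hpl⟩ : MP n) = s := by
      apply Subtype.ext
      refine m2elem_cj_up rfl hxt ?_ (fun _ => Equiv.swap_apply_left _ _) (fun h => absurd h hxy.ne)
      intro z hz
      show (arc x (s.1.a x)).t z
      rw [m2elem_arc_t hxy]
      rcases lt_trichotomy z x with h | h | h
      · exact Or.inl h
      · subst h; exact absurd hz hxt
      · right
        rcases lt_trichotomy z (s.1.a x) with h' | h' | h'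
        · exact absurd hz (s.2 x z h h').1
        · have := s.1.ht z hz
          rw [h', s.1.inv] at this
          exact absurd this hxy.ne
        · exact h'
    rw [← e]
    exact Gen.step hs' (Gen.base (Or.inr (Or.inr ⟨x, s.1.a x, hxy, rfl⟩)))
  · have harc' : ∀ x, s.1.a x = x := fun x => by
      by_contra h; exact harc ⟨x, h⟩
    by_cases hiso : ∃ x, ¬ s.1.t x
    · obtain ⟨x, hx⟩ := hiso
      have hpl : Planar (m2elem_up s.1 x x (harc' x)) := by
        apply m2elem_planar_up s.2
        intro u hu
        exact absurd (harc' u) hu.ne'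
      have hs' := ih _ (by rw [← hm]; exact m2elem_up_lt (harc' x) hx)
        (⟨m2elem_up s.1 x x (harc' x), hpl⟩ : MP n) rfl
      have e : th (⟨eps {x}, planar_eps {x}⟩ : MP n)
          (⟨m2elem_up s.1 x x (harc' x), hpl⟩ : MP n) = s := by
        apply Subtype.ext
        refine m2elem_cj_up (harc' x) hx ?_ (fun h => absurd rfl h)
          (fun _ => ⟨rfl, fun h => h (Finset.mem_singleton_self x)⟩)
        intro z hz
        show z ∉ ({x} : Finset (Fin n))
        rw [Finset.mem_singleton]
        rintro rfl
        exact hx hz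
      rw [← e]
      exact Gen.step hs' (Gen.base (Or.inr (Or.inl ⟨x, rfl⟩)))
    · have hiso' : ∀ x, s.1.t x := fun x => by
        by_contra h; exact hiso ⟨x, h⟩
      apply Gen.base
      left
      ext x
      · rw [harc' x]; rfl
      · constructor
        · intro _ h; simp at h
        · intro _; exact hiso' x

theorem gen_B (s : BP n) : Gen EB s := by
  classical
  induction' hm : (Finset.univ.filter (fun x => ¬ s.1.t x)).card using Nat.strong_induction_on
    with m ih generalizing s
  by_cases harc : ∃ x, s.1.a x ≠ x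
  · obtain ⟨x, hx⟩ := harc
    have hxt : ¬ s.1.t x := fun h => hx (s.1.ht x h)
    have hpl : Brauer (m2elem_up s.1 x (s.1.a x) rfl) := by
      intro z hz
      by_cases h : z = x ∨ z = s.1.a x
      · exact Or.inr h
      · left
        apply s.2
        have e : (m2elem_up s.1 x (s.1.a x) rfl).a z = s.1.a z := by
          simp only [m2elem_up, if_neg h]
        rw [← e]; exact hz
    have hs' := ih _ (by rw [← hm]; exact m2elem_up_lt rfl hxt)
      (⟨m2elem_up s.1 x (s.1.a x) rfl, hpl⟩ : BP n) rfl
    have e : th (⟨hook x (s.1.a x), brauer_hook _ _⟩ : BP n)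
        (⟨m2elem_up s.1 x (s.1.a x) rfl, hpl⟩ : BP n) = s := by
      apply Subtype.ext
      refine m2elem_cj_up rfl hxt ?_ (fun _ => Equiv.swap_apply_left _ _)
        (fun h => absurd h.symm hx)
      intro z hz
      show Equiv.swap x (s.1.a x) z = z
      apply Equiv.swap_apply_of_ne_of_ne
      · rintro rfl; exact hxt hz
      · intro h
        have := s.1.ht z hz
        rw [h, s.1.inv] at this
        exact hx this.symm
    rw [← e]
    exact Gen.step hs' (Gen.base (Or.inr ⟨x, s.1.a x, Ne.symm hx, rfl⟩))
  · have harc' : ∀ x, s.1.a x = x := fun x => by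
      by_contra h; exact harc ⟨x, h⟩
    apply Gen.base
    left
    ext x
    · rw [harc' x]; rfl
    · constructor
      · intro _ h; simp at h
      · intro _; exact s.2 x (harc' x)

/-- elementary steps of planar projections: `eps` -/
theorem step_eps {p : Pj n} {x : Fin n} (hk : th (eps {x}) p = p) :
    ¬ p.t x ∧ ∀ z, (th p (eps {x})).t z ↔ p.t z := by
  rw [th_eq_iff] at hk
  have hfix : ∀ z, p.t z → ∀ w, J (eps {x}).a p.a w z → w = z := by
    intro z hz w hj
    exact J.eq_of_fixed (eps {x}).inv p.inv rfl (p.ht z hz) hj.symm'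
  have hne : ∀ z, p.t z → z ≠ x := by
    rintro z hz rfl
    obtain ⟨w, hw, hj⟩ := hk z hz
    have := hfix z hz w hj
    subst this
    exact hw (Finset.mem_singleton_self _)
  refine ⟨fun h => hne x h rfl, ?_⟩
  intro z
  rw [Pj.th_eq, cj_t]
  constructor
  · rintro ⟨_, w, hw, hj⟩
    have := hfix w hw z hj
    rw [this]; exact hw
  · intro hz
    refine ⟨?_, z, hz, J.rfl' z⟩
    show z ∉ ({x} : Finset (Fin n))
    rw [Finset.mem_singleton]
    exact hne z hz

theorem m2elem_comp {p : Pj n} {x y : Fin n} (hx : p.a x = x) {z w : Fin n}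
    (hj : J (Equiv.swap x y) p.a z w) :
    (z = x ∨ z = y ∨ z = p.a y) ↔ (w = x ∨ w = y ∨ w = p.a y) := by
  have := J.mem_iff (f := Equiv.swap x y) (g := p.a) (fun z => Equiv.swap_apply_self x y z) p.inv
    {w | w = x ∨ w = y ∨ w = p.a y} ?_ hj
  · exact this
  · rintro w (rfl | rfl | rfl)
    · exact ⟨Or.inr (Or.inl (Equiv.swap_apply_left _ _)), Or.inl hx⟩
    · exact ⟨Or.inl (Equiv.swap_apply_right _ _), Or.inr (Or.inr rfl)⟩
    · refine ⟨?_, Or.inr (Or.inl (p.inv y))⟩
      by_cases h1 : p.a y = x
      · rw [h1]; exact Or.inr (Or.inl (Equiv.swap_apply_left _ _))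
      · by_cases h2 : p.a y = y
        · rw [h2]; exact Or.inl (Equiv.swap_apply_right _ _)
        · exact Or.inr (Or.inr (Equiv.swap_apply_of_ne_of_ne h1 h2))

/-- elementary steps of planar projections: `arc` -/
theorem step_arc {p : Pj n} (hp : Planar p) {x y : Fin n} (hxy : x < y)
    (hk : th (arc x y) p = p) :
    (¬ p.t x ∧ ¬ p.t y ∧ TT (th p (arc x y)) = TT p) ∨
      (p.t x ∧ Rt p (th p (arc x y)) x y (p.a y)) ∨
      (p.t y ∧ Rt (th p (arc x y)) p (p.a x) x y) := by
  rw [th_eq_iff] at hk
  have hbet : ∀ z, x < z → z < y → ¬ p.t z := by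
    intro z h1 h2 hz
    obtain ⟨w, hw, hj⟩ := hk z hz
    have hA : (arc x y).a z = z := Equiv.swap_apply_of_ne_of_ne h1.ne' h2.ne
    have := J.eq_of_fixed (arc x y).inv p.inv hA (p.ht z hz) hj.symm'
    subst this
    rw [m2elem_arc_t hxy] at hw
    rcases hw with h | h
    · exact lt_asymm h h1
    · exact lt_asymm h h2
  have hout : ∀ z, p.t z → z ≠ x → z ≠ y → (arc x y).t z := by
    intro z hz h1 h2
    rw [m2elem_arc_t hxy]
    rcases lt_trichotomy z x with h | h | h
    · exact Or.inl h
    · exact absurd h h1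
    · right
      rcases lt_trichotomy z y with h' | h' | h'
      · exact absurd hz (hbet z h h')
      · exact absurd h' h2
      · exact h'
  have hfix : ∀ z, p.t z → z ≠ x → z ≠ y → ∀ w, J (arc x y).a p.a w z → w = z := by
    intro z hz h1 h2 w hj
    exact J.eq_of_fixed (arc x y).inv p.inv (Equiv.swap_apply_of_ne_of_ne h1 h2) (p.ht z hz)
      hj.symm'
  have hAx : ¬ (arc x y).t x := by
    rw [m2elem_arc_t hxy]
    rintro (h | h)
    · exact lt_irrefl _ h
    · exact lt_asymm h hxy
  have hAy : ¬ (arc x y).t y := by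
    rw [m2elem_arc_t hxy]
    rintro (h | h)
    · exact lt_asymm h hxy
    · exact lt_irrefl _ h
  have hqx : (th p (arc x y)).a x = y := by
    rw [Pj.th_eq, cj_a_not hAx]
    exact Equiv.swap_apply_left _ _
  by_cases hx : p.t x
  · right; left
    refine ⟨hx, ?_⟩
    have hpx := p.ht x hx
    -- the other end of the component
    obtain ⟨w, hw, hj⟩ := hk x hx
    have hwl : w = p.a y := by
      rcases (m2elem_comp hpx hj).2 (Or.inl rfl) with h | h | h
      · rw [h] at hw; exact absurd hw hAx
      · rw [h] at hw; exact absurd hw hAy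
      · exact h
    rw [hwl] at hw
    have hyl : y < p.a y := by
      rcases (m2elem_arc_t hxy).1 hw with h | h
      · exfalso
        have := (hp (p.a y) x h (by rw [p.inv]; exact hxy)).1
        exact this hx
      · exact h
    have hJxl : J (arc x y).a p.a x (p.a y) := by
      have h1 := J.left (f := (arc x y).a) (g := p.a) x
      have e : (arc x y).a x = y := Equiv.swap_apply_left _ _
      rw [e] at h1
      exact h1.trans' (J.right y)
    refine ⟨hxy, hyl, ⟨mem_TT.2 hx, hxy.trans hyl, ?_⟩, ?_, rfl, hqx⟩
    · intro z h1 h2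
      rw [mem_TT]
      intro hz
      rcases lt_trichotomy z y with h | h | h
      · exact hbet z h1 h hz
      · subst h
        rw [p.ht z hz] at hyl
        exact lt_irrefl _ hyl
      · rcases lt_or_eq_of_le h2 with h3 | h3
        · exact (hp y z h h3).1 hz
        · have := p.ht z hz
          rw [h3, p.inv] at this
          exact hyl.ne this
    · ext z
      rw [mem_TT, Pj.th_eq, cj_t]
      unfold mv
      rw [Finset.mem_insert, Finset.mem_erase, mem_TT]
      constructor
      · rintro ⟨hz, v, hv, hj2⟩
        by_cases hvx : v = x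
        · subst hvx
          rcases (m2elem_comp hpx hj2).2 (Or.inl rfl) with h | h | h
          · rw [h] at hz; exact absurd hz hAx
          · rw [h] at hz; exact absurd hz hAy
          · exact Or.inl h
        · have hvy : v ≠ y := by
            rintro rfl
            rw [p.ht v hv] at hyl
            exact lt_irrefl _ hyl
          have := hfix v hv hvx hvy z hj2
          subst this
          exact Or.inr ⟨hvx, hv⟩
      · rintro (rfl | ⟨h1, h2⟩)
        · exact ⟨hw, x, hx, hJxl.symm'⟩
        · have hzy : z ≠ y := by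
            rintro rfl
            rw [p.ht z h2] at hyl
            exact lt_irrefl _ hyl
          exact ⟨hout z h2 h1 hzy, z, h2, J.rfl' z⟩
  · by_cases hy : p.t y
    · right; right
      refine ⟨hy, ?_⟩
      have hpy := p.ht y hy
      obtain ⟨w, hw, hj⟩ := hk y hy
      have hcomm : (arc x y).a = ⇑(Equiv.swap y x) := by
        show ⇑(Equiv.swap x y) = ⇑(Equiv.swap y x)
        rw [Equiv.swap_comm]
      have hwl : w = p.a x := by
        rw [hcomm] at hj
        rcases (m2elem_comp hpy hj).2 (Or.inl rfl) with h | h | h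
        · rw [h] at hw; exact absurd hw hAy
        · rw [h] at hw; exact absurd hw hAx
        · exact h
      rw [hwl] at hw
      have hlx : p.a x < x := by
        rcases (m2elem_arc_t hxy).1 hw with h | h
        · exact h
        · exfalso
          exact (hp x y hxy h).1 hy
      have hJyl : J (arc x y).a p.a y (p.a x) := by
        have h1 := J.left (f := (arc x y).a) (g := p.a) y
        have e : (arc x y).a y = x := Equiv.swap_apply_right _ _
        rw [e] at h1
        exact h1.trans' (J.right x)
      have hq : ∀ z, (th p (arc x y)).t z ↔ z = p.a x ∨ (p.t z ∧ z ≠ y) := by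
        intro z
        rw [Pj.th_eq, cj_t]
        constructor
        · rintro ⟨hz, v, hv, hj2⟩
          by_cases hvy : v = y
          · subst hvy
            rw [hcomm] at hj2
            rcases (m2elem_comp hpy hj2).2 (Or.inl rfl) with h | h | h
            · rw [h] at hz; exact absurd hz hAy
            · rw [h] at hz; exact absurd hz hAx
            · exact Or.inl h
          · have hvx : v ≠ x := by
              rintro rfl
              exact hx hv
            have := hfix v hv hvx hvy z hj2
            subst this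
            exact Or.inr ⟨hv, hvy⟩
        · rintro (rfl | ⟨h1, h2⟩)
          · exact ⟨hw, y, hy, hJyl.symm'⟩
          · have hzx : z ≠ x := by
              rintro rfl
              exact hx h1
            exact ⟨hout z h1 hzx h2, z, h1, J.rfl' z⟩
      refine ⟨hlx, hxy, ⟨mem_TT.2 ((hq _).2 (Or.inl rfl)), hlx.trans hxy, ?_⟩, ?_, hqx,
        p.inv x⟩
      · intro z h1 h2
        rw [mem_TT, hq]
        rintro (h3 | ⟨h3, h4⟩)
        · exact h1.ne' h3
        · have h5 : z < y := lt_of_le_of_ne h2 h4
          rcases lt_trichotomy z x with h | h | h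
          · exact (hp (p.a x) z h1 (by rw [p.inv]; exact h)).1 h3
          · subst h; exact hx h3
          · exact hbet z h h5 h3
      · ext z
        unfold mv
        rw [Finset.mem_insert, Finset.mem_erase, mem_TT, mem_TT, hq]
        constructor
        · intro hz
          by_cases h : z = y
          · exact Or.inl h
          · right
            refine ⟨?_, Or.inr ⟨hz, h⟩⟩
            rintro rfl
            have := p.ht _ hz
            rw [p.inv] at this
            exact hlx.ne' this
        · rintro (rfl | ⟨h1, h2 | h2⟩)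
          · exact hy
          · exact absurd h2 h1
          · exact h2.1
    · left
      refine ⟨hx, hy, ?_⟩
      ext z
      rw [mem_TT, mem_TT, Pj.th_eq, cj_t]
      constructor
      · rintro ⟨_, w, hw, hj⟩
        have hwx : w ≠ x := by rintro rfl; exact hx hw
        have hwy : w ≠ y := by rintro rfl; exact hy hw
        rw [hfix w hw hwx hwy z hj]
        exact hw
      · intro hz
        have hwx : z ≠ x := by rintro rfl; exact hx hz
        have hwy : z ≠ y := by rintro rfl; exact hy hz
        exact ⟨hout z hz hwx hwy, z, hz, J.rfl' z⟩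

theorem m2elem_hook_t {x y z : Fin n} (hxy : x ≠ y) : (hook x y).t z ↔ z ≠ x ∧ z ≠ y := by
  show Equiv.swap x y z = z ↔ _
  constructor
  · intro h
    constructor
    · rintro rfl
      rw [Equiv.swap_apply_left] at h
      exact hxy h.symm
    · rintro rfl
      rw [Equiv.swap_apply_right] at h
      exact hxy h
  · rintro ⟨h1, h2⟩
    exact Equiv.swap_apply_of_ne_of_ne h1 h2

theorem m2elem_hook_x (x y : Fin n) : (hook x y).a x = y := Equiv.swap_apply_left _ _
theorem m2elem_hook_y (x y : Fin n) : (hook x y).a y = x := Equiv.swap_apply_right _ _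

theorem m2elem_hook_J {p : Pj n} {x y : Fin n} : J (hook x y).a p.a (p.a x) y := by
  have h1 := J.left (f := (hook x y).a) (g := p.a) x
  rw [m2elem_hook_x] at h1
  exact (J.right x).symm'.trans' h1

/-- hook steps: the partners -/
theorem step_hook {p : Pj n} (hp : Brauer p) {x y : Fin n} (hxy : x ≠ y) (z : Fin n) :
    (th p (hook x y)).a z = if z = x then y else if z = y then x else
      if z = p.a x then (if p.a y = y then z else p.a y)
      else if z = p.a y then (if p.a x = x then z else p.a x) else p.a z := by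
  rw [Pj.th_eq]
  by_cases hzx : z = x
  · subst hzx
    rw [if_pos rfl, cj_a_not (fun h => ((m2elem_hook_t hxy).1 h).1 rfl), m2elem_hook_x]
  · rw [if_neg hzx]
    by_cases hzy : z = y
    · subst hzy
      rw [if_pos rfl, cj_a_not (fun h => ((m2elem_hook_t hxy).1 h).2 rfl), m2elem_hook_y]
    · rw [if_neg hzy]
      have hst : (hook x y).t z := (m2elem_hook_t hxy).2 ⟨hzx, hzy⟩
      by_cases h1 : z = p.a x
      · rw [if_pos h1]
        have hJ : J (hook x y).a p.a z y := by rw [h1]; exact m2elem_hook_J
        by_cases h2 : p.a y = y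
        · rw [if_pos h2]
          apply cj_a_none hst
          rintro ⟨w, hw⟩
          exact Lk.not_through _ _ hw (hp y h2) hJ
        · rw [if_neg h2]
          apply cj_a_lk
          refine ⟨hst, (m2elem_hook_t hxy).2 ⟨?_, h2⟩, ?_, hJ.trans' (J.right y)⟩
          · intro h3
            rw [p.a_eq_iff] at h3
            exact hzy (h1.trans h3.symm)
          · intro h3
            rw [h1] at h3
            exact hxy (p.a_inj h3).symm
      · rw [if_neg h1]
        by_cases h2 : z = p.a y
        · rw [if_pos h2]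
          have hJ : J (hook x y).a p.a z x := by
            have h4 := J.left (f := (hook x y).a) (g := p.a) y
            rw [m2elem_hook_y] at h4
            rw [h2]
            exact (J.right y).symm'.trans' h4
          by_cases h3 : p.a x = x
          · rw [if_pos h3]
            apply cj_a_none hst
            rintro ⟨w, hw⟩
            exact Lk.not_through _ _ hw (hp x h3) hJ
          · rw [if_neg h3]
            apply cj_a_lk
            refine ⟨hst, (m2elem_hook_t hxy).2 ⟨h3, ?_⟩, ?_, hJ.trans' (J.right x)⟩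
            · intro h4
              rw [p.a_eq_iff] at h4
              exact hzx (h2.trans h4.symm)
            · intro h4
              rw [h2] at h4
              exact hxy (p.a_inj h4)
        · rw [if_neg h2]
          have hne1 : p.a z ≠ x := by
            intro h3
            rw [p.a_eq_iff] at h3
            exact h1 h3
          have hne2 : p.a z ≠ y := by
            intro h3
            rw [p.a_eq_iff] at h3
            exact h2 h3
          by_cases h3 : p.a z = z
          · rw [h3]
            apply cj_a_none hst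
            rintro ⟨w, hw⟩
            exact Lk.not_through _ _ hw (hp z h3) (J.rfl' z)
          · apply cj_a_lk
            exact ⟨hst, (m2elem_hook_t hxy).2 ⟨hne1, hne2⟩, h3, J.right z⟩

/-- a hook keeps `p` iff `x, y` are not both through -/
theorem keep_hook {p : Pj n} (hp : Brauer p) {x y : Fin n} (hxy : x ≠ y) :
    th (hook x y) p = p ↔ ¬ (p.t x ∧ p.t y) := by
  rw [th_eq_iff]
  constructor
  · rintro h ⟨hx, hy⟩
    obtain ⟨w, hw, hj⟩ := h x hx
    rw [m2elem_hook_t hxy] at hw
    rcases (m2elem_comp (p := p) (y := y) (p.ht x hx) hj).2 (Or.inl rfl) with h1 | h1 | h1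
    · exact hw.1 h1
    · exact hw.2 h1
    · rw [p.ht y hy] at h1; exact hw.2 h1
  · intro h z hz
    by_cases hzx : z = x
    · subst hzx
      have hyt : ¬ p.t y := fun h1 => h ⟨hz, h1⟩
      have hay : p.a y ≠ y := fun h1 => hyt (hp y h1)
      refine ⟨p.a y, (m2elem_hook_t hxy).2 ⟨?_, hay⟩, ?_⟩
      · intro h1
        rw [p.a_eq_iff, p.ht z hz] at h1
        exact hxy h1.symm
      · have h4 := J.left (f := (hook z y).a) (g := p.a) y
        rw [m2elem_hook_y] at h4
        exact (J.right y).symm'.trans' h4
    · by_cases hzy : z = y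
      · subst hzy
        have hxt : ¬ p.t x := fun h1 => h ⟨h1, hz⟩
        have hax : p.a x ≠ x := fun h1 => hxt (hp x h1)
        refine ⟨p.a x, (m2elem_hook_t hxy).2 ⟨hax, ?_⟩, m2elem_hook_J⟩
        intro h1
        rw [p.a_eq_iff, p.ht z hz] at h1
        exact hxy h1
      · exact ⟨z, (m2elem_hook_t hxy).2 ⟨hzx, hzy⟩, J.rfl' z⟩

/-- `q ≤ hook x y` iff `{x, y}` is an arc of `q` -/
theorem le_hook {q : Pj n} {x y : Fin n} (hxy : x ≠ y) :
    th q (hook x y) = q ↔ q.a x = y := by
  rw [Pj.th_eq]
  constructor
  · intro h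
    rw [← h, cj_a_not (fun h => ((m2elem_hook_t hxy).1 h).1 rfl), m2elem_hook_x]
  · intro h
    have hy : q.a y = x := by rw [← h, q.inv]
    apply cj_eq
    · intro z hz
      have hz' : z = x ∨ z = y := by
        by_contra h2
        rw [not_or] at h2
        exact hz ((m2elem_hook_t hxy).2 h2)
      rcases hz' with rfl | rfl
      · rw [m2elem_hook_x]
        exact ⟨h, fun h2 => hxy ((q.ht _ h2).symm.trans h)⟩
      · rw [m2elem_hook_y]
        exact ⟨hy, fun h2 => hxy (hy.symm.trans (q.ht _ h2))⟩
    · intro z _ hz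
      exact ⟨z, hz, J.rfl' z⟩
    · intro z hz _
      rw [m2elem_hook_t hxy] at hz
      refine ⟨(m2elem_hook_t hxy).2 ⟨?_, ?_⟩, J.right z⟩
      · intro h2
        rw [q.a_eq_iff] at h2
        exact hz.2 (h2.trans h)
      · intro h2
        rw [q.a_eq_iff] at h2
        exact hz.1 (h2.trans hy)
    · intro z _ h2 h3
      exact Or.inl ⟨h2, h3⟩

end

end Pool.Agent.H213PG
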