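import Pool.Agent.helper213_PG.M1Fri
import Pool.Agent.helper213_PG.M2Elem
import Mathlib.Data.Fintype.CardEmbedding
import Mathlib.Data.Nat.Choose.Basic

set_option autoImplicit false

/-!
# Counts for the Brauer monoids with few arcs (used in G1Free)
-/

namespace Pool.Agent.H213PG

open PA Pj

section

variable {n : ℕ}

theorem g1a_finite (n : ℕ) : Finite (Pj n) := by
  classical
  have : Function.Injective (fun p : Pj n => ((p.a, p.t) : (Fin n → Fin n) × (Fin n → Prop))) := by
    intro p q h
    have h1 := congrArg Prod.fst h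
    have h2 := congrArg Prod.snd h
    exact Pj.ext h1 h2
  exact Finite.of_injective _ this

instance : Finite (BP n) := by
  haveI := g1a_finite n
  exact inferInstanceAs (Finite {p : Pj n // Brauer p})

theorem g1a_min {w b : Pj n} (hc : (TT w).card = (TT b).card) (h : cj w b = w) : w = b := by
  have hsub : TT w ⊆ TT b := by
    intro x hx
    rw [mem_TT] at hx ⊢
    rw [← h, cj_t] at hx
    exact hx.1
  have heq : TT w = TT b := Finset.eq_of_subset_of_card_le hsub hc.symm.le
  have ht : ∀ x, w.t x ↔ b.t x := by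
    intro x
    rw [← mem_TT, ← mem_TT, heq]
  ext x
  · by_cases hx : b.t x
    · rw [b.ht x hx, w.ht x ((ht x).2 hx)]
    · conv_lhs => rw [← h]
      rw [cj_a_not hx]
  · exact ht x

open Classical in
/-- the points which are not through -/
noncomputable def g1aN (p : Pj n) : Finset (Fin n) := Finset.univ.filter (fun x => ¬ p.t x)

theorem g1a_mem {p : Pj n} {x : Fin n} : x ∈ g1aN p ↔ ¬ p.t x := by
  classical
  simp [g1aN]

theorem g1a_card (p : Pj n) : (g1aN p).card + (TT p).card = n := by
  classical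
  unfold g1aN TT
  rw [add_comm]
  rw [Finset.card_filter_add_card_filter_not]
  simp

theorem g1a_even (b : BP n) : Even (g1aN b.1).card := by
  classical
  have h := card_zero_of_inv (g1aN b.1) b.1.a
    (fun x hx => by
      rw [g1a_mem] at hx ⊢
      intro h
      have := b.1.ht _ h
      rw [b.1.inv] at this
      rw [← this] at h
      exact hx h)
    (fun x hx h => by
      rw [g1a_mem] at hx
      exact hx (b.2 x h))
    (fun x _ => b.1.inv x)
  rw [ZMod.natCast_eq_zero_iff] at h
  exact even_iff_two_dvd.2 h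

theorem g1a_parity (b : BP n) :
    (TT b.1).card = n ∨ (TT b.1).card + 2 = n ∨ (TT b.1).card + 4 ≤ n := by
  have h1 := g1a_card b.1
  obtain ⟨m, hm⟩ := g1a_even b
  omega

theorem g1a_full {b : Pj n} (hb : (TT b).card = n) : b = eps ∅ := by
  have h1 := g1a_card b
  have h2 : g1aN b = ∅ := by
    rw [← Finset.card_eq_zero]; omega
  have h3 : ∀ x, b.t x := by
    intro x
    by_contra h
    have := g1a_mem.2 h
    rw [h2] at this
    simp at this
  ext x
  · rw [b.ht x (h3 x)]; rfl
  · constructor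
    · intro _ h; simp at h
    · intro _; exact h3 x

theorem g1a_th_full {p : Pj n} : th p (eps ∅) = p := by
  rw [Pj.th_eq]
  have ht : ∀ x : Fin n, (eps ∅ : Pj n).t x := fun x h => by simp at h
  apply cj_eq
  · intro x hx; exact absurd (ht x) hx
  · intro x _ h; exact ⟨x, h, J.rfl' x⟩
  · intro x _ _
    exact ⟨ht _, J.right x⟩
  · intro x _ h1 h2
    exact Or.inl ⟨h1, h2⟩

/-! ### no arc -/

theorem g1a_zero_eq {b : BP n} (hb : (TT b.1).card = n) {p : BP n} (h : Rch b p) : p = b := by
  apply Subtype.ext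
  rw [g1a_full hb, g1a_full (b := p.1) (by rw [rch_card_B h, hb])]

theorem g1a_zero_deg (b : BP n) (hb : (TT b.1).card = n) :
    ∀ p q s : BP n, Rch b p → Fr p q → th q s = q → th s p = p → th p s = p ∨ th p s = q := by
  intro p q s hp hq hs _
  have h1 := g1a_zero_eq hb hp
  have h2 := g1a_zero_eq hb (hp.step hq)
  right
  rw [h1, ← h2, hs]

theorem g1a_zero_card (b : BP n) (hb : (TT b.1).card = n) :
    Nat.card {x : BP n × BP n // Rch b x.1 ∧ Fr x.1 x.2 ∧ x.1 ≠ x.2} + 2 =
      2 * (Nat.card {p : BP n // Rch b p} + 0) := by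
  have h1 : Nat.card {x : BP n × BP n // Rch b x.1 ∧ Fr x.1 x.2 ∧ x.1 ≠ x.2} = 0 := by
    rw [Nat.card_eq_zero]
    left
    constructor
    rintro ⟨x, h1, h2, h3⟩
    apply h3
    rw [g1a_zero_eq hb h1, g1a_zero_eq hb (h1.step h2)]
  have h2 : Nat.card {p : BP n // Rch b p} = 1 := by
    rw [Nat.card_eq_one_iff_unique]
    constructor
    · constructor
      rintro ⟨p, hp⟩ ⟨q, hq⟩
      apply Subtype.ext
      show p = q
      rw [g1a_zero_eq hb hp, g1a_zero_eq hb hq]
    · exact ⟨⟨b, Relation.ReflTransGen.refl⟩⟩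
  rw [h1, h2]

/-! ### one arc -/

theorem g1a_hook_of_card {p : BP n} (hb : (TT p.1).card + 2 = n) :
    ∃ x y, x ≠ y ∧ p.1 = hook x y := by
  classical
  have h1 := g1a_card p.1
  have h2 : (g1aN p.1).card = 2 := by omega
  rw [Finset.card_eq_two] at h2
  obtain ⟨x, y, hxy, h2⟩ := h2
  have hnt : ∀ z, ¬ p.1.t z ↔ z = x ∨ z = y := by
    intro z
    rw [← g1a_mem, h2]
    simp
  have hne : ∀ z, ¬ p.1.t z → ¬ p.1.t (p.1.a z) ∧ p.1.a z ≠ z := by
    intro z hz
    constructor
    · intro h
      have := p.1.ht _ h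
      rw [p.1.inv] at this
      rw [← this] at h
      exact hz h
    · intro h
      exact hz (p.2 z h)
  have hx := hne x ((hnt x).2 (Or.inl rfl))
  have hy := hne y ((hnt y).2 (Or.inr rfl))
  have hax : p.1.a x = y := by
    rcases (hnt _).1 hx.1 with h | h
    · exact absurd h hx.2
    · exact h
  have hay : p.1.a y = x := by rw [← hax, p.1.inv]
  refine ⟨x, y, hxy, ?_⟩
  ext z
  · by_cases hz : z = x
    · subst hz; rw [hax]; rw [m2elem_hook_x]
    · by_cases hz2 : z = y
      · subst hz2; rw [hay]; rw [m2elem_hook_y]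
      · have ht : p.1.t z := by
          by_contra h
          rcases (hnt z).1 h with h | h
          · exact hz h
          · exact hz2 h
        rw [p.1.ht z ht]
        show _ = ((Equiv.swap x y) z).1
        rw [Equiv.swap_apply_of_ne_of_ne hz hz2]
  · rw [m2elem_hook_t hxy]
    have := hnt z
    tauto

/-- the hook as a Brauer projection -/
def g1aH (x y : Fin n) : BP n := ⟨hook x y, brauer_hook x y⟩

theorem g1a_hook_card {x y : Fin n} (hxy : x ≠ y) : (TT (hook x y)).card + 2 = n := by
  classical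
  have h1 := g1a_card (hook x y)
  have h2 : g1aN (hook x y) = {x, y} := by
    ext z
    rw [g1a_mem, m2elem_hook_t hxy]
    simp
    tauto
  rw [h2, Finset.card_pair hxy] at h1
  omega

theorem g1a_hook_fr {x y z w : Fin n} (hxy : x ≠ y) (hzw : z ≠ w) :
    Fr (g1aH x y) (g1aH z w) ↔ (x = z ∨ x = w ∨ y = z ∨ y = w) := by
  rw [bp_fr]
  show (th (hook x y) (hook z w) = hook z w ∧ th (hook z w) (hook x y) = hook x y) ↔ _
  rw [keep_hook (brauer_hook z w) hxy, keep_hook (brauer_hook x y) hzw, m2elem_hook_t hzw,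
    m2elem_hook_t hzw, m2elem_hook_t hxy, m2elem_hook_t hxy]
  constructor
  · intro h
    have := h.1
    tauto
  · intro h
    constructor
    · rintro ⟨⟨h1, h2⟩, h3, h4⟩
      tauto
    · rintro ⟨⟨h1, h2⟩, h3, h4⟩
      rcases h with h | h | h | h
      · exact h1 h.symm
      · exact h3 h.symm
      · exact h2 h.symm
      · exact h4 h.symm

theorem g1a_one_rch {b : BP n} (hb : (TT b.1).card + 2 = n) (p : BP n) :
    Rch b p ↔ (TT p.1).card + 2 = n := by
  constructor
  · intro h
    rw [rch_card_B h]; exact hb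
  · intro hp
    obtain ⟨x, y, hxy, hpe⟩ := g1a_hook_of_card hp
    obtain ⟨z, w, hzw, hbe⟩ := g1a_hook_of_card hb
    have e1 : p = g1aH x y := Subtype.ext hpe
    have e2 : b = g1aH z w := Subtype.ext hbe
    rw [e1, e2]
    by_cases h : x = z
    · exact Relation.ReflTransGen.single ((g1a_hook_fr hzw hxy).2 (Or.inl h.symm))
    · have s1 : Fr (g1aH z w) (g1aH z x) := (g1a_hook_fr hzw (Ne.symm h)).2 (Or.inl rfl)
      have s2 : Fr (g1aH z x) (g1aH x y) :=
        (g1a_hook_fr (Ne.symm h) hxy).2 (Or.inr (Or.inr (Or.inl rfl)))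
      exact (Relation.ReflTransGen.single s1).tail s2

theorem g1a_one_deg (b : BP n) (hb : (TT b.1).card + 2 = n) :
    ∀ p q s : BP n, Rch b p → Fr p q → th q s = q → th s p = p → th p s = p ∨ th p s = q := by
  intro p q s hp hq hs _
  have hqc : (TT q.1).card + 2 = n := by
    rw [rch_card_B (hp.step hq)]; exact hb
  have hs1 : cj q.1 s.1 = q.1 := congrArg Subtype.val hs
  have hsub : (TT q.1).card ≤ (TT s.1).card := by
    apply Finset.card_le_card
    intro x hx
    rw [mem_TT] at hx ⊢
    rw [← hs1, cj_t] at hx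
    exact hx.1
  rcases g1a_parity s with h | h | h
  · left
    apply Subtype.ext
    rw [bp_th, g1a_full h]
    exact g1a_th_full
  · right
    have : q.1 = s.1 := g1a_min (by omega) hs1
    have : s = q := Subtype.ext this.symm
    rw [this]
    exact hq.1
  · omega

theorem g1a_hook_inj {x y z w : Fin n} (hxy : x ≠ y) (hzw : z ≠ w) (h : g1aH x y = g1aH z w) :
    (x = z ∧ y = w) ∨ (x = w ∧ y = z) := by
  have h1 : hook x y = hook z w := congrArg Subtype.val h
  have hx : ¬ (hook z w).t x := by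
    rw [← h1, m2elem_hook_t hxy]; tauto
  have ha : (hook z w).a x = y := by rw [← h1, m2elem_hook_x]
  rw [m2elem_hook_t hzw] at hx
  by_cases hxz : x = z
  · subst hxz
    rw [m2elem_hook_x] at ha
    exact Or.inl ⟨rfl, ha.symm⟩
  · have hxw : x = w := by tauto
    subst hxw
    rw [m2elem_hook_y] at ha
    exact Or.inr ⟨rfl, ha.symm⟩

theorem g1a_one_V (b : BP n) (hb : (TT b.1).card + 2 = n) :
    Nat.card {p : BP n // Rch b p} = n.choose 2 := by
  classical
  have hbij : Function.Bijective (fun p : {p : BP n // Rch b p} =>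
      (⟨g1aN p.1.1, by
        rw [Finset.mem_powersetCard]
        refine ⟨Finset.subset_univ _, ?_⟩
        have h1 := g1a_card p.1.1
        have h2 := (g1a_one_rch hb p.1).1 p.2
        omega⟩ : {s : Finset (Fin n) // s ∈ Finset.powersetCard 2 (Finset.univ : Finset (Fin n))})) := by
    constructor
    · rintro ⟨p, hp⟩ ⟨q, hq⟩ h
      have h' : g1aN p.1 = g1aN q.1 := congrArg Subtype.val h
      obtain ⟨x, y, hxy, hpe⟩ := g1a_hook_of_card ((g1a_one_rch hb p).1 hp)
      obtain ⟨z, w, hzw, hqe⟩ := g1a_hook_of_card ((g1a_one_rch hb q).1 hq)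
      apply Subtype.ext
      apply Subtype.ext
      show p.1 = q.1
      rw [hpe, hqe] at h' ⊢
      have hm : ∀ v, (v ≠ x ∧ v ≠ y) ↔ (v ≠ z ∧ v ≠ w) := by
        intro v
        rw [← m2elem_hook_t hxy, ← m2elem_hook_t hzw, ← not_iff_not, ← g1a_mem, ← g1a_mem, h']
      have hx := hm x
      have hy := hm y
      by_cases hxz : x = z
      · subst hxz
        have : y = w := by tauto
        rw [this]
      · have h1 : x = w := by tauto
        have h2 : y = z := by
          subst h1
          tauto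
        rw [h1, h2]
        show hook w z = hook z w
        unfold hook
        simp only [Equiv.swap_comm w z]
    · rintro ⟨s, hs⟩
      have hs' := (Finset.mem_powersetCard.1 hs).2
      rw [Finset.card_eq_two] at hs'
      obtain ⟨x, y, hxy, hse⟩ := hs'
      refine ⟨⟨g1aH x y, (g1a_one_rch hb _).2 (g1a_hook_card hxy)⟩, ?_⟩
      apply Subtype.ext
      show g1aN (hook x y) = s
      ext z
      rw [g1a_mem, m2elem_hook_t hxy, hse]
      simp
      tauto
  rw [Nat.card_eq_of_bijective _ hbij, Nat.card_eq_fintype_card, Fintype.card_coe,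
    Finset.card_powersetCard, Finset.card_univ, Fintype.card_fin]

theorem g1a_one_E (b : BP n) (hb : (TT b.1).card + 2 = n) :
    Nat.card {x : BP n × BP n // Rch b x.1 ∧ Fr x.1 x.2 ∧ x.1 ≠ x.2} = n.descFactorial 3 := by
  classical
  have hne : ∀ e : Fin 3 ↪ Fin n, e 1 ≠ e 0 ∧ e 1 ≠ e 2 ∧ e 0 ≠ e 2 := by
    intro e
    refine ⟨?_, ?_, ?_⟩ <;> intro h <;> have := e.injective h <;> simp at this
  have hbij : Function.Bijective (fun e : Fin 3 ↪ Fin n =>
      (⟨(g1aH (e 1) (e 0), g1aH (e 1) (e 2)), (g1a_one_rch hb _).2 (g1a_hook_card (hne e).1),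
        (g1a_hook_fr (hne e).1 (hne e).2.1).2 (Or.inl rfl), fun h => by
          rcases g1a_hook_inj (hne e).1 (hne e).2.1 h with h | h
          · exact (hne e).2.2 h.2
          · exact (hne e).2.1 h.1⟩ :
        {x : BP n × BP n // Rch b x.1 ∧ Fr x.1 x.2 ∧ x.1 ≠ x.2})) := by
    constructor
    · intro e e' h
      have h0 := congrArg Subtype.val h
      have h1 : g1aH (e 1) (e 0) = g1aH (e' 1) (e' 0) := congrArg Prod.fst h0
      have h2 : g1aH (e 1) (e 2) = g1aH (e' 1) (e' 2) := congrArg Prod.snd h0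
      have k1 := g1a_hook_inj (hne e).1 (hne e').1 h1
      have k2 := g1a_hook_inj (hne e).2.1 (hne e').2.1 h2
      have a1 := hne e
      have a2 := hne e'
      have e1 : e 1 = e' 1 := by
        rcases k1 with k1 | k1
        · exact k1.1
        · rcases k2 with k2 | k2
          · exact k2.1
          · exact absurd (k1.1.symm.trans k2.1) a2.2.2
      have e0 : e 0 = e' 0 := by
        rcases k1 with k1 | k1
        · exact k1.2
        · exact absurd (e1.symm.trans k1.1) a2.1
      have e2 : e 2 = e' 2 := by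
        rcases k2 with k2 | k2
        · exact k2.2
        · exact absurd (e1.symm.trans k2.1) a2.2.1
      ext i
      fin_cases i
      · exact congrArg Fin.val e0
      · exact congrArg Fin.val e1
      · exact congrArg Fin.val e2
    · rintro ⟨⟨p, q⟩, hp, hq, hpq⟩
      have hp' := (g1a_one_rch hb p).1 hp
      have hq' := (g1a_one_rch hb q).1 (Rch.step hp hq)
      obtain ⟨x, y, hxy, hpe⟩ := g1a_hook_of_card hp'
      obtain ⟨z, w, hzw, hqe⟩ := g1a_hook_of_card hq'
      have e1 : p = g1aH x y := Subtype.ext hpe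
      have e2 : q = g1aH z w := Subtype.ext hqe
      have hcomm : ∀ x y : Fin n, g1aH x y = g1aH y x := by
        intro x y
        apply Subtype.ext
        show hook x y = hook y x
        unfold hook
        simp only [Equiv.swap_comm x y]
      -- reduce to a common first point
      obtain ⟨u, v, v', huv, huv', e1', e2'⟩ : ∃ u v v' : Fin n, u ≠ v ∧ u ≠ v' ∧
          p = g1aH u v ∧ q = g1aH u v' := by
        have hq2 : Fr (g1aH x y) (g1aH z w) := by rw [← e1, ← e2]; exact hq
        rcases (g1a_hook_fr hxy hzw).1 hq2 with h | h | h | h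
        · subst h; exact ⟨x, y, w, hxy, hzw, e1, e2⟩
        · subst h; exact ⟨x, y, z, hxy, hzw.symm, e1, e2.trans (hcomm _ _)⟩
        · subst h; exact ⟨y, x, w, hxy.symm, hzw, e1.trans (hcomm _ _), e2⟩
        · subst h
          exact ⟨y, x, z, hxy.symm, hzw.symm, e1.trans (hcomm _ _), e2.trans (hcomm _ _)⟩
      have hvv : v ≠ v' := by
        rintro rfl
        exact hpq (e1'.trans e2'.symm)
      refine ⟨⟨![v, u, v'], ?_⟩, ?_⟩
      · intro i j hij
        fin_cases i <;> fin_cases j <;> simp_all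
      · apply Subtype.ext
        show (g1aH u v, g1aH u v') = (p, q)
        rw [e1', e2']
  rw [← Nat.card_eq_of_bijective _ hbij, Nat.card_eq_fintype_card, Fintype.card_embedding_eq,
    Fintype.card_fin, Fintype.card_fin]

theorem g1a_one_card (b : BP n) (hb : (TT b.1).card + 2 = n) :
    Nat.card {x : BP n × BP n // Rch b x.1 ∧ Fr x.1 x.2 ∧ x.1 ≠ x.2} + 2 =
      2 * (Nat.card {p : BP n // Rch b p} + (n.choose 2 * (n - 2) + 1 - n.choose 2)) := by
  rw [g1a_one_E b hb, g1a_one_V b hb]
  have h1 : n.descFactorial 3 = (n - 2) * n.descFactorial 2 := Nat.descFactorial_succ n 2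
  have h2 : n.descFactorial 2 = 2 * n.choose 2 := by
    rw [Nat.descFactorial_eq_factorial_mul_choose]; rfl
  have hn : 2 ≤ n := by omega
  have h3 : n.choose 2 ≤ n.choose 2 * (n - 2) + 1 := by
    rcases Nat.eq_or_lt_of_le hn with h | h
    · subst h; decide
    · have : 1 ≤ n - 2 := by omega
      calc n.choose 2 = n.choose 2 * 1 := (mul_one _).symm
        _ ≤ n.choose 2 * (n - 2) := Nat.mul_le_mul_left _ this
        _ ≤ _ := Nat.le_succ _
  rw [h1, h2]
  have h4 : (n - 2) * (2 * n.choose 2) = 2 * (n.choose 2 * (n - 2)) := by ring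
  rw [h4]
  omega

/-! ### four points, two arcs -/

theorem g1a_four_none {b : BP 4} (hb : (TT b.1).card = 0) (x : Fin 4) : ¬ b.1.t x := by
  intro h
  rw [Finset.card_eq_zero] at hb
  have := mem_TT.2 h
  rw [hb] at this
  simp at this

theorem g1a_four_ext {p q : BP 4} (hp : (TT p.1).card = 0) (hq : (TT q.1).card = 0) {x : Fin 4}
    (h : p.1.a x = q.1.a x) : p = q := by
  have hp1 : ∀ z, p.1.a z ≠ z := fun z h => g1a_four_none hp z (p.2 z h)
  have hq1 : ∀ z, q.1.a z ≠ z := fun z h => g1a_four_none hq z (q.2 z h)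
  apply Subtype.ext
  have key : ∀ z, p.1.a z = q.1.a z := by
    intro z
    by_cases h1 : z = x
    · rw [h1, h]
    · by_cases h2 : z = p.1.a x
      · rw [h2, p.1.inv, h, q.1.inv]
      · have a1 : p.1.a z ≠ x := by
          intro h3; rw [p.1.a_eq_iff] at h3; exact h2 h3
        have a2 : p.1.a z ≠ p.1.a x := fun h3 => h1 (p.1.a_inj h3)
        have a3 : q.1.a z ≠ x := by
          intro h3; rw [q.1.a_eq_iff] at h3; exact h2 (h3.trans h.symm)
        have a4 : q.1.a z ≠ p.1.a x := by
          rw [h]; exact fun h3 => h1 (q.1.a_inj h3)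
        have a5 := hp1 z
        have a6 := hq1 z
        have a7 := hp1 x
        generalize p.1.a z = u at *
        generalize q.1.a z = v at *
        generalize p.1.a x = w at *
        rw [Fin.ext_iff]
        simp only [ne_eq, Fin.ext_iff] at a1 a2 a3 a4 a5 a6 a7 h1 h2
        omega
  ext z
  · rw [key z]
  · exact ⟨fun h => absurd h (g1a_four_none hp z), fun h => absurd h (g1a_four_none hq z)⟩

theorem g1a_four_fr {p q : BP 4} (hp : (TT p.1).card = 0) (hq : (TT q.1).card = 0) : Fr p q := by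
  rw [bp_fr]
  constructor
  · rw [th_eq_iff]
    intro z hz
    exact absurd hz (g1a_four_none hq z)
  · rw [th_eq_iff]
    intro z hz
    exact absurd hz (g1a_four_none hp z)

theorem g1a_four_rch {b : BP 4} (hb : (TT b.1).card = 0) (p : BP 4) :
    Rch b p ↔ (TT p.1).card = 0 := by
  constructor
  · intro h; rw [rch_card_B h]; exact hb
  · intro hp; exact Relation.ReflTransGen.single (g1a_four_fr hb hp)

theorem g1a_four_deg (b : BP 4) (hb : (TT b.1).card = 0) :
    ∀ p q s : BP 4, Rch b p → Fr p q → th q s = q → th s p = p → th p s = p ∨ th p s = q := by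
  intro p q s hp hq hs hk
  by_cases hfull : ∀ x, s.1.t x
  · left
    have hc : (TT s.1).card = 4 := by
      have : TT s.1 = Finset.univ := by
        ext x; simp [mem_TT, hfull x]
      rw [this]; simp
    apply Subtype.ext
    rw [bp_th, g1a_full hc]
    exact g1a_th_full
  · right
    rw [not_forall] at hfull
    obtain ⟨x, hx⟩ := hfull
    have hpc : (TT p.1).card = 0 := (g1a_four_rch hb p).1 hp
    have hqc : (TT q.1).card = 0 := (g1a_four_rch hb q).1 (hp.step hq)
    have hrc : (TT (th p s).1).card = 0 := (g1a_four_rch hb _).1 (hp.step (fr_th hk))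
    apply g1a_four_ext hrc hqc (x := x)
    have h1 : (th p s).1.a x = s.1.a x := by
      rw [bp_th, Pj.th_eq, cj_a_not hx]
    have h2 : q.1.a x = s.1.a x := by
      have : (th q s).1.a x = s.1.a x := by
        rw [bp_th, Pj.th_eq, cj_a_not hx]
      rw [hs] at this
      exact this
    rw [h1, h2]

theorem g1a_four_V (b : BP 4) (hb : (TT b.1).card = 0) :
    Nat.card {p : BP 4 // Rch b p} = 3 := by
  classical
  have hbij : Function.Bijective (fun p : {p : BP 4 // Rch b p} =>
      (⟨p.1.1.a 0, fun h => g1a_four_none ((g1a_four_rch hb p.1).1 p.2) 0 (p.1.2 0 h)⟩ :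
        {x : Fin 4 // x ≠ 0})) := by
    constructor
    · rintro ⟨p, hp⟩ ⟨q, hq⟩ h
      have h' : p.1.a 0 = q.1.a 0 := congrArg Subtype.val h
      exact Subtype.ext (g1a_four_ext ((g1a_four_rch hb p).1 hp) ((g1a_four_rch hb q).1 hq) h')
    · rintro ⟨x, hx⟩
      have hk : th (g1aH 0 x) b = b := by
        apply Subtype.ext
        rw [bp_th]
        exact (keep_hook b.2 (Ne.symm hx)).2 (fun h => g1a_four_none hb 0 h.1)
      refine ⟨⟨th b (g1aH 0 x), Relation.ReflTransGen.single (fr_th hk)⟩, ?_⟩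
      apply Subtype.ext
      show (th b (g1aH 0 x)).1.a 0 = x
      rw [bp_th]
      show (th b.1 (hook 0 x)).a 0 = x
      rw [step_hook b.2 (Ne.symm hx), if_pos rfl]
  rw [Nat.card_eq_of_bijective _ hbij, Nat.card_eq_fintype_card]
  rfl

theorem g1a_four_card (b : BP 4) (hb : (TT b.1).card = 0) :
    Nat.card {x : BP 4 × BP 4 // Rch b x.1 ∧ Fr x.1 x.2 ∧ x.1 ≠ x.2} + 2 =
      2 * (Nat.card {p : BP 4 // Rch b p} + 1) := by
  classical
  rw [g1a_four_V b hb]
  have e : {x : BP 4 × BP 4 // Rch b x.1 ∧ Fr x.1 x.2 ∧ x.1 ≠ x.2} ≃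
      {x : {p : BP 4 // Rch b p} × {p : BP 4 // Rch b p} // x.1 ≠ x.2} := {
    toFun := fun x => ⟨(⟨x.1.1, x.2.1⟩, ⟨x.1.2, x.2.1.step x.2.2.1⟩),
      fun h => x.2.2.2 (congrArg Subtype.val h)⟩
    invFun := fun x => ⟨(x.1.1.1, x.1.2.1), x.1.1.2,
      g1a_four_fr ((g1a_four_rch hb _).1 x.1.1.2) ((g1a_four_rch hb _).1 x.1.2.2),
      fun h => x.2 (Subtype.ext h)⟩
    left_inv := fun x => rfl
    right_inv := fun x => rfl }
  rw [Nat.card_congr e]
  obtain ⟨f⟩ : Nonempty ({p : BP 4 // Rch b p} ≃ Fin 3) := by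
    have := Finite.equivFin {p : BP 4 // Rch b p}
    rw [g1a_four_V b hb] at this
    exact ⟨this⟩
  have e2 : {x : {p : BP 4 // Rch b p} × {p : BP 4 // Rch b p} // x.1 ≠ x.2} ≃
      {x : Fin 3 × Fin 3 // x.1 ≠ x.2} :=
    Equiv.subtypeEquiv (Equiv.prodCongr f f) (fun x => by
      simp only [Equiv.prodCongr_apply, Prod.map_fst, Prod.map_snd, ne_eq,
        EmbeddingLike.apply_eq_iff_eq])
  rw [Nat.card_congr e2, Nat.card_eq_fintype_card]
  decide

end

end Pool.Agent.H213PG
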