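import Pool.Agent.helper213_PG.G1Free
import Pool.Agent.helper213_PG.G1Freea

set_option autoImplicit false

/-!
# Brauer case: `m = 0`, `m = 1`, `(n, r) = (4, 0)`, parity (paper 3)
-/

namespace Pool.Agent.H213PG

open PA Pj

section

variable {n : ℕ}

theorem brauer_zero (b : BP n) (hb : (TT b.1).card = n) :
    Nonempty (MaxSub (xx b) ≃* FreeGroup (Fin 0)) :=
  free_case b (hmin_B b) (g1a_zero_deg b hb) _ (g1a_zero_card b hb)

theorem brauer_one (b : BP n) (hb : (TT b.1).card + 2 = n) :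
    Nonempty (MaxSub (xx b) ≃* FreeGroup (Fin (n.choose 2 * (n - 2) + 1 - n.choose 2))) :=
  free_case b (hmin_B b) (g1a_one_deg b hb) _ (g1a_one_card b hb)

theorem brauer_four (b : BP 4) (hb : (TT b.1).card = 0) :
    Nonempty (MaxSub (xx b) ≃* FreeGroup (Fin 1)) :=
  free_case b (hmin_B b) (g1a_four_deg b hb) _ (g1a_four_card b hb)

theorem brauer_parity (b : BP n) :
    (TT b.1).card = n ∨ (TT b.1).card + 2 = n ∨ (TT b.1).card + 4 ≤ n :=
  g1a_parity b

end

end Pool.Agent.H213PG
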