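import Pool.Agent.helper213_PG.M1Fri
import Pool.Agent.helper213_PG.M2Elem

set_option autoImplicit false

/-!
# Computations with arcs and isolated points for M4Fib
-/

namespace Pool.Agent.H213PG

open PA Pj

section pajj

variable {n : ℕ}

theorem m4fib_planar_arc {x y : Fin n} (_ : x < y) : Planar (arc x y) := by
  intro v w h1 h2
  have ha : ∀ z, (arc x y).a z = Equiv.swap x y z := fun _ => rfl
  rw [ha] at h2
  rw [ha, ha]
  by_cases hv : v = x
  · subst hv
    rw [Equiv.swap_apply_left] at h2
    have hw : Equiv.swap v y w = w :=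
      Equiv.swap_apply_of_ne_of_ne (ne_of_gt h1) (ne_of_lt h2)
    rw [hw, Equiv.swap_apply_left]
    refine ⟨?_, h1, h2⟩
    intro ht
    rcases ht with h | h
    · exact absurd h.1 (not_lt_of_gt h1)
    · exact absurd h.2 (not_lt_of_gt h2)
  · by_cases hv2 : v = y
    · subst hv2
      rw [Equiv.swap_apply_right] at h2
      exfalso
      omega
    · rw [Equiv.swap_apply_of_ne_of_ne hv hv2] at h2
      exfalso
      omega

theorem m4fib_planar_pa {T : Finset (Fin n)} {x y : Fin n} (hxy : x < y)
    (hT : ∀ z, x < z → z < y → z ∉ T) : Planar (pa T x y) := by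
  intro v w h1 h2
  have ha : ∀ z, (pa T x y).a z = Equiv.swap x y z := fun _ => rfl
  rw [ha] at h2
  rw [ha, ha]
  by_cases hv : v = x
  · subst hv
    rw [Equiv.swap_apply_left] at h2
    have hw : Equiv.swap v y w = w :=
      Equiv.swap_apply_of_ne_of_ne (ne_of_gt h1) (ne_of_lt h2)
    rw [hw, Equiv.swap_apply_left]
    refine ⟨?_, h1, h2⟩
    intro ht
    exact hT w h1 h2 ht.1
  · by_cases hv2 : v = y
    · subst hv2
      rw [Equiv.swap_apply_right] at h2
      exfalso
      omega
    · rw [Equiv.swap_apply_of_ne_of_ne hv hv2] at h2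
      exfalso
      omega

/-- `s` does not cut an arc of `p` -/
def M4clean (p s : Pj n) : Prop := ∀ v, s.t v → s.t (p.a v)

theorem m4fib_clean_a {p s : Pj n} (h : M4clean p s) {v : Fin n} (hv : s.t v) :
    (cj p s).a v = p.a v := by
  by_cases he : p.a v = v
  · rw [cj_a_none hv, he]
    rintro ⟨y, hy⟩
    exact hy.2.2.1 (J.eq_of_fixed s.inv p.inv (s.ht v hv) he hy.2.2.2)
  · exact cj_a_lk ⟨hv, h v hv, he, J.right v⟩

theorem m4fib_clean_t {p s : Pj n} (h : M4clean p s) {v : Fin n} :
    (cj p s).t v ↔ s.t v ∧ p.t v := by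
  rw [cj_t]
  constructor
  · rintro ⟨hv, z, hz, hj⟩
    refine ⟨hv, ?_⟩
    have h1 : z ∈ ({v, p.a v} : Set (Fin n)) := by
      refine (J.mem_iff s.inv p.inv ({v, p.a v} : Set (Fin n)) ?_ hj).1 (by simp)
      intro w hw
      rcases hw with rfl | hw
      · exact ⟨by rw [s.ht _ hv]; simp, by simp⟩
      · rw [Set.mem_singleton_iff] at hw
        subst hw
        exact ⟨by rw [s.ht _ (h v hv)]; simp, by rw [p.inv]; simp⟩
    rcases h1 with rfl | h1
    · exact hz
    · rw [Set.mem_singleton_iff] at h1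
      subst h1
      have := p.ht _ hz
      rw [p.inv] at this
      rw [this]
      exact hz
  · rintro ⟨hv, hz⟩
    exact ⟨hv, v, hz, J.rfl' v⟩

theorem m4fib_ext {p q : Pj n} (h1 : ∀ x, p.a x = q.a x) (h2 : ∀ x, p.t x ↔ q.t x) : p = q := by
  ext i
  · exact congrArg _ (h1 i)
  · exact h2 i

theorem m4fib_comm {p s : Pj n} (h1 : M4clean p s) (h2 : M4clean s p)
    (h3 : ∀ v, ¬ s.t v → ¬ p.t v → s.a v = p.a v) : cj p s = cj s p := by
  apply m4fib_ext
  · intro v
    by_cases hs : s.t v
    · by_cases hp : p.t v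
      · rw [m4fib_clean_a h1 hs, m4fib_clean_a h2 hp, s.ht v hs, p.ht v hp]
      · rw [m4fib_clean_a h1 hs, cj_a_not hp]
    · by_cases hp : p.t v
      · rw [cj_a_not hs, m4fib_clean_a h2 hp]
      · rw [cj_a_not hs, cj_a_not hp, h3 v hs hp]
  · intro v
    rw [m4fib_clean_t h1, m4fib_clean_t h2]
    exact and_comm

theorem m4fib_arc_a_l (x y : Fin n) : (arc x y).a x = y := Equiv.swap_apply_left x y
theorem m4fib_arc_a_r (x y : Fin n) : (arc x y).a y = x := Equiv.swap_apply_right x y
theorem m4fib_arc_a {x y z : Fin n} (h1 : z ≠ x) (h2 : z ≠ y) : (arc x y).a z = z :=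
  Equiv.swap_apply_of_ne_of_ne h1 h2

theorem m4fib_arc_t {x y z : Fin n} (hxy : x < y) : (arc x y).t z ↔ (z < x ∨ y < z) := by
  show (z < x ∧ z < y ∨ x < z ∧ y < z) ↔ _
  constructor
  · rintro (h | h)
    · exact Or.inl h.1
    · exact Or.inr h.2
  · rintro (h | h)
    · exact Or.inl ⟨h, h.trans hxy⟩
    · exact Or.inr ⟨hxy.trans h, h⟩

/-- an arc cuts nothing of `p` if `p` maps the interval to itself -/
theorem m4fib_clean_arc {p : Pj n} {x y : Fin n} (hxy : x < y)
    (h : ∀ v, x ≤ v → v ≤ y → x ≤ p.a v ∧ p.a v ≤ y) : M4clean p (arc x y) := by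
  intro v hv
  rw [m4fib_arc_t hxy] at hv ⊢
  by_contra hcon
  push Not at hcon
  have h1 := h (p.a v) hcon.1 hcon.2
  rw [p.inv] at h1
  omega

/-- disjoint arcs commute -/
theorem m4fib_comm_arc {x y z w : Fin n} (h1 : x < y) (h2 : y < z) (h3 : z < w) :
    cj (arc x y) (arc z w) = cj (arc z w) (arc x y) := by
  apply m4fib_comm
  · apply m4fib_clean_arc h3
    intro v hv1 hv2
    rw [m4fib_arc_a (by omega) (by omega)]
    exact ⟨hv1, hv2⟩
  · apply m4fib_clean_arc h1
    intro v hv1 hv2
    rw [m4fib_arc_a (by omega) (by omega)]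
    exact ⟨hv1, hv2⟩
  · intro v hv1 hv2
    rw [m4fib_arc_t h3] at hv1
    rw [m4fib_arc_t h1] at hv2
    exfalso
    omega

/-- an arc commutes with isolation of a set containing the interior and not the end points -/
theorem m4fib_comm_eps {x y : Fin n} {Z : Finset (Fin n)} (h1 : x < y) (hx : x ∉ Z) (hy : y ∉ Z)
    (h : ∀ v, x < v → v < y → v ∈ Z) : cj (arc x y) (eps Z) = cj (eps Z) (arc x y) := by
  apply m4fib_comm
  · intro v hv
    by_cases hvx : v = x
    · subst hvx; rw [m4fib_arc_a_l]; exact hy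
    · by_cases hvy : v = y
      · subst hvy; rw [m4fib_arc_a_r]; exact hx
      · rw [m4fib_arc_a hvx hvy]; exact hv
  · intro v hv
    exact hv
  · intro v hv1 hv2
    have hvZ : v ∈ Z := by
      by_contra h
      exact hv1 h
    rw [m4fib_arc_a (by rintro rfl; exact hx hvZ) (by rintro rfl; exact hy hvZ)]
    rfl

/-- `q` lies below the arc if it contains it and its interior is isolated -/
theorem m4fib_le_arc {q : Pj n} {x y : Fin n} (hxy : x < y) (h1 : q.a x = y)
    (h2 : ∀ v, x < v → v < y → q.a v = v ∧ ¬ q.t v) : cj q (arc x y) = q := by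
  have h1' : q.a y = x := by rw [← h1, q.inv]
  have hx : ¬ q.t x := fun h => by
    have := q.ht x h
    rw [h1] at this
    exact absurd this (ne_of_gt hxy)
  have hy : ¬ q.t y := fun h => by
    have := q.ht y h
    rw [h1'] at this
    exact absurd this (ne_of_lt hxy)
  have hc : M4clean q (arc x y) := by
    apply m4fib_clean_arc hxy
    intro v hv1 hv2
    rcases eq_or_lt_of_le hv1 with h | h
    · subst h; rw [h1]; exact ⟨le_of_lt hxy, le_refl _⟩
    · rcases eq_or_lt_of_le hv2 with h' | h'
      · subst h'; rw [h1']; exact ⟨le_refl _, le_of_lt hxy⟩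
      · rw [(h2 v h h').1]; exact ⟨hv1, hv2⟩
  apply m4fib_ext
  · intro v
    by_cases hv : (arc x y).t v
    · exact m4fib_clean_a hc hv
    · rw [cj_a_not hv]
      rw [m4fib_arc_t hxy] at hv
      push Not at hv
      by_cases hvx : v = x
      · subst hvx; rw [m4fib_arc_a_l, h1]
      · by_cases hvy : v = y
        · subst hvy; rw [m4fib_arc_a_r, h1']
        · rw [m4fib_arc_a hvx hvy, (h2 v (by omega) (by omega)).1]
  · intro v
    rw [m4fib_clean_t hc]
    constructor
    · exact fun h => h.2
    · intro h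
      refine ⟨?_, h⟩
      rw [m4fib_arc_t hxy]
      by_contra hcon
      push Not at hcon
      by_cases hvx : v = x
      · subst hvx; exact hx h
      · by_cases hvy : v = y
        · subst hvy; exact hy h
        · exact (h2 v (by omega) (by omega)).2 h

/-- isolating everything outside `T` and one arc -/
theorem m4fib_eps_pa {p : Pj n} {Z : Finset (Fin n)} {x y : Fin n} (hxy : x ≠ y)
    (h1 : p.a x = y) (hZ : ∀ v, v ∉ Z ↔ v ∈ TT p ∨ v = x ∨ v = y) :
    cj p (eps Z) = pa (TT p) x y := by
  have h1' : p.a y = x := by rw [← h1, p.inv]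
  have hc : M4clean p (eps Z) := by
    intro v hv
    have hv' := (hZ v).1 hv
    show p.a v ∉ Z
    rw [hZ]
    rcases hv' with h | h | h
    · rw [p.ht v (mem_TT.1 h)]; exact Or.inl h
    · subst h; rw [h1]; simp
    · subst h; rw [h1']; simp
  apply m4fib_ext
  · intro v
    show _ = Equiv.swap x y v
    by_cases hv : (eps Z).t v
    · rw [m4fib_clean_a hc hv]
      rcases (hZ v).1 hv with h | h | h
      · have h2 := p.ht v (mem_TT.1 h)
        rw [h2, Equiv.swap_apply_of_ne_of_ne]
        · rintro rfl; rw [h1] at h2; exact hxy h2.symm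
        · rintro rfl; rw [h1'] at h2; exact hxy h2
      · subst h; rw [h1, Equiv.swap_apply_left]
      · subst h; rw [h1', Equiv.swap_apply_right]
    · rw [cj_a_not hv]
      show v = _
      rw [Equiv.swap_apply_of_ne_of_ne]
      · rintro rfl; exact hv ((hZ v).2 (by simp))
      · rintro rfl; exact hv ((hZ v).2 (by simp))
  · intro v
    rw [m4fib_clean_t hc]
    show (v ∉ Z ∧ p.t v) ↔ (v ∈ TT p ∧ v ≠ x ∧ v ≠ y)
    rw [hZ, mem_TT]
    constructor
    · rintro ⟨-, h⟩
      refine ⟨h, ?_, ?_⟩
      · rintro rfl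
        have := p.ht _ h
        rw [h1] at this
        exact hxy this.symm
      · rintro rfl
        have := p.ht _ h
        rw [h1'] at this
        exact hxy this
    · rintro ⟨h, -, -⟩
      exact ⟨Or.inl h, h⟩

/-- isolating everything outside `T` and a pair of points -/
theorem m4fib_eps_two {p : Pj n} {Z : Finset (Fin n)} {x y : Fin n}
    (hxT : ¬ p.t x) (hyT : ¬ p.t y) (hTT : TT (cj p (eps Z)) = TT p)
    (hZ : ∀ v, v ∉ Z ↔ v ∈ TT p ∨ v = x ∨ v = y) :
    cj p (eps Z) = pt (TT p) ∨ cj p (eps Z) = pa (TT p) x y := by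
  set r := cj p (eps Z) with hr
  have ht : ∀ v, r.t v ↔ p.t v := fun v => by rw [← mem_TT, hTT, mem_TT]
  have hfix : ∀ v, v ≠ x → v ≠ y → r.a v = v := by
    intro v hvx hvy
    by_cases hv : v ∈ Z
    · exact cj_a_not (p := p) (s := eps Z) (fun h => h hv)
    · rcases (hZ v).1 hv with h | h | h
      · exact r.ht v ((ht v).2 (mem_TT.1 h))
      · exact absurd h hvx
      · exact absurd h hvy
  have hx : r.a x = x ∨ r.a x = y := by
    by_contra hcon
    push Not at hcon
    have := hfix _ hcon.1 hcon.2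
    rw [r.inv] at this
    exact hcon.1 this.symm
  have hy : r.a y = x ∨ r.a y = y := by
    by_contra hcon
    push Not at hcon
    have := hfix _ hcon.1 hcon.2
    rw [r.inv] at this
    exact hcon.2 this.symm
  rcases hx with hx | hx
  · left
    apply m4fib_ext
    · intro v
      show r.a v = v
      by_cases hvx : v = x
      · subst hvx; exact hx
      · by_cases hvy : v = y
        · subst hvy
          rcases hy with h | h
          · rw [← h, r.inv] at hx
            exact absurd (hx.trans h) hvx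
          · exact h
        · exact hfix v hvx hvy
    · intro v
      rw [ht]
      exact mem_TT.symm
  · right
    apply m4fib_ext
    · intro v
      show r.a v = Equiv.swap x y v
      by_cases hvx : v = x
      · subst hvx; rw [hx, Equiv.swap_apply_left]
      · by_cases hvy : v = y
        · subst hvy
          rw [Equiv.swap_apply_right, ← hx, r.inv]
        · rw [hfix v hvx hvy, Equiv.swap_apply_of_ne_of_ne hvx hvy]
    · intro v
      rw [ht]
      show p.t v ↔ (v ∈ TT p ∧ v ≠ x ∧ v ≠ y)
      rw [mem_TT]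
      constructor
      · intro h
        exact ⟨h, by rintro rfl; exact hxT h, by rintro rfl; exact hyT h⟩
      · exact fun h => h.1

/-- removing the arc `{x, y}` and putting it back -/
theorem m4fib_back {p1 : Pj n} {x y : Fin n} (hxy : x < y) (h1 : p1.a x = y)
    (h2 : ∀ v, x < v → v < y → p1.a v = v ∧ ¬ p1.t v) :
    cj (cj p1 (eps {x, y})) (arc x y) = p1 := by
  have h1' : p1.a y = x := by rw [← h1, p1.inv]
  have hxt : ¬ p1.t x := fun h => by
    have := p1.ht x h
    rw [h1] at this
    exact absurd this (ne_of_gt hxy)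
  have hyt : ¬ p1.t y := fun h => by
    have := p1.ht y h
    rw [h1'] at this
    exact absurd this (ne_of_lt hxy)
  have hc : M4clean p1 (eps {x, y}) := by
    intro v hv
    have hv' : v ∉ ({x, y} : Finset (Fin n)) := hv
    simp only [Finset.mem_insert, Finset.mem_singleton, not_or] at hv'
    show p1.a v ∉ ({x, y} : Finset (Fin n))
    simp only [Finset.mem_insert, Finset.mem_singleton, not_or]
    constructor
    · intro h
      have := congrArg p1.a h
      rw [p1.inv, h1] at this
      exact hv'.2 this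
    · intro h
      have := congrArg p1.a h
      rw [p1.inv, h1'] at this
      exact hv'.1 this
  set p0 := cj p1 (eps {x, y}) with hp0
  have ha : ∀ v, v ≠ x → v ≠ y → p0.a v = p1.a v := by
    intro v hvx hvy
    apply m4fib_clean_a hc
    show v ∉ ({x, y} : Finset (Fin n))
    simp [hvx, hvy]
  have hax : p0.a x = x := cj_a_not (p := p1) (s := eps {x, y}) (fun h => h (by simp))
  have hay : p0.a y = y := cj_a_not (p := p1) (s := eps {x, y}) (fun h => h (by simp))
  have ht : ∀ v, p0.t v ↔ p1.t v := by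
    intro v
    rw [hp0, m4fib_clean_t hc]
    constructor
    · exact fun h => h.2
    · intro h
      refine ⟨?_, h⟩
      show v ∉ ({x, y} : Finset (Fin n))
      simp only [Finset.mem_insert, Finset.mem_singleton, not_or]
      exact ⟨by rintro rfl; exact hxt h, by rintro rfl; exact hyt h⟩
  have hc0 : M4clean p0 (arc x y) := by
    apply m4fib_clean_arc hxy
    intro v hv1 hv2
    rcases eq_or_lt_of_le hv1 with h | h
    · subst h; rw [hax]; exact ⟨le_refl _, le_of_lt hxy⟩
    · rcases eq_or_lt_of_le hv2 with h' | h'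
      · subst h'; rw [hay]; exact ⟨le_of_lt hxy, le_refl _⟩
      · rw [ha v (ne_of_gt h) (ne_of_lt h'), (h2 v h h').1]; exact ⟨hv1, hv2⟩
  apply m4fib_ext
  · intro v
    by_cases hv : (arc x y).t v
    · rw [m4fib_clean_a hc0 hv]
      rw [m4fib_arc_t hxy] at hv
      exact ha v (by omega) (by omega)
    · rw [cj_a_not hv]
      rw [m4fib_arc_t hxy] at hv
      push Not at hv
      by_cases hvx : v = x
      · subst hvx; rw [m4fib_arc_a_l, h1]
      · by_cases hvy : v = y
        · subst hvy; rw [m4fib_arc_a_r, h1']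
        · rw [m4fib_arc_a hvx hvy, (h2 v (by omega) (by omega)).1]
  · intro v
    rw [m4fib_clean_t hc0, ht]
    constructor
    · exact fun h => h.2
    · intro h
      refine ⟨?_, h⟩
      rw [m4fib_arc_t hxy]
      by_contra hcon
      push Not at hcon
      by_cases hvx : v = x
      · subst hvx; exact hxt h
      · by_cases hvy : v = y
        · subst hvy; exact hyt h
        · exact (h2 v (by omega) (by omega)).2 h

theorem m4fib_TT_eps {Z : Finset (Fin n)} {v : Fin n} : v ∈ TT (eps Z) ↔ v ∉ Z := mem_TT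

theorem m4fib_TT_pa {T : Finset (Fin n)} {x y : Fin n} (hx : x ∉ T) (hy : y ∉ T) :
    TT (pa T x y) = T := by
  ext v
  rw [mem_TT]
  show (v ∈ T ∧ v ≠ x ∧ v ≠ y) ↔ v ∈ T
  constructor
  · exact fun h => h.1
  · intro h
    exact ⟨h, by rintro rfl; exact hx h, by rintro rfl; exact hy h⟩

theorem m4fib_TT_pt {T : Finset (Fin n)} : TT (pt T) = T := by
  ext v
  rw [mem_TT]
  rfl

/-- a projection whose through points contain those of `p` keeps `p` -/
theorem m4fib_keep {p s : Pj n} (h : TT p ⊆ TT s) : cj s p = p := by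
  rw [← th_eq, th_eq_iff]
  intro z hz
  exact ⟨z, mem_TT.1 (h (mem_TT.2 hz)), J.rfl' z⟩

theorem m4fib_TT_cj {p s : Pj n} (h : TT p ⊆ TT s) : TT (cj p s) = TT p := by
  have hk : th s p = p := m4fib_keep h
  have hf : Fr p (th p s) := fr_th hk
  have hc := fr_card hf
  symm
  apply Finset.eq_of_subset_of_card_le
  · intro z hz
    rw [mem_TT]
    exact ⟨mem_TT.1 (h hz), z, mem_TT.1 hz, J.rfl' z⟩
  · exact le_of_eq hc.symm

end pajj

end Pool.Agent.H213PG
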