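import Pool.Agent.helper213_PG.M1Fri
import Pool.Agent.helper213_PG.M2Elem
import Pool.Agent.helper213_PG.M4Fiba

set_option autoImplicit false

/-!
# Upper bound: trivial fibres and token moves (paper 2.2, 2.3)
-/

namespace Pool.Agent.H213PG

open PA Pj

section

variable {n : ℕ}

/-- systems of values for the moves of through points (in positions) -/
structure PSys (r : ℕ) {H : Type} [Group H]
    (U : Finset (Fin n) → Fin n → Fin n → Fin n → H) : Prop where
  R1 : ∀ T t j1 l1 j2 l2, T.card = r → free T t l2 → t < j1 → j1 < l1 → l1 < j2 → j2 < l2 →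
    U T t j1 l1 * U (mv T t l1) l1 j2 l2 = U T t j1 l2
  R2 : ∀ T t j1 l1 j2 l2, T.card = r → free T t l2 → t < j1 → j1 < l1 → l1 < j2 → j2 < l2 →
    U T t j1 l1 * U (mv T t l1) l1 j2 l2 = U T t j2 l2
  CM : ∀ T t j l t' j' l', T.card = r → free T t l → free T t' l' → t < j → j < l → l < t' →
    t' < j' → j' < l' → U T t j l * U (mv T t l) t' j' l' = U T t' j' l' * U (mv T t' l') t j l

/-- the square of two commuting elements -/
theorem m4fib_sq {P : Type} [PA P] {b : P} {G : Type} [Group G] {c : P → P → G} (hc : Coc b c)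
    {p s t : P} (hp : Rch b p) (hst : th s t = th t s) (h1 : th s p = p)
    (h2 : th t (th p s) = th p s) :
    th t p = p ∧ th s (th p t) = th p t ∧ th (th p s) t = th (th p t) s ∧
      c p (th p s) * c (th p s) (th (th p s) t) = c p (th p t) * c (th p t) (th (th p s) t) := by
  have he : th (th t s) p = p := kept_tri.1 ⟨h1, h2⟩
  have he' : th (th s t) p = p := by rw [hst]; exact he
  obtain ⟨k1, k2⟩ := kept_tri.2 he'
  have z1 : th p (th t s) = th (th (th p s) t) s := th_th p s t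
  have z2 : th p (th s t) = th (th (th p t) s) t := th_th p t s
  have e1 : th (th p s) t = th p (th t s) := by
    have a1 := th_p5 p s t
    rw [← z1] at a1
    have a2 : th (th p (th t s)) t = th p (th t s) := by
      rw [← hst, z2, th_idem]
    rw [← a1, a2]
  have e2 : th (th p t) s = th p (th t s) := by
    have a1 := th_p5 p t s
    rw [← z2] at a1
    have a2 : th (th p (th s t)) s = th p (th s t) := by
      rw [hst, z1, th_idem]
    rw [← a1, a2, hst]
  refine ⟨k1, k2, e1.trans e2.symm, ?_⟩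
  have hf : Fr p (th (th p s) t) := by rw [e1]; exact fr_th he
  have q1 : th (th (th p s) t) s = th (th p s) t := by
    rw [e1, ← e2, th_idem]
  have q2 : th (th (th p s) t) t = th (th p s) t := th_idem _ _
  rw [← hc.tri p _ s hp hf q1 h1, ← hc.tri p _ t hp hf q2 k1]

/-- the projections without arcs -/
def m4pt (T : Finset (Fin n)) : MP n := ⟨pt T, planar_pt T⟩
/-- isolation -/
def m4eps (T : Finset (Fin n)) : MP n := ⟨eps T, planar_eps T⟩
/-- arcs -/
def m4arc (x y : Fin n) (h : x < y) : MP n := ⟨arc x y, m4fib_planar_arc h⟩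

/-- rank `r` with a gap -/
def M4good (r : ℕ) (p : MP n) : Prop := (TT p.1).card = r ∧ HasGap p.1

theorem m4fib_good {r : ℕ} {p q : MP n} (h : TT q.1 = TT p.1) (hp : M4good r p) :
    M4good r q := by
  have ht : ∀ z, q.1.t z ↔ p.1.t z := fun z => by rw [← mem_TT, h, mem_TT]
  refine ⟨by rw [h]; exact hp.1, ?_⟩
  obtain ⟨x, y, h1, h2, h3⟩ := hp.2
  exact ⟨x, y, h1, fun h => h2 ((ht x).1 h), fun h => h3 ((ht y).1 h)⟩

section fibre

variable {r : ℕ} {b : MP n} {H : Type} [Group H] {v : MP n → MP n → H}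

theorem m4fib_inv (hv : Coc b v) {p q : MP n} (hp : Rch b p) (h : Fr p q) (h1 : v p q = 1) :
    v q p = 1 := by
  rw [hv.inv' hp h, h1, inv_one]

/-- (i) -/
theorem m4fib_i (hv : Coc b v) (hb : ∀ p : MP n, M4good r p → Rch b p)
    (h0 : ∀ p : MP n, M4good r p → v p (m4pt (TT p.1)) = 1) {p : MP n} (hp : M4good r p)
    {X : Finset (Fin n)} (hX : ∀ z ∈ X, z ∉ TT p.1) :
    TT (th p (m4eps X)).1 = TT p.1 ∧ v p (th p (m4eps X)) = 1 := by
  have hsub : TT p.1 ⊆ TT (eps X) := by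
    intro z hz
    rw [m4fib_TT_eps]
    exact fun h => hX z h hz
  have hTT : TT (th p (m4eps X)).1 = TT p.1 := m4fib_TT_cj hsub
  refine ⟨hTT, ?_⟩
  have hk : th (m4eps X) p = p := Subtype.ext (m4fib_keep hsub)
  have hle : th (m4pt (TT p.1)) (m4eps X) = m4pt (TT p.1) := by
    apply Subtype.ext
    show cj (pt (TT p.1)) (eps X) = pt (TT p.1)
    have hc : M4clean (pt (TT p.1)) (eps X) := fun w hw => hw
    apply m4fib_ext
    · intro w
      by_cases hw : (eps X).t w
      · exact m4fib_clean_a hc hw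
      · exact cj_a_not hw
    · intro w
      rw [m4fib_clean_t hc]
      constructor
      · exact fun h => h.2
      · intro h
        exact ⟨fun h2 => hX w h2 h, h⟩
  have hf : Fr p (m4pt (TT p.1)) := fr_of_TT (by
    show TT p.1 = TT (pt (TT p.1))
    rw [m4fib_TT_pt])
  have e := hv.tri p _ _ (hb p hp) hf hle hk
  rw [h0 p hp] at e
  have e2 := h0 (th p (m4eps X)) (m4fib_good hTT hp)
  rw [hTT] at e2
  rw [e2, mul_one] at e
  exact e.symm

/-- (ii) -/
theorem m4fib_ii (hv : Coc b v) (hb : ∀ p : MP n, M4good r p → Rch b p)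
    (h0 : ∀ p : MP n, M4good r p → v p (m4pt (TT p.1)) = 1) {p : MP n} (hp : M4good r p)
    {x y : Fin n} (hxy : x < y) (hT : ∀ z, x ≤ z → z ≤ y → z ∉ TT p.1)
    (w : MP n) (hw : w.1 = pa (TT p.1) x y) : v p w = 1 := by
  classical
  have hx : x ∉ TT p.1 := hT x le_rfl (le_of_lt hxy)
  have hy : y ∉ TT p.1 := hT y (le_of_lt hxy) le_rfl
  have hTw : TT w.1 = TT p.1 := by rw [hw]; exact m4fib_TT_pa hx hy
  set Z : Finset (Fin n) := Finset.univ.filter (fun z => ¬ (z ∈ TT p.1 ∨ z = x ∨ z = y)) with hZ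
  have hZm : ∀ z, z ∉ Z ↔ z ∈ TT p.1 ∨ z = x ∨ z = y := by
    intro z
    rw [hZ, Finset.mem_filter]
    simp only [Finset.mem_univ, true_and, not_not]
  have hZT : ∀ z ∈ Z, z ∉ TT p.1 := fun z hz h => (hZm z).2 (Or.inl h) hz
  obtain ⟨hTT, hi⟩ := m4fib_i hv hb h0 hp hZT
  have hf : Fr p w := fr_of_TT hTw.symm
  have hk : th (m4eps Z) p = p := Subtype.ext (m4fib_keep (fun z hz => by
    rw [show (m4eps Z).1 = eps Z from rfl, m4fib_TT_eps]; exact fun h => hZT z h hz))
  have hle : th w (m4eps Z) = w := by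
    apply Subtype.ext
    show cj w.1 (eps Z) = w.1
    have hwx : w.1.a x = y := by rw [hw]; exact Equiv.swap_apply_left x y
    rw [m4fib_eps_pa (ne_of_lt hxy) hwx (by rw [hTw]; exact hZm), hTw, hw]
  have e := hv.tri p w _ (hb p hp) hf hle hk
  rw [hi, one_mul] at e
  rw [e]
  have hgw : M4good r w := m4fib_good hTw hp
  rcases m4fib_eps_two (p := p.1) (Z := Z) (x := x) (y := y) (fun h => hx (mem_TT.2 h))
    (fun h => hy (mem_TT.2 h)) hTT hZm with h | h
  · have h1 : th p (m4eps Z) = m4pt (TT p.1) := Subtype.ext h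
    rw [h1, ← hTw]
    exact m4fib_inv hv (hb w hgw) (fr_of_TT (by
      show TT w.1 = TT (pt (TT w.1)); rw [m4fib_TT_pt])) (h0 w hgw)
  · have h1 : th p (m4eps Z) = w := Subtype.ext (h.trans hw.symm)
    rw [h1]
    exact hv.self (hb w hgw)

/-- an innermost arc -/
theorem m4fib_inner {q : Pj n} (hq : Planar q) (h : ∃ z, q.a z ≠ z) :
    ∃ x, x < q.a x ∧ ∀ w, x < w → w < q.a x → q.a w = w ∧ ¬ q.t w := by
  classical
  have hex : ∃ d : ℕ, ∃ x : Fin n, x < q.a x ∧ (q.a x).1 - x.1 = d := by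
    obtain ⟨z, hz⟩ := h
    rcases lt_or_gt_of_ne hz with h1 | h1
    · exact ⟨_, q.a z, by rw [q.inv]; exact h1, rfl⟩
    · exact ⟨_, z, h1, rfl⟩
  obtain ⟨x, hx1, hx2⟩ := Nat.find_spec hex
  have hmin := fun d (hd : d < Nat.find hex) => Nat.find_min hex hd
  refine ⟨x, hx1, ?_⟩
  intro w hw1 hw2
  obtain ⟨h1, h2, h3⟩ := hq x w hw1 hw2
  refine ⟨?_, h1⟩
  by_contra hne
  rcases lt_or_gt_of_ne hne with h4 | h4
  · refine hmin (w.1 - (q.a w).1) ?_ ⟨q.a w, by rw [q.inv]; exact h4, by rw [q.inv]⟩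
    rw [← hx2]
    omega
  · refine hmin ((q.a w).1 - w.1) ?_ ⟨w, h4, rfl⟩
    rw [← hx2]
    omega

/-- (F) all values in a fibre are trivial -/
theorem m4fib_fib (hv : Coc b v) (hb : ∀ p : MP n, M4good r p → Rch b p)
    (h0 : ∀ p : MP n, M4good r p → v p (m4pt (TT p.1)) = 1) :
    ∀ p q : MP n, M4good r p → TT q.1 = TT p.1 → v p q = 1 := by
  classical
  suffices hmain : ∀ (N : ℕ) (q : MP n),
      (Finset.univ.filter (fun z => q.1.a z ≠ z)).card < N →
      ∀ p : MP n, M4good r p → TT q.1 = TT p.1 → v p q = 1 by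
    intro p q hp hTT
    exact hmain _ q (Nat.lt_succ_self _) p hp hTT
  intro N
  induction N with
  | zero => intro q hq; exact absurd hq (Nat.not_lt_zero _)
  | succ N ih =>
    intro q hqN p hp hTT
    by_cases hex : ∃ z, q.1.a z ≠ z
    · obtain ⟨x, hx1, hx2⟩ := m4fib_inner q.2 hex
      set y := q.1.a x with hy
      have hyx : q.1.a y = x := by rw [hy, q.1.inv]
      have hxt : ¬ q.1.t x := fun h => (ne_of_gt hx1) (q.1.ht x h)
      have hyt : ¬ q.1.t y := fun h => by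
        have := q.1.ht y h
        rw [hyx] at this
        exact (ne_of_lt hx1) this
      have hT : ∀ z, x ≤ z → z ≤ y → z ∉ TT p.1 := by
        intro z h1 h2 h3
        rw [← hTT, mem_TT] at h3
        rcases eq_or_lt_of_le h1 with h | h
        · subst h; exact hxt h3
        · rcases eq_or_lt_of_le h2 with h' | h'
          · subst h'; exact hyt h3
          · exact (hx2 z h h').2 h3
      have hsub : ∀ p' : MP n, TT p'.1 = TT p.1 → TT p'.1 ⊆ TT (arc x y) := by
        intro p' h z hz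
        rw [mem_TT, m4fib_arc_t hx1]
        by_contra hcon
        push Not at hcon
        rw [h] at hz
        exact hT z hcon.1 hcon.2 hz
      have hkA : ∀ p' : MP n, TT p'.1 = TT p.1 → th (m4arc x y hx1) p' = p' :=
        fun p' h => Subtype.ext (m4fib_keep (hsub p' h))
      -- first factor
      set p1 := th p (m4arc x y hx1) with hp1
      have hT1 : TT p1.1 = TT p.1 := m4fib_TT_cj (hsub p rfl)
      have hg1 : M4good r p1 := m4fib_good hT1 hp
      set w : MP n := ⟨pa (TT p.1) x y, m4fib_planar_pa hx1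
        (fun z h1 h2 => hT z (le_of_lt h1) (le_of_lt h2))⟩ with hw
      have hTw : TT w.1 = TT p.1 := m4fib_TT_pa (hT x le_rfl (le_of_lt hx1))
        (hT y (le_of_lt hx1) le_rfl)
      have hwle : th w (m4arc x y hx1) = w := by
        apply Subtype.ext
        apply m4fib_le_arc hx1
        · exact Equiv.swap_apply_left x y
        · intro z h1 h2
          refine ⟨Equiv.swap_apply_of_ne_of_ne (ne_of_gt h1) (ne_of_lt h2), ?_⟩
          exact fun h => hT z (le_of_lt h1) (le_of_lt h2) h.1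
      have e1 := hv.tri p w _ (hb p hp) (fr_of_TT hTw.symm) hwle (hkA p rfl)
      rw [m4fib_ii hv hb h0 hp hx1 hT w rfl, ← hp1,
        m4fib_ii hv hb h0 hg1 hx1 (by rw [hT1]; exact hT) w (by rw [hT1]), mul_one] at e1
      -- second factor
      have hqle : th q (m4arc x y hx1) = q := Subtype.ext (m4fib_le_arc hx1 rfl hx2)
      have e2 := hv.tri p q _ (hb p hp) (fr_of_TT hTT.symm) hqle (hkA p rfl)
      rw [← hp1, ← e1, one_mul] at e2
      rw [e2]
      have hX1 : ∀ z ∈ ({x, y} : Finset (Fin n)), z ∉ TT p1.1 := by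
        intro z hz
        rw [hT1]
        simp only [Finset.mem_insert, Finset.mem_singleton] at hz
        rcases hz with rfl | rfl
        · exact hT _ le_rfl (le_of_lt hx1)
        · exact hT _ (le_of_lt hx1) le_rfl
      obtain ⟨hT0, hi0⟩ := m4fib_i hv hb h0 hg1 hX1
      set p0 := th p1 (m4eps {x, y}) with hp0
      have hg0 : M4good r p0 := m4fib_good hT0 hg1
      have hback : th p0 (m4arc x y hx1) = p1 := by
        apply Subtype.ext
        show cj (cj p1.1 (eps {x, y})) (arc x y) = p1.1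
        apply m4fib_back hx1
        · show (cj p.1 (arc x y)).a x = y
          rw [cj_a_not (by rw [m4fib_arc_t hx1]; omega), m4fib_arc_a_l]
        · intro z h1 h2
          constructor
          · show (cj p.1 (arc x y)).a z = z
            rw [cj_a_not (by rw [m4fib_arc_t hx1]; omega), m4fib_arc_a (ne_of_gt h1) (ne_of_lt h2)]
          · intro h
            rw [← mem_TT, hT1] at h
            exact hT z (le_of_lt h1) (le_of_lt h2) h
      have hT01 : TT p0.1 = TT p.1 := hT0.trans hT1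
      have hf01 : Fr p1 p0 := fr_of_TT hT0.symm
      have e3 : v p0 p1 = 1 := m4fib_inv hv (hb p1 hg1) hf01 hi0
      have e4 := hv.tri p0 q _ (hb p0 hg0) (fr_of_TT (hT01.trans hTT.symm)) hqle (hkA p0 hT01)
      rw [hback, e3, one_mul] at e4
      rw [← e4]
      -- remove the arc from q
      have hgq : M4good r q := m4fib_good hTT hp
      have hXq : ∀ z ∈ ({x, y} : Finset (Fin n)), z ∉ TT q.1 := by
        intro z hz
        rw [hTT]
        simp only [Finset.mem_insert, Finset.mem_singleton] at hz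
        rcases hz with rfl | rfl
        · exact hT _ le_rfl (le_of_lt hx1)
        · exact hT _ (le_of_lt hx1) le_rfl
      obtain ⟨hTq0, hiq0⟩ := m4fib_i hv hb h0 hgq hXq
      set q0 := th q (m4eps {x, y}) with hq0
      have hf0q : Fr p0 q := fr_of_TT (hT01.trans hTT.symm)
      have hkq : th (m4eps {x, y}) q = q := Subtype.ext (m4fib_keep (fun z hz => by
        rw [show (m4eps {x, y}).1 = eps {x, y} from rfl, m4fib_TT_eps]
        exact fun h => hXq z h hz))
      have hp0le : th p0 (m4eps {x, y}) = p0 := th_idem _ _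
      have e5 := hv.tri q p0 _ (hb q hgq) hf0q.symm hp0le hkq
      rw [← hq0, hiq0, one_mul] at e5
      have hTq0' : TT q0.1 = TT p0.1 := hTq0.trans (hTT.trans hT01.symm)
      have hlt : (Finset.univ.filter (fun z => q0.1.a z ≠ z)).card < N := by
        refine lt_of_lt_of_le (Finset.card_lt_card ?_) (Nat.lt_succ_iff.1 hqN)
        rw [Finset.ssubset_iff_of_subset]
        · refine ⟨x, ?_, ?_⟩
          · rw [Finset.mem_filter]
            exact ⟨Finset.mem_univ _, ne_of_gt hx1⟩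
          · rw [Finset.mem_filter]
            rintro ⟨-, h⟩
            apply h
            show (cj q.1 (eps {x, y})).a x = x
            exact cj_a_not (p := q.1) (s := eps {x, y}) (fun h => h (by simp))
        · intro z hz
          rw [Finset.mem_filter] at hz ⊢
          refine ⟨Finset.mem_univ _, ?_⟩
          intro h
          apply hz.2
          show (cj q.1 (eps {x, y})).a z = z
          by_cases hz2 : (eps {x, y}).t z
          · apply cj_a_none hz2
            rintro ⟨z', hz'⟩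
            exact hz'.2.2.1 (J.eq_of_fixed (eps {x, y}).inv q.1.inv rfl h hz'.2.2.2)
          · exact cj_a_not hz2
      have e6 := ih q0 hlt p0 hg0 hTq0'
      have hfpq0 : Fr p0 q0 := fr_of_TT hTq0'.symm
      have e7 : v q0 p0 = 1 := m4fib_inv hv (hb p0 hg0) hfpq0 e6
      rw [e7] at e5
      exact m4fib_inv hv (hb q hgq) hf0q.symm e5
    · push Not at hex
      have hqe : q = m4pt (TT p.1) := by
        apply Subtype.ext
        apply m4fib_ext
        · intro z; exact hex z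
        · intro z
          rw [← mem_TT, hTT]
          rfl
      rw [hqe]
      exact h0 p hp

end fibre

section tokens

theorem m4fib_free_mono {T : Finset (Fin n)} {t l l' : Fin n} (h : free T t l) (h1 : t < l')
    (h2 : l' ≤ l) : free T t l' :=
  ⟨h.1, h1, fun x hx hx' => h.2.2 x hx (hx'.trans h2)⟩

theorem m4fib_mem_mv {T : Finset (Fin n)} {t l z : Fin n} :
    z ∈ mv T t l ↔ z = l ∨ (z ≠ t ∧ z ∈ T) := by
  rw [mv, Finset.mem_insert, Finset.mem_erase]

theorem m4fib_card_mv {T : Finset (Fin n)} {t l : Fin n} (h : free T t l) :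
    (mv T t l).card = T.card := by
  have h1 : l ∉ T.erase t := fun h2 => h.2.2 l h.2.1 le_rfl (Finset.mem_of_mem_erase h2)
  rw [mv, Finset.card_insert_of_notMem h1, Finset.card_erase_add_one h.1]

theorem m4fib_mv_mv {T : Finset (Fin n)} {t l l' : Fin n} (h : free T t l') (h1 : t < l)
    (h2 : l ≤ l') : mv (mv T t l) l l' = mv T t l' := by
  ext z
  rw [m4fib_mem_mv, m4fib_mem_mv, m4fib_mem_mv]
  have h3 := h.2.2 l h1 h2
  constructor
  · rintro (h4 | ⟨h4, h5 | h5⟩)
    · exact Or.inl h4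
    · exact absurd h5 h4
    · exact Or.inr h5
  · rintro (h4 | h4)
    · exact Or.inl h4
    · by_cases hz : z = l
      · subst hz; exact absurd h4.2 h3
      · exact Or.inr ⟨hz, Or.inr h4⟩

theorem m4fib_free_mv {T : Finset (Fin n)} {t l l' : Fin n} (h : free T t l') (h1 : t < l)
    (h2 : l < l') : free (mv T t l) l l' := by
  refine ⟨m4fib_mem_mv.2 (Or.inl rfl), h2, ?_⟩
  intro x hx hx'
  rw [m4fib_mem_mv]
  rintro (h3 | h3)
  · exact absurd h3 (ne_of_gt hx)
  · exact h.2.2 x (h1.trans hx) hx' h3.2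

/-- an arc at a through point keeps the projection -/
theorem m4fib_keep_l {p : Pj n} {t j l : Fin n} (h1 : t < j) (h2 : j < l)
    (hf : free (TT p) t l) (hpj : p.a j = l) : cj (arc t j) p = p := by
  rw [← th_eq, th_eq_iff]
  intro z hz
  by_cases hzt : z = t
  · subst hzt
    refine ⟨l, (m4fib_arc_t h1).2 (Or.inr h2), ?_⟩
    have k1 : J (arc z j).a p.a l j := by
      have := J.right (f := (arc z j).a) (g := p.a) j
      rw [hpj] at this
      exact this.symm'
    have k2 : J (arc z j).a p.a z j := by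
      have := J.left (f := (arc z j).a) (g := p.a) z
      rw [m4fib_arc_a_l] at this
      exact this
    exact k1.trans' k2.symm'
  · refine ⟨z, (m4fib_arc_t h1).2 ?_, J.rfl' z⟩
    by_contra hcon
    push Not at hcon
    exact hf.2.2 z (lt_of_le_of_ne hcon.1 (Ne.symm hzt)) (hcon.2.trans (le_of_lt h2))
      (mem_TT.2 hz)

theorem m4fib_TT_l {p : Pj n} {t j l : Fin n} (h1 : t < j) (h2 : j < l)
    (hf : free (TT p) t l) (hpj : p.a j = l) : TT (cj p (arc t j)) = mv (TT p) t l := by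
  have hk : th (arc t j) p = p := m4fib_keep_l h1 h2 hf hpj
  have hfr : Fr p (th p (arc t j)) := fr_th hk
  have hc := fr_card hfr
  symm
  apply Finset.eq_of_subset_of_card_le
  · intro z hz
    rw [mem_TT]
    rcases m4fib_mem_mv.1 hz with rfl | ⟨h3, h4⟩
    · refine ⟨(m4fib_arc_t h1).2 (Or.inr h2), t, mem_TT.1 hf.1, ?_⟩
      have k1 : J (arc t j).a p.a z j := by
        have := J.right (f := (arc t j).a) (g := p.a) j
        rw [hpj] at this
        exact this.symm'
      have k2 : J (arc t j).a p.a t j := by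
        have := J.left (f := (arc t j).a) (g := p.a) t
        rw [m4fib_arc_a_l] at this
        exact this
      exact k1.trans' k2.symm'
    · refine ⟨(m4fib_arc_t h1).2 ?_, z, mem_TT.1 h4, J.rfl' z⟩
      by_contra hcon
      push Not at hcon
      exact hf.2.2 z (lt_of_le_of_ne hcon.1 (Ne.symm h3)) (hcon.2.trans (le_of_lt h2)) h4
  · rw [m4fib_card_mv hf]
    exact le_of_eq hc.symm

/-- mirror image -/
theorem m4fib_keep_r {q : Pj n} {T : Finset (Fin n)} {t j l : Fin n} (h1 : t < j) (h2 : j < l)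
    (hf : free T t l) (hT : TT q = mv T t l) (hqt : q.a t = j) : cj (arc j l) q = q := by
  rw [← th_eq, th_eq_iff]
  intro z hz
  have hz' : z ∈ mv T t l := by rw [← hT]; exact mem_TT.2 hz
  rcases m4fib_mem_mv.1 hz' with rfl | ⟨h3, h4⟩
  · refine ⟨t, (m4fib_arc_t h2).2 (Or.inl h1), ?_⟩
    have k1 : J (arc j z).a q.a t j := by
      have := J.right (f := (arc j z).a) (g := q.a) t
      rw [hqt] at this
      exact this
    have k2 : J (arc j z).a q.a j z := by
      have := J.left (f := (arc j z).a) (g := q.a) j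
      rw [m4fib_arc_a_l] at this
      exact this
    exact k1.trans' k2
  · refine ⟨z, (m4fib_arc_t h2).2 ?_, J.rfl' z⟩
    by_contra hcon
    push Not at hcon
    exact hf.2.2 z (lt_of_lt_of_le h1 hcon.1) hcon.2 h4

theorem m4fib_TT_r {q : Pj n} {T : Finset (Fin n)} {t j l : Fin n} (h1 : t < j) (h2 : j < l)
    (hf : free T t l) (hT : TT q = mv T t l) (hqt : q.a t = j) : TT (cj q (arc j l)) = T := by
  have hk : th (arc j l) q = q := m4fib_keep_r h1 h2 hf hT hqt
  have hfr : Fr q (th q (arc j l)) := fr_th hk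
  have hc := fr_card hfr
  have hq : ∀ z, z ∈ mv T t l → q.t z := fun z hz => by rw [← mem_TT, hT]; exact hz
  symm
  apply Finset.eq_of_subset_of_card_le
  · intro z hz
    rw [mem_TT]
    by_cases hzt : z = t
    · subst hzt
      refine ⟨(m4fib_arc_t h2).2 (Or.inl h1), l, hq l (m4fib_mem_mv.2 (Or.inl rfl)), ?_⟩
      have k1 : J (arc j l).a q.a z j := by
        have := J.right (f := (arc j l).a) (g := q.a) z
        rw [hqt] at this
        exact this
      have k2 : J (arc j l).a q.a j l := by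
        have := J.left (f := (arc j l).a) (g := q.a) j
        rw [m4fib_arc_a_l] at this
        exact this
      exact k1.trans' k2
    · refine ⟨(m4fib_arc_t h2).2 ?_, z, hq z (m4fib_mem_mv.2 (Or.inr ⟨hzt, hz⟩)), J.rfl' z⟩
      by_contra hcon
      push Not at hcon
      exact hf.2.2 z (lt_of_lt_of_le h1 hcon.1) hcon.2 hz
  · rw [hT] at hc
    rw [← m4fib_card_mv hf]
    exact le_of_eq hc.symm

/-- partners outside the interval of the arc are kept -/
theorem m4fib_a_out {p : Pj n} {x y v w : Fin n} (h : x < y) (hv : v < x ∨ y < v)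
    (hw : w < x ∨ y < w) (hvw : w ≠ v) (hp : p.a v = w) : (cj p (arc x y)).a v = w := by
  apply cj_a_lk
  refine ⟨(m4fib_arc_t h).2 hv, (m4fib_arc_t h).2 hw, hvw, ?_⟩
  have := J.right (f := (arc x y).a) (g := p.a) v
  rw [hp] at this
  exact this

theorem m4fib_a_in {p : Pj n} {x y : Fin n} (h : x < y) : (cj p (arc x y)).a x = y := by
  rw [cj_a_not (by rw [m4fib_arc_t h]; omega), m4fib_arc_a_l]

/-- joining two arcs -/
theorem m4fib_a_join {p : Pj n} {x y v w : Fin n} (h : x < y) (hv : v < x ∨ y < v)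
    (hw : w < x ∨ y < w) (hvw : w ≠ v) (hpv : p.a v = x) (hpw : p.a y = w) :
    (cj p (arc x y)).a v = w := by
  apply cj_a_lk
  refine ⟨(m4fib_arc_t h).2 hv, (m4fib_arc_t h).2 hw, hvw, ?_⟩
  have k1 := J.right (f := (arc x y).a) (g := p.a) v
  rw [hpv] at k1
  have k2 := J.left (f := (arc x y).a) (g := p.a) x
  rw [m4fib_arc_a_l] at k2
  have k3 := J.right (f := (arc x y).a) (g := p.a) y
  rw [hpw] at k3
  exact k1.trans' (k2.trans' k3)

/-- gap to the right of a movable point -/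
theorem m4fib_gap_l {p : MP n} {t j l : Fin n} (h1 : t < j) (h2 : j < l)
    (hf : free (TT p.1) t l) : HasGap p.1 := by
  have h3 : t.1 + 2 < n := by omega
  refine ⟨⟨t.1 + 1, by omega⟩, ⟨t.1 + 2, h3⟩, rfl, ?_, ?_⟩
  · intro h
    refine hf.2.2 _ ?_ ?_ (mem_TT.2 h)
    · rw [Fin.lt_def]; simp
    · rw [Fin.le_def]; simp only; omega
  · intro h
    refine hf.2.2 _ ?_ ?_ (mem_TT.2 h)
    · rw [Fin.lt_def]; simp
    · rw [Fin.le_def]; simp only; omega

theorem m4fib_gap_r {q : MP n} {T : Finset (Fin n)} {t j l : Fin n} (h1 : t < j) (h2 : j < l)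
    (hf : free T t l) (hT : TT q.1 = mv T t l) : HasGap q.1 := by
  have h3 : t.1 + 2 < n := by omega
  refine ⟨t, ⟨t.1 + 1, by omega⟩, rfl, ?_, ?_⟩
  · intro h
    rw [← mem_TT, hT, m4fib_mem_mv] at h
    rcases h with h | h
    · exact absurd h (ne_of_lt (h1.trans h2))
    · exact h.1 rfl
  · intro h
    rw [← mem_TT, hT, m4fib_mem_mv] at h
    rcases h with h | h
    · have := congrArg Fin.val h
      simp only at this
      omega
    · refine hf.2.2 _ ?_ ?_ h.2
      · rw [Fin.lt_def]; simp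
      · rw [Fin.le_def]; simp only; omega

variable {r : ℕ} {b : MP n} {H : Type} [Group H] {v : MP n → MP n → H}

open Classical in
/-- the values of the moves -/
noncomputable def m4U (v : MP n → MP n → H) (T : Finset (Fin n)) (t j l : Fin n) : H :=
  if h : Planar (pa T j l) ∧ Planar (pa (mv T t l) t j) then
    v ⟨pa T j l, h.1⟩ ⟨pa (mv T t l) t j, h.2⟩ else 1

theorem m4fib_U {T : Finset (Fin n)} {t j l : Fin n} {p q : MP n} (hp : p.1 = pa T j l)
    (hq : q.1 = pa (mv T t l) t j) : m4U v T t j l = v p q := by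
  have h : Planar (pa T j l) ∧ Planar (pa (mv T t l) t j) := by
    rw [← hp, ← hq]; exact ⟨p.2, q.2⟩
  rw [m4U, dif_pos h]
  congr 1
  · exact Subtype.ext hp.symm
  · exact Subtype.ext hq.symm

theorem m4fib_Z {T : Finset (Fin n)} {t j l : Fin n} (hf : free T t l) :
    ∃ Z : Finset (Fin n), (∀ z, z ∉ Z ↔ z ∈ T ∨ z = j ∨ z = l) ∧
      (∀ z, z ∉ Z ↔ z ∈ mv T t l ∨ z = t ∨ z = j) := by
  classical
  refine ⟨Finset.univ.filter (fun z => ¬ (z ∈ T ∨ z = j ∨ z = l)), ?_, ?_⟩
  · intro z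
    rw [Finset.mem_filter]
    simp only [Finset.mem_univ, true_and, not_not]
  · intro z
    rw [Finset.mem_filter, m4fib_mem_mv]
    simp only [Finset.mem_univ, true_and, not_not]
    constructor
    · rintro (h | h | h)
      · by_cases hz : z = t
        · exact Or.inr (Or.inl hz)
        · exact Or.inl (Or.inr ⟨hz, h⟩)
      · exact Or.inr (Or.inr h)
      · exact Or.inl (Or.inl h)
    · rintro ((h | h) | h | h)
      · exact Or.inr (Or.inr h)
      · exact Or.inl h.2
      · subst h; exact Or.inl hf.1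
      · exact Or.inr (Or.inl h)

theorem m4fib_tok1 (hv : Coc b v) (hb : ∀ p : MP n, M4good r p → Rch b p)
    (hfib : ∀ p q : MP n, M4good r p → TT q.1 = TT p.1 → v p q = 1)
    {p q : MP n} {t j l : Fin n} (hr : (TT p.1).card = r) (h : Rt p.1 q.1 t j l)
    (hq : q = th p (m4arc t j h.tj)) : v p q = m4U v (TT p.1) t j l := by
  have hgp : M4good r p := ⟨hr, m4fib_gap_l h.tj h.jl h.fr⟩
  have hgq : M4good r q := ⟨by rw [h.mv, m4fib_card_mv h.fr]; exact hr,
    m4fib_gap_r h.tj h.jl h.fr h.mv⟩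
  obtain ⟨Z, hZ1, hZ2⟩ := m4fib_Z (j := j) h.fr
  have hcomm : th (m4arc t j h.tj) (m4eps Z) = th (m4eps Z) (m4arc t j h.tj) := by
    apply Subtype.ext
    apply m4fib_comm_eps h.tj ((hZ2 t).2 (by simp)) ((hZ2 j).2 (by simp))
    intro z h1 h2
    by_contra h3
    rcases (hZ1 z).1 h3 with h4 | h4 | h4
    · exact h.fr.2.2 z h1 (le_of_lt (h2.trans h.jl)) h4
    · exact absurd h4 (ne_of_lt h2)
    · exact absurd h4 (ne_of_lt (h2.trans h.jl))
  have hk1 : th (m4arc t j h.tj) p = p := Subtype.ext (m4fib_keep_l h.tj h.jl h.fr h.pj)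
  have hsubq : TT q.1 ⊆ TT (eps Z) := by
    intro z hz
    rw [m4fib_TT_eps, hZ2, ← h.mv]
    exact Or.inl hz
  have hsubp : TT p.1 ⊆ TT (eps Z) := by
    intro z hz
    rw [m4fib_TT_eps, hZ1]
    exact Or.inl hz
  have hk2 : th (m4eps Z) (th p (m4arc t j h.tj)) = th p (m4arc t j h.tj) := by
    rw [← hq]
    exact Subtype.ext (m4fib_keep hsubq)
  obtain ⟨-, -, -, e⟩ := m4fib_sq hv (hb p hgp) hcomm hk1 hk2
  rw [← hq, hfib q (th q (m4eps Z)) hgq (m4fib_TT_cj hsubq), mul_one,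
    hfib p (th p (m4eps Z)) hgp (m4fib_TT_cj hsubp), one_mul] at e
  rw [e]
  symm
  apply m4fib_U
  · show cj p.1 (eps Z) = _
    exact m4fib_eps_pa (ne_of_lt h.jl) h.pj hZ1
  · show cj q.1 (eps Z) = _
    rw [← h.mv]
    exact m4fib_eps_pa (ne_of_lt h.tj) h.qt (by rw [h.mv]; exact hZ2)

theorem m4fib_tok2 (hv : Coc b v) (hb : ∀ p : MP n, M4good r p → Rch b p)
    (hfib : ∀ p q : MP n, M4good r p → TT q.1 = TT p.1 → v p q = 1)
    {p q : MP n} {t j l : Fin n} (hr : (TT p.1).card = r) (h : Rt p.1 q.1 t j l)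
    (hp : p = th q (m4arc j l h.jl)) : v p q = m4U v (TT p.1) t j l := by
  have hgp : M4good r p := ⟨hr, m4fib_gap_l h.tj h.jl h.fr⟩
  have hgq : M4good r q := ⟨by rw [h.mv, m4fib_card_mv h.fr]; exact hr,
    m4fib_gap_r h.tj h.jl h.fr h.mv⟩
  obtain ⟨Z, hZ1, hZ2⟩ := m4fib_Z (j := j) h.fr
  have hcomm : th (m4arc j l h.jl) (m4eps Z) = th (m4eps Z) (m4arc j l h.jl) := by
    apply Subtype.ext
    apply m4fib_comm_eps h.jl ((hZ1 j).2 (by simp)) ((hZ1 l).2 (by simp))
    intro z h1 h2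
    by_contra h3
    rcases (hZ1 z).1 h3 with h4 | h4 | h4
    · exact h.fr.2.2 z (h.tj.trans h1) (le_of_lt h2) h4
    · exact absurd h4 (ne_of_gt h1)
    · exact absurd h4 (ne_of_lt h2)
  have hk1 : th (m4arc j l h.jl) q = q :=
    Subtype.ext (m4fib_keep_r h.tj h.jl h.fr h.mv h.qt)
  have hsubq : TT q.1 ⊆ TT (eps Z) := by
    intro z hz
    rw [m4fib_TT_eps, hZ2, ← h.mv]
    exact Or.inl hz
  have hsubp : TT p.1 ⊆ TT (eps Z) := by
    intro z hz
    rw [m4fib_TT_eps, hZ1]
    exact Or.inl hz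
  have hk2 : th (m4eps Z) (th q (m4arc j l h.jl)) = th q (m4arc j l h.jl) := by
    rw [← hp]
    exact Subtype.ext (m4fib_keep hsubp)
  obtain ⟨k1, -, k3, e⟩ := m4fib_sq hv (hb q hgq) hcomm hk1 hk2
  rw [← hp, hfib p (th p (m4eps Z)) hgp (m4fib_TT_cj hsubp), mul_one,
    hfib q (th q (m4eps Z)) hgq (m4fib_TT_cj hsubq), one_mul] at e
  have hfr : Fr q p := by rw [hp]; exact fr_th hk1
  have hTq' : TT (th q (m4eps Z)).1 = TT q.1 := m4fib_TT_cj hsubq
  have hgq' : M4good r (th q (m4eps Z)) := m4fib_good hTq' hgq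
  -- the standard elements are friendly
  have hfr' : Fr (th q (m4eps Z)) (th p (m4eps Z)) := by
    obtain ⟨_, k2, _, _⟩ := m4fib_sq hv (hb q hgq) hcomm hk1 hk2
    have h3 : th p (m4eps Z) = th (th q (m4eps Z)) (m4arc j l h.jl) :=
      (congrArg (fun x => th x (m4eps Z)) hp).trans k3
    rw [h3]
    exact fr_th k2
  have e1 : v p q = v (th p (m4eps Z)) (th q (m4eps Z)) := by
    rw [hv.inv' (hb q hgq) hfr, e, hv.inv' (hb _ hgq') hfr']
  rw [e1]
  symm
  apply m4fib_U
  · show cj p.1 (eps Z) = _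
    exact m4fib_eps_pa (ne_of_lt h.jl) h.pj hZ1
  · show cj q.1 (eps Z) = _
    rw [← h.mv]
    exact m4fib_eps_pa (ne_of_lt h.tj) h.qt (by rw [h.mv]; exact hZ2)

/-- existence of projections with two given arcs -/
theorem m4fib_two {T : Finset (Fin n)} {x y z w : Fin n} (h1 : x < y) (h2 : y < z) (h3 : z < w)
    (hT1 : ∀ u, x ≤ u → u ≤ y → u ∉ T) (hT2 : ∀ u, z ≤ u → u ≤ w → u ∉ T) :
    ∃ p : MP n, TT p.1 = T ∧ p.1.a x = y ∧ p.1.a z = w := by
  have hTp : TT (pa T x y) = T := m4fib_TT_pa (hT1 x le_rfl (le_of_lt h1))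
    (hT1 y (le_of_lt h1) le_rfl)
  set p0 : MP n := ⟨pa T x y, m4fib_planar_pa h1
    (fun u hu1 hu2 => hT1 u (le_of_lt hu1) (le_of_lt hu2))⟩ with hp0
  refine ⟨th p0 (m4arc z w h3), ?_, ?_, ?_⟩
  · show TT (cj (pa T x y) (arc z w)) = T
    rw [m4fib_TT_cj, hTp]
    rw [hTp]
    intro u hu
    rw [mem_TT, m4fib_arc_t h3]
    by_contra hcon
    push Not at hcon
    exact hT2 u hcon.1 hcon.2 hu
  · show (cj (pa T x y) (arc z w)).a x = y
    exact m4fib_a_out h3 (Or.inl (h1.trans h2)) (Or.inl h2) (ne_of_gt h1)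
      (Equiv.swap_apply_left x y)
  · show (cj (pa T x y) (arc z w)).a z = w
    exact m4fib_a_in h3

theorem m4fib_R1 (hv : Coc b v) (hb : ∀ p : MP n, M4good r p → Rch b p)
    (hfib : ∀ p q : MP n, M4good r p → TT q.1 = TT p.1 → v p q = 1)
    (T : Finset (Fin n)) (t j1 l1 j2 l2 : Fin n) (hr : T.card = r) (hf : free T t l2)
    (h1 : t < j1) (h2 : j1 < l1) (h3 : l1 < j2) (h4 : j2 < l2) :
    m4U v T t j1 l1 * m4U v (mv T t l1) l1 j2 l2 = m4U v T t j1 l2 := by
  obtain ⟨p', hTp', hp1, hp2⟩ := m4fib_two (T := T) h2 h3 h4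
    (fun u hu1 hu2 => hf.2.2 u (lt_of_lt_of_le h1 hu1) (by omega))
    (fun u hu1 hu2 => hf.2.2 u (by omega) hu2)
  have hf1 : free T t l1 := m4fib_free_mono hf (by omega) (by omega)
  have hf2 : free (mv T t l1) l1 l2 := m4fib_free_mv hf (by omega) (by omega)
  -- p' → q'
  have hcomm : th (m4arc t j1 h1) (m4arc l1 j2 h3) = th (m4arc l1 j2 h3) (m4arc t j1 h1) :=
    Subtype.ext (m4fib_comm_arc h1 h2 h3)
  have hfp' : free (TT p'.1) t l1 := by rw [hTp']; exact hf1
  have hk1 : th (m4arc t j1 h1) p' = p' := Subtype.ext (m4fib_keep_l h1 h2 hfp' hp1)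
  set q' := th p' (m4arc t j1 h1) with hq'
  have hTq' : TT q'.1 = mv T t l1 := by
    have := m4fib_TT_l h1 h2 hfp' hp1
    rw [hTp'] at this
    exact this
  have hq'1 : q'.1.a t = j1 := m4fib_a_in h1
  have hq'2 : q'.1.a j2 = l2 := m4fib_a_out h1 (Or.inr (by omega)) (Or.inr (by omega))
    (ne_of_gt h4) hp2
  have hfq' : free (TT q'.1) l1 l2 := by rw [hTq']; exact hf2
  have hk2 : th (m4arc l1 j2 h3) q' = q' := Subtype.ext (m4fib_keep_l h3 h4 hfq' hq'2)
  have hgp' : M4good r p' := ⟨by rw [hTp']; exact hr, m4fib_gap_l h1 h2 hfp'⟩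
  obtain ⟨-, -, k3, e⟩ := m4fib_sq hv (hb p' hgp') hcomm hk1 hk2
  rw [← hq'] at k3 e
  set q := th q' (m4arc l1 j2 h3) with hq
  have hTq : TT q.1 = mv (mv T t l1) l1 l2 := by
    have := m4fib_TT_l h3 h4 hfq' hq'2
    rw [hTq'] at this
    exact this
  have hq1 : q.1.a l1 = j2 := m4fib_a_in h3
  have hq2 : q.1.a t = j1 := m4fib_a_out h3 (Or.inl (by omega)) (Or.inl h2) (ne_of_gt h1) hq'1
  set p := th p' (m4arc l1 j2 h3) with hp
  have hTp : TT p.1 = T := by
    have : TT p.1 = TT p'.1 := by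
      apply m4fib_TT_cj
      rw [hTp']
      intro u hu
      rw [mem_TT]
      show (arc l1 j2).t u
      rw [m4fib_arc_t h3]
      by_contra hcon
      push Not at hcon
      exact hf.2.2 u (by omega) (by omega) hu
    rw [this, hTp']
  have hpj : p.1.a j1 = l2 := by
    apply m4fib_a_join h3 (Or.inl h2) (Or.inr h4) (by omega) hp1 hp2
  have hRt1 : Rt p'.1 q'.1 t j1 l1 :=
    ⟨h1, h2, hfp', by rw [hTq', hTp'], hp1, hq'1⟩
  have hRt2 : Rt q'.1 q.1 l1 j2 l2 :=
    ⟨h3, h4, hfq', by rw [hTq, hTq'], hq'2, hq1⟩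
  have hRt3 : Rt p.1 q.1 t j1 l2 :=
    ⟨h1, by omega, by rw [hTp]; exact hf, by
      rw [hTq, hTp]; exact m4fib_mv_mv hf (by omega) (by omega), hpj, hq2⟩
  have u1 := m4fib_tok1 hv hb hfib (by rw [hTp']; exact hr) hRt1 hq'
  have u2 := m4fib_tok1 hv hb hfib (by rw [hTq', m4fib_card_mv hf1]; exact hr) hRt2 hq
  have u3 := m4fib_tok1 hv hb hfib (by rw [hTp]; exact hr) hRt3 k3
  rw [hTp'] at u1
  rw [hTq'] at u2
  rw [hTp] at u3
  rw [u1, u2, u3, hfib p' p hgp' (by rw [hTp, hTp']), one_mul] at e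
  exact e

theorem m4fib_R2 (hv : Coc b v) (hb : ∀ p : MP n, M4good r p → Rch b p)
    (hfib : ∀ p q : MP n, M4good r p → TT q.1 = TT p.1 → v p q = 1)
    (T : Finset (Fin n)) (t j1 l1 j2 l2 : Fin n) (hr : T.card = r) (hf : free T t l2)
    (h1 : t < j1) (h2 : j1 < l1) (h3 : l1 < j2) (h4 : j2 < l2) :
    m4U v T t j1 l1 * m4U v (mv T t l1) l1 j2 l2 = m4U v T t j2 l2 := by
  have hf1 : free T t l1 := m4fib_free_mono hf (by omega) (by omega)
  have hf2 : free (mv T t l1) l1 l2 := m4fib_free_mv hf (by omega) (by omega)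
  obtain ⟨q, hTq, hq1, hq2⟩ := m4fib_two (T := mv T t l2) h1 h2 h3
    (fun u hu1 hu2 h => by
      rcases m4fib_mem_mv.1 h with h | h
      · omega
      · exact hf.2.2 u (lt_of_le_of_ne hu1 (Ne.symm h.1)) (by omega) h.2)
    (fun u hu1 hu2 h => by
      rcases m4fib_mem_mv.1 h with h | h
      · omega
      · exact hf.2.2 u (by omega) (by omega) h.2)
  have hTq2 : TT q.1 = mv (mv T t l1) l1 l2 := by
    rw [hTq]; exact (m4fib_mv_mv hf (by omega) (by omega)).symm
  have hcomm : th (m4arc j2 l2 h4) (m4arc j1 l1 h2) = th (m4arc j1 l1 h2) (m4arc j2 l2 h4) :=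
    Subtype.ext (m4fib_comm_arc h2 h3 h4).symm
  have hk1 : th (m4arc j2 l2 h4) q = q := Subtype.ext (m4fib_keep_r h3 h4 hf2 hTq2 hq2)
  set q' := th q (m4arc j2 l2 h4) with hq'
  have hTq' : TT q'.1 = mv T t l1 := m4fib_TT_r h3 h4 hf2 hTq2 hq2
  have hq'1 : q'.1.a j2 = l2 := m4fib_a_in h4
  have hq'2 : q'.1.a t = j1 := m4fib_a_out h4 (Or.inl (by omega)) (Or.inl (by omega))
    (ne_of_gt h1) hq1
  have hk2 : th (m4arc j1 l1 h2) q' = q' := Subtype.ext (m4fib_keep_r h1 h2 hf1 hTq' hq'2)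
  have hgq : M4good r q := ⟨by rw [hTq, m4fib_card_mv hf]; exact hr,
    m4fib_gap_r (j := j1) h1 (by omega) hf hTq⟩
  obtain ⟨-, -, k3, e⟩ := m4fib_sq hv (hb q hgq) hcomm hk1 hk2
  rw [← hq'] at k3 e
  set p' := th q' (m4arc j1 l1 h2) with hp'
  have hTp' : TT p'.1 = T := m4fib_TT_r h1 h2 hf1 hTq' hq'2
  have hp'1 : p'.1.a j1 = l1 := m4fib_a_in h2
  set qh := th q (m4arc j1 l1 h2) with hqh
  have hTqh : TT qh.1 = mv T t l2 := by
    have : TT qh.1 = TT q.1 := by
      apply m4fib_TT_cj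
      rw [hTq]
      intro u hu
      rw [mem_TT]
      show (arc j1 l1).t u
      rw [m4fib_arc_t h2]
      by_contra hcon
      push Not at hcon
      rcases m4fib_mem_mv.1 hu with h | h
      · omega
      · exact hf.2.2 u (by omega) (by omega) h.2
    rw [this, hTq]
  have hqht : qh.1.a t = j2 := by
    apply m4fib_a_join h2 (Or.inl h1) (Or.inr h3) (by omega) hq1 hq2
  have hp'2 : p'.1.a j2 = l2 := by
    rw [k3]
    exact m4fib_a_in h4
  have hRt1 : Rt p'.1 q'.1 t j1 l1 :=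
    ⟨h1, h2, by rw [hTp']; exact hf1, by rw [hTq', hTp'], hp'1, hq'2⟩
  have hRt2 : Rt q'.1 q.1 l1 j2 l2 :=
    ⟨h3, h4, by rw [hTq']; exact hf2, by rw [hTq2, hTq'], hq'1, hq2⟩
  have hRt3 : Rt p'.1 qh.1 t j2 l2 :=
    ⟨by omega, h4, by rw [hTp']; exact hf, by rw [hTqh, hTp'], hp'2, hqht⟩
  have u1 := m4fib_tok2 hv hb hfib (by rw [hTp']; exact hr) hRt1 hp'
  have u2 := m4fib_tok2 hv hb hfib (by rw [hTq', m4fib_card_mv hf1]; exact hr) hRt2 hq'
  have u3 := m4fib_tok2 hv hb hfib (by rw [hTp']; exact hr) hRt3 k3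
  rw [hTp'] at u1 u3
  rw [hTq'] at u2
  have hgq' : M4good r q' := ⟨by rw [hTq', m4fib_card_mv hf1]; exact hr,
    m4fib_gap_r h1 h2 hf1 hTq'⟩
  have hgqh : M4good r qh := m4fib_good (by rw [hTqh, hTq]) hgq
  have hfr1 : Fr q q' := fr_th hk1
  have hfr2 : Fr q' p' := fr_th hk2
  have hfr3 : Fr qh p' := by
    obtain ⟨_, k2, _, _⟩ := m4fib_sq hv (hb q hgq) hcomm hk1 hk2
    rw [k3]
    exact fr_th k2
  rw [hv.inv' (hb q hgq) hfr1] at u2
  rw [hv.inv' (hb q' hgq') hfr2] at u1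
  rw [hv.inv' (hb qh hgqh) hfr3] at u3
  rw [hfib q qh hgq (by rw [hTqh, hTq]), one_mul] at e
  rw [← u1, ← u2, ← u3, ← mul_inv_rev, e]

theorem m4fib_CM (hv : Coc b v) (hb : ∀ p : MP n, M4good r p → Rch b p)
    (hfib : ∀ p q : MP n, M4good r p → TT q.1 = TT p.1 → v p q = 1)
    (T : Finset (Fin n)) (t j l t' j' l' : Fin n) (hr : T.card = r) (hf : free T t l)
    (hf' : free T t' l') (h1 : t < j) (h2 : j < l) (h3 : l < t') (h4 : t' < j') (h5 : j' < l') :
    m4U v T t j l * m4U v (mv T t l) t' j' l' = m4U v T t' j' l' * m4U v (mv T t' l') t j l := by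
  obtain ⟨p, hTp, hp1, hp2⟩ := m4fib_two (T := T) (x := j) (y := l) (z := j') (w := l') h2
    (by omega) h5
    (fun u hu1 hu2 => hf.2.2 u (by omega) hu2)
    (fun u hu1 hu2 => hf'.2.2 u (by omega) hu2)
  have hfa : free (mv T t l) t' l' := by
    refine ⟨m4fib_mem_mv.2 (Or.inr ⟨by omega, hf'.1⟩), hf'.2.1, ?_⟩
    intro u hu1 hu2 h
    rcases m4fib_mem_mv.1 h with h | h
    · omega
    · exact hf'.2.2 u hu1 hu2 h.2
  have hfb : free (mv T t' l') t l := by
    refine ⟨m4fib_mem_mv.2 (Or.inr ⟨by omega, hf.1⟩), hf.2.1, ?_⟩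
    intro u hu1 hu2 h
    rcases m4fib_mem_mv.1 h with h | h
    · omega
    · exact hf.2.2 u hu1 hu2 h.2
  have hfp : free (TT p.1) t l := by rw [hTp]; exact hf
  have hfp' : free (TT p.1) t' l' := by rw [hTp]; exact hf'
  have hcomm : th (m4arc t j h1) (m4arc t' j' h4) = th (m4arc t' j' h4) (m4arc t j h1) :=
    Subtype.ext (m4fib_comm_arc h1 (by omega) h4)
  have hk1 : th (m4arc t j h1) p = p := Subtype.ext (m4fib_keep_l h1 h2 hfp hp1)
  set q1 := th p (m4arc t j h1) with hq1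
  have hTq1 : TT q1.1 = mv T t l := by
    have := m4fib_TT_l h1 h2 hfp hp1
    rw [hTp] at this
    exact this
  have hq1a : q1.1.a t = j := m4fib_a_in h1
  have hq1b : q1.1.a j' = l' := m4fib_a_out h1 (Or.inr (by omega)) (Or.inr (by omega))
    (ne_of_gt h5) hp2
  have hfq1 : free (TT q1.1) t' l' := by rw [hTq1]; exact hfa
  have hk2 : th (m4arc t' j' h4) q1 = q1 := Subtype.ext (m4fib_keep_l h4 h5 hfq1 hq1b)
  have hgp : M4good r p := ⟨by rw [hTp]; exact hr, m4fib_gap_l h1 h2 hfp⟩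
  obtain ⟨-, -, k3, e⟩ := m4fib_sq hv (hb p hgp) hcomm hk1 hk2
  rw [← hq1] at k3 e
  set q := th q1 (m4arc t' j' h4) with hq
  have hTq : TT q.1 = mv (mv T t l) t' l' := by
    have := m4fib_TT_l h4 h5 hfq1 hq1b
    rw [hTq1] at this
    exact this
  have hqa : q.1.a t' = j' := m4fib_a_in h4
  set q2 := th p (m4arc t' j' h4) with hq2
  have hTq2 : TT q2.1 = mv T t' l' := by
    have := m4fib_TT_l h4 h5 hfp' hp2
    rw [hTp] at this
    exact this
  have hq2a : q2.1.a t' = j' := m4fib_a_in h4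
  have hq2b : q2.1.a j = l := m4fib_a_out h4 (Or.inl (by omega)) (Or.inl h3) (ne_of_gt h2) hp1
  have hfq2 : free (TT q2.1) t l := by rw [hTq2]; exact hfb
  have hTqb : TT q.1 = mv (mv T t' l') t l := by
    have := m4fib_TT_l h1 h2 hfq2 hq2b
    rw [hTq2] at this
    rw [k3]
    exact this
  have hqt : q.1.a t = j := by
    rw [k3]
    exact m4fib_a_in h1
  have hRt1 : Rt p.1 q1.1 t j l := ⟨h1, h2, hfp, by rw [hTq1, hTp], hp1, hq1a⟩
  have hRt2 : Rt q1.1 q.1 t' j' l' := ⟨h4, h5, hfq1, by rw [hTq, hTq1], hq1b, hqa⟩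
  have hRt3 : Rt p.1 q2.1 t' j' l' := ⟨h4, h5, hfp', by rw [hTq2, hTp], hp2, hq2a⟩
  have hRt4 : Rt q2.1 q.1 t j l := ⟨h1, h2, hfq2, by rw [hTqb, hTq2], hq2b, hqt⟩
  have u1 := m4fib_tok1 hv hb hfib (by rw [hTp]; exact hr) hRt1 hq1
  have u2 := m4fib_tok1 hv hb hfib (by rw [hTq1, m4fib_card_mv hf]; exact hr) hRt2 hq
  have u3 := m4fib_tok1 hv hb hfib (by rw [hTp]; exact hr) hRt3 hq2
  have u4 := m4fib_tok1 hv hb hfib (by rw [hTq2, m4fib_card_mv hf']; exact hr) hRt4 k3
  rw [hTp] at u1 u3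
  rw [hTq1] at u2
  rw [hTq2] at u4
  rw [← u1, ← u2, ← u3, ← u4]
  exact e

end tokens

theorem fib_main {r : ℕ} {b : MP n} {H : Type} [Group H] {u : MP n → MP n → H} (hu : Coc b u)
    (hb : ∀ p : MP n, (TT p.1).card = r → HasGap p.1 → Rch b p) :
    ∃ (g : MP n → H) (U : Finset (Fin n) → Fin n → Fin n → Fin n → H), PSys r U ∧
      ∀ p e : MP n, (TT p.1).card = r → HasGap p.1 → EM e → th e p = p →
        (TT (th p e).1 = TT p.1 ∧ (g p)⁻¹ * u p (th p e) * g (th p e) = 1) ∨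
        (∃ t j l, Rt p.1 (th p e).1 t j l ∧
          (g p)⁻¹ * u p (th p e) * g (th p e) = U (TT p.1) t j l) ∨
        (∃ t j l, Rt (th p e).1 p.1 t j l ∧
          (g p)⁻¹ * u p (th p e) * g (th p e) = (U (TT (th p e).1) t j l)⁻¹) := by
  have hb' : ∀ p : MP n, M4good r p → Rch b p := fun p hp => hb p hp.1 hp.2
  set g : MP n → H := fun p => u p (m4pt (TT p.1)) with hg
  set v : MP n → MP n → H := fun p q => (g p)⁻¹ * u p q * g q with hvdef
  have hv : Coc b v := by
    constructor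
    · intro p q hp hf
      have h1 := hu.inv p q hp hf
      show (g p)⁻¹ * u p q * g q * ((g q)⁻¹ * u q p * g p) = 1
      have h2 : (g p)⁻¹ * u p q * g q * ((g q)⁻¹ * u q p * g p) =
        (g p)⁻¹ * (u p q * u q p) * g p := by group
      rw [h2, h1]
      group
    · intro p q s hp hf h1 h2
      have h3 := hu.tri p q s hp hf h1 h2
      show (g p)⁻¹ * u p q * g q = (g p)⁻¹ * u p (th p s) * g (th p s) *
        ((g (th p s))⁻¹ * u (th p s) q * g q)
      rw [h3]
      group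
  have h0 : ∀ p : MP n, M4good r p → v p (m4pt (TT p.1)) = 1 := by
    intro p hp
    have hT : TT (m4pt (TT p.1)).1 = TT p.1 := m4fib_TT_pt
    have hgp : M4good r (m4pt (TT p.1)) := m4fib_good hT hp
    show (g p)⁻¹ * u p (m4pt (TT p.1)) * g (m4pt (TT p.1)) = 1
    have h1 : g (m4pt (TT p.1)) = 1 := by
      show u (m4pt (TT p.1)) (m4pt (TT (m4pt (TT p.1)).1)) = 1
      rw [hT]
      exact hu.self (hb' _ hgp)
    rw [h1, mul_one]
    exact inv_mul_cancel _
  have hfib := m4fib_fib hv hb' h0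
  refine ⟨g, m4U v, ⟨?_, ?_, ?_⟩, ?_⟩
  · exact fun T t j1 l1 j2 l2 h1 h2 h3 h4 h5 h6 =>
      m4fib_R1 hv hb' hfib T t j1 l1 j2 l2 h1 h2 h3 h4 h5 h6
  · exact fun T t j1 l1 j2 l2 h1 h2 h3 h4 h5 h6 =>
      m4fib_R2 hv hb' hfib T t j1 l1 j2 l2 h1 h2 h3 h4 h5 h6
  · exact fun T t j l t' j' l' h1 h2 h3 h4 h5 h6 h7 h8 =>
      m4fib_CM hv hb' hfib T t j l t' j' l' h1 h2 h3 h4 h5 h6 h7 h8
  · intro p e hr hgap he hk
    have hgp : M4good r p := ⟨hr, hgap⟩
    have hsame : ∀ hT : TT (th p e).1 = TT p.1,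
        (TT (th p e).1 = TT p.1 ∧ (g p)⁻¹ * u p (th p e) * g (th p e) = 1) :=
      fun hT => ⟨hT, hfib p (th p e) hgp hT⟩
    rcases he with he | ⟨x, he⟩ | ⟨x, y, hxy, he⟩
    · left
      apply hsame
      rw [mp_th, he]
      show TT (cj p.1 (eps ∅)) = TT p.1
      apply m4fib_TT_cj
      intro z _
      rw [m4fib_TT_eps]
      simp
    · left
      apply hsame
      have hk' : th (eps {x}) p.1 = p.1 := by
        rw [← he]
        exact congrArg Subtype.val hk
      have h1 := (step_eps hk').2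
      ext z
      rw [mp_th, he, mem_TT, mem_TT]
      exact h1 z
    · have he' : e = m4arc x y hxy := Subtype.ext he
      subst he'
      have hk' : th (arc x y) p.1 = p.1 := congrArg Subtype.val hk
      rcases step_arc p.2 hxy hk' with h | h | h
      · left
        exact hsame h.2.2
      · right; left
        exact ⟨x, y, p.1.a y, h.2, m4fib_tok1 hv hb' hfib hr h.2 rfl⟩
      · right; right
        refine ⟨p.1.a x, x, y, h.2, ?_⟩
        have hfr : Fr p (th p (m4arc x y hxy)) := fr_th hk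
        have hr' : (TT (th p (m4arc x y hxy)).1).card = r := by
          rw [← fr_card (mp_fr.1 hfr)]
          exact hr
        have h1 := m4fib_tok2 hv hb' hfib hr' h.2 rfl
        rw [← h1]
        have h2 := hv.inv p (th p (m4arc x y hxy)) (hb' p hgp) hfr
        exact eq_inv_of_mul_eq_one_left h2

end

end Pool.Agent.H213PG
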