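import Pool.Agent.helper213_PG.M8a
import Pool.Agent.helper213_PG.M4Fib
import Pool.Agent.helper213_PG.Com

set_option autoImplicit false
set_option linter.unusedSectionVars false

/-!
# The maximal subgroups, Motzkin case (helper213)
-/

namespace Pool.Agent.H213PG

open PA Pj Finset

section

variable {n : ℕ}

theorem planar_pa {T : Finset (Fin n)} {x y : Fin n} (hxy : x < y)
    (h : ∀ z, x < z → z < y → z ∉ T) : Planar (pa T x y) := by
  intro u v h1 h2
  have hav : ∀ z, (pa T x y).a z = Equiv.swap x y z := fun _ => rfl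
  rw [hav] at h2 ⊢
  rw [hav]
  by_cases hux : u = x
  · subst hux
    rw [Equiv.swap_apply_left] at h2 ⊢
    have hvu : v ≠ u := ne_of_gt h1
    have hvy : v ≠ y := ne_of_lt h2
    rw [Equiv.swap_apply_of_ne_of_ne hvu hvy]
    exact ⟨fun ht => h v h1 h2 ht.1, h1, h2⟩
  · by_cases huy : u = y
    · subst huy
      rw [Equiv.swap_apply_right] at h2
      exact absurd (h1.trans (h2.trans hxy)) (lt_irrefl _)
    · rw [Equiv.swap_apply_of_ne_of_ne hux huy] at h2
      exact absurd (h1.trans h2) (lt_irrefl _)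

/-- the standard pair of a move -/
theorem std_pair {T : Finset (Fin n)} {t j l : Fin n} (h : free T t l) (htj : t < j)
    (hjl : j < l) : ∃ p q : MP n, TT p.1 = T ∧ TT q.1 = mv T t l ∧ Rt p.1 q.1 t j l ∧ Fr p q := by
  obtain ⟨ht, htl, hfr⟩ := h
  have hjT : j ∉ T := hfr j htj hjl.le
  have hlT : l ∉ T := hfr l htl le_rfl
  have hP : Planar (pa T j l) := planar_pa hjl (fun z h1 h2 => hfr z (htj.trans h1) h2.le)
  have hQ : Planar (pa (mv T t l) t j) := by
    apply planar_pa htj
    intro z h1 h2 hz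
    unfold mv at hz
    rw [Finset.mem_insert, Finset.mem_erase] at hz
    rcases hz with hz | hz
    · subst hz; exact absurd (h2.trans hjl) (lt_irrefl _)
    · exact hfr z h1 (h2.trans hjl).le hz.2
  have eP : TT (pa T j l) = T := by
    ext z
    rw [mem_TT]
    show z ∈ T ∧ z ≠ j ∧ z ≠ l ↔ z ∈ T
    constructor
    · exact fun h => h.1
    · intro hz
      exact ⟨hz, fun e => hjT (e ▸ hz), fun e => hlT (e ▸ hz)⟩
  have eQ : TT (pa (mv T t l) t j) = mv T t l := by
    ext z
    rw [mem_TT]
    show z ∈ mv T t l ∧ z ≠ t ∧ z ≠ j ↔ z ∈ mv T t l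
    constructor
    · exact fun h => h.1
    · intro hz
      refine ⟨hz, ?_, ?_⟩
      · rintro rfl
        unfold mv at hz
        rw [Finset.mem_insert, Finset.mem_erase] at hz
        rcases hz with hz | hz
        · exact absurd hz (ne_of_lt htl)
        · exact hz.1 rfl
      · rintro rfl
        unfold mv at hz
        rw [Finset.mem_insert, Finset.mem_erase] at hz
        rcases hz with hz | hz
        · exact absurd hz (ne_of_lt hjl)
        · exact hjT hz.2
  have pj : (pa T j l).a j = l := Equiv.swap_apply_left _ _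
  have qt : (pa (mv T t l) t j).a t = j := Equiv.swap_apply_left _ _
  refine ⟨⟨pa T j l, hP⟩, ⟨pa (mv T t l) t j, hQ⟩, eP, eQ, ⟨htj, hjl, ?_, ?_, pj, qt⟩, ?_⟩
  · show free (TT (pa T j l)) t l
    rw [eP]; exact ⟨ht, htl, hfr⟩
  · show TT (pa (mv T t l) t j) = mv (TT (pa T j l)) t l
    rw [eP, eQ]
  · rw [mp_fr]
    show Fr (pa T j l) (pa (mv T t l) t j)
    have hJ : J (pa T j l).a (pa (mv T t l) t j).a t l := by
      have h1 : J (pa T j l).a (pa (mv T t l) t j).a t j := by
        have := J.right (f := (pa T j l).a) (g := (pa (mv T t l) t j).a) t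
        rwa [qt] at this
      have h2 : J (pa T j l).a (pa (mv T t l) t j).a j l := by
        have := J.left (f := (pa T j l).a) (g := (pa (mv T t l) t j).a) j
        rwa [pj] at this
      exact h1.trans' h2
    have hptT : ∀ z, (pa T j l).t z ↔ z ∈ T := by
      intro z; rw [← mem_TT, eP]
    have hqtT : ∀ z, (pa (mv T t l) t j).t z ↔ z ∈ mv T t l := by
      intro z; rw [← mem_TT, eQ]
    constructor
    · rw [th_eq_iff]
      intro z hz
      rw [hqtT] at hz
      unfold mv at hz
      rw [Finset.mem_insert, Finset.mem_erase] at hz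
      rcases hz with hz | hz
      · subst hz
        exact ⟨t, (hptT t).2 ht, hJ⟩
      · exact ⟨z, (hptT z).2 hz.2, J.rfl' z⟩
    · rw [th_eq_iff]
      intro z hz
      rw [hptT] at hz
      by_cases hzt : z = t
      · subst hzt
        exact ⟨l, (hqtT l).2 (Finset.mem_insert_self _ _), hJ.symm'.swap⟩
      · exact ⟨z, (hqtT z).2 (Finset.mem_insert_of_mem (Finset.mem_erase.2 ⟨hzt, hz⟩)), J.rfl' z⟩

theorem gap_TT {p : MP n} : HasGap p.1 ↔
    ∃ x y : Fin n, x.1 + 1 = y.1 ∧ x ∉ TT p.1 ∧ y ∉ TT p.1 := by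
  unfold HasGap
  simp only [mem_TT]

theorem gap_bn {r : ℕ} {p : MP n} (h : (TT p.1).card = r) :
    HasGap p.1 ↔ ∃ m ≤ r, 2 ≤ bn (TT p.1) m := by
  rw [gap_TT]; exact gap_iff h

theorem rch_gap {b p : MP n} (hb : HasGap b.1) (h : Rch b p) : HasGap p.1 := by
  induction h with
  | refl => exact hb
  | @tail p q _ h2 ih =>
    by_contra hq
    have := no_gap_alone h2.symm hq
    subst this
    exact hq ih

section

variable {r k : ℕ} (hk : r + k = n)
include hk

/-- the cocycle with values in the free group on the generators -/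
noncomputable def cc (n r k : ℕ) (p q : MP n) : FreeGroup (GenM r k) := psi n r k (cM p q)

omit hk in
theorem cc_coc (b : MP n) : Coc b (cc n r k) := (cM_coc b).map (psi n r k)

omit hk in
theorem cc_same {p q : MP n} (h : TT p.1 = TT q.1) : cc n r k p q = 1 := by
  unfold cc
  rw [cM_same h, map_one]

omit hk in
theorem pth_same {p q : MP n} (h : TT p.1 = TT q.1) : Pth (cc n r k) p q 1 := by
  have := Pth.single (c := cc n r k) (fr_of_TT h)
  rwa [cc_same h] at this

omit hk in
theorem cc_move {i : ℕ} {c : ℕ → ℕ} {a b : ℕ} (hi : i < r)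
    (htot : tot r c + (a + b + 2) + r = n) : ∃ (t j l : Fin n) (p q : MP n),
      t.1 = pos c i ∧ j.1 = t.1 + a + 1 ∧ l.1 = t.1 + (a + b + 2) ∧
      TT p.1 = TG n r (c + sg (i + 1) (a + b + 2)) ∧ TT q.1 = TG n r (c + sg i (a + b + 2)) ∧
      Rt p.1 q.1 t j l ∧ Fr p q := by
  have hlt := pos_lt hi htot
  set t : Fin n := ⟨pos c i, by omega⟩ with ht
  set j : Fin n := ⟨pos c i + a + 1, by omega⟩ with hj
  set l : Fin n := ⟨pos c i + (a + b + 2), hlt⟩ with hl
  obtain ⟨hf, hm⟩ := TG_move hi (by omega) htot t l rfl rfl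
  obtain ⟨p, q, h1, h2, h3, h4⟩ := std_pair hf (j := j) (by
    rw [Fin.lt_def]; simp only [ht, hj]; omega) (by
    rw [Fin.lt_def]; simp only [hl, hj]; omega)
  exact ⟨t, j, l, p, q, rfl, rfl, rfl, h1, by rw [h2, hm], h3, h4⟩

theorem conn_aux (g : ℕ → ℕ) (hg0 : ∀ l, r < l → g l = 0) (hp : ∃ l ≤ r, 2 ≤ g l)
    (hg : tot r g = k) :
    ∀ p q : MP n, TT p.1 = TG n r g → TT q.1 = TG n r (sg 0 k) → Pth (cc n r k) p q 1 := by
  have hpt : ∀ T : Finset (Fin n), TT (pt T) = T := by
    intro T; ext z; rw [mem_TT]; exact Iff.rfl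
  have := chips_conn (r := r) (fun g g' => tot r g = tot r g' ∧ (tot r g = k →
    ∀ p q : MP n, TT p.1 = TG n r g → TT q.1 = TG n r g' → Pth (cc n r k) p q 1)) ?_ ?_ g hg0 hp
  · rw [hg] at this
    exact this.2 rfl
  · constructor
    · intro g
      exact ⟨rfl, fun _ p q h1 h2 => pth_same (h1.trans h2.symm)⟩
    · rintro g g' ⟨h1, h2⟩
      refine ⟨h1.symm, fun h3 p q h4 h5 => ?_⟩
      have := (h2 (h1.trans h3) q p h5 h4).symm (cc_coc q) (Rch.rf q)
      rwa [inv_one] at this
    · rintro g g' g'' ⟨h1, h2⟩ ⟨h3, h4⟩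
      refine ⟨h1.trans h3, fun h5 p q h6 h7 => ?_⟩
      have a1 := h2 h5 p ⟨pt (TG n r g'), planar_pt _⟩ h6 (hpt _)
      have a2 := h4 (h1.symm.trans h5) ⟨pt (TG n r g'), planar_pt _⟩ q (hpt _) h7
      have := a1.trans a2
      rwa [mul_one] at this
  · intro i c a b hi hc hR
    refine ⟨by rw [tot_add, tot_add, tot_single (by omega), tot_single (by omega)],
      fun htot p q h1 h2 => ?_⟩
    rw [tot_add, tot_single (by omega)] at htot
    obtain ⟨t, j, l, p', q', ht, hj, hl, h3, h4, h5, h6⟩ := cc_move (n := n) (c := c) (a := a)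
      (b := b) hi (by omega)
    have hv : cc n r k p' q' = 1 := by
      unfold cc
      rw [cM_rt h5, h3]
      exact psi_not_rem hk hi hc (by omega) hR t j l ht hj hl
    have a1 : Pth (cc n r k) p p' 1 := pth_same (h1.trans h3.symm)
    have a2 : Pth (cc n r k) q' q 1 := pth_same (h4.trans h2.symm)
    have a3 := Pth.single (c := cc n r k) h6
    rw [hv] at a3
    have := (a1.trans a3).trans a2
    rwa [mul_one, mul_one] at this

theorem conn {p q : MP n} (hp : (TT p.1).card = r) (hpg : HasGap p.1) (hq : (TT q.1).card = r)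
    (hqg : HasGap q.1) : Pth (cc n r k) p q 1 := by
  have hpt : ∀ T : Finset (Fin n), TT (pt T) = T := by
    intro T; ext z; rw [mem_TT]; exact Iff.rfl
  have e := tot_bn hp
  have e' := tot_bn hq
  have a1 := conn_aux hk (bn (TT p.1)) (bn_zero hp) ((gap_bn hp).1 hpg) (by omega) p
    ⟨pt (TG n r (sg 0 k)), planar_pt _⟩ (TG_bn hp).symm (hpt _)
  have a2 := conn_aux hk (bn (TT q.1)) (bn_zero hq) ((gap_bn hq).1 hqg) (by omega) q
    ⟨pt (TG n r (sg 0 k)), planar_pt _⟩ (TG_bn hq).symm (hpt _)
  have a3 := a2.symm (cc_coc q) (Rch.rf q)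
  have := a1.trans a3
  rwa [inv_one, mul_one] at this

theorem surj_M {b : MP n} (hb : (TT b.1).card = r) (hbg : HasGap b.1) :
    ∀ g, Pth (cc n r k) b b g := by
  intro g
  induction g using FreeGroup.induction_on with
  | C1 => exact Pth.nil b
  | of y =>
    have htot := gen_tot hk y
    obtain ⟨t, j, l, p, q, ht, hj, hl, h3, h4, h5, h6⟩ := cc_move (n := n) (c := cS y.1.2.1)
      (a := ta y.1.2.2) (b := tb y.1.2.2) y.1.1.2 htot
    have hv : cc n r k p q = FreeGroup.of y := by
      unfold cc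
      rw [cM_rt h5, h3]
      exact psi_gen hk y t j l ht hj hl
    have hpc : (TT p.1).card = r := by
      rw [h3]
      exact card_TG (by rw [tot_add, tot_single (by omega)]; omega)
    have hqc : (TT q.1).card = r := by rw [← fr_card (mp_fr.1 h6)]; exact hpc
    have hd : 1 ≤ ta y.1.2.2 + tb y.1.2.2 := by
      rcases y.1.2.2 with ⟨_ | _ | _ | m, hm⟩ <;> simp [ta, tb] at *
    have hpg : HasGap p.1 := by
      have hf := h5.fr
      have hln := l.2
      refine ⟨⟨t.1 + 1, by omega⟩, ⟨t.1 + 2, by omega⟩, rfl, ?_, ?_⟩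
      · rw [← mem_TT]
        exact hf.2.2 _ (by rw [Fin.lt_def]; simp) (by rw [Fin.le_def]; simp only; omega)
      · rw [← mem_TT]
        exact hf.2.2 _ (by rw [Fin.lt_def]; simp) (by rw [Fin.le_def]; simp only; omega)
    have hqg : HasGap q.1 := by
      by_contra hcon
      have := no_gap_alone h6.symm hcon
      rw [← this] at hcon
      exact hcon hpg
    have a1 := conn hk hb hbg hpc hpg
    have a2 := conn hk hqc hqg hb hbg
    have a3 := Pth.single (c := cc n r k) h6
    rw [hv] at a3
    have := (a1.trans a3).trans a2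
    rwa [one_mul, mul_one] at this
  | inv_of y ih =>
    exact ih.symm (cc_coc b) (Rch.rf b)
  | mul x y hx hy => exact hx.trans hy

end

section univ

variable {H : Type} [Group H] (U : Finset (Fin n) → Fin n → Fin n → Fin n → H)

theorem pos_gt {c : ℕ → ℕ} {i j d : ℕ} (h : i < j) : pos (c + sg j d) i = pos c i := by
  unfold pos
  congr 1
  apply Finset.sum_congr rfl
  intro l hl
  rw [Finset.mem_range] at hl
  rw [Pi.add_apply, sg_ne (by omega), add_zero]

theorem pos_le {c : ℕ → ℕ} {i j d : ℕ} (h : j ≤ i) : pos (c + sg j d) i = pos c i + d := by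
  have : ∑ l ∈ Finset.range (i + 1), (c + sg j d) l = (∑ l ∈ Finset.range (i + 1), c l) + d := by
    simp only [Pi.add_apply, Finset.sum_add_distrib]
    congr 1
    rw [Finset.sum_eq_single j]
    · exact Pi.single_eq_same _ _
    · intro b _ hb; exact sg_ne hb
    · intro h'; exfalso; apply h'; simp; omega
  unfold pos
  rw [this]
  ring

open Classical in
/-- the chip system of a position system -/
noncomputable def Vd (n r : ℕ) (U : Finset (Fin n) → Fin n → Fin n → Fin n → H) (i : ℕ)
    (c : ℕ → ℕ) (a b : ℕ) : H :=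
  if h : i < r ∧ tot r c + (a + b + 2) + r = n then
    U (TG n r (c + sg (i + 1) (a + b + 2)))
      ⟨pos c i, by have := pos_lt h.1 h.2; omega⟩ ⟨pos c i + a + 1, by have := pos_lt h.1 h.2; omega⟩
      ⟨pos c i + (a + b + 2), pos_lt h.1 h.2⟩
  else 1

variable {U} {r : ℕ}

theorem vd_eq {i : ℕ} {c : ℕ → ℕ} {a b : ℕ} (hi : i < r) (h : tot r c + (a + b + 2) + r = n)
    (t j l : Fin n) (ht : t.1 = pos c i) (hj : j.1 = t.1 + a + 1)
    (hl : l.1 = t.1 + (a + b + 2)) : Vd n r U i c a b =
      U (TG n r (c + sg (i + 1) (a + b + 2))) t j l := by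
  unfold Vd
  rw [dif_pos ⟨hi, h⟩]
  congr 1
  · exact Fin.ext ht.symm
  · exact Fin.ext (by simp only; omega)
  · exact Fin.ext (by simp only; omega)

theorem vd_not {i : ℕ} {c : ℕ → ℕ} {a b : ℕ} (h : ¬ (tot r c + (a + b + 2) + r = n)) :
    Vd n r U i c a b = 1 := by
  unfold Vd
  rw [dif_neg (fun hh => h hh.2)]

theorem vd_sys (hU : PSys r U) : Sys r (Vd n r U) := by
  constructor
  · intro i c a1 b1 a2 b2 hi
    by_cases h : tot r c + (a1 + b1 + a2 + b2 + 4) + r = n
    · have hlt := pos_lt (c := c) (d := a1 + b1 + a2 + b2 + 4) hi h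
      have t1 : tot r (c + sg (i + 1) (a2 + b2 + 2)) + (a1 + b1 + 2) + r = n := by
        rw [tot_add, tot_single (by omega)]; omega
      have t2 : tot r (c + sg i (a1 + b1 + 2)) + (a2 + b2 + 2) + r = n := by
        rw [tot_add, tot_single (by omega)]; omega
      have t3 : tot r c + (a1 + (b1 + a2 + b2 + 2) + 2) + r = n := by omega
      set t : Fin n := ⟨pos c i, by omega⟩ with ht
      set j1 : Fin n := ⟨pos c i + a1 + 1, by omega⟩ with hj1
      set l1 : Fin n := ⟨pos c i + (a1 + b1 + 2), by omega⟩ with hl1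
      set j2 : Fin n := ⟨pos c i + (a1 + b1 + 2) + a2 + 1, by omega⟩ with hj2
      set l2 : Fin n := ⟨pos c i + (a1 + b1 + 2) + (a2 + b2 + 2), by omega⟩ with hl2
      obtain ⟨f1, m1⟩ := TG_move hi (by omega) t1 t l1 (by rw [pos_gt (by omega)]) (by simp [ht, hl1])
      obtain ⟨f3, m3⟩ := TG_move hi (by omega) t3 t l2 rfl (by simp only [ht, hl2]; omega)
      rw [vd_eq hi t1 t j1 l1 (by rw [pos_gt (by omega)]) rfl rfl,
        vd_eq hi t2 l1 j2 l2 (by rw [pos_le (le_refl _)]) rfl (by simp only [hl1, hl2]),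
        vd_eq hi t3 t j1 l2 rfl rfl (by simp only [ht, hl2]; omega)]
      have e1 : TG n r (c + sg (i + 1) (a2 + b2 + 2) + sg (i + 1) (a1 + b1 + 2)) =
          TG n r (c + sg (i + 1) (a1 + (b1 + a2 + b2 + 2) + 2)) := by
        congr 1
        rw [add_assoc, ← Pi.single_add]
        congr 2
        ring
      have e2 : TG n r (c + sg i (a1 + b1 + 2) + sg (i + 1) (a2 + b2 + 2)) =
          mv (TG n r (c + sg (i + 1) (a1 + (b1 + a2 + b2 + 2) + 2))) t l1 := by
        rw [← e1, m1]
        congr 1
        exact add_right_comm _ _ _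
      rw [e1, e2]
      apply hU.R1 _ _ _ _ _ _ (card_TG (by rw [tot_add, tot_single (by omega)]; omega)) f3 <;>
      · rw [Fin.lt_def]; simp only [ht, hj1, hl1, hj2, hl2]; omega
    · rw [vd_not (by rw [tot_add, tot_single (by omega)]; omega),
        vd_not (by rw [tot_add, tot_single (by omega)]; omega), vd_not (by omega), one_mul]
  · intro i c a1 b1 a2 b2 hi
    by_cases h : tot r c + (a1 + b1 + a2 + b2 + 4) + r = n
    · have hlt := pos_lt (c := c) (d := a1 + b1 + a2 + b2 + 4) hi h
      have t3 : tot r c + (a1 + (b1 + a2 + b2 + 2) + 2) + r = n := by omega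
      have t4 : tot r c + (a1 + b1 + a2 + 2 + b2 + 2) + r = n := by omega
      set t : Fin n := ⟨pos c i, by omega⟩ with ht
      set j1 : Fin n := ⟨pos c i + a1 + 1, by omega⟩ with hj1
      set l1 : Fin n := ⟨pos c i + (a1 + b1 + 2), by omega⟩ with hl1
      set j2 : Fin n := ⟨pos c i + (a1 + b1 + 2) + a2 + 1, by omega⟩ with hj2
      set l2 : Fin n := ⟨pos c i + (a1 + b1 + 2) + (a2 + b2 + 2), by omega⟩ with hl2
      obtain ⟨f3, m3⟩ := TG_move hi (by omega) t3 t l2 rfl (by simp only [ht, hl2]; omega)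
      rw [vd_eq hi t3 t j1 l2 rfl rfl (by simp only [ht, hl2]; omega),
        vd_eq hi t4 t j2 l2 rfl (by simp only [ht, hj2]; omega) (by simp only [ht, hl2]; omega)]
      have e1 : TG n r (c + sg (i + 1) (a1 + b1 + a2 + 2 + b2 + 2)) =
          TG n r (c + sg (i + 1) (a1 + (b1 + a2 + b2 + 2) + 2)) := by
        congr 3
        ring
      rw [e1, ← hU.R1 _ t j1 l1 j2 l2 (card_TG (by rw [tot_add, tot_single (by omega)]; omega)) f3
        (by rw [Fin.lt_def]; simp only [ht, hj1]; omega)
        (by rw [Fin.lt_def]; simp only [hj1, hl1]; omega)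
        (by rw [Fin.lt_def]; simp only [hl1, hj2]; omega)
        (by rw [Fin.lt_def]; simp only [hj2, hl2]; omega)]
      apply hU.R2 _ _ _ _ _ _ (card_TG (by rw [tot_add, tot_single (by omega)]; omega)) f3 <;>
      · rw [Fin.lt_def]; simp only [ht, hj1, hl1, hj2, hl2]; omega
    · rw [vd_not (by omega), vd_not (by omega)]
  · -- commutation, first for `i < j`
    have key : ∀ i j c a b a' b', i < r → j < r → i < j →
        Vd n r U i (c + sg (j + 1) (a' + b' + 2)) a b * Vd n r U j (c + sg i (a + b + 2)) a' b' =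
        Vd n r U j (c + sg (i + 1) (a + b + 2)) a' b' *
          Vd n r U i (c + sg j (a' + b' + 2)) a b := by
      intro i j c a b a' b' hi hj hij
      by_cases h : tot r c + (a + b + 2) + (a' + b' + 2) + r = n
      · have hcj : tot r (c + sg i (a + b + 2)) + (a' + b' + 2) + r = n := by
          rw [tot_add, tot_single (by omega)]; omega
        have hcj' : tot r (c + sg (i + 1) (a + b + 2)) + (a' + b' + 2) + r = n := by
          rw [tot_add, tot_single (by omega)]; omega
        have hci : tot r (c + sg (j + 1) (a' + b' + 2)) + (a + b + 2) + r = n := by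
          rw [tot_add, tot_single (by omega)]; omega
        have hci' : tot r (c + sg j (a' + b' + 2)) + (a + b + 2) + r = n := by
          rw [tot_add, tot_single (by omega)]; omega
        have hlt := pos_lt hj hcj
        rw [pos_le (by omega)] at hlt
        have hpp : pos c i < pos c j := by
          unfold pos
          have : ∑ l ∈ Finset.range (i + 1), c l ≤ ∑ l ∈ Finset.range (j + 1), c l := by
            apply Finset.sum_le_sum_of_subset
            intro x hx
            rw [Finset.mem_range] at hx ⊢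
            omega
          omega
        set t : Fin n := ⟨pos c i, by omega⟩ with ht
        set m : Fin n := ⟨pos c i + a + 1, by omega⟩ with hm
        set l : Fin n := ⟨pos c i + (a + b + 2), by omega⟩ with hl
        set t' : Fin n := ⟨pos c j + (a + b + 2), by omega⟩ with ht'
        set m' : Fin n := ⟨pos c j + (a + b + 2) + a' + 1, by omega⟩ with hm'
        set l' : Fin n := ⟨pos c j + (a + b + 2) + (a' + b' + 2), by omega⟩ with hl'
        obtain ⟨f1, m1⟩ := TG_move hi (by omega) hci t l (by rw [pos_gt (by omega)]) rfl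
        obtain ⟨f2, m2⟩ := TG_move hj (by omega) hcj' t' l' (by rw [pos_le (by omega)]) rfl
        rw [vd_eq hi hci t m l (by rw [pos_gt (by omega)]) rfl rfl,
          vd_eq hj hcj t' m' l' (by rw [pos_le (by omega)]) rfl rfl,
          vd_eq hj hcj' t' m' l' (by rw [pos_le (by omega)]) rfl rfl,
          vd_eq hi hci' t m l (by rw [pos_gt (by omega)]) rfl rfl]
        have e1 : c + sg (j + 1) (a' + b' + 2) + sg (i + 1) (a + b + 2) =
            c + sg (i + 1) (a + b + 2) + sg (j + 1) (a' + b' + 2) := add_right_comm _ _ _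
        have e2 : TG n r (c + sg i (a + b + 2) + sg (j + 1) (a' + b' + 2)) =
            mv (TG n r (c + sg (i + 1) (a + b + 2) + sg (j + 1) (a' + b' + 2))) t l := by
          rw [← e1, m1]
          congr 1
          exact add_right_comm _ _ _
        have e3 : TG n r (c + sg j (a' + b' + 2) + sg (i + 1) (a + b + 2)) =
            mv (TG n r (c + sg (i + 1) (a + b + 2) + sg (j + 1) (a' + b' + 2))) t' l' := by
          rw [m2]
          congr 1
          exact add_right_comm _ _ _
        rw [e1] at f1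
        rw [e1, e2, e3]
        apply hU.CM _ _ _ _ _ _ _ (card_TG (by
          rw [tot_add, tot_add, tot_single (by omega), tot_single (by omega)]; omega)) f1 f2 <;>
        · rw [Fin.lt_def]; simp only [ht, hm, hl, ht', hm', hl']; omega
      · rw [vd_not (by rw [tot_add, tot_single (by omega)]; omega),
          vd_not (by rw [tot_add, tot_single (by omega)]; omega),
          vd_not (by rw [tot_add, tot_single (by omega)]; omega),
          vd_not (by rw [tot_add, tot_single (by omega)]; omega)]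
    intro i j c a b a' b' hi hj hij
    rcases lt_or_gt_of_ne hij with h | h
    · exact key i j c a b a' b' hi hj h
    · exact (key j i c a' b' a b hj hi h).symm

end univ

theorem univ_M {r k : ℕ} (hk : r + k = n) {b : MP n} (hb : (TT b.1).card = r)
    (hbg : HasGap b.1) (H : Type) (iH : Group H) (u : MP n → MP n → H) (hu : Coc b u) :
    ∃ (φ : FreeGroup (GenM r k) →* H) (g : MP n → H), ∀ p q, Rch b p → Fr p q →
      u p q = g p * φ (cc n r k p q) * (g q)⁻¹ := by
  have hreach : ∀ p : MP n, (TT p.1).card = r → HasGap p.1 → Rch b p := fun p hp hpg =>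
    (conn hk hb hbg hp hpg).rch
  obtain ⟨g1, U, hU, hst⟩ := fib_main hu hreach
  obtain ⟨h, hh⟩ := chips_main (vd_sys (n := n) hU)
  set φ : FreeGroup (GenM r k) →* H := FreeGroup.lift (fun y =>
    gg (Vd n r U) h y.1.1.1 (cS y.1.2.1) (ta y.1.2.2) (tb y.1.2.2)) with hφ
  set G : MP n → H := fun p => g1 p * h (bn (TT p.1)) with hG
  refine ⟨φ, G, ?_⟩
  -- the value of a right move
  have hval : ∀ p q : MP n, (TT p.1).card = r → ∀ t j l, Rt p.1 q.1 t j l →
      U (TT p.1) t j l = h (bn (TT p.1)) * φ (cc n r k p q) * (h (bn (TT q.1)))⁻¹ := by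
    intro p q hp t j l hR
    have htj := hR.tj
    have hjl := hR.jl
    rw [Fin.lt_def] at htj hjl
    obtain ⟨i, c, hi, hc, e1, e2, e3⟩ := bn_move hR.fr hp
    rw [← hR.mv] at e2
    set a := j.1 - t.1 - 1 with ha
    set b' := l.1 - j.1 - 1 with hb'
    have hd : l.1 - t.1 = a + b' + 2 := by omega
    have hj' : j.1 = t.1 + a + 1 := by omega
    have hl' : l.1 = t.1 + (a + b' + 2) := by omega
    clear_value a b'
    rw [hd] at e1 e2
    have htot : tot r c + (a + b' + 2) + r = n := by
      have := tot_bn hp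
      rw [e1, tot_add, tot_single (by omega)] at this
      exact this
    have hT : TT p.1 = TG n r (c + sg (i + 1) (a + b' + 2)) := by
      rw [← e1, TG_bn hp]
    have hU1 : U (TT p.1) t j l = Vd n r U i c a b' := by
      rw [vd_eq hi htot t j l e3 (by omega) (by omega), hT]
    have hg : Vd n r U i c a b' = h (bn (TT p.1)) * gg (Vd n r U) h i c a b' *
        (h (bn (TT q.1)))⁻¹ := by
      rw [e1, e2]
      unfold gg
      group
    rw [hU1, hg]
    congr 2
    unfold cc
    rw [cM_rt hR, hT]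
    by_cases hRem : Rem r i c a b'
    · obtain ⟨y, h1, h2, h3, h4⟩ := rem_gen hk hi hc htot hRem
      have hps := psi_gen hk y t j l (by rw [h1, h2]; exact e3) (by rw [h3]; exact hj')
        (by rw [h3, h4]; exact hl')
      rw [h1, h2, h3, h4] at hps
      rw [hps, hφ, FreeGroup.lift_apply_of, h1, h2, h3, h4]
    · rw [psi_not_rem hk hi hc htot hRem t j l e3 hj' hl', map_one]
      exact hh i c a b' hi hRem
  apply coc_ext hu (((cc_coc b).map φ).gauge G) EM gen_M
  intro p e hp he hke
  have hpc : (TT p.1).card = r := (rch_card_M hp).trans hb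
  have hpg : HasGap p.1 := rch_gap hbg hp
  have hfr : Fr p (th p e) := fr_th hke
  rcases hst p e hpc hpg he hke with ⟨h1, h2⟩ | ⟨t, j, l, h1, h2⟩ | ⟨t, j, l, h1, h2⟩
  · have hc1 : cc n r k p (th p e) = 1 := cc_same h1.symm
    show u p (th p e) = G p * φ (cc n r k p (th p e)) * (G (th p e))⁻¹
    rw [hc1, map_one, mul_one, hG]
    simp only [h1]
    calc u p (th p e) = g1 p * ((g1 p)⁻¹ * u p (th p e) * g1 (th p e)) * (g1 (th p e))⁻¹ := by
          group
      _ = _ := by rw [h2]; group
  · show u p (th p e) = G p * φ (cc n r k p (th p e)) * (G (th p e))⁻¹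
    rw [hval p (th p e) hpc t j l h1] at h2
    calc u p (th p e) = g1 p * ((g1 p)⁻¹ * u p (th p e) * g1 (th p e)) * (g1 (th p e))⁻¹ := by
          group
      _ = _ := by rw [h2, hG]; group
  · show u p (th p e) = G p * φ (cc n r k p (th p e)) * (G (th p e))⁻¹
    have hqc : (TT (th p e).1).card = r := by rw [← fr_card (mp_fr.1 hfr)]; exact hpc
    rw [hval (th p e) p hqc t j l h1] at h2
    have hinv : cc n r k (th p e) p = (cc n r k p (th p e))⁻¹ :=
      (cc_coc p).inv' (Rch.rf p) hfr
    rw [hinv, map_inv] at h2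
    calc u p (th p e) = g1 p * ((g1 p)⁻¹ * u p (th p e) * g1 (th p e)) * (g1 (th p e))⁻¹ := by
          group
      _ = _ := by rw [h2, hG]; group

theorem motzkin_gap (b : MP n) (hb : HasGap b.1) :
    Nonempty (MaxSub (xx b) ≃* FreeGroup (Fin (mrank (TT b.1).card (n - (TT b.1).card)))) := by
  have hle : (TT b.1).card ≤ n := by
    have := Finset.card_le_univ (TT b.1)
    simpa using this
  have hk : (TT b.1).card + (n - (TT b.1).card) = n := by omega
  obtain ⟨e⟩ := maxsub_main (cc_coc (r := (TT b.1).card) (k := n - (TT b.1).card) b) (hmin_M b)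
    (surj_M hk rfl hb) (univ_M hk rfl hb)
  have hc := card_GenM (TT b.1).card (n - (TT b.1).card)
  exact ⟨e.trans (FreeGroup.freeGroupCongr (Finite.equivFinOfCardEq hc))⟩

theorem motzkin_nogap (b : MP n) (hb : ¬ HasGap b.1) :
    Nonempty (MaxSub (xx b) ≃* FreeGroup (Fin 0)) := by
  have hone : ∀ p, Rch b p → p = b := by
    intro p hp
    induction hp with
    | refl => rfl
    | tail _ h2 ih => subst ih; exact no_gap_alone h2 hb
  refine maxsub_main (c := fun _ _ => 1) ⟨fun _ _ _ _ => one_mul 1, fun _ _ _ _ _ _ _ =>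
    (one_mul 1).symm⟩ (hmin_M b) ?_ ?_
  · intro g
    rw [Subsingleton.elim g 1]
    exact Pth.nil b
  · intro H iH u hu
    refine ⟨1, fun _ => 1, ?_⟩
    intro p q hp hpq
    have h1 := hone p hp
    have h2 := hone q (hp.step hpq)
    subst h1
    subst h2
    rw [hu.self hp]
    simp

end

end Pool.Agent.H213PG
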