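import Mathlib.Algebra.Free
import Mathlib.GroupTheory.Congruence.Defs
import Mathlib.GroupTheory.Congruence.Basic
import Mathlib.Logic.Relation
import Mathlib.Algebra.Group.Subgroup.Basic

set_option autoImplicit false

/-!
# Free projection-generated regular `*`-semigroups: the maximal subgroups via cocycles
-/

namespace Pool.Agent.H213PG

/-- projection algebras; `th p s` stands for `s p s`, the usual `p θ_s` -/
class PA (P : Type) where
  th : P → P → P
  th_self : ∀ p, th p p = p
  th_idem : ∀ p s, th (th p s) s = th p s
  th_sw : ∀ p q, th (th p q) p = th q p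
  th_th : ∀ x p q, th x (th q p) = th (th (th x p) q) p
  th_p5 : ∀ x p q, th (th (th (th x p) q) p) q = th (th x p) q

open PA

section PGdef

variable (P : Type) [PA P]

/-- the defining relations -/
inductive PGRel : FreeSemigroup P → FreeSemigroup P → Prop
  | idem (p : P) : PGRel (FreeSemigroup.of p * FreeSemigroup.of p) (FreeSemigroup.of p)
  | sq (p q : P) : PGRel ((FreeSemigroup.of p * FreeSemigroup.of q) *
      (FreeSemigroup.of p * FreeSemigroup.of q)) (FreeSemigroup.of p * FreeSemigroup.of q)
  | tri (p q : P) : PGRel (FreeSemigroup.of p * FreeSemigroup.of q * FreeSemigroup.of p)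
      (FreeSemigroup.of (th q p))

/-- the free projection-generated regular `*`-semigroup -/
def PG : Type := (conGen (PGRel P)).Quotient

instance : Semigroup (PG P) := inferInstanceAs (Semigroup (conGen (PGRel P)).Quotient)

end PGdef

section maxsub

variable {S : Type} [Semigroup S]

/-- the maximal subgroup of `S` at `e`: the units of the local monoid `e S e` -/
structure MaxSub (e : S) where
  /-- the underlying element -/
  val : S
  hl : e * val = val
  hr : val * e = val
  hinv : ∃ b, e * b = b ∧ b * e = b ∧ val * b = e ∧ b * val = e

theorem MaxSub.ext {e : S} {a b : MaxSub e} (h : a.val = b.val) : a = b := by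
  cases a; cases b; cases h; rfl

instance (e : S) : Mul (MaxSub e) where
  mul a b := ⟨a.val * b.val, by rw [← mul_assoc, a.hl], by rw [mul_assoc, b.hr], by
    obtain ⟨a', h1, h2, h3, h4⟩ := a.hinv
    obtain ⟨b', k1, k2, k3, k4⟩ := b.hinv
    refine ⟨b' * a', ?_, ?_, ?_, ?_⟩
    · rw [← mul_assoc, k1]
    · rw [mul_assoc, h2]
    · calc a.val * b.val * (b' * a') = a.val * ((b.val * b') * a') := by simp only [mul_assoc]
        _ = a.val * a' := by rw [k3, h1]
        _ = e := h3
    · calc b' * a' * (a.val * b.val) = b' * ((a' * a.val) * b.val) := by simp only [mul_assoc]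
        _ = b' * b.val := by rw [h4, b.hl]
        _ = e := k4⟩

theorem MaxSub.mul_val {e : S} (a b : MaxSub e) : (a * b).val = a.val * b.val := rfl

/-- group structure on the maximal subgroup at an idempotent -/
@[instance_reducible]
noncomputable def maxSubGroup {e : S} (he : e * e = e) : Group (MaxSub e) where
  mul_assoc a b c := MaxSub.ext (mul_assoc _ _ _)
  one := ⟨e, he, he, e, he, he, he, he⟩
  one_mul a := MaxSub.ext a.hl
  mul_one a := MaxSub.ext a.hr
  inv a := ⟨a.hinv.choose, a.hinv.choose_spec.1, a.hinv.choose_spec.2.1, a.val, a.hl, a.hr,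
    a.hinv.choose_spec.2.2.2, a.hinv.choose_spec.2.2.1⟩
  inv_mul_cancel a := MaxSub.ext a.hinv.choose_spec.2.2.2

end maxsub

variable {P : Type} [PA P]

/-- the generators -/
def xx (p : P) : PG P := Quotient.mk (conGen (PGRel P)).toSetoid (FreeSemigroup.of p)

theorem xx_idem (p : P) : xx p * xx p = xx p :=
  Quotient.sound (s := (conGen (PGRel P)).toSetoid) (ConGen.Rel.of _ _ (PGRel.idem p))

theorem xx_sq (p q : P) : (xx p * xx q) * (xx p * xx q) = xx p * xx q :=
  Quotient.sound (s := (conGen (PGRel P)).toSetoid) (ConGen.Rel.of _ _ (PGRel.sq p q))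

theorem xx_tri (p q : P) : xx p * xx q * xx p = xx (th q p) :=
  Quotient.sound (s := (conGen (PGRel P)).toSetoid) (ConGen.Rel.of _ _ (PGRel.tri p q))

theorem xx_tri' (p q : P) : xx p * (xx q * xx p) = xx (th q p) := by
  rw [← mul_assoc, xx_tri]

/-- class of a word -/
def pcl (w : FreeSemigroup P) : PG P := Quotient.mk (conGen (PGRel P)).toSetoid w

theorem pcl_surj (x : PG P) : ∃ w, pcl w = x := Quotient.exists_rep x

theorem pcl_of (p : P) : pcl (FreeSemigroup.of p) = xx p := rfl

theorem pcl_mul (v w : FreeSemigroup P) : pcl (v * w) = pcl v * pcl w := rfl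

/-- friendly pairs -/
def Fr (p q : P) : Prop := th p q = q ∧ th q p = p

theorem Fr.symm {p q : P} (h : Fr p q) : Fr q p := ⟨h.2, h.1⟩

theorem Fr.refl (p : P) : Fr p p := ⟨th_self p, th_self p⟩

/-- reachability through friendly pairs -/
def Rch (b p : P) : Prop := Relation.ReflTransGen Fr b p

theorem Rch.step {b p q : P} (h : Rch b p) (h2 : Fr p q) : Rch b q :=
  Relation.ReflTransGen.tail h h2

section paLemmas

theorem th_le {r s : P} (h : th r s = r) : th s r = r := by
  have := th_sw r s
  rw [h] at this
  rw [← this, th_self]

/-- `p r p = p`, `r ≤ s` imply `p s p = p` -/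
theorem kept_of_le {p r s : P} (h1 : th r p = p) (h2 : th r s = r) : th s p = p := by
  have e1 : th s p = th (th (th s p) r) p := by
    conv_lhs => rw [← h1]
    rw [th_th]
  have e2 : th (th s p) r = th p r := by
    conv_lhs => rw [← h2]
    rw [th_th, th_sw, ← th_th, h2]
  rw [e1, e2, th_sw, h1]

/-- if `p s p = p` then `p` and `s p s` are friendly -/
theorem fr_th {p s : P} (h : th s p = p) : Fr p (th p s) := by
  constructor
  · rw [th_th, th_sw, h]
  · rw [th_sw, h]

theorem th_s_th {p s : P} (h : th s p = p) : th s (th p s) = th p s := by
  rw [th_th, th_self, h]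

end paLemmas

/-- cocycles on the component of `b` -/
structure Coc (b : P) {G : Type} [Group G] (c : P → P → G) : Prop where
  inv : ∀ p q, Rch b p → Fr p q → c p q * c q p = 1
  tri : ∀ p q s, Rch b p → Fr p q → th q s = q → th s p = p →
    c p q = c p (th p s) * c (th p s) q

section action

variable {b : P} {G : Type} [Group G] {c : P → P → G}

theorem Coc.self (hc : Coc b c) {p : P} (hp : Rch b p) : c p p = 1 := by
  have := hc.tri p p p hp (Fr.refl p) (th_self p) (th_self p)
  rw [th_self] at this
  exact (mul_eq_left (a := c p p)).1 this.symm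

theorem Coc.inv' (hc : Coc b c) {p q : P} (hp : Rch b p) (h : Fr p q) : c q p = (c p q)⁻¹ :=
  (inv_eq_of_mul_eq_one_right (hc.inv p q hp h)).symm

/-- reversed triangle -/
theorem Coc.tri' (hc : Coc b c) {p q s : P} (hp : Rch b p) (h : Fr p q) (h1 : th q s = q)
    (h2 : th s p = p) (h3 : Fr (th p s) q) : c q p = c q (th p s) * c (th p s) p := by
  have e := hc.tri p q s hp h h1 h2
  have hq : Rch b q := hp.step h
  have hs : Rch b (th p s) := hp.step (fr_th h2)
  rw [hc.inv' hp h, e, mul_inv_rev, hc.inv' hs h3, hc.inv' hp (fr_th h2)]

open Classical in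
/-- the partial transformation of a generator -/
noncomputable def actF (c : P → P → G) (s : P) : Option (P × G) → Option (P × G)
  | none => none
  | some (p, g) => if th s p = p then some (th p s, g * c p (th p s)) else none

open Classical in
theorem actF_pos {s p : P} {g : G} (h : th s p = p) :
    actF c s (some (p, g)) = some (th p s, g * c p (th p s)) := by
  simp [actF, h]

open Classical in
theorem actF_neg {s p : P} {g : G} (h : ¬ th s p = p) : actF c s (some (p, g)) = none := by
  simp [actF, h]

theorem actF_none {s : P} : actF c s none = none := rfl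

/-- states over the component of `b` -/
def St (b : P) (G : Type) : Type := {x : Option (P × G) // ∀ p g, x = some (p, g) → Rch b p}

noncomputable def actS (b : P) (c : P → P → G) (s : P) (x : St b G) : St b G :=
  ⟨actF c s x.1, by
    intro p g h
    obtain ⟨x, hx⟩ := x
    match x, hx with
    | none, _ => simp [actF] at h
    | some (q, k), hx =>
      by_cases hk : th s q = q
      · rw [actF_pos hk] at h
        simp only [Option.some.injEq, Prod.mk.injEq] at h
        rw [← h.1]
        exact (hx q k rfl).step (fr_th hk)
      · rw [actF_neg hk] at h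
        simp at h⟩

theorem St.ext {x y : St b G} (h : x.1 = y.1) : x = y := Subtype.ext h

/-- the semigroup of transformations, acting on the right -/
def TrS (X : Type) : Type := X → X

instance (X : Type) : Semigroup (TrS X) where
  mul f g := fun x => g (f x)
  mul_assoc _ _ _ := rfl

theorem TrS.mul_app {X : Type} (f g : TrS X) (x : X) : (f * g) x = g (f x) := rfl

theorem kept_chain {p s t : P} (h1 : th s p = p) (h2 : th t (th p s) = th p s) :
    th s (th (th p s) t) = th (th p s) t := by
  have e1 : th (th s t) (th p s) = th p s := by
    have : th (th s t) (th p s) = th t (th p s) := by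
      rw [th_th, th_sw, ← th_th]
    rw [this, h2]
  rw [th_th, e1]

theorem kept_tri {p s t : P} : (th s p = p ∧ th t (th p s) = th p s) ↔ th (th t s) p = p := by
  constructor
  · rintro ⟨h1, h2⟩
    rw [th_th] at h2
    have h3 : th (th (th (th t s) p) s) p = th (th p s) p := by rw [h2]
    rw [th_p5, th_sw, h1] at h3
    exact h3
  · intro h
    have h1 : th s p = p := kept_of_le h (th_idem t s)
    refine ⟨h1, ?_⟩
    rw [th_th, h]

theorem act_tri (hc : Coc b c) (s t : P) (x : St b G) :
    actS b c s (actS b c t (actS b c s x)) = actS b c (th t s) x := by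
  apply St.ext
  obtain ⟨x, hx⟩ := x
  match x, hx with
  | none, _ => rfl
  | some (p, g), hx =>
    have hp := hx p g rfl
    show actF c s (actF c t (actF c s (some (p, g)))) = actF c (th t s) (some (p, g))
    by_cases h : th (th t s) p = p
    · obtain ⟨h1, h2⟩ := kept_tri.2 h
      have h3 := kept_chain h1 h2
      rw [actF_pos h1, actF_pos h2, actF_pos h3, actF_pos h]
      have hd : th (th (th p s) t) s = th p (th t s) := (th_th p s t).symm
      rw [hd]
      -- names
      set a := th p s with ha
      set bb := th a t with hbb
      set d := th p (th t s) with hdd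
      have hab : Fr a bb := fr_th h2
      have hpa : Fr p a := fr_th h1
      have hpd : Fr p d := fr_th h
      have hra : Rch b a := hp.step hpa
      have hrb : Rch b bb := hra.step hab
      have hbd : Fr bb d := by
        have := fr_th h3
        rw [hd] at this
        exact this
      have hds : th d s = d := by rw [← hd, th_idem]
      have has : th a s = a := th_idem p s
      -- friendly a d
      have had : Fr a d := by
        constructor
        · rw [← hd, th_th, has, hab.1]
        · have k1 : th (th bb s) a = th (th (th bb s) a) s := by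
            conv_lhs => rw [← has]
            rw [th_th, th_idem]
          have k2 : th bb a = th (th (th bb s) a) s := by
            conv_lhs => rw [← has]
            rw [th_th]
          rw [← hd, k1, ← k2, hab.2]
      have e1 : c p d = c p a * c a d := hc.tri p d s hp hpd hds h1
      have e2 : c a bb = c a d * c d bb := by
        have := hc.tri' (p := bb) (q := a) (s := s) hrb hab.symm has h3 (by rw [hd]; exact had.symm)
        rwa [hd] at this
      rw [e1, e2]
      congr 2
      have e4 := hc.inv' hrb hbd
      rw [e4]
      simp only [mul_assoc, inv_mul_cancel, mul_one]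
    · rw [actF_neg (s := th t s) h]
      by_cases h1 : th s p = p
      · by_cases h2 : th t (th p s) = th p s
        · exact absurd (kept_tri.1 ⟨h1, h2⟩) h
        · rw [actF_pos h1, actF_neg h2, actF_none]
      · rw [actF_neg h1, actF_none, actF_none]

theorem act_idem (hc : Coc b c) (s : P) (x : St b G) :
    actS b c s (actS b c s x) = actS b c s x := by
  apply St.ext
  obtain ⟨x, hx⟩ := x
  match x, hx with
  | none, _ => rfl
  | some (p, g), hx =>
    have hp := hx p g rfl
    show actF c s (actF c s (some (p, g))) = actF c s (some (p, g))
    by_cases h : th s p = p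
    · rw [actF_pos h, actF_pos (th_s_th h), th_idem, hc.self (hp.step (fr_th h)), mul_one]
    · rw [actF_neg h, actF_none]

theorem act_sq (hc : Coc b c) (s t : P) (x : St b G) :
    actS b c t (actS b c s (actS b c t (actS b c s x))) = actS b c t (actS b c s x) := by
  apply St.ext
  obtain ⟨x, hx⟩ := x
  match x, hx with
  | none, _ => rfl
  | some (p, g), hx =>
    have hp := hx p g rfl
    show actF c t (actF c s (actF c t (actF c s (some (p, g))))) = actF c t (actF c s (some (p, g)))
    by_cases h1 : th s p = p
    · by_cases h2 : th t (th p s) = th p s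
      · have h3 := kept_chain h1 h2
        have h4 : th t (th (th (th p s) t) s) = th (th (th p s) t) s :=
          kept_chain (p := th p s) h2 h3
        rw [actF_pos h1, actF_pos h2, actF_pos h3, actF_pos h4, th_p5]
        congr 2
        have hpa : Fr p (th p s) := fr_th h1
        have hra := hp.step hpa
        have hab : Fr (th p s) (th (th p s) t) := fr_th h2
        have hrb := hra.step hab
        have hbd := fr_th h3
        have := hc.inv _ _ hrb hbd
        simp only [mul_assoc, this, mul_one]
      · rw [actF_pos h1, actF_neg h2, actF_none, actF_none]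
    · rw [actF_neg h1, actF_none, actF_none, actF_none]

/-- the action as a homomorphism on words -/
noncomputable def actW (b : P) (c : P → P → G) : FreeSemigroup P →ₙ* TrS (St b G) :=
  FreeSemigroup.lift (fun s => (actS b c s : TrS (St b G)))

theorem actW_of (s : P) : actW b c (FreeSemigroup.of s) = (actS b c s : TrS (St b G)) := rfl

theorem actW_ker (hc : Coc b c) : conGen (PGRel P) ≤ Con.ker (actW b c) := by
  rw [Con.conGen_le]
  intro x y h
  rw [Con.ker_rel]
  cases h with
  | idem p =>
    rw [map_mul, actW_of]
    funext z
    exact act_idem hc p z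
  | sq p q =>
    rw [map_mul, map_mul, actW_of, actW_of]
    funext z
    exact act_sq hc p q z
  | tri p q =>
    rw [map_mul, map_mul, actW_of, actW_of, actW_of]
    funext z
    exact act_tri hc p q z

/-- the action of `PG P` -/
noncomputable def act (hc : Coc b c) : PG P →ₙ* TrS (St b G) where
  toFun := fun x => Quotient.lift (s := (conGen (PGRel P)).toSetoid) (fun w => actW b c w)
    (fun _ _ h => actW_ker hc h) x
  map_mul' := by
    intro x y
    induction x using Quotient.inductionOn
    induction y using Quotient.inductionOn
    exact map_mul (actW b c) _ _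

theorem act_xx (hc : Coc b c) (s : P) : act hc (xx s) = (actS b c s : TrS (St b G)) := rfl

end action

end Pool.Agent.H213PG
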