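import Pool.Agent.helper213_PG.Abs

set_option autoImplicit false
set_option linter.unusedSectionVars false

/-!
# The maximal subgroup theorem
-/

namespace Pool.Agent.H213PG

open PA

variable {P : Type} [PA P]

/-- connecting elements -/
structure CE (p q : P) (y y' : PG P) : Prop where
  ly : xx p * y = y
  yr : y * xx q = y
  ly' : xx q * y' = y'
  yr' : y' * xx p = y'
  h1 : y * y' = xx p
  h2 : y' * y = xx q

theorem CE.refl (p : P) : CE p p (xx p) (xx p) :=
  ⟨xx_idem p, xx_idem p, xx_idem p, xx_idem p, xx_idem p, xx_idem p⟩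

theorem CE.symm {p q : P} {y y' : PG P} (h : CE p q y y') : CE q p y' y :=
  ⟨h.ly', h.yr', h.ly, h.yr, h.h2, h.h1⟩

theorem CE.trans {p q r : P} {y y' z z' : PG P} (h : CE p q y y') (k : CE q r z z') :
    CE p r (y * z) (z' * y') := by
  refine ⟨?_, ?_, ?_, ?_, ?_, ?_⟩
  · rw [← mul_assoc, h.ly]
  · rw [mul_assoc, k.yr]
  · rw [← mul_assoc, k.ly']
  · rw [mul_assoc, h.yr']
  · calc y * z * (z' * y') = y * ((z * z') * y') := by simp only [mul_assoc]
      _ = y * y' := by rw [k.h1, h.ly']
      _ = xx p := h.h1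
  · calc z' * y' * (y * z) = z' * ((y' * y) * z) := by simp only [mul_assoc]
      _ = z' * z := by rw [h.h2, k.ly]
      _ = xx r := k.h2

theorem CE.of_fr {p q : P} (h : Fr p q) : CE p q (xx p * xx q) (xx q * xx p) := by
  refine ⟨?_, ?_, ?_, ?_, ?_, ?_⟩
  · rw [← mul_assoc, xx_idem]
  · rw [mul_assoc, xx_idem]
  · rw [← mul_assoc, xx_idem]
  · rw [mul_assoc, xx_idem]
  · calc xx p * xx q * (xx q * xx p) = xx p * ((xx q * xx q) * xx p) := by simp only [mul_assoc]
      _ = xx p * (xx q * xx p) := by rw [xx_idem]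
      _ = xx p := by rw [xx_tri', h.2]
  · calc xx q * xx p * (xx p * xx q) = xx q * ((xx p * xx p) * xx q) := by simp only [mul_assoc]
      _ = xx q * (xx p * xx q) := by rw [xx_idem]
      _ = xx q := by rw [xx_tri', h.1]

theorem exists_ce {b p : P} (h : Rch b p) : ∃ y y', CE b p y y' := by
  induction h with
  | refl => exact ⟨_, _, CE.refl b⟩
  | tail _ h2 ih =>
    obtain ⟨y, y', hy⟩ := ih
    exact ⟨_, _, hy.trans (CE.of_fr h2)⟩

theorem xx_mul_of_kept {p s : P} (h : th s p = p) : xx p * xx s = xx p * xx (th p s) := by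
  rw [← xx_tri s p]
  calc xx p * xx s = xx (th s p) * xx s := by rw [h]
    _ = (xx p * xx s * xx p) * xx s := by rw [xx_tri]
    _ = xx p * (xx s * xx p * xx s) := by simp only [mul_assoc]

theorem xx_of_le {q s : P} (h : th q s = q) : xx s * xx q = xx q := by
  have e : xx s * xx q * xx s = xx q := by rw [xx_tri, h]
  calc xx s * xx q = xx s * (xx s * xx q * xx s) := by rw [e]
    _ = (xx s * xx s) * (xx q * xx s) := by simp only [mul_assoc]
    _ = xx s * xx q * xx s := by rw [xx_idem, mul_assoc]
    _ = xx q := e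

section yy

variable (b : P)

open Classical in
noncomputable def yy (p : P) : PG P := if h : Rch b p then (exists_ce h).choose else xx p

open Classical in
noncomputable def yy' (p : P) : PG P :=
  if h : Rch b p then (exists_ce h).choose_spec.choose else xx p

theorem yy_spec {p : P} (h : Rch b p) : CE b p (yy b p) (yy' b p) := by
  unfold yy yy'
  rw [dif_pos h, dif_pos h]
  exact (exists_ce h).choose_spec.choose_spec

noncomputable instance hgrp : Group (MaxSub (xx b)) := maxSubGroup (xx_idem b)

theorem one_val : (1 : MaxSub (xx b)).val = xx b := rfl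

open Classical in
/-- the tautological cocycle -/
noncomputable def uu (p q : P) : MaxSub (xx b) :=
  if h : Rch b p ∧ Fr p q then ⟨yy b p * (xx p * xx q) * yy' b q,
    ((((yy_spec b h.1).trans (CE.of_fr h.2)).trans (yy_spec b (h.1.step h.2)).symm)).ly,
    ((((yy_spec b h.1).trans (CE.of_fr h.2)).trans (yy_spec b (h.1.step h.2)).symm)).yr,
    _,
    ((((yy_spec b h.1).trans (CE.of_fr h.2)).trans (yy_spec b (h.1.step h.2)).symm)).ly',
    ((((yy_spec b h.1).trans (CE.of_fr h.2)).trans (yy_spec b (h.1.step h.2)).symm)).yr',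
    ((((yy_spec b h.1).trans (CE.of_fr h.2)).trans (yy_spec b (h.1.step h.2)).symm)).h1,
    ((((yy_spec b h.1).trans (CE.of_fr h.2)).trans (yy_spec b (h.1.step h.2)).symm)).h2⟩
  else 1

theorem uu_val {p q : P} (h : Rch b p) (h2 : Fr p q) :
    (uu b p q).val = yy b p * (xx p * xx q) * yy' b q := by
  unfold uu
  rw [dif_pos ⟨h, h2⟩]

theorem uu_mul_yy {p q : P} (h : Rch b p) (h2 : Fr p q) :
    (uu b p q).val * yy b q = yy b p * xx q := by
  rw [uu_val b h h2]
  have k := yy_spec b h
  have k2 := yy_spec b (h.step h2)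
  calc yy b p * (xx p * xx q) * yy' b q * yy b q
      = (yy b p * xx p) * (xx q * (yy' b q * yy b q)) := by simp only [mul_assoc]
    _ = yy b p * xx q := by rw [k.yr, k2.h2, xx_idem]

theorem uu_coc : Coc b (uu b) := by
  have canc : ∀ {q : P} (_ : Rch b q) (x y : MaxSub (xx b)), x.val * yy b q = y.val * yy b q → x = y := by
    intro q hq x y h
    have k := yy_spec b hq
    apply MaxSub.ext
    have e : x.val * yy b q * yy' b q = y.val * yy b q * yy' b q := by rw [h]
    rw [mul_assoc, mul_assoc, k.h1, x.hr, y.hr] at e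
    exact e
  constructor
  · intro p q hp h
    apply canc hp
    rw [MaxSub.mul_val, one_val, mul_assoc, uu_mul_yy b (hp.step h) h.symm, ← mul_assoc,
      uu_mul_yy b hp h]
    have k := yy_spec b hp
    calc yy b p * xx q * xx p = (yy b p * xx p) * xx q * xx p := by rw [k.yr]
      _ = yy b p * (xx p * xx q * xx p) := by simp only [mul_assoc]
      _ = xx b * yy b p := by rw [xx_tri, h.2, k.yr, k.ly]
  · intro p q s hp h h1 h2
    have ha : Fr p (th p s) := fr_th h2
    have hra := hp.step ha
    have hq := hp.step h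
    -- friendly (th p s) q
    have haq : Fr (th p s) q := by
      constructor
      · have k1 : th (th p s) q = th (th (th p s) q) s := by
          conv_lhs => rw [← h1]
          rw [th_th, th_idem]
        have k2 : th p q = th (th (th p s) q) s := by
          conv_lhs => rw [← h1]
          rw [th_th]
        rw [k1, ← k2, h.1]
      · rw [th_th, h1, h.2]
    apply canc hq
    rw [MaxSub.mul_val, mul_assoc, uu_mul_yy b hra haq, ← mul_assoc, uu_mul_yy b hp ha,
      uu_mul_yy b hp h]
    have k := yy_spec b hp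
    calc yy b p * xx q = yy b p * (xx s * xx q) := by rw [xx_of_le h1]
      _ = (yy b p * xx p) * (xx s * xx q) := by rw [k.yr]
      _ = yy b p * ((xx p * xx s) * xx q) := by simp only [mul_assoc]
      _ = yy b p * ((xx p * xx (th p s)) * xx q) := by rw [xx_mul_of_kept h2]
      _ = (yy b p * xx p) * xx (th p s) * xx q := by simp only [mul_assoc]
      _ = yy b p * xx (th p s) * xx q := by rw [k.yr]

end yy

end Pool.Agent.H213PG
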