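import Pool.Agent.helper213_PG.Abs2

set_option autoImplicit false
set_option linter.unusedSectionVars false

/-!
# The maximal subgroup theorem
-/

namespace Pool.Agent.H213PG

open PA

variable {P : Type} [PA P]

/-- closed-path values of a cocycle along friendly paths -/
inductive Pth {G : Type} [Group G] (c : P → P → G) : P → P → G → Prop
  | nil (p : P) : Pth c p p 1
  | cons {p q r : P} {g : G} (h : Fr p q) (h2 : Pth c q r g) : Pth c p r (c p q * g)

theorem Pth.trans {G : Type} [Group G] {c : P → P → G} {p q r : P} {g k : G}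
    (h : Pth c p q g) (h2 : Pth c q r k) : Pth c p r (g * k) := by
  induction h with
  | nil => rwa [one_mul]
  | cons h3 _ ih => rw [mul_assoc]; exact Pth.cons h3 (ih h2)

theorem Pth.single {G : Type} [Group G] {c : P → P → G} {p q : P} (h : Fr p q) :
    Pth c p q (c p q) := by
  have := Pth.cons h (Pth.nil (c := c) q)
  rwa [mul_one] at this

theorem Pth.rch {G : Type} [Group G] {c : P → P → G} {p q : P} {g : G} (h : Pth c p q g) :
    Rch p q := by
  induction h with
  | nil => exact Relation.ReflTransGen.refl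
  | cons h3 _ ih => exact Relation.ReflTransGen.head h3 ih

theorem Rch.rf (p : P) : Rch p p := Relation.ReflTransGen.refl

theorem Pth.symm {b : P} {G : Type} [Group G] {c : P → P → G} (hc : Coc b c) {p q : P} {g : G}
    (hp : Rch b p) (h : Pth c p q g) : Pth c q p g⁻¹ := by
  induction h with
  | nil => rw [inv_one]; exact Pth.nil _
  | cons h3 _ ih =>
    rw [mul_inv_rev, ← hc.inv' hp h3]
    exact (ih (hp.step h3)).trans (Pth.single h3.symm)

theorem exists_pth {G : Type} [Group G] (c : P → P → G) {p q : P} (h : Rch p q) :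
    ∃ g, Pth c p q g := by
  induction h with
  | refl => exact ⟨1, Pth.nil _⟩
  | tail _ h2 ih =>
    obtain ⟨g, hg⟩ := ih
    exact ⟨_, hg.trans (Pth.single h2)⟩

section main

variable {b : P} {G : Type} [Group G] {c : P → P → G}

def mkS {p : P} (hp : Rch b p) (g : G) : St b G :=
  ⟨some (p, g), fun q k h => by
    simp only [Option.some.injEq, Prod.mk.injEq] at h
    rw [← h.1]; exact hp⟩

theorem mkS_inj {p q : P} {hp : Rch b p} {hq : Rch b q} {g k : G} (h : mkS hp g = mkS hq k) :
    p = q ∧ g = k := by
  have := congrArg Subtype.val h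
  simp only [mkS, Option.some.injEq, Prod.mk.injEq] at this
  exact this

def noneS : St b G := ⟨none, fun _ _ h => by simp at h⟩

theorem St.cases (z : St b G) : z = noneS ∨ ∃ (p : P) (hp : Rch b p) (g : G), z = mkS hp g := by
  obtain ⟨z, hz⟩ := z
  match z, hz with
  | none, _ => left; rfl
  | some (p, g), hz => right; exact ⟨p, hz p g rfl, g, rfl⟩

theorem actS_mkS_pos {p s : P} (hp : Rch b p) (g : G) (h : th s p = p) :
    actS b c s (mkS hp g) = mkS (hp.step (fr_th h)) (g * c p (th p s)) := by
  apply St.ext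
  exact actF_pos h

theorem actS_mkS_neg {p s : P} (hp : Rch b p) (g : G) (h : ¬ th s p = p) :
    actS b c s (mkS hp g) = noneS := by
  apply St.ext
  exact actF_neg h

theorem actS_noneS (s : P) : actS b c s noneS = noneS := rfl

theorem noneS_ne {p : P} (hp : Rch b p) (g : G) : (noneS : St b G) ≠ mkS hp g := by
  intro h
  have := congrArg Subtype.val h
  simp [mkS, noneS] at this

theorem act_mul (hc : Coc b c) (x y : PG P) (z : St b G) :
    act hc (x * y) z = act hc y (act hc x z) := by
  rw [map_mul]; rfl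

/-- induction over products of generators -/
theorem PG.ind {Q : PG P → Prop} (h1 : ∀ s, Q (xx s)) (h2 : ∀ x s, Q x → Q (x * xx s)) :
    ∀ x, Q x := by
  intro x
  obtain ⟨w, rfl⟩ := pcl_surj x
  have key : ∀ w : FreeSemigroup P, (∀ x, Q x → Q (x * pcl w)) ∧ Q (pcl w) := by
    intro w
    induction w with
    | ih1 s => exact ⟨fun x hx => h2 x s hx, h1 s⟩
    | ih2 s w _ hw =>
      rw [pcl_mul]
      refine ⟨fun x hx => ?_, hw.1 _ (h1 s)⟩
      rw [← mul_assoc]
      exact hw.1 _ (h2 x s hx)
  exact (key w).2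

theorem act_none (hc : Coc b c) (x : PG P) : act hc x noneS = noneS := by
  induction x using PG.ind with
  | h1 s => rfl
  | h2 x s ih => rw [act_mul, ih]; rfl

/-- equivariance -/
theorem act_eqv (hc : Coc b c) (x : PG P) {p : P} (hp : Rch b p) (g k : G) {q : P}
    (hq : Rch b q) (h : act hc x (mkS hp g) = mkS hq k) (l : G) :
    act hc x (mkS hp (l * g)) = mkS hq (l * k) := by
  induction x using PG.ind generalizing q k with
  | h1 s =>
    rw [act_xx] at h ⊢
    by_cases hk : th s p = p
    · rw [actS_mkS_pos hp g hk] at h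
      rw [actS_mkS_pos hp _ hk]
      obtain ⟨h1, h2⟩ := mkS_inj h
      subst h1
      rw [← h2, mul_assoc]
    · rw [actS_mkS_neg hp g hk] at h
      exact absurd h (noneS_ne _ _)
  | h2 x s ih =>
    rw [act_mul] at h ⊢
    rcases St.cases (act hc x (mkS hp g)) with h0 | ⟨r, hr, m, h0⟩
    · rw [h0, act_none] at h
      exact absurd h (noneS_ne _ _)
    · rw [ih m hr h0]
      rw [h0] at h
      rw [act_xx] at h ⊢
      by_cases hk : th s r = r
      · rw [actS_mkS_pos hr m hk] at h
        rw [actS_mkS_pos hr _ hk]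
        obtain ⟨h1, h2⟩ := mkS_inj h
        subst h1
        rw [← h2, mul_assoc]
      · rw [actS_mkS_neg hr m hk] at h
        exact absurd h (noneS_ne _ _)

/-- the tautological cocycle computes the element -/
theorem run_uu (x : PG P) {p : P} (hp : Rch b p) (g : MaxSub (xx b)) (k : MaxSub (xx b)) {q : P}
    (hq : Rch b q) (h : act (uu_coc b) x (mkS hp g) = mkS hq k) :
    g.val * (yy b p * x) = k.val * yy b q := by
  induction x using PG.ind generalizing q k with
  | h1 s =>
    rw [act_xx] at h
    by_cases hk : th s p = p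
    · rw [actS_mkS_pos hp g hk] at h
      obtain ⟨h1, h2⟩ := mkS_inj h
      subst h1
      rw [← h2, MaxSub.mul_val, mul_assoc, uu_mul_yy b hp (fr_th hk)]
      have k := yy_spec b hp
      have : yy b p * xx s = yy b p * xx (th p s) := by
        calc yy b p * xx s = (yy b p * xx p) * xx s := by rw [k.yr]
          _ = yy b p * (xx p * xx s) := by rw [mul_assoc]
          _ = yy b p * (xx p * xx (th p s)) := by rw [xx_mul_of_kept hk]
          _ = (yy b p * xx p) * xx (th p s) := by rw [mul_assoc]
          _ = _ := by rw [k.yr]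
      rw [this]
    · rw [actS_mkS_neg hp g hk] at h
      exact absurd h (noneS_ne _ _)
  | h2 x s ih =>
    rw [act_mul] at h
    rcases St.cases (act (uu_coc b) x (mkS hp g)) with h0 | ⟨r, hr, m, h0⟩
    · rw [h0, act_none] at h
      exact absurd h (noneS_ne _ _)
    · have e := ih m hr h0
      rw [h0, act_xx] at h
      rw [← mul_assoc (yy b p), ← mul_assoc g.val, e]
      by_cases hk : th s r = r
      · rw [actS_mkS_pos hr m hk] at h
        obtain ⟨h1, h2⟩ := mkS_inj h
        subst h1
        rw [← h2, MaxSub.mul_val, mul_assoc, mul_assoc, uu_mul_yy b hr (fr_th hk)]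
        have k := yy_spec b hr
        have : yy b r * xx s = yy b r * xx (th r s) := by
          calc yy b r * xx s = (yy b r * xx r) * xx s := by rw [k.yr]
            _ = yy b r * (xx r * xx s) := by rw [mul_assoc]
            _ = yy b r * (xx r * xx (th r s)) := by rw [xx_mul_of_kept hk]
            _ = (yy b r * xx r) * xx (th r s) := by rw [mul_assoc]
            _ = _ := by rw [k.yr]
        rw [this]
      · rw [actS_mkS_neg hr m hk] at h
        exact absurd h (noneS_ne _ _)

/-- comparison of the actions for `u = g φ(c) g⁻¹` -/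
theorem run_cmp (hc : Coc b c) {H : Type} [Group H] {u : P → P → H} (hu : Coc b u)
    (φ : G →* H) (g : P → H)
    (he : ∀ p q, Rch b p → Fr p q → u p q = g p * φ (c p q) * (g q)⁻¹)
    (x : PG P) {p : P} (hp : Rch b p) (k l : G) {q : P} (hq : Rch b q)
    (h : act hc x (mkS hp k) = mkS hq l) :
    act hu x (mkS hp (φ k * (g p)⁻¹)) = mkS hq (φ l * (g q)⁻¹) := by
  induction x using PG.ind generalizing q l with
  | h1 s =>
    rw [act_xx] at h ⊢
    by_cases hk : th s p = p
    · rw [actS_mkS_pos hp _ hk] at h
      rw [actS_mkS_pos hp _ hk]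
      obtain ⟨h1, h2⟩ := mkS_inj h
      subst h1
      rw [← h2, he p _ hp (fr_th hk), map_mul]
      congr 1
      simp only [mul_assoc, inv_mul_cancel_left]
    · rw [actS_mkS_neg hp _ hk] at h
      exact absurd h (noneS_ne _ _)
  | h2 x s ih =>
    rw [act_mul] at h ⊢
    rcases St.cases (act hc x (mkS hp k)) with h0 | ⟨r, hr, m, h0⟩
    · rw [h0, act_none] at h
      exact absurd h (noneS_ne _ _)
    · rw [ih m hr h0]
      rw [h0] at h
      rw [act_xx] at h ⊢
      by_cases hk : th s r = r
      · rw [actS_mkS_pos hr m hk] at h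
        rw [actS_mkS_pos hr _ hk]
        obtain ⟨h1, h2⟩ := mkS_inj h
        subst h1
        rw [← h2, he r _ hr (fr_th hk), map_mul]
        congr 1
        simp only [mul_assoc, inv_mul_cancel_left]
      · rw [actS_mkS_neg hr m hk] at h
        exact absurd h (noneS_ne _ _)

theorem act_xb (hc : Coc b c) (g : G) : act hc (xx b) (mkS (Rch.rf b) g) =
    mkS (Rch.rf b) g := by
  rw [act_xx, actS_mkS_pos _ _ (th_self b)]
  apply St.ext
  simp only [mkS, th_self, hc.self (Rch.rf b), mul_one]

theorem exists_phi (hc : Coc b c) (hmin : ∀ w, Rch b w → th w b = w → w = b)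
    (a : MaxSub (xx b)) : ∃ g : G, act hc a.val (mkS (Rch.rf b) 1) =
      mkS (Rch.rf b) g := by
  obtain ⟨a', h1, h2, h3, h4⟩ := a.hinv
  rcases St.cases (act hc a.val (mkS (Rch.rf b) 1)) with h0 | ⟨r, hr, m, h0⟩
  · have := act_mul hc a.val a' (mkS (Rch.rf b) 1)
    rw [h3, h0, act_none, act_xb] at this
    exact absurd this.symm (noneS_ne _ _)
  · have e := act_mul hc a.val (xx b) (mkS (Rch.rf b) 1)
    rw [a.hr, h0, act_xx] at e
    by_cases hk : th b r = r
    · rw [actS_mkS_pos hr m hk] at e
      obtain ⟨e1, e2⟩ := mkS_inj e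
      have : r = b := hmin r hr e1.symm
      subst this
      exact ⟨m, h0⟩
    · rw [actS_mkS_neg hr m hk] at e
      exact absurd e.symm (noneS_ne _ _)

/-- **the maximal subgroup theorem** -/
theorem maxsub_main (hc : Coc b c) (hmin : ∀ w, Rch b w → th w b = w → w = b)
    (hsurj : ∀ g : G, Pth c b b g)
    (huniv : ∀ (H : Type) (_ : Group H) (u : P → P → H), Coc b u →
      ∃ (φ : G →* H) (g : P → H), ∀ p q, Rch b p → Fr p q → u p q = g p * φ (c p q) * (g q)⁻¹) :
    Nonempty (MaxSub (xx b) ≃* G) := by
  classical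
  choose Φ hΦ using exists_phi hc hmin
  have hmul : ∀ a a2, Φ (a * a2) = Φ a * Φ a2 := by
    intro a a2
    have e := hΦ (a * a2)
    rw [MaxSub.mul_val, act_mul, hΦ a] at e
    have e2 := act_eqv hc a2.val (Rch.rf b) 1 _ _ (hΦ a2) (Φ a)
    rw [mul_one] at e2
    rw [e2] at e
    exact (mkS_inj e).2.symm
  obtain ⟨φ, g, he⟩ := huniv (MaxSub (xx b)) (hgrp b) (uu b) (uu_coc b)
  have hinj : Function.Injective Φ := by
    intro a a2 h
    have k : ∀ a : MaxSub (xx b), (g b)⁻¹.val * (yy b b * a.val) =
        (φ (Φ a) * (g b)⁻¹).val * yy b b := by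
      intro a
      have := run_cmp hc (uu_coc b) φ g he a.val (Rch.rf b) 1 (Φ a) _ (hΦ a)
      rw [map_one, one_mul] at this
      exact run_uu a.val _ _ _ _ this
    have e : (g b)⁻¹.val * (yy b b * a.val) = (g b)⁻¹.val * (yy b b * a2.val) := by
      rw [k a, k a2, h]
    have hy := yy_spec b (Rch.rf b)
    have e2 : yy b b * a.val = yy b b * a2.val := by
      have := congrArg (fun z => (g b).val * z) e
      simp only [← mul_assoc, ← MaxSub.mul_val, mul_inv_cancel, one_val] at this
      rw [hy.ly] at this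
      exact this
    apply MaxSub.ext
    have e3 := congrArg (fun z => yy' b b * z) e2
    simp only [← mul_assoc, hy.h2] at e3
    rw [a.hl, a2.hl] at e3
    exact e3
  have hsur : Function.Surjective Φ := by
    intro k
    have key : ∀ {p q : P} {k : G}, Pth c p q k → ∀ hp : Rch b p, ∀ hq : Rch b q,
        ∃ y y', CE p q y y' ∧ act hc y (mkS hp 1) = mkS hq k := by
      intro p q k h
      induction h with
      | nil p =>
        intro hp _
        refine ⟨_, _, CE.refl p, ?_⟩
        rw [act_xx, actS_mkS_pos _ _ (th_self p)]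
        apply St.ext
        simp only [mkS, th_self, hc.self hp, mul_one]
      | @cons p q r k h3 _ ih =>
        intro hp hr
        have hq := hp.step h3
        obtain ⟨y, y', h4, h5⟩ := ih hq hr
        refine ⟨_, _, (CE.of_fr h3).trans h4, ?_⟩
        have e1 : act hc (xx p * xx q) (mkS hp 1) = mkS hq (c p q) := by
          have hk : th q (th p p) = th p p := by rw [th_self, h3.2]
          rw [act_mul, act_xx, act_xx, actS_mkS_pos _ _ (th_self p), actS_mkS_pos _ _ hk]
          apply St.ext
          simp only [mkS, th_self, hc.self hp, mul_one, one_mul, h3.1]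
        rw [act_mul, e1]
        have := act_eqv hc y hq 1 _ hr h5 (c p q)
        rwa [mul_one] at this
    obtain ⟨y, y', h4, h5⟩ := key (hsurj k) (Rch.rf b) (Rch.rf b)
    refine ⟨⟨y, h4.ly, h4.yr, y', h4.ly', h4.yr', h4.h1, h4.h2⟩, ?_⟩
    have := hΦ ⟨y, h4.ly, h4.yr, y', h4.ly', h4.yr', h4.h1, h4.h2⟩
    rw [h5] at this
    exact (mkS_inj this).2.symm
  exact ⟨{ toFun := Φ
           invFun := Function.surjInv hsur
           left_inv := fun a => hinj (Function.surjInv_eq hsur (Φ a))
           right_inv := Function.surjInv_eq hsur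
           map_mul' := hmul }⟩

/-- the maximal subgroups at friendly-connected projections are isomorphic -/
theorem maxsub_congr {p q : P} (h : Rch p q) : Nonempty (MaxSub (xx p) ≃* MaxSub (xx q)) := by
  obtain ⟨y, y', hy⟩ := exists_ce h
  refine ⟨{ toFun := fun a => ⟨y' * a.val * y, ?_, ?_, ?_⟩
            invFun := fun a => ⟨y * a.val * y', ?_, ?_, ?_⟩
            left_inv := ?_
            right_inv := ?_
            map_mul' := ?_ }⟩
  · rw [← mul_assoc, ← mul_assoc, hy.ly']
  · rw [mul_assoc, hy.yr]
  · obtain ⟨a', h1, h2, h3, h4⟩ := a.hinv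
    refine ⟨y' * a' * y, ?_, ?_, ?_, ?_⟩
    · rw [← mul_assoc, ← mul_assoc, hy.ly']
    · rw [mul_assoc, hy.yr]
    · calc y' * a.val * y * (y' * a' * y) = y' * (a.val * ((y * y') * a')) * y := by
            simp only [mul_assoc]
        _ = xx q := by rw [hy.h1, h1, h3, hy.yr', hy.h2]
    · calc y' * a' * y * (y' * a.val * y) = y' * (a' * ((y * y') * a.val)) * y := by
            simp only [mul_assoc]
        _ = xx q := by rw [hy.h1, a.hl, h4, hy.yr', hy.h2]
  · rw [← mul_assoc, ← mul_assoc, hy.ly]
  · rw [mul_assoc, hy.yr']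
  · obtain ⟨a', h1, h2, h3, h4⟩ := a.hinv
    refine ⟨y * a' * y', ?_, ?_, ?_, ?_⟩
    · rw [← mul_assoc, ← mul_assoc, hy.ly]
    · rw [mul_assoc, hy.yr']
    · calc y * a.val * y' * (y * a' * y') = y * (a.val * ((y' * y) * a')) * y' := by
            simp only [mul_assoc]
        _ = xx p := by rw [hy.h2, h1, h3, hy.yr, hy.h1]
    · calc y * a' * y' * (y * a.val * y') = y * (a' * ((y' * y) * a.val)) * y' := by
            simp only [mul_assoc]
        _ = xx p := by rw [hy.h2, a.hl, h4, hy.yr, hy.h1]
  · intro a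
    apply MaxSub.ext
    calc y * (y' * a.val * y) * y' = (y * y') * a.val * (y * y') := by simp only [mul_assoc]
      _ = a.val := by rw [hy.h1, a.hl, a.hr]
  · intro a
    apply MaxSub.ext
    calc y' * (y * a.val * y') * y = (y' * y) * a.val * (y' * y) := by simp only [mul_assoc]
      _ = a.val := by rw [hy.h2, a.hl, a.hr]
  · intro a a2
    apply MaxSub.ext
    show y' * (a.val * a2.val) * y = (y' * a.val * y) * (y' * a2.val * y)
    calc y' * (a.val * a2.val) * y = y' * (a.val * (xx p * a2.val)) * y := by rw [a2.hl]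
      _ = y' * (a.val * ((y * y') * a2.val)) * y := by rw [hy.h1]
      _ = (y' * a.val * y) * (y' * a2.val * y) := by simp only [mul_assoc]

end main

end Pool.Agent.H213PG
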