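import Pool.Agent.helper213_PG.M1Fri
import Pool.Agent.helper213_PG.M2Elem

set_option autoImplicit false
set_option linter.unusedSimpArgs false

/-!
# Lower bound for the Brauer monoids (paper 3.1)
-/

namespace Pool.Agent.H213PG

open PA Pj

/-- the group of the Brauer case -/
abbrev QQ (r : ℕ) : Type := Multiplicative (ZMod 2) × Equiv.Perm (Fin r)

section

variable {n : ℕ}

/-! ### colourings -/

/-- proper colouring of a matching -/
def b1low_pr (f : Fin n → Fin n) (X : Fin n → ZMod 2) : Prop := ∀ u, f u ≠ u → X (f u) ≠ X u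

theorem b1low_z2 {a b : ZMod 2} (h : a ≠ b) : a = b + 1 := by
  revert a b; decide

theorem b1low_z2' {a b : ZMod 2} (h : a ≠ b) (c : ZMod 2) (h2 : c ≠ b) : c = a := by
  revert a b c; decide

/-- the sign of a colour -/
def b1low_e (a : ZMod 2) : ℤ := if a = 0 then 1 else -1

theorem b1low_e_add {a b : ZMod 2} (h : a ≠ b) : b1low_e a + b1low_e b = 0 := by
  revert a b; decide

theorem b1low_e_add' {a b : ZMod 2} (h : b1low_e a + b1low_e b = 0) : a ≠ b := by
  revert a b; decide

theorem b1low_sum_zero (S : Finset (Fin n)) (f : Fin n → Fin n) (hf : ∀ x, f (f x) = x)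
    (hS : ∀ x ∈ S, f x ∈ S) (hne : ∀ x ∈ S, f x ≠ x) {X : Fin n → ZMod 2} (hX : b1low_pr f X) :
    ∑ v ∈ S, b1low_e (X v) = 0 := by
  apply Finset.sum_involution (fun a _ => f a)
  · intro a ha
    have := b1low_e_add (hX a (hne a ha))
    linarith
  · intro a ha _; exact hne a ha
  · intro a ha; exact hS a ha
  · intro a _; exact hf a

open Classical in
/-- the two ends of a component, both fixed by `f`, have different colours -/
theorem b1low_ends {f g : Fin n → Fin n} (hf : ∀ x, f (f x) = x) (hg : ∀ x, g (g x) = x)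
    {X : Fin n → ZMod 2} (h1 : b1low_pr f X) (h2 : b1low_pr g X) {x y : Fin n} (hx : f x = x)
    (hy : f y = y) (hne : y ≠ x) (hJ : J f g x y) : X x ≠ X y := by
  have hgK : ∀ v, J f g x v → g v ≠ v := by
    intro v hv hgv
    by_cases hvx : v = x
    · subst hvx
      exact hne (J.eq_of_fixed hf hg hx hgv hJ)
    · have := ends_le_two hf hg hJ hv (Or.inl hx) (Or.inl hy) (Or.inr hgv) hne hvx
      subst this
      exact hne (J.eq_of_fixed hf hg hy hgv hJ.symm').symm
  set K : Finset (Fin n) := Finset.univ.filter (fun v => J f g x v) with hK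
  have e1 : ∑ v ∈ K, b1low_e (X v) = 0 := by
    apply b1low_sum_zero K g hg
    · intro v hv
      simp only [hK, Finset.mem_filter, Finset.mem_univ, true_and] at hv ⊢
      exact hv.trans' (J.right _)
    · intro v hv
      simp only [hK, Finset.mem_filter, Finset.mem_univ, true_and] at hv
      exact hgK v hv
    · exact h2
  have hfK : ∀ v, J f g x v → v ≠ x → v ≠ y → f v ≠ v := by
    intro v hv hvx hvy hfv
    exact hvy (ends_le_two hf hg hv hJ (Or.inl hx) (Or.inl hfv) (Or.inl hy) hvx hne)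
  have hxK : x ∈ K := by
    simp only [hK, Finset.mem_filter, Finset.mem_univ, true_and]; exact J.rfl' x
  have hyK : y ∈ K.erase x := by
    simp only [hK, Finset.mem_erase, Finset.mem_filter, Finset.mem_univ, true_and]
    exact ⟨hne, hJ⟩
  have e2 : ∑ v ∈ (K.erase x).erase y, b1low_e (X v) = 0 := by
    apply b1low_sum_zero _ f hf
    · intro v hv
      simp only [hK, Finset.mem_erase, Finset.mem_filter, Finset.mem_univ, true_and] at hv ⊢
      refine ⟨?_, ?_, hv.2.2.trans' (J.left _)⟩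
      · intro h; apply hv.1; rw [← hf v, h, hy]
      · intro h; apply hv.2.1; rw [← hf v, h, hx]
    · intro v hv
      simp only [hK, Finset.mem_erase, Finset.mem_filter, Finset.mem_univ, true_and] at hv
      exact hfK v hv.2.2 hv.2.1 hv.1
    · exact h1
  rw [← Finset.add_sum_erase K _ hxK, ← Finset.add_sum_erase (K.erase x) _ hyK, e2, add_zero] at e1
  exact b1low_e_add' e1

open Classical in
theorem b1low_exists {p : Fin n → Fin n} (hp : ∀ x, p (p x) = x) : ∀ (k : ℕ) (g : Fin n → Fin n),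
    (∀ x, g (g x) = x) → (Finset.univ.filter (fun x => g x ≠ x)).card ≤ k →
    ∃ X : Fin n → ZMod 2, b1low_pr p X ∧ b1low_pr g X := by
  intro k
  induction k with
  | zero =>
    intro g hg hk
    have hfix : ∀ x, g x = x := by
      intro x
      by_contra h
      have : x ∈ Finset.univ.filter (fun x => g x ≠ x) := by simp [h]
      have h0 := Finset.card_pos.2 ⟨x, this⟩
      omega
    refine ⟨fun u => if p u < u then 1 else 0, ?_, fun u hu => absurd (hfix u) hu⟩
    intro u hu
    rcases lt_or_gt_of_ne hu with h | h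
    · have h' : ¬ p (p u) < p u := by rw [hp]; exact not_lt.2 h.le
      simp only [h, h', if_true, if_false]; decide
    · have h' : p (p u) < p u := by rw [hp]; exact h
      have h'' : ¬ p u < u := not_lt.2 h.le
      simp only [h', h'', if_true, if_false]; decide
  | succ k ih =>
    intro g hg hk
    by_cases hall : ∀ x, g x = x
    · apply ih g hg
      have : Finset.univ.filter (fun x => g x ≠ x) = ∅ := by
        ext x; simp [hall x]
      rw [this]; simp
    · push Not at hall
      obtain ⟨x, hx⟩ := hall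
      set y := g x with hy
      have hgy : g y = x := by rw [hy, hg]
      let g' : Fin n → Fin n := fun u => if u = x then x else if u = y then y else g u
      have g'x : g' x = x := by simp [g']
      have g'y : g' y = y := by
        by_cases h : y = x
        · simp [g', h]
        · simp [g', h]
      have g'o : ∀ u, u ≠ x → u ≠ y → g' u = g u := fun u h1 h2 => by simp [g', h1, h2]
      have g'inv : ∀ u, g' (g' u) = u := by
        intro u
        by_cases h1 : u = x
        · subst h1; rw [g'x, g'x]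
        · by_cases h2 : u = y
          · rw [h2, g'y, g'y]
          · rw [g'o u h1 h2, g'o, hg]
            · intro h; apply h2; rw [hy, ← h, hg]
            · intro h; apply h1; rw [← hg u, h, hgy]
      have hcard : (Finset.univ.filter (fun u => g' u ≠ u)).card ≤ k := by
        have hsub : Finset.univ.filter (fun u => g' u ≠ u) ⊆
            (Finset.univ.filter (fun u => g u ≠ u)).erase x := by
          intro u hu
          simp only [Finset.mem_filter, Finset.mem_univ, true_and, Finset.mem_erase] at hu ⊢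
          have h1 : u ≠ x := by rintro rfl; exact hu g'x
          have h2 : u ≠ y := by rintro rfl; exact hu g'y
          refine ⟨h1, ?_⟩
          rwa [g'o u h1 h2] at hu
        have h3 := Finset.card_le_card hsub
        have hxm : x ∈ Finset.univ.filter (fun u => g u ≠ u) := by
          simp only [Finset.mem_filter, Finset.mem_univ, true_and]; exact hx
        rw [Finset.card_erase_of_mem hxm] at h3
        omega
      obtain ⟨X, hX1, hX2⟩ := ih g' g'inv hcard
      -- it is enough to separate x and y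
      have hfin : ∀ Y : Fin n → ZMod 2, b1low_pr g' Y → Y x ≠ Y y → b1low_pr g Y := by
        intro Y hY hne u hu
        by_cases h1 : u = x
        · subst h1; exact fun h => hne h.symm
        · by_cases h2 : u = y
          · rw [h2, hgy]; exact hne
          · have := hY u (by rw [g'o u h1 h2]; exact hu)
            rwa [g'o u h1 h2] at this
      by_cases hxy : X x = X y
      · have hnJ : ¬ J g' p x y := fun h => b1low_ends g'inv hp hX2 hX1 g'x g'y hx h hxy
        let Y : Fin n → ZMod 2 := fun u => if J g' p x u then X u + 1 else X u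
        have hY : ∀ f : Fin n → Fin n, (∀ u, J g' p x u ↔ J g' p x (f u)) → b1low_pr f X →
            b1low_pr f Y := by
          intro f hf hX u hu
          have h0 := hX u hu
          by_cases h : J g' p x u
          · have h' := (hf u).1 h
            simp only [Y, h, h', if_true]
            exact fun h3 => h0 (add_right_cancel h3)
          · have h' : ¬ J g' p x (f u) := fun h3 => h ((hf u).2 h3)
            simp only [Y, h, h', if_false]
            exact h0
        have hYp : b1low_pr p Y := hY p (fun u =>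
          ⟨fun h => h.trans' (J.right _), fun h => h.trans' (J.right _).symm'⟩) hX1
        have hYg : b1low_pr g' Y := hY g' (fun u =>
          ⟨fun h => h.trans' (J.left _), fun h => h.trans' (J.left _).symm'⟩) hX2
        refine ⟨Y, hYp, hfin Y hYg ?_⟩
        have hxx : J g' p x x := J.rfl' x
        simp only [Y, hxx, hnJ, if_true, if_false, hxy]
        intro h
        have := h.symm
        simp at this
      · exact ⟨X, hX1, hfin X hX2 hxy⟩

theorem b1low_ex (p q : Pj n) : ∃ X : Fin n → ZMod 2, b1low_pr p.a X ∧ b1low_pr q.a X := by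
  classical
  exact b1low_exists p.inv _ q.a q.inv le_rfl

/-! ### independence of the colouring -/

/-- sum of the colours of the left ends of the arcs -/
def b1low_f (f : Fin n → Fin n) (X : Fin n → ZMod 2) : ZMod 2 := ∑ x, if x < f x then X x else 0

theorem b1low_J_const {f g : Fin n → Fin n} (hf : ∀ x, f (f x) = x) (hg : ∀ x, g (g x) = x)
    {D : Fin n → ZMod 2} (h1 : ∀ u, D (f u) = D u) (h2 : ∀ u, D (g u) = D u) {x y : Fin n}
    (h : J f g x y) : D x = D y := by
  have := (J.mem_iff hf hg {u | D x = D u} (fun u hu => by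
    rw [Set.mem_ofPred_eq] at hu ⊢
    exact ⟨by rw [h1]; exact hu, by rw [Set.mem_ofPred_eq, h2]; exact hu⟩) h).1 rfl
  exact this

open Classical in
theorem b1low_count {f : Fin n → Fin n} (hf : ∀ x, f (f x) = x) {D : Fin n → ZMod 2}
    (h1 : ∀ u, D (f u) = D u) :
    2 * (Finset.univ.filter (fun u => D u = 1 ∧ u < f u)).card +
      (Finset.univ.filter (fun u => D u = 1 ∧ f u = u)).card =
      (Finset.univ.filter (fun u => D u = 1)).card := by
  have e1 : (Finset.univ.filter (fun u => D u = 1)).card =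
      (Finset.univ.filter (fun u => D u = 1 ∧ u < f u)).card +
      (Finset.univ.filter (fun u => D u = 1 ∧ ¬ u < f u)).card := by
    rw [← Finset.card_filter_add_card_filter_not (s := Finset.univ.filter (fun u => D u = 1))
      (fun u => u < f u), Finset.filter_filter, Finset.filter_filter]
  have e2 : (Finset.univ.filter (fun u => D u = 1 ∧ ¬ u < f u)).card =
      (Finset.univ.filter (fun u => D u = 1 ∧ f u = u)).card +
      (Finset.univ.filter (fun u => D u = 1 ∧ f u < u)).card := by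
    rw [← Finset.card_filter_add_card_filter_not
      (s := Finset.univ.filter (fun u => D u = 1 ∧ ¬ u < f u))
      (fun u => f u = u), Finset.filter_filter, Finset.filter_filter]
    congr 2
    · ext u
      simp only [Finset.mem_filter, Finset.mem_univ, true_and]
      constructor
      · rintro ⟨⟨h2, -⟩, h3⟩; exact ⟨h2, h3⟩
      · rintro ⟨h2, h3⟩; exact ⟨⟨h2, by rw [h3]; exact lt_irrefl _⟩, h3⟩
    · ext u
      simp only [Finset.mem_filter, Finset.mem_univ, true_and]
      constructor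
      · rintro ⟨⟨h2, h4⟩, h3⟩; exact ⟨h2, lt_of_le_of_ne (not_lt.1 h4) h3⟩
      · rintro ⟨h2, h3⟩; exact ⟨⟨h2, not_lt.2 h3.le⟩, h3.ne⟩
  have e3 : (Finset.univ.filter (fun u => D u = 1 ∧ f u < u)).card =
      (Finset.univ.filter (fun u => D u = 1 ∧ u < f u)).card := by
    apply Finset.card_bij (fun u _ => f u)
    · intro u hu
      simp only [Finset.mem_filter, Finset.mem_univ, true_and] at hu ⊢
      rw [h1, hf]; exact hu
    · intro u _ v _ h
      rw [← hf u, h, hf]
    · intro u hu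
      simp only [Finset.mem_filter, Finset.mem_univ, true_and] at hu
      refine ⟨f u, ?_, hf u⟩
      simp only [Finset.mem_filter, Finset.mem_univ, true_and]
      rw [h1, hf]; exact hu
  omega

open Classical in
theorem b1low_fix_le {p q : Pj n} (hpq : Fr p q) (hp : Brauer p) {D : Fin n → ZMod 2}
    (h1 : ∀ u, D (p.a u) = D u) (h2 : ∀ u, D (q.a u) = D u) :
    (Finset.univ.filter (fun u => D u = 1 ∧ p.a u = u)).card ≤
      (Finset.univ.filter (fun u => D u = 1 ∧ q.a u = u)).card := by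
  have hex : ∀ u, p.t u → ∃ z, q.t z ∧ J p.a q.a u z := fun u hu => fr_exists hpq hu
  let g : Fin n → Fin n := fun u => if h : p.t u then (hex u h).choose else u
  have hg : ∀ u, p.t u → q.t (g u) ∧ J p.a q.a u (g u) := by
    intro u hu
    simp only [g, hu, dif_pos]
    exact (hex u hu).choose_spec
  apply Finset.card_le_card_of_injOn g
  · intro u hu
    simp only [Finset.coe_filter, Finset.mem_univ, true_and, Set.mem_ofPred_eq] at hu ⊢
    have := hg u (hp u hu.2)
    exact ⟨by rw [← b1low_J_const p.inv q.inv h1 h2 this.2]; exact hu.1, q.ht _ this.1⟩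
  · intro u hu v hv h
    simp only [Finset.coe_filter, Finset.mem_univ, true_and, Set.mem_ofPred_eq] at hu hv
    have k1 := hg u (hp u hu.2)
    have k2 := hg v (hp v hv.2)
    have h' : g u = g v := h
    rw [h'] at k1
    exact fr_uniq hpq (hp u hu.2) (hp v hv.2) (k1.2.trans' k2.2.symm')

open Classical in
theorem b1low_f_eq {f : Fin n → Fin n} {X Y : Fin n → ZMod 2} :
    b1low_f f X + b1low_f f Y =
      ((Finset.univ.filter (fun u => X u + Y u = 1 ∧ u < f u)).card : ZMod 2) := by
  unfold b1low_f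
  rw [← Finset.sum_add_distrib, Finset.card_filter, Nat.cast_sum]
  refine Finset.sum_congr rfl fun u _ => ?_
  by_cases h : u < f u
  · simp only [h, if_true, and_true]
    generalize X u = a
    generalize Y u = b
    revert a b; decide
  · simp [h]

theorem b1low_indep {p q : Pj n} (hpq : Fr p q) (hp : Brauer p) (hq : Brauer q)
    {X Y : Fin n → ZMod 2} (hX1 : b1low_pr p.a X) (hX2 : b1low_pr q.a X)
    (hY1 : b1low_pr p.a Y) (hY2 : b1low_pr q.a Y) :
    b1low_f p.a X + b1low_f q.a X = b1low_f p.a Y + b1low_f q.a Y := by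
  classical
  have hD : ∀ f : Fin n → Fin n, b1low_pr f X → b1low_pr f Y →
      ∀ u, X (f u) + Y (f u) = X u + Y u := by
    intro f h1 h2 u
    by_cases h : f u = u
    · rw [h]
    · rw [b1low_z2 (h1 u h), b1low_z2 (h2 u h)]
      generalize X u = a
      generalize Y u = b
      revert a b; decide
  have e1 := b1low_count p.inv (D := fun u => X u + Y u) (hD p.a hX1 hY1)
  have e2 := b1low_count q.inv (D := fun u => X u + Y u) (hD q.a hX2 hY2)
  have e3 := b1low_fix_le hpq hp (D := fun u => X u + Y u) (hD p.a hX1 hY1) (hD q.a hX2 hY2)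
  have e4 := b1low_fix_le hpq.symm hq (D := fun u => X u + Y u) (hD q.a hX2 hY2) (hD p.a hX1 hY1)
  have e5 : (Finset.univ.filter (fun u => X u + Y u = 1 ∧ u < p.a u)).card =
      (Finset.univ.filter (fun u => X u + Y u = 1 ∧ u < q.a u)).card := by
    omega
  have e6 := b1low_f_eq (f := p.a) (X := X) (Y := Y)
  have e7 := b1low_f_eq (f := q.a) (X := X) (Y := Y)
  rw [e5, ← e7] at e6
  revert e6
  generalize b1low_f p.a X = a
  generalize b1low_f p.a Y = b
  generalize b1low_f q.a X = c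
  generalize b1low_f q.a Y = d
  revert a b c d; decide

/-! ### the products `p.s` -/

theorem b1low_fr_s {P : Type} [PA P] {p q s : P} (h : Fr p q) (h1 : th q s = q) :
    Fr (th p s) q := by
  have has : th (th p s) s = th p s := th_idem p s
  constructor
  · set w := th (th p s) q with hw
    have k1 : th w s = q := by
      have := th_th p s q
      rw [h1, h.1] at this
      exact this.symm
    have k2 : th w s = w := by
      have e1 : th w q = w := th_idem _ _
      have e2 : th w q = th (th (th w s) q) s := by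
        conv_lhs => rw [← h1]
        rw [th_th]
      rw [← e1, e2, th_idem]
    rw [← k2, k1]
  · rw [th_th, h1, h.2]

theorem b1low_le_a {q s : Pj n} (h : th q s = q) {x : Fin n} (hx : ¬ s.t x) : q.a x = s.a x := by
  have : (cj q s).a x = s.a x := cj_a_not hx
  rw [← this]
  exact congrArg (fun r : Pj n => r.a x) h.symm

/-- points matched in `p.s` are in one component of `p ∪ q` -/
theorem b1low_Js {p q s : Pj n} (h1 : th q s = q) (x : Fin n) :
    J p.a q.a x ((th p s).a x) := by
  have hmono : ∀ {u v : Fin n}, J s.a p.a u v → J p.a q.a u v := by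
    intro u v h
    refine J.mono (fun w => ?_) (fun w => J.left w) h
    by_cases hw : s.t w
    · rw [s.ht _ hw]; exact J.rfl' w
    · rw [← b1low_le_a h1 hw]; exact J.right w
  show J p.a q.a x ((cj p s).a x)
  by_cases hx : s.t x
  · by_cases hl : ∃ y, Lk p s x y
    · obtain ⟨y, hy⟩ := hl
      rw [cj_a_lk hy]
      exact hmono hy.2.2.2
    · rw [cj_a_none hx hl]; exact J.rfl' x
  · rw [cj_a_not hx, ← b1low_le_a h1 hx]; exact J.right x

theorem b1low_pr_s {p q s : Pj n} (h1 : th q s = q) {X : Fin n → ZMod 2} (hp : b1low_pr p.a X)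
    (hq : b1low_pr q.a X) : b1low_pr (th p s).a X := by
  have hs : b1low_pr s.a X := by
    intro u hu
    by_cases hw : s.t u
    · exact absurd (s.ht _ hw) hu
    · have := b1low_le_a h1 hw
      rw [← this] at hu ⊢
      exact hq u hu
  intro u hu
  change (cj p s).a u ≠ u at hu
  show X ((cj p s).a u) ≠ X u
  by_cases hx : s.t u
  · by_cases hl : ∃ y, Lk p s u y
    · obtain ⟨y, hy⟩ := hl
      rw [cj_a_lk hy]
      exact (b1low_ends s.inv p.inv hs hp (s.ht _ hy.1) (s.ht _ hy.2.1) hy.2.2.1 hy.2.2.2).symm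
    · rw [cj_a_none hx hl] at hu
      exact absurd rfl hu
  · rw [cj_a_not hx] at hu ⊢
    exact hs u hu

/-- the sign cocycle -/
theorem sign_coc (n : ℕ) : ∃ F : BP n → BP n → Multiplicative (ZMod 2),
    (∀ b : BP n, Coc b F) ∧
    -- the value on a pair of friendly projections can be computed with any proper colouring
    ∀ p q : BP n, Fr p q → ∀ X : Fin n → ZMod 2, (∀ x, p.1.a x ≠ x → X (p.1.a x) ≠ X x) →
      (∀ x, q.1.a x ≠ x → X (q.1.a x) ≠ X x) →
      F p q = Multiplicative.ofAdd ((∑ x, if x < p.1.a x then X x else 0) +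
        ∑ x, if x < q.1.a x then X x else 0) := by
  let F : BP n → BP n → Multiplicative (ZMod 2) := fun p q =>
    Multiplicative.ofAdd (b1low_f p.1.a (b1low_ex p.1 q.1).choose +
      b1low_f q.1.a (b1low_ex p.1 q.1).choose)
  have hF : ∀ p q : BP n, Fr p q → ∀ X : Fin n → ZMod 2, b1low_pr p.1.a X → b1low_pr q.1.a X →
      F p q = Multiplicative.ofAdd (b1low_f p.1.a X + b1low_f q.1.a X) := by
    intro p q h X h1 h2
    have hc := (b1low_ex p.1 q.1).choose_spec
    show Multiplicative.ofAdd _ = _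
    rw [b1low_indep (bp_fr.1 h) p.2 q.2 hc.1 hc.2 h1 h2]
  refine ⟨F, fun b => ⟨?_, ?_⟩, fun p q h X h1 h2 => hF p q h X h1 h2⟩
  · intro p q _ h
    obtain ⟨X, h1, h2⟩ := b1low_ex p.1 q.1
    rw [hF p q h X h1 h2, hF q p h.symm X h2 h1, ← ofAdd_add, ← ofAdd_zero]
    congr 1
    generalize b1low_f p.1.a X = a
    generalize b1low_f q.1.a X = c
    revert a c; decide
  · intro p q s _ h h1 h2
    obtain ⟨X, k1, k2⟩ := b1low_ex p.1 q.1
    have h1' : th q.1 s.1 = q.1 := congrArg Subtype.val h1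
    have k3 : b1low_pr (th p s).1.a X := b1low_pr_s h1' k1 k2
    rw [hF p q h X k1 k2, hF p (th p s) (fr_th h2) X k1 k3,
      hF (th p s) q (b1low_fr_s h h1) X k3 k2, ← ofAdd_add]
    congr 1
    generalize b1low_f p.1.a X = a
    generalize b1low_f q.1.a X = c
    generalize b1low_f (th p s).1.a X = d
    revert a c d; decide

/-! ### the permutation cocycle -/

variable {r : ℕ}

/-- the increasing enumeration of the through points -/
noncomputable def b1low_en (p : Pj n) (h : (TT p).card = r) : Fin r → Fin n :=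
  (TT p).orderEmbOfFin h

theorem b1low_en_t {p : Pj n} (h : (TT p).card = r) (i : Fin r) : p.t (b1low_en p h i) :=
  mem_TT.1 (Finset.orderEmbOfFin_mem _ h i)

theorem b1low_en_inj {p : Pj n} (h : (TT p).card = r) {i j : Fin r}
    (e : b1low_en p h i = b1low_en p h j) : i = j := ((TT p).orderEmbOfFin h).injective e

theorem b1low_en_surj {p : Pj n} (h : (TT p).card = r) {x : Fin n} (hx : p.t x) :
    ∃ i, b1low_en p h i = x := by
  have : x ∈ Set.range ((TT p).orderEmbOfFin h) := by
    rw [Finset.range_orderEmbOfFin]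
    exact mem_TT.2 hx
  exact this

theorem b1low_J_ex {p q : Pj n} (h : Fr p q) (hp : (TT p).card = r) (hq : (TT q).card = r)
    (i : Fin r) : ∃ j, J p.a q.a (b1low_en q hq i) (b1low_en p hp j) := by
  obtain ⟨z, hz, hj⟩ := fr_exists h.symm (b1low_en_t hq i)
  obtain ⟨j, rfl⟩ := b1low_en_surj hp hz
  exact ⟨j, hj.swap⟩

theorem b1low_J_inj {p q : Pj n} (h : Fr p q) (hp : (TT p).card = r) (hq : (TT q).card = r)
    {i i' j : Fin r} (h1 : J p.a q.a (b1low_en q hq i) (b1low_en p hp j))
    (h2 : J p.a q.a (b1low_en q hq i') (b1low_en p hp j)) : i = i' :=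
  b1low_en_inj hq (fr_uniq h.symm (b1low_en_t hq i) (b1low_en_t hq i')
    (h1.trans' h2.symm').swap)

theorem b1low_J_inj' {p q : Pj n} (h : Fr p q) (hp : (TT p).card = r) (hq : (TT q).card = r)
    {i j j' : Fin r} (h1 : J p.a q.a (b1low_en q hq i) (b1low_en p hp j))
    (h2 : J p.a q.a (b1low_en q hq i) (b1low_en p hp j')) : j = j' :=
  b1low_en_inj hp (fr_uniq h (b1low_en_t hp j) (b1low_en_t hp j')
    (h1.symm'.trans' h2))

open Classical in
/-- the permutation of a friendly pair -/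
noncomputable def b1low_S (r : ℕ) (p q : Pj n) : Equiv.Perm (Fin r) :=
  if h : Fr p q ∧ (TT p).card = r ∧ (TT q).card = r then
    Equiv.ofBijective (fun i => (b1low_J_ex h.1 h.2.1 h.2.2 i).choose)
      (Finite.injective_iff_bijective.1 (fun i i' e => by
        have h1 := (b1low_J_ex h.1 h.2.1 h.2.2 i).choose_spec
        have h2 := (b1low_J_ex h.1 h.2.1 h.2.2 i').choose_spec
        rw [e] at h1
        exact b1low_J_inj h.1 h.2.1 h.2.2 h1 h2))
  else 1

theorem b1low_S_spec {p q : Pj n} (h : Fr p q) (hp : (TT p).card = r) (hq : (TT q).card = r)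
    (i : Fin r) : J p.a q.a (b1low_en q hq i) (b1low_en p hp (b1low_S r p q i)) := by
  have hh : Fr p q ∧ (TT p).card = r ∧ (TT q).card = r := ⟨h, hp, hq⟩
  unfold b1low_S
  rw [dif_pos hh]
  exact (b1low_J_ex hh.1 hh.2.1 hh.2.2 i).choose_spec

theorem b1low_S_eq {p q : Pj n} (h : Fr p q) (hp : (TT p).card = r) (hq : (TT q).card = r)
    {i j : Fin r} (hJ : J p.a q.a (b1low_en q hq i) (b1low_en p hp j)) : b1low_S r p q i = j :=
  b1low_J_inj' h hp hq (b1low_S_spec h hp hq i) hJ

theorem b1low_S_inv {p q : Pj n} (h : Fr p q) (hp : (TT p).card = r) (hq : (TT q).card = r) :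
    b1low_S r p q * b1low_S r q p = 1 := by
  ext1 i
  show b1low_S r p q (b1low_S r q p i) = i
  exact b1low_S_eq h hp hq (b1low_S_spec h.symm hq hp i).symm'.swap

theorem b1low_S_tri {p q s : Pj n} (h : Fr p q) (h1 : th q s = q) (h2 : th s p = p)
    (hp : (TT p).card = r) (hq : (TT q).card = r) :
    b1low_S r p q = b1low_S r p (th p s) * b1low_S r (th p s) q := by
  have hs : (TT (th p s)).card = r := by rw [← fr_card (fr_th h2)]; exact hp
  have hps : Fr p (th p s) := fr_th h2
  have hsq : Fr (th p s) q := b1low_fr_s h h1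
  ext1 i
  show b1low_S r p q i = b1low_S r p (th p s) (b1low_S r (th p s) q i)
  apply b1low_S_eq h hp hq
  have k1 := b1low_S_spec hsq hs hq i
  have k2 := b1low_S_spec hps hp hs (b1low_S r (th p s) q i)
  have k1' : J p.a q.a (b1low_en q hq i) (b1low_en (th p s) hs (b1low_S r (th p s) q i)) :=
    J.mono (fun w => b1low_Js h1 w) (fun w => J.right w) k1
  exact k1'.trans' (J.mono (fun w => J.left w) (fun w => b1low_Js h1 w) k2)

/-! ### relabelling -/

/-- relabelling by a permutation of the points -/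
def b1low_cj (p : Pj n) (π : Equiv.Perm (Fin n)) : Pj n where
  a u := π (p.a (π.symm u))
  t u := p.t (π.symm u)
  inv u := by rw [Equiv.symm_apply_apply, p.inv, Equiv.apply_symm_apply]
  ht u h := by rw [p.ht _ h, Equiv.apply_symm_apply]

theorem b1low_cj_br {p : Pj n} (hp : Brauer p) (π : Equiv.Perm (Fin n)) :
    Brauer (b1low_cj p π) := by
  intro u hu
  exact hp _ (π.injective (by rw [Equiv.apply_symm_apply]; exact hu))

theorem b1low_cj_refl (p : Pj n) (u : Fin n) : b1low_cj p (Equiv.swap u u) = p := by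
  rw [Equiv.swap_self]
  ext v <;> rfl

/-! ### moving a token: the loops with value a transposition -/

section loopB

variable {b : Pj n} {i a : Fin n}

theorem b1low_M_a {c : Fin n} (hia : b.a i = a) (hne : a ≠ i) (hc : b.t c ∨ c = a) :
    (b1low_cj b (Equiv.swap a c)).a i = c ∧ (b1low_cj b (Equiv.swap a c)).a c = i := by
  have hci : c ≠ i := by
    rcases hc with h | h
    · rintro rfl; exact hne (by rw [← hia, b.ht _ h])
    · rw [h]; exact hne
  have h1 : (b1low_cj b (Equiv.swap a c)).a i = c := by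
    show Equiv.swap a c (b.a ((Equiv.swap a c).symm i)) = c
    rw [Equiv.symm_swap, Equiv.swap_apply_of_ne_of_ne hne.symm hci.symm, hia, Equiv.swap_apply_left]
  refine ⟨h1, ?_⟩
  have h2 := (b1low_cj b (Equiv.swap a c)).inv i
  rw [h1] at h2
  exact h2

theorem b1low_M_t {c u : Fin n} (hia : b.a i = a) (hne : a ≠ i) (hc : b.t c ∨ c = a) :
    (b1low_cj b (Equiv.swap a c)).t u ↔ (b.t u ∨ u = a) ∧ u ≠ c := by
  have hta : ¬ b.t a := by
    intro h
    have := b.ht _ h
    rw [← hia, b.inv, hia] at this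
    exact hne this.symm
  show b.t ((Equiv.swap a c).symm u) ↔ _
  rw [Equiv.symm_swap]
  by_cases h1 : u = a
  · rw [h1, Equiv.swap_apply_left]
    constructor
    · intro h; exact ⟨Or.inr rfl, by rintro rfl; exact hta h⟩
    · rintro ⟨-, h⟩
      rcases hc with h2 | h2
      · exact h2
      · exact absurd h2.symm h
  · by_cases h2 : u = c
    · rw [h2, Equiv.swap_apply_right]
      exact ⟨fun h => absurd h hta, fun h => absurd rfl h.2⟩
    · rw [Equiv.swap_apply_of_ne_of_ne h1 h2]
      exact ⟨fun h => ⟨Or.inl h, h2⟩, fun h => h.1.resolve_right h1⟩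

theorem b1low_M_J {c d : Fin n} (hia : b.a i = a) (hne : a ≠ i) (hc : b.t c ∨ c = a)
    (hd : b.t d ∨ d = a) :
    J (b1low_cj b (Equiv.swap a c)).a (b1low_cj b (Equiv.swap a d)).a c d := by
  have h1 := J.left (f := (b1low_cj b (Equiv.swap a c)).a)
    (g := (b1low_cj b (Equiv.swap a d)).a) c
  rw [(b1low_M_a hia hne hc).2] at h1
  have h2 := J.right (f := (b1low_cj b (Equiv.swap a c)).a)
    (g := (b1low_cj b (Equiv.swap a d)).a) i
  rw [(b1low_M_a hia hne hd).1] at h2
  exact h1.trans' h2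

theorem b1low_M_fr {c d : Fin n} (hia : b.a i = a) (hne : a ≠ i) (hc : b.t c ∨ c = a)
    (hd : b.t d ∨ d = a) :
    Fr (b1low_cj b (Equiv.swap a c)) (b1low_cj b (Equiv.swap a d)) := by
  have key : ∀ {c d : Fin n}, (b.t c ∨ c = a) → (b.t d ∨ d = a) →
      th (b1low_cj b (Equiv.swap a c)) (b1low_cj b (Equiv.swap a d)) =
        b1low_cj b (Equiv.swap a d) := by
    intro c d hc hd
    rw [th_eq_iff]
    intro z hz
    rw [b1low_M_t hia hne hd] at hz
    by_cases hzc : z = c
    · refine ⟨d, (b1low_M_t hia hne hc).2 ⟨hd, ?_⟩, ?_⟩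
      · rintro rfl; exact hz.2 hzc
      · rw [hzc]; exact (b1low_M_J hia hne hc hd).symm'
    · exact ⟨z, (b1low_M_t hia hne hc).2 ⟨hz.1, hzc⟩, J.rfl' z⟩
  exact ⟨key hc hd, key hd hc⟩

theorem b1low_M_S {c d z w : Fin n} (hia : b.a i = a) (hne : a ≠ i) (hc : b.t c ∨ c = a)
    (hd : b.t d ∨ d = a)
    (h1 : (TT (b1low_cj b (Equiv.swap a c))).card = r)
    (h2 : (TT (b1low_cj b (Equiv.swap a d))).card = r) {k k' : Fin r}
    (hz : b1low_en _ h2 k = z) (hw : b1low_en _ h1 k' = w) (hzw : w = z ∨ (z = c ∧ w = d)) :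
    b1low_S r (b1low_cj b (Equiv.swap a c)) (b1low_cj b (Equiv.swap a d)) k = k' := by
  apply b1low_S_eq (b1low_M_fr hia hne hc hd) h1 h2
  rw [hz, hw]
  rcases hzw with h | ⟨h, h'⟩
  · rw [h]; exact J.rfl' z
  · rw [h, h']; exact b1low_M_J hia hne hc hd

theorem b1low_M_card {c : Fin n} (hia : b.a i = a) (hne : a ≠ i) (hc : b.t c ∨ c = a)
    (h : (TT b).card = r) : (TT (b1low_cj b (Equiv.swap a c))).card = r := by
  have := b1low_M_fr (b := b) hia hne (Or.inr rfl) hc
  rw [b1low_cj_refl] at this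
  rw [← fr_card this]; exact h

theorem b1low_loop_S {x y : Fin n} (hia : b.a i = a) (hne : a ≠ i) (hx : b.t x) (hy : b.t y)
    (hxy : x ≠ y) (h : (TT b).card = r) {ix iy : Fin r} (ex : b1low_en b h ix = x)
    (ey : b1low_en b h iy = y) :
    b1low_S r b (b1low_cj b (Equiv.swap a x)) *
      (b1low_S r (b1low_cj b (Equiv.swap a x)) (b1low_cj b (Equiv.swap a y)) *
        (b1low_S r (b1low_cj b (Equiv.swap a y)) b * 1)) = Equiv.swap ix iy := by
  have hta : ¬ b.t a := by
    intro h
    have := b.ht _ h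
    rw [← hia, b.inv, hia] at this
    exact hne this.symm
  have hax : a ≠ x := by rintro rfl; exact hta hx
  have hay : a ≠ y := by rintro rfl; exact hta hy
  have ca : (TT (b1low_cj b (Equiv.swap a a))).card = r := b1low_M_card hia hne (Or.inr rfl) h
  have cx := b1low_M_card (c := x) hia hne (Or.inl hx) h
  have cy := b1low_M_card (c := y) hia hne (Or.inl hy) h
  have ea : ∀ k, b1low_en _ ca k = b1low_en b h k := by
    have hgen : ∀ (q : Pj n) (hq : (TT q).card = r), q = b → ∀ k, b1low_en q hq k =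
        b1low_en b h k := by
      rintro q hq rfl k; rfl
    exact hgen _ ca (b1low_cj_refl b a)
  have key : b1low_S r (b1low_cj b (Equiv.swap a a)) (b1low_cj b (Equiv.swap a x)) *
      (b1low_S r (b1low_cj b (Equiv.swap a x)) (b1low_cj b (Equiv.swap a y)) *
        (b1low_S r (b1low_cj b (Equiv.swap a y)) (b1low_cj b (Equiv.swap a a)) * 1)) =
      Equiv.swap ix iy := by
    ext1 k
    show b1low_S r _ _ (b1low_S r _ _ (b1low_S r _ _ k)) = _
    -- tracing
    have tr : ∀ (z1 z2 z3 : Fin n) (k0 : Fin r), b1low_en b h k0 = z3 →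
        (b.t z1 ∨ z1 = a) → z1 ≠ y → (b.t z2 ∨ z2 = a) → z2 ≠ x →
        (z1 = b1low_en b h k ∨ (b1low_en b h k = y ∧ z1 = a)) →
        (z2 = z1 ∨ (z1 = x ∧ z2 = y)) → (z3 = z2 ∨ (z2 = a ∧ z3 = x)) →
        b1low_S r (b1low_cj b (Equiv.swap a a)) (b1low_cj b (Equiv.swap a x))
          (b1low_S r (b1low_cj b (Equiv.swap a x)) (b1low_cj b (Equiv.swap a y))
            (b1low_S r (b1low_cj b (Equiv.swap a y)) (b1low_cj b (Equiv.swap a a)) k)) = k0 := by
      intro z1 z2 z3 k0 h0 t1 n1 t2 n2 s1 s2 s3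
      obtain ⟨k1, e1⟩ := b1low_en_surj cy ((b1low_M_t hia hne (Or.inl hy)).2 ⟨t1, n1⟩)
      obtain ⟨k2, e2⟩ := b1low_en_surj cx ((b1low_M_t hia hne (Or.inl hx)).2 ⟨t2, n2⟩)
      rw [b1low_M_S hia hne (Or.inl hy) (Or.inr rfl) cy ca (ea k) e1 s1,
        b1low_M_S hia hne (Or.inl hx) (Or.inl hy) cx cy e1 e2 s2,
        b1low_M_S hia hne (Or.inr rfl) (Or.inl hx) ca cx e2 ((ea k0).trans h0) s3]
    by_cases hkx : k = ix
    · rw [hkx, Equiv.swap_apply_left, ← hkx]
      exact tr x y y iy ey (Or.inl hx) hxy (Or.inl hy) hxy.symm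
        (Or.inl (by rw [hkx, ex])) (Or.inr ⟨rfl, rfl⟩) (Or.inl rfl)
    · by_cases hky : k = iy
      · rw [hky, Equiv.swap_apply_right, ← hky]
        exact tr a a x ix ex (Or.inr rfl) hay (Or.inr rfl) hax
          (Or.inr ⟨by rw [hky, ey], rfl⟩) (Or.inl rfl) (Or.inr ⟨rfl, rfl⟩)
      · rw [Equiv.swap_apply_of_ne_of_ne hkx hky]
        have htk := b1low_en_t h k
        have hkx' : b1low_en b h k ≠ x := by
          rw [← ex]; exact fun e => hkx (b1low_en_inj h e)
        have hky' : b1low_en b h k ≠ y := by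
          rw [← ey]; exact fun e => hky (b1low_en_inj h e)
        exact tr _ _ _ k rfl (Or.inl htk) hky' (Or.inl htk) hkx' (Or.inl rfl) (Or.inl rfl)
          (Or.inl rfl)
  rw [b1low_cj_refl] at key
  exact key

end loopB

/-! ### three matchings of four points: the sign -/

theorem b1low_en_congr {p q : Pj n} (hp : (TT p).card = r) (hq : (TT q).card = r)
    (h : TT p = TT q) (k : Fin r) : b1low_en p hp k = b1low_en q hq k := by
  have hgen : ∀ (A B : Finset (Fin n)) (hA : A.card = r) (hB : B.card = r), A = B →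
      A.orderEmbOfFin hA k = B.orderEmbOfFin hB k := by
    rintro A B hA hB rfl; rfl
  exact hgen _ _ hp hq h

/-- same through points -/
theorem b1low_same {p q : Pj n} (h : ∀ u, p.t u ↔ q.t u) : Fr p q ∧ TT p = TT q :=
  ⟨⟨th_eq_iff.2 fun z hz => ⟨z, (h z).2 hz, J.rfl' z⟩,
    th_eq_iff.2 fun z hz => ⟨z, (h z).1 hz, J.rfl' z⟩⟩, by
    ext u; rw [mem_TT, mem_TT, h]⟩

theorem b1low_same_S {p q : Pj n} (h : ∀ u, p.t u ↔ q.t u) (hp : (TT p).card = r) :
    b1low_S r p q = 1 := by
  have hs := b1low_same h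
  have hq : (TT q).card = r := by rw [← hs.2]; exact hp
  ext1 k
  show b1low_S r p q k = k
  apply b1low_S_eq hs.1 hp hq
  rw [b1low_en_congr hp hq hs.2]
  exact J.rfl' _

/-- a colouring with prescribed values at four points -/
def b1low_X (A : Fin n → Fin n) (w x y z : Fin n) (c0 c1 c2 c3 : ZMod 2) : Fin n → ZMod 2 :=
  fun u => if u = w then c0 else if u = x then c1 else if u = y then c2 else if u = z then c3
    else if A u < u then 1 else 0

theorem b1low_f4 {A N : Fin n → Fin n} {w x y z : Fin n} (hwx : w ≠ x) (hwy : w ≠ y) (hwz : w ≠ z)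
    (hxy : x ≠ y) (hxz : x ≠ z) (hyz : y ≠ z) (c0 c1 c2 c3 : ZMod 2)
    (hout : ∀ u, u ≠ w → u ≠ x → u ≠ y → u ≠ z → N u = A u) :
    b1low_f N (b1low_X A w x y z c0 c1 c2 c3) = (if w < N w then c0 else 0) +
      ((if x < N x then c1 else 0) + ((if y < N y then c2 else 0) + (if z < N z then c3 else 0))) := by
  classical
  unfold b1low_f
  rw [← Finset.sum_subset (Finset.subset_univ ({w, x, y, z} : Finset (Fin n)))]
  · rw [Finset.sum_insert (by simp [hwx, hwy, hwz]), Finset.sum_insert (by simp [hxy, hxz]),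
      Finset.sum_insert (by simp [hyz]), Finset.sum_singleton]
    simp [b1low_X, hwx.symm, hwy.symm, hwz.symm, hxy.symm, hxz.symm, hyz.symm]
  · intro u _ hu
    simp only [Finset.mem_insert, Finset.mem_singleton, not_or] at hu
    rw [hout u hu.1 hu.2.1 hu.2.2.1 hu.2.2.2]
    by_cases h : u < A u
    · rw [if_pos h]
      simp [b1low_X, hu.1, hu.2.1, hu.2.2.1, hu.2.2.2, not_lt.2 h.le]
    · rw [if_neg h]

theorem b1low_X_pr {A N : Fin n → Fin n} (hA : ∀ u, A (A u) = u) {w x y z : Fin n}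
    {c0 c1 c2 c3 : ZMod 2}
    (hout : ∀ u, u ≠ w → u ≠ x → u ≠ y → u ≠ z → N u = A u)
    (hout2 : ∀ u, u ≠ w → u ≠ x → u ≠ y → u ≠ z → A u ≠ w ∧ A u ≠ x ∧ A u ≠ y ∧ A u ≠ z)
    (h4 : ∀ u, (u = w ∨ u = x ∨ u = y ∨ u = z) →
      b1low_X A w x y z c0 c1 c2 c3 (N u) ≠ b1low_X A w x y z c0 c1 c2 c3 u) :
    b1low_pr N (b1low_X A w x y z c0 c1 c2 c3) := by
  intro u hu
  by_cases h : u = w ∨ u = x ∨ u = y ∨ u = z
  · exact h4 u h
  · simp only [not_or] at h
    rw [hout u h.1 h.2.1 h.2.2.1 h.2.2.2] at hu ⊢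
    have h2 := hout2 u h.1 h.2.1 h.2.2.1 h.2.2.2
    simp only [b1low_X, h.1, h.2.1, h.2.2.1, h.2.2.2, h2.1, h2.2.1, h2.2.2.1, h2.2.2.2, if_false,
      hA]
    rcases lt_or_gt_of_ne hu with h3 | h3
    · rw [if_pos h3, if_neg (not_lt.2 h3.le)]; decide
    · rw [if_neg (not_lt.2 h3.le), if_pos h3]; decide

/-- three matchings `wx|yz`, `wy|xz`, `wz|xy`: the sum of the signs is one -/
theorem b1low_three {N1 N2 N3 : Fin n → Fin n} (hA : ∀ u, N1 (N1 u) = u) {w x y z : Fin n}
    (hwx : w < x) (hwy : w < y) (hyz : y < z) (hxy : x ≠ y) (hxz : x ≠ z)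
    (a1 : N1 w = x) (a2 : N1 x = w) (a3 : N1 y = z) (a4 : N1 z = y)
    (b1 : N2 w = y) (b2 : N2 y = w) (b3 : N2 x = z) (b4 : N2 z = x)
    (d1 : N3 w = z) (d2 : N3 z = w) (d3 : N3 x = y) (d4 : N3 y = x)
    (h2 : ∀ u, u ≠ w → u ≠ x → u ≠ y → u ≠ z → N2 u = N1 u)
    (h3 : ∀ u, u ≠ w → u ≠ x → u ≠ y → u ≠ z → N3 u = N1 u) :
    ∃ X Y Z : Fin n → ZMod 2, b1low_pr N1 X ∧ b1low_pr N2 X ∧ b1low_pr N2 Y ∧ b1low_pr N3 Y ∧
      b1low_pr N3 Z ∧ b1low_pr N1 Z ∧
      (b1low_f N1 X + b1low_f N2 X) + ((b1low_f N2 Y + b1low_f N3 Y) +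
        (b1low_f N3 Z + b1low_f N1 Z)) = 1 := by
  have hwz : w < z := hwy.trans hyz
  have o2 : ∀ u, u ≠ w → u ≠ x → u ≠ y → u ≠ z → N1 u ≠ w ∧ N1 u ≠ x ∧ N1 u ≠ y ∧ N1 u ≠ z := by
    intro u e1 e2 e3 e4
    refine ⟨fun h => e2 ?_, fun h => e1 ?_, fun h => e4 ?_, fun h => e3 ?_⟩
    · rw [← hA u, h, a1]
    · rw [← hA u, h, a2]
    · rw [← hA u, h, a3]
    · rw [← hA u, h, a4]
  have h1 : ∀ u, u ≠ w → u ≠ x → u ≠ y → u ≠ z → N1 u = N1 u := fun _ _ _ _ _ => rfl
  refine ⟨b1low_X N1 w x y z 0 1 1 0, b1low_X N1 w x y z 0 0 1 1, b1low_X N1 w x y z 0 1 0 1,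
    ?_, ?_, ?_, ?_, ?_, ?_, ?_⟩
  · apply b1low_X_pr hA h1 o2
    rintro u (rfl | rfl | rfl | rfl)
    all_goals simp [b1low_X, a1, a2, a3, a4, hwx.ne', hwy.ne', hwz.ne', hxy, hxy.symm, hxz,
      hxz.symm, hyz.ne']
  · apply b1low_X_pr hA h2 o2
    rintro u (rfl | rfl | rfl | rfl)
    all_goals simp [b1low_X, b1, b2, b3, b4, hwx.ne', hwy.ne', hwz.ne', hxy, hxy.symm, hxz,
      hxz.symm, hyz.ne']
  · apply b1low_X_pr hA h2 o2
    rintro u (rfl | rfl | rfl | rfl)
    all_goals simp [b1low_X, b1, b2, b3, b4, hwx.ne', hwy.ne', hwz.ne', hxy, hxy.symm, hxz,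
      hxz.symm, hyz.ne']
  · apply b1low_X_pr hA h3 o2
    rintro u (rfl | rfl | rfl | rfl)
    all_goals simp [b1low_X, d1, d2, d3, d4, hwx.ne', hwy.ne', hwz.ne', hxy, hxy.symm, hxz,
      hxz.symm, hyz.ne']
  · apply b1low_X_pr hA h3 o2
    rintro u (rfl | rfl | rfl | rfl)
    all_goals simp [b1low_X, d1, d2, d3, d4, hwx.ne', hwy.ne', hwz.ne', hxy, hxy.symm, hxz,
      hxz.symm, hyz.ne']
  · apply b1low_X_pr hA h1 o2
    rintro u (rfl | rfl | rfl | rfl)
    all_goals simp [b1low_X, a1, a2, a3, a4, hwx.ne', hwy.ne', hwz.ne', hxy, hxy.symm, hxz,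
      hxz.symm, hyz.ne']
  · rw [b1low_f4 hwx.ne hwy.ne hwz.ne hxy hxz hyz.ne _ _ _ _ h1,
      b1low_f4 hwx.ne hwy.ne hwz.ne hxy hxz hyz.ne _ _ _ _ h2,
      b1low_f4 hwx.ne hwy.ne hwz.ne hxy hxz hyz.ne _ _ _ _ h2,
      b1low_f4 hwx.ne hwy.ne hwz.ne hxy hxz hyz.ne _ _ _ _ h3,
      b1low_f4 hwx.ne hwy.ne hwz.ne hxy hxz hyz.ne _ _ _ _ h3,
      b1low_f4 hwx.ne hwy.ne hwz.ne hxy hxz hyz.ne _ _ _ _ h1]
    rw [a1, a2, a3, a4, b1, b2, b3, b4, d1, d2, d3, d4]
    rcases lt_or_gt_of_ne hxy with e1 | e1 <;> rcases lt_or_gt_of_ne hxz with e2 | e2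
    all_goals
      simp only [hwx, hwy, hwz, hyz, e1, e2, not_lt.2 e1.le, not_lt.2 e2.le, not_lt.2 hwx.le,
        not_lt.2 hwy.le, not_lt.2 hwz.le, not_lt.2 hyz.le, if_true, if_false]
      decide

theorem b1low_sw_t {b : Pj n} {x y : Fin n} (hx : ¬ b.t x) (hy : ¬ b.t y) (u : Fin n) :
    b.t u ↔ (b1low_cj b (Equiv.swap x y)).t u := by
  show _ ↔ b.t ((Equiv.swap x y).symm u)
  rw [Equiv.symm_swap]
  by_cases h1 : u = x
  · rw [h1, Equiv.swap_apply_left]; exact ⟨fun h => absurd h hx, fun h => absurd h hy⟩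
  · by_cases h2 : u = y
    · rw [h2, Equiv.swap_apply_right]; exact ⟨fun h => absurd h hy, fun h => absurd h hx⟩
    · rw [Equiv.swap_apply_of_ne_of_ne h1 h2]

/-- two arcs -/
theorem b1low_arcs {b : Pj n} (hB : Brauer b) (h : (TT b).card + 4 ≤ n) :
    ∃ w y : Fin n, w < b.a w ∧ y < b.a y ∧ w < y ∧ b.a w ≠ y := by
  classical
  set U : Finset (Fin n) := Finset.univ \ TT b with hU
  have hUc : 4 ≤ U.card := by
    rw [hU, Finset.card_sdiff_of_subset (Finset.subset_univ _), Finset.card_univ, Fintype.card_fin]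
    omega
  have hUm : ∀ u, u ∈ U ↔ b.a u ≠ u := by
    intro u
    simp only [hU, Finset.mem_sdiff, Finset.mem_univ, true_and, mem_TT]
    exact ⟨fun h1 h2 => h1 (hB u h2), fun h1 h2 => h1 (b.ht _ h2)⟩
  have hUa : ∀ u, u ∈ U → b.a u ∈ U := by
    intro u hu
    rw [hUm] at hu ⊢
    rw [b.inv]; exact hu.symm
  have hne : U.Nonempty := Finset.card_pos.1 (by omega)
  set w := U.min' hne with hw
  have hwU : w ∈ U := Finset.min'_mem _ _
  have hwmin : ∀ u ∈ U, w ≤ u := fun u hu => Finset.min'_le _ _ hu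
  set U' := (U.erase w).erase (b.a w) with hU'
  have hU'c : 2 ≤ U'.card := by
    have h1 : U.card - 1 ≤ (U.erase w).card := Finset.pred_card_le_card_erase
    have h2 : (U.erase w).card - 1 ≤ U'.card := Finset.pred_card_le_card_erase
    omega
  have hne' : U'.Nonempty := Finset.card_pos.1 (by omega)
  set y := U'.min' hne' with hy
  have hyU' : y ∈ U' := Finset.min'_mem _ _
  have hymin : ∀ u ∈ U', y ≤ u := fun u hu => Finset.min'_le _ _ hu
  have hyU := hyU'
  rw [hU', Finset.mem_erase, Finset.mem_erase] at hyU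
  have hwa : b.a w ≠ w := (hUm w).1 hwU
  have hya : b.a y ≠ y := (hUm y).1 hyU.2.2
  have hyaU : b.a y ∈ U' := by
    rw [hU', Finset.mem_erase, Finset.mem_erase]
    refine ⟨?_, ?_, hUa _ hyU.2.2⟩
    · intro h; exact hyU.2.1 (b.a_inj h)
    · intro h; apply hyU.1; rw [← h, b.inv]
  exact ⟨w, y, lt_of_le_of_ne (hwmin _ (hUa _ hwU)) hwa.symm,
    lt_of_le_of_ne (hymin _ hyaU) hya.symm, lt_of_le_of_ne (hwmin _ hyU.2.2) hyU.2.1.symm,
    hyU.1.symm⟩

theorem b1low_z2m (e e' : Multiplicative (ZMod 2)) :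
    e = e' ∨ e = Multiplicative.ofAdd (1 : ZMod 2) * e' := by
  revert e e'; decide

theorem brauer_lower {r : ℕ} (hn : r + 4 ≤ n) (b : BP n) (hb : (TT b.1).card = r) :
    ∃ c : BP n → BP n → QQ r, Coc b c ∧ ∀ g, Pth c b b g := by
  obtain ⟨F, hF, hval⟩ := sign_coc n
  let c : BP n → BP n → QQ r := fun p q => (F p q, b1low_S r p.1 q.1)
  have hcard : ∀ p : BP n, Rch b p → (TT p.1).card = r := fun p hp => (rch_card_B hp).trans hb
  refine ⟨c, ⟨?_, ?_⟩, ?_⟩
  · intro p q hp h
    exact Prod.ext ((hF b).inv p q hp h)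
      (b1low_S_inv (bp_fr.1 h) (hcard p hp) (hcard q (hp.step h)))
  · intro p q s hp h h1 h2
    exact Prod.ext ((hF b).tri p q s hp h h1 h2)
      (b1low_S_tri (bp_fr.1 h) (congrArg Subtype.val h1) (congrArg Subtype.val h2) (hcard p hp)
        (hcard q (hp.step h)))
  -- the loops
  obtain ⟨w, y, hwx, hyz, hwy, hxy⟩ := b1low_arcs b.2 (by rw [hb]; exact hn)
  set x := b.1.a w with hx
  set z := b.1.a y with hz
  have hax : b.1.a x = w := b.1.inv w
  have haz : b.1.a z = y := b.1.inv y
  have hxz : x ≠ z := fun h => hwy.ne (b.1.a_inj h)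
  have ntx : ¬ b.1.t x := fun h => by
    have := b.1.ht _ h
    rw [hax] at this; exact hwx.ne this
  have nty : ¬ b.1.t y := fun h => hyz.ne' (b.1.ht _ h)
  have ntz : ¬ b.1.t z := fun h => by
    have := b.1.ht _ h
    rw [haz] at this; exact hyz.ne this
  have hsign : Pth c b b (Multiplicative.ofAdd (1 : ZMod 2), 1) := by
    let p2 : BP n := ⟨b1low_cj b.1 (Equiv.swap x y), b1low_cj_br b.2 _⟩
    let p3 : BP n := ⟨b1low_cj b.1 (Equiv.swap x z), b1low_cj_br b.2 _⟩
    have t2 : ∀ u, b.1.t u ↔ p2.1.t u := b1low_sw_t ntx nty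
    have t3 : ∀ u, b.1.t u ↔ p3.1.t u := b1low_sw_t ntx ntz
    have t23 : ∀ u, p2.1.t u ↔ p3.1.t u := fun u => (t2 u).symm.trans (t3 u)
    have f12 : Fr b p2 := bp_fr.2 (b1low_same t2).1
    have f23 : Fr p2 p3 := bp_fr.2 (b1low_same t23).1
    have f31 : Fr p3 b := (bp_fr.2 (b1low_same t3).1 : Fr b p3).symm
    have hwz : w < z := hwy.trans hyz
    have b1 : p2.1.a w = y := by
      show Equiv.swap x y (b.1.a ((Equiv.swap x y).symm w)) = y
      rw [Equiv.symm_swap, Equiv.swap_apply_of_ne_of_ne hwx.ne hwy.ne, ← hx,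
        Equiv.swap_apply_left]
    have b2 : p2.1.a y = w := by
      have := p2.1.inv w
      rwa [b1] at this
    have b3 : p2.1.a x = z := by
      show Equiv.swap x y (b.1.a ((Equiv.swap x y).symm x)) = z
      rw [Equiv.symm_swap, Equiv.swap_apply_left, ← hz,
        Equiv.swap_apply_of_ne_of_ne hxz.symm hyz.ne']
    have b4 : p2.1.a z = x := by
      have := p2.1.inv x
      rwa [b3] at this
    have d1 : p3.1.a w = z := by
      show Equiv.swap x z (b.1.a ((Equiv.swap x z).symm w)) = z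
      rw [Equiv.symm_swap, Equiv.swap_apply_of_ne_of_ne hwx.ne hwz.ne, ← hx,
        Equiv.swap_apply_left]
    have d2 : p3.1.a z = w := by
      have := p3.1.inv w
      rwa [d1] at this
    have d3 : p3.1.a x = y := by
      show Equiv.swap x z (b.1.a ((Equiv.swap x z).symm x)) = y
      rw [Equiv.symm_swap, Equiv.swap_apply_left, haz,
        Equiv.swap_apply_of_ne_of_ne hxy.symm hyz.ne]
    have d4 : p3.1.a y = x := by
      have := p3.1.inv x
      rwa [d3] at this
    have h2 : ∀ u, u ≠ w → u ≠ x → u ≠ y → u ≠ z → p2.1.a u = b.1.a u := by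
      intro u e1 e2 e3 e4
      show Equiv.swap x y (b.1.a ((Equiv.swap x y).symm u)) = b.1.a u
      rw [Equiv.symm_swap, Equiv.swap_apply_of_ne_of_ne e2 e3, Equiv.swap_apply_of_ne_of_ne]
      · intro h; exact e1 (b.1.a_inj h)
      · intro h; apply e4; rw [hz, ← h, b.1.inv]
    have h3 : ∀ u, u ≠ w → u ≠ x → u ≠ y → u ≠ z → p3.1.a u = b.1.a u := by
      intro u e1 e2 e3 e4
      show Equiv.swap x z (b.1.a ((Equiv.swap x z).symm u)) = b.1.a u
      rw [Equiv.symm_swap, Equiv.swap_apply_of_ne_of_ne e2 e4, Equiv.swap_apply_of_ne_of_ne]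
      · intro h; exact e1 (b.1.a_inj h)
      · intro h; exact e3 (b.1.a_inj h)
    obtain ⟨X, Y, Z, k1, k2, k3, k4, k5, k6, k7⟩ := b1low_three b.1.inv hwx hwy hyz hxy hxz rfl
      hax rfl haz b1 b2 b3 b4 d1 d2 d3 d4 h2 h3
    have v12 := hval b p2 f12 X k1 k2
    have v23 := hval p2 p3 f23 Y k3 k4
    have v31 := hval p3 b f31 Z k5 k6
    have hP := Pth.cons (c := c) f12 (Pth.cons (c := c) f23 (Pth.cons (c := c) f31 (Pth.nil b)))
    have hv : c b p2 * (c p2 p3 * (c p3 b * 1)) = (Multiplicative.ofAdd (1 : ZMod 2), 1) := by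
      have hc2 : (TT p2.1).card = r := by rw [← (b1low_same t2).2]; exact hb
      have hc3 : (TT p3.1).card = r := by rw [← (b1low_same t3).2]; exact hb
      apply Prod.ext
      · show F b p2 * (F p2 p3 * (F p3 b * 1)) = Multiplicative.ofAdd (1 : ZMod 2)
        rw [v12, v23, v31, mul_one, ← ofAdd_add, ← ofAdd_add]
        congr 1
      · show b1low_S r b.1 p2.1 * (b1low_S r p2.1 p3.1 * (b1low_S r p3.1 b.1 * 1)) = 1
        rw [b1low_same_S t2 hb, b1low_same_S t23 hc2, b1low_same_S (fun u => (t3 u).symm) hc3]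
        simp
    rw [hv] at hP
    exact hP
  have hswap : ∀ ix iy : Fin r, ix ≠ iy → ∃ e, Pth c b b (e, Equiv.swap ix iy) := by
    intro ix iy hne
    set u := b1low_en b.1 hb ix with hu
    set v := b1low_en b.1 hb iy with hv
    have hut : b.1.t u := b1low_en_t hb ix
    have hvt : b.1.t v := b1low_en_t hb iy
    have huv : u ≠ v := fun h => hne (b1low_en_inj hb h)
    let p1 : BP n := ⟨b1low_cj b.1 (Equiv.swap x u), b1low_cj_br b.2 _⟩
    let p2 : BP n := ⟨b1low_cj b.1 (Equiv.swap x v), b1low_cj_br b.2 _⟩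
    have hL := b1low_loop_S (b := b.1) (i := w) (a := x) rfl hwx.ne' hut hvt huv hb hu.symm hv.symm
    have f01' := b1low_M_fr (b := b.1) (i := w) (a := x) (c := x) (d := u) rfl hwx.ne'
      (Or.inr rfl) (Or.inl hut)
    have f20' := b1low_M_fr (b := b.1) (i := w) (a := x) (c := v) (d := x) rfl hwx.ne'
      (Or.inl hvt) (Or.inr rfl)
    have f12' := b1low_M_fr (b := b.1) (i := w) (a := x) (c := u) (d := v) rfl hwx.ne'
      (Or.inl hut) (Or.inl hvt)
    rw [b1low_cj_refl] at f01' f20'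
    have f01 : Fr b p1 := bp_fr.2 f01'
    have f12 : Fr p1 p2 := bp_fr.2 f12'
    have f20 : Fr p2 b := bp_fr.2 f20'
    have hP := Pth.cons (c := c) f01 (Pth.cons (c := c) f12 (Pth.cons (c := c) f20 (Pth.nil b)))
    refine ⟨F b p1 * (F p1 p2 * (F p2 b * 1)), ?_⟩
    have hv : c b p1 * (c p1 p2 * (c p2 b * 1)) =
        (F b p1 * (F p1 p2 * (F p2 b * 1)), Equiv.swap ix iy) := Prod.ext rfl hL
    rw [hv] at hP
    exact hP
  have hall : ∀ σ : Equiv.Perm (Fin r), ∃ e, Pth c b b (e, σ) := by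
    intro σ
    induction σ using Equiv.Perm.swap_induction_on with
    | one => exact ⟨1, Pth.nil b⟩
    | swap_mul f i j hij ih =>
      obtain ⟨e, he⟩ := ih
      obtain ⟨e', he'⟩ := hswap i j hij
      exact ⟨e' * e, he'.trans he⟩
  rintro ⟨e, σ⟩
  obtain ⟨e', he'⟩ := hall σ
  rcases b1low_z2m e e' with h | h
  · rw [h]; exact he'
  · have := hsign.trans he'
    have e1 : ((Multiplicative.ofAdd (1 : ZMod 2), 1) * (e', σ) : QQ r) = (e, σ) := by
      rw [h]; exact Prod.ext rfl (one_mul _)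
    rw [e1] at this
    exact this

end

end Pool.Agent.H213PG
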