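import Pool.Agent.helper213_PG.Defs

set_option autoImplicit false

/-!
# Labelled local systems: triangles, twist, squares with two stars (paper 3.3, 3.4)
-/

namespace Pool.Agent.H213PG

section

variable {V : Type} [Fintype V] [DecidableEq V] {star : V → Prop} {H : Type} [Group H]
  {U : (V → V) → (V → V) → H}

omit [Fintype V] in
theorem hk_vm {a : V → V} (ha : Vm star a) {x y : V} (h : ok star a x y) :
    Vm star (hk a x y) := by
  obtain ⟨h1, h2, h3⟩ := ha
  obtain ⟨h4, h5, h6, h7, h8, h9⟩ := h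
  refine ⟨fun z => ?_, fun z => ?_, fun z => ?_⟩
  · unfold hk
    grind
  · unfold hk
    grind
  · unfold hk
    grind

omit [Fintype V] in
/-- disjoint hooks commute -/
theorem hk_comm {a : V → V} (ha : ∀ x, a (a x) = x) (hne : ∀ x, a x ≠ x) {x y z w : V}
    (hxy : x ≠ y) (hzw : z ≠ w) (h1 : x ≠ z) (h2 : x ≠ w) (h3 : y ≠ z) (h4 : y ≠ w) :
    hk (hk a x y) z w = hk (hk a z w) x y := by
  funext p
  unfold hk
  grind (splits := 40)

omit [Fintype V] in
/-- the complementary hook -/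
theorem hk_compl {a : V → V} (ha : ∀ x, a (a x) = x) (hne : ∀ x, a x ≠ x) (x y : V)
    (hxy : x ≠ y) :
    hk a (a x) (a y) = hk a x y := by
  funext p
  unfold hk
  grind

omit [Fintype V] in
theorem hk_back {a : V → V} (ha : ∀ x, a (a x) = x) (hne : ∀ x, a x ≠ x) {x y : V}
    (hxy : x ≠ y) : hk (hk a x y) x (a x) = a := by
  funext p
  unfold hk
  grind

/-! ### hexagons and squares in semantic form -/

omit [Fintype V] in
theorem b2laba_symm {a : V → V} (ha : ∀ x, a (a x) = x) (x y : V) (hxy : x ≠ y) :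
    hk a x y = hk a y x := by
  funext p
  unfold hk
  grind

omit [Fintype V] in
theorem b2laba_hex (hU : LS0 star U) {p m1 m2 q : V → V} {v0 v1 v2 v3 v4 v5 : V}
    (hp : Vm star p) (hd : [v0, v1, v2, v3, v4, v5].Nodup) (h0 : p v0 = v1) (h2 : p v2 = v3)
    (h4 : p v4 = v5)
    (hs : ∀ u ∈ [v0, v1, v2, v3, v4, v5], ∀ v ∈ [v0, v1, v2, v3, v4, v5], star u → star v → u = v)
    (e1 : hk p v1 v2 = m1) (e2 : hk p v3 v4 = m2) (e3 : hk m1 v3 v4 = q) :
    U p m1 * U m1 q = U p m2 * U m2 q := by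
  subst e1
  subst e2
  subst e3
  refine hU.hex p v0 v1 v2 v3 v4 v5 hp hd h0 h2 h4 ?_
  have : ∀ l : List V, l.Nodup → (∀ u ∈ l, ∀ v ∈ l, star u → star v → u = v) →
      l.Pairwise (fun x y => ¬ (star x ∧ star y)) := by
    intro l hl h
    refine List.Pairwise.imp_of_mem ?_ hl
    intro u v hu hv huv hst
    exact huv (h u hu v hv hst.1 hst.2)
  exact this _ hd hs

/-- the loop of a triangle -/
def b2laba_L (U : (V → V) → (V → V) → H) (a : V → V) (x y z : V) : H :=
  U a (hk a x y) * U (hk a x y) (hk a x z) * U (hk a x z) a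

/-- three different arcs of `a`, at most one of them with a star -/
structure b2laba_T (star : V → Prop) (a : V → V) (x y b : V) : Prop where
  vm : Vm star a
  xy : x ≠ y
  xy' : a x ≠ y
  xb : x ≠ b
  xb' : a x ≠ b
  yb : y ≠ b
  yb' : a y ≠ b
  s : ∀ u ∈ [x, a x, y, a y, b, a b], ∀ v ∈ [x, a x, y, a y, b, a b], star u → star v → u = v

omit [Fintype V] in
theorem b2laba_claim (hU : LS0 star U) {a : V → V} {x y b : V} (h : b2laba_T star a x y b) :
    b2laba_L U a x y (a y) = b2laba_L U a b y (a y) := by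
  obtain ⟨hvm, xy, xy', xb, xb', yb, yb', hs⟩ := h
  have ha := hvm.inv
  have hne := hvm.ne
  have hst := hvm.st
  have ok1 : ok star a x y := by
    refine ⟨xy, xy', ?_, ?_, ?_, ?_⟩ <;> grind
  have ok2 : ok star a x (a y) := by
    refine ⟨?_, ?_, ?_, ?_, ?_, ?_⟩ <;> grind
  have ok1b : ok star a b y := by
    refine ⟨?_, ?_, ?_, ?_, ?_, ?_⟩ <;> grind
  have ok2b : ok star a b (a y) := by
    refine ⟨?_, ?_, ?_, ?_, ?_, ?_⟩ <;> grind
  have vP1 := hk_vm hvm ok1
  have vP2 := hk_vm hvm ok2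
  have ok3 : ok star (hk a x y) y b := by
    refine ⟨?_, ?_, ?_, ?_, ?_, ?_⟩ <;> (try unfold hk) <;> grind
  have vM := hk_vm vP1 ok3
  -- hexagon 1
  have H1 : U (hk a x y) a * U a (hk a b y) =
      U (hk a x y) (hk (hk a x y) y b) * U (hk (hk a x y) y b) (hk a b y) := by
    refine b2laba_hex hU (v0 := a y) (v1 := a x) (v2 := x) (v3 := y) (v4 := b) (v5 := a b) vP1
      ?_ ?_ ?_ ?_ ?_ ?_ ?_ ?_
    · simp only [List.nodup_cons, List.mem_cons, List.not_mem_nil, or_false, not_or,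
        not_false_eq_true, List.nodup_nil, and_true]
      grind
    · simp only [hk]; grind
    · simp only [hk]; grind
    · simp only [hk]; grind
    · intro u hu v hv; exact hs u (by grind) v (by grind)
    · funext p; simp only [hk]; grind (splits := 60)
    · rfl
    · funext p; simp only [hk]; grind (splits := 60)
  have H2 : U (hk a x (a y)) a * U a (hk a b (a y)) =
      U (hk a x (a y)) (hk (hk a x (a y)) (a y) b) *
        U (hk (hk a x (a y)) (a y) b) (hk a b (a y)) := by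
    refine b2laba_hex hU (v0 := y) (v1 := a x) (v2 := x) (v3 := a y) (v4 := b) (v5 := a b) vP2
      ?_ ?_ ?_ ?_ ?_ ?_ ?_ ?_
    · simp only [List.nodup_cons, List.mem_cons, List.not_mem_nil, or_false, not_or,
        not_false_eq_true, List.nodup_nil, and_true]
      grind
    · simp only [hk]; grind
    · simp only [hk]; grind
    · simp only [hk]; grind
    · intro u hu v hv; exact hs u (by grind) v (by grind)
    · funext p; simp only [hk]; grind (splits := 60)
    · rfl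
    · funext p; simp only [hk]; grind (splits := 60)
  have H3 : U (hk a x y) (hk (hk a x y) y b) *
        U (hk (hk a x y) y b) (hk (hk a x (a y)) (a y) b) =
      U (hk a x y) (hk a x (a y)) * U (hk a x (a y)) (hk (hk a x (a y)) (a y) b) := by
    refine b2laba_hex hU (v0 := b) (v1 := a b) (v2 := x) (v3 := y) (v4 := a x) (v5 := a y) vP1
      ?_ ?_ ?_ ?_ ?_ ?_ ?_ ?_
    · simp only [List.nodup_cons, List.mem_cons, List.not_mem_nil, or_false, not_or,
        not_false_eq_true, List.nodup_nil, and_true]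
      grind
    · simp only [hk]; grind
    · simp only [hk]; grind
    · simp only [hk]; grind
    · intro u hu v hv; exact hs u (by grind) v (by grind)
    · funext p; simp only [hk]; grind (splits := 60)
    · funext p; simp only [hk]; grind (splits := 60)
    · funext p; simp only [hk]; grind (splits := 60)
  have H4 : U (hk (hk a x y) y b) (hk (hk a x (a y)) (a y) b) *
        U (hk (hk a x (a y)) (a y) b) (hk a b (a y)) =
      U (hk (hk a x y) y b) (hk a b y) * U (hk a b y) (hk a b (a y)) := by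
    refine b2laba_hex hU (v0 := y) (v1 := b) (v2 := a y) (v3 := a x) (v4 := x) (v5 := a b) vM
      ?_ ?_ ?_ ?_ ?_ ?_ ?_ ?_
    · simp only [List.nodup_cons, List.mem_cons, List.not_mem_nil, or_false, not_or,
        not_false_eq_true, List.nodup_nil, and_true]
      grind
    · simp only [hk]; grind
    · simp only [hk]; grind
    · simp only [hk]; grind
    · intro u hu v hv; exact hs u (by grind) v (by grind)
    · funext p; simp only [hk]; grind (splits := 60)
    · funext p; simp only [hk]; grind (splits := 60)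
    · funext p; simp only [hk]; grind (splits := 60)
  have i1 := hU.inv a x y hvm ok1
  have i2 := hU.inv a b (a y) hvm ok2b
  unfold b2laba_L
  -- U(P1,a)U(a,Q1)U(Q1,Q2) = U(P1,P2)U(P2,a)U(a,Q2)
  have key : U (hk a x y) a * (U a (hk a b y) * U (hk a b y) (hk a b (a y))) =
      U (hk a x y) (hk a x (a y)) * (U (hk a x (a y)) a * U a (hk a b (a y))) := by
    rw [← mul_assoc, H1, mul_assoc, ← H4, ← mul_assoc, H3, H2, mul_assoc]
  calc U a (hk a x y) * U (hk a x y) (hk a x (a y)) * U (hk a x (a y)) a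
      = U a (hk a x y) * (U (hk a x y) (hk a x (a y)) * (U (hk a x (a y)) a *
          (U a (hk a b (a y)) * U (hk a b (a y)) a))) := by
        rw [i2]; group
    _ = U a (hk a x y) * (U (hk a x y) a * (U a (hk a b y) * U (hk a b y) (hk a b (a y)))) *
          U (hk a b (a y)) a := by
        rw [key]; group
    _ = (U a (hk a x y) * U (hk a x y) a) * (U a (hk a b y) * U (hk a b y) (hk a b (a y))) *
          U (hk a b (a y)) a := by
        group
    _ = U a (hk a b y) * U (hk a b y) (hk a b (a y)) * U (hk a b (a y)) a := by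
        rw [i1]; group

/-! ### edges -/

/-- edges -/
structure b2laba_E (star : V → Prop) (a a' : V → V) : Prop where
  vm : Vm star a
  e : ∃ x y, ok star a x y ∧ a' = hk a x y

omit [Fintype V] in
theorem b2laba_E.symm {a a' : V → V} (h : b2laba_E star a a') : b2laba_E star a' a := by
  obtain ⟨hvm, x, y, hok, rfl⟩ := h
  refine ⟨hk_vm hvm hok, x, a x, ?_, (hk_back hvm.inv hvm.ne hok.ne).symm⟩
  have ha := hvm.inv
  have hne := hvm.ne
  have hst := hvm.st
  obtain ⟨h4, h5, h6, h7, h8, h9⟩ := hok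
  refine ⟨?_, ?_, ?_, ?_, ?_, ?_⟩ <;> (try unfold hk) <;> grind

omit [Fintype V] in
theorem b2laba_E.ne {a a' : V → V} (h : b2laba_E star a a') : a ≠ a' := by
  obtain ⟨hvm, x, y, hok, rfl⟩ := h
  intro h
  have := congrFun h x
  simp only [hk, if_true] at this
  exact hok.ne' this

omit [Fintype V] in
theorem b2laba_E.inv {a a' : V → V} (h : b2laba_E star a a') (hU : LS0 star U) :
    U a a' * U a' a = 1 := by
  obtain ⟨hvm, x, y, hok, rfl⟩ := h
  exact hU.inv a x y hvm hok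

omit [Fintype V] in
theorem b2laba_ok2 {a : V → V} (hvm : Vm star a) {x y : V} (h : ok star a x y) :
    ok star a x (a y) := by
  have ha := hvm.inv
  have hne := hvm.ne
  have hst := hvm.st
  obtain ⟨h4, h5, h6, h7, h8, h9⟩ := h
  refine ⟨?_, ?_, ?_, ?_, ?_, ?_⟩ <;> grind

omit [Fintype V] in
theorem b2laba_oks {a : V → V} (hvm : Vm star a) {x y : V} (h : ok star a x y) :
    ok star a y x := by
  have ha := hvm.inv
  have hne := hvm.ne
  have hst := hvm.st
  obtain ⟨h4, h5, h6, h7, h8, h9⟩ := h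
  refine ⟨?_, ?_, ?_, ?_, ?_, ?_⟩ <;> grind

omit [Fintype V] in
theorem b2laba_ok1 {a : V → V} (hvm : Vm star a) {x y : V} (h : ok star a x y) :
    ok star a (a x) y := by
  have ha := hvm.inv
  have hne := hvm.ne
  have hst := hvm.st
  obtain ⟨h4, h5, h6, h7, h8, h9⟩ := h
  refine ⟨?_, ?_, ?_, ?_, ?_, ?_⟩ <;> grind

omit [Fintype V] in
theorem b2laba_e12 {a : V → V} (hvm : Vm star a) {x y : V} (h : ok star a x y) :
    b2laba_E star (hk a x y) (hk a x (a y)) := by
  have ha := hvm.inv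
  have hne := hvm.ne
  have hst := hvm.st
  refine ⟨hk_vm hvm h, x, a y, ?_, ?_⟩
  · obtain ⟨h4, h5, h6, h7, h8, h9⟩ := h
    refine ⟨?_, ?_, ?_, ?_, ?_, ?_⟩ <;> (try unfold hk) <;> grind
  · obtain ⟨h4, h5, h6, h7, h8, h9⟩ := h
    funext p; simp only [hk]; grind (splits := 60)

omit [Fintype V] in
/-- reversing the loop -/
theorem b2laba_Linv (hU : LS0 star U) {a : V → V} (hvm : Vm star a) {x y : V}
    (h : ok star a x y) : b2laba_L U a x (a y) y = (b2laba_L U a x y (a y))⁻¹ := by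
  have h2 := b2laba_ok2 hvm h
  have e1 := (b2laba_E.mk hvm ⟨x, y, h, rfl⟩ : b2laba_E star a (hk a x y))
  have e2 := (b2laba_E.mk hvm ⟨x, a y, h2, rfl⟩ : b2laba_E star a (hk a x (a y)))
  have e3 := b2laba_e12 hvm h
  have i1 := e1.symm.inv hU
  have i2 := e2.symm.inv hU
  have i3 := e3.symm.inv hU
  have i1' := e1.inv hU
  have i2' := e2.inv hU
  rw [eq_inv_iff_mul_eq_one]
  unfold b2laba_L
  calc _ = U a (hk a x (a y)) * (U (hk a x (a y)) (hk a x y) * ((U (hk a x y) a *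
        U a (hk a x y)) * U (hk a x y) (hk a x (a y)))) * U (hk a x (a y)) a := by group
    _ = 1 := by rw [i1, one_mul, i3, mul_one, i2']

omit [Fintype V] in
theorem b2laba_L1 {a : V → V} (hvm : Vm star a) {x y : V}
    (h : ok star a x y) : b2laba_L U a (a x) y (a y) = b2laba_L U a x (a y) y := by
  have c1 : hk a (a x) y = hk a x (a y) := by
    have := hk_compl hvm.inv hvm.ne x (a y) (b2laba_ok2 hvm h).ne
    rwa [hvm.inv y] at this
  have c2 : hk a (a x) (a y) = hk a x y := hk_compl hvm.inv hvm.ne x y h.ne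
  unfold b2laba_L
  rw [c1, c2]

omit [Fintype V] in
theorem b2laba_L3 {a : V → V} (hvm : Vm star a) {x y : V}
    (h : ok star a x y) : b2laba_L U a y x (a x) = b2laba_L U a x y (a y) := by
  have c1 : hk a (a x) y = hk a x (a y) := by
    have := hk_compl hvm.inv hvm.ne x (a y) (b2laba_ok2 hvm h).ne
    rwa [hvm.inv y] at this
  have s1 := b2laba_symm hvm.inv y x (Ne.symm h.ne)
  have s2 := b2laba_symm hvm.inv y (a x) (Ne.symm h.ne')
  unfold b2laba_L
  rw [s1, s2, c1]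

theorem b2laba_third
    (harc : ∀ a, Vm star a → ∃ x y, x ≠ y ∧ a x ≠ y ∧ ¬ star x ∧ ¬ star (a x) ∧ ¬ star y ∧
      ¬ star (a y)) (h6 : 6 ≤ Fintype.card V) {a : V → V} (hvm : Vm star a) {x y : V}
    (h : ok star a x y) : ∃ b, b2laba_T star a x y b := by
  have ha := hvm.inv
  have hne := hvm.ne
  have hst := hvm.st
  obtain ⟨h4, h5, h6', h7, h8, h9⟩ := h
  obtain ⟨p, q, hpq, hpq', hp, hp', hq, hq'⟩ := harc a hvm
  clear harc
  have hs1 : ∀ b, ((¬ star b ∧ ¬ star (a b)) ∨ (¬ star x ∧ ¬ star (a x) ∧ ¬ star y ∧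
      ¬ star (a y))) → ∀ u ∈ [x, a x, y, a y, b, a b], ∀ v ∈ [x, a x, y, a y, b, a b],
      star u → star v → u = v := by
    intro b hb u hu v hv h1 h2
    have hb' := hst b
    have hx' := hst x
    have hy' := hst y
    simp only [List.mem_cons, List.not_mem_nil, or_false] at hu hv
    clear ha hne hst hpq hpq'
    by_contra huv
    grind
  by_cases hc : p ≠ x ∧ p ≠ a x ∧ p ≠ y ∧ p ≠ a y
  · obtain ⟨c1, c2, c3, c4⟩ := hc
    exact ⟨p, hvm, h4, h5, c1.symm, c2.symm, c3.symm, c4.symm, hs1 p (Or.inl ⟨hp, hp'⟩)⟩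
  by_cases hc2 : q ≠ x ∧ q ≠ a x ∧ q ≠ y ∧ q ≠ a y
  · obtain ⟨c1, c2, c3, c4⟩ := hc2
    exact ⟨q, hvm, h4, h5, c1.symm, c2.symm, c3.symm, c4.symm, hs1 q (Or.inl ⟨hq, hq'⟩)⟩
  have hr : ¬ star x ∧ ¬ star (a x) ∧ ¬ star y ∧ ¬ star (a y) := by
    clear hs1
    grind
  obtain ⟨b, hb⟩ : ∃ b, b ∉ ({x, a x, y, a y} : Finset V) := by
    by_contra hcon
    push Not at hcon
    have h1 : (Finset.univ : Finset V) ⊆ {x, a x, y, a y} := fun t _ => hcon t
    have h2 := Finset.card_le_card h1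
    have h3 : ({x, a x, y, a y} : Finset V).card ≤ 4 := Finset.card_le_four
    rw [Finset.card_univ] at h2
    omega
  simp only [Finset.mem_insert, Finset.mem_singleton, not_or] at hb
  obtain ⟨c1, c2, c3, c4⟩ := hb
  exact ⟨b, hvm, h4, h5, Ne.symm c1, Ne.symm c2, Ne.symm c3, Ne.symm c4, hs1 b (Or.inr hr)⟩

omit [Fintype V] [DecidableEq V] in
theorem b2laba_T_ok {a : V → V} {x y b : V} (h : b2laba_T star a x y b) :
    ok star a x y ∧ ok star a b y := by
  obtain ⟨hvm, h1, h2, h3, h4, h5, h6, hs⟩ := h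
  have hne := hvm.ne
  have ha := hvm.inv
  constructor
  · refine ⟨h1, h2, ?_, ?_, ?_, ?_⟩ <;> grind
  · refine ⟨?_, ?_, ?_, ?_, ?_, ?_⟩
    · grind
    · grind
    · intro ⟨u1, u2⟩
      have := hs b (by simp) y (by simp) u1 u2
      grind
    · intro ⟨u1, u2⟩
      have := hs b (by simp) (a y) (by simp) u1 u2
      grind
    · intro ⟨u1, u2⟩
      have := hs (a b) (by simp) y (by simp) u1 u2
      grind
    · intro ⟨u1, u2⟩
      have := hs (a b) (by simp) (a y) (by simp) u1 u2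
      grind

omit [Fintype V] in
/-- the loops are orientation independent involutions -/
theorem b2laba_Lsq (hU : LS0 star U) {a : V → V} {x y b : V} (h : b2laba_T star a x y b) :
    b2laba_L U a x y (a y) * b2laba_L U a x y (a y) = 1 ∧
      b2laba_L U a (a x) y (a y) = b2laba_L U a x y (a y) ∧
      b2laba_L U a x (a y) y = b2laba_L U a x y (a y) := by
  have ha := h.vm.inv
  have hT' : b2laba_T star a x y (a b) := by
    obtain ⟨hvm, h1, h2, h3, h4, h5, h6, hs⟩ := h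
    have hne := hvm.ne
    refine ⟨hvm, h1, h2, ?_, ?_, ?_, ?_, ?_⟩
    · grind
    · grind
    · grind
    · grind
    · intro u hu v hv
      rw [ha b] at hu hv
      refine hs u ?_ v ?_
      · simp only [List.mem_cons, List.not_mem_nil, or_false] at hu ⊢
        tauto
      · simp only [List.mem_cons, List.not_mem_nil, or_false] at hv ⊢
        tauto
  have hok := (b2laba_T_ok h).1
  have hokb := (b2laba_T_ok h).2
  have c1 := b2laba_claim hU h
  have c2 := b2laba_claim hU hT'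
  have c3 := b2laba_L1 (U := U) h.vm hokb
  have c4 := b2laba_Linv hU h.vm hokb
  have c5 := b2laba_L1 (U := U) h.vm hok
  have c6 := b2laba_Linv hU h.vm hok
  have key : b2laba_L U a x y (a y) = (b2laba_L U a x y (a y))⁻¹ := by
    exact c2.trans (c3.trans (c4.trans (congrArg _ c1.symm)))
  have key2 : b2laba_L U a x y (a y) * b2laba_L U a x y (a y) = 1 := by
    nth_rewrite 1 [key]
    exact inv_mul_cancel _
  refine ⟨key2, ?_, ?_⟩
  · rw [c5, c6, ← key]
  · rw [c6, ← key]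

section harc

variable (harc : ∀ a, Vm star a → ∃ x y, x ≠ y ∧ a x ≠ y ∧ ¬ star x ∧ ¬ star (a x) ∧
  ¬ star y ∧ ¬ star (a y)) (h6 : 6 ≤ Fintype.card V)

include harc h6

theorem b2laba_sq1 (hU : LS0 star U) {a : V → V} (hvm : Vm star a) {x y : V}
    (h : ok star a x y) :
    b2laba_L U a x y (a y) * b2laba_L U a x y (a y) = 1 ∧
      b2laba_L U a (a x) y (a y) = b2laba_L U a x y (a y) ∧
      b2laba_L U a x (a y) y = b2laba_L U a x y (a y) ∧
      b2laba_L U a y x (a x) = b2laba_L U a x y (a y) := by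
  obtain ⟨b, hT⟩ := b2laba_third harc h6 hvm h
  obtain ⟨h1, h2, h3⟩ := b2laba_Lsq hU hT
  exact ⟨h1, h2, h3, b2laba_L3 hvm h⟩

/-- replacing an arc by a third arc, all real -/
theorem b2laba_rep (hU : LS0 star U) {a : V → V} (hvm : Vm star a) {x y b : V}
    (h : ok star a x y) (h' : ok star a b y) 
    (hs : (¬ star x ∧ ¬ star (a x)) ∧ (¬ star y ∧ ¬ star (a y)) ∨ (¬ star b ∧ ¬ star (a b))) :
    b2laba_L U a x y (a y) = b2laba_L U a b y (a y) := by
  by_cases h1 : b = x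
  · rw [h1]
  by_cases h2 : b = a x
  · rw [h2, (b2laba_sq1 harc h6 hU hvm h).2.1]
  refine b2laba_claim hU ⟨hvm, h.ne, h.ne', Ne.symm h1, Ne.symm h2, h'.ne.symm, ?_, ?_⟩
  · have ha := hvm.inv
    have h3 := h'.ne'
    intro h4
    apply h3
    rw [← h4, ha]
  · intro u hu v hv hsu hsv
    have ha := hvm.inv
    have hst := hvm.st
    obtain ⟨c1, c2, c3, c4, c5, c6⟩ := h
    obtain ⟨d1, d2, d3, d4, d5, d6⟩ := h'
    have hx' := hst x
    have hy' := hst y
    have hb' := hst b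
    simp only [List.mem_cons, List.not_mem_nil, or_false] at hu hv
    clear ha hst harc hvm h1 h2
    by_contra huv
    grind

/-- two pairs of real arcs have the same loop -/
theorem b2laba_real (hU : LS0 star U) {a : V → V} (hvm : Vm star a) {x y p q : V}
    (h : x ≠ y) (h' : a x ≠ y) (g : p ≠ q) (g' : a p ≠ q) (rx : ¬ star x ∧ ¬ star (a x))
    (ry : ¬ star y ∧ ¬ star (a y)) (rp : ¬ star p ∧ ¬ star (a p))
    (rq : ¬ star q ∧ ¬ star (a q)) :
    b2laba_L U a x y (a y) = b2laba_L U a p q (a q) := by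
  have mk : ∀ u v, u ≠ v → a u ≠ v → (¬ star u ∧ ¬ star (a u)) → (¬ star v ∧ ¬ star (a v)) →
      ok star a u v := by
    intro u v h1 h2 h3 h4
    refine ⟨h1, h2, ?_, ?_, ?_, ?_⟩ <;> tauto
  have hxy := mk x y h h' rx ry
  have hpq := mk p q g g' rp rq
  have ha := hvm.inv
  by_cases h1 : p = x ∨ p = a x
  · -- replace y by q
    have hyx := b2laba_oks hvm hxy
    have hqp := b2laba_oks hvm hpq
    have hqx : ok star a q x := by
      refine mk q x ?_ ?_ rq rx
      · rintro rfl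
        rcases h1 with rfl | rfl
        · exact g rfl
        · exact g' (ha _)
      · rintro h2
        rcases h1 with rfl | rfl
        · exact g' (by rw [← h2, ha])
        · apply g
          rw [← h2, ha]
    have e1 := (b2laba_sq1 harc h6 hU hvm hxy).2.2.2
    have e2 := b2laba_rep harc h6 hU hvm hyx hqx (Or.inr rq)
    have e3 := (b2laba_sq1 harc h6 hU hvm hqx).2.2.2
    have e4 : b2laba_L U a x q (a q) = b2laba_L U a p q (a q) := by
      rcases h1 with rfl | rfl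
      · rfl
      · exact ((b2laba_sq1 harc h6 hU hvm (b2laba_oks hvm hqx)).2.1).symm
    rw [← e1, e2, ← e3, e4]
  · push Not at h1
    obtain ⟨h1, h2⟩ := h1
    have hxp : ok star a x p := mk x p (Ne.symm h1) (Ne.symm h2) rx rp
    have hyx := b2laba_oks hvm hxy
    have hpx := b2laba_oks hvm hxp
    have hqp := b2laba_oks hvm hpq
    have e1 := (b2laba_sq1 harc h6 hU hvm hxy).2.2.2
    have e2 := b2laba_rep harc h6 hU hvm hyx hpx (Or.inr rp)
    have e3 := (b2laba_sq1 harc h6 hU hvm hpx).2.2.2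
    have e4 := b2laba_rep harc h6 hU hvm hxp hqp (Or.inr rq)
    have e5 := (b2laba_sq1 harc h6 hU hvm hqp).2.2.2
    rw [← e1, e2, ← e3, e4, ← e5]

/-- all pairs -/
theorem b2laba_all (hU : LS0 star U) {a : V → V} (hvm : Vm star a) {x y p q : V}
    (h : ok star a x y) (g : p ≠ q) (g' : a p ≠ q) (rp : ¬ star p ∧ ¬ star (a p))
    (rq : ¬ star q ∧ ¬ star (a q)) :
    b2laba_L U a x y (a y) = b2laba_L U a p q (a q) := by
  have mk : ∀ u v, u ≠ v → a u ≠ v → (¬ star u ∧ ¬ star (a u)) → (¬ star v ∧ ¬ star (a v)) →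
      ok star a u v := by
    intro u v h1 h2 h3 h4
    refine ⟨h1, h2, ?_, ?_, ?_, ?_⟩ <;> tauto
  have ha := hvm.inv
  -- if `y` is real
  have main : ∀ x y, ok star a x y → (¬ star y ∧ ¬ star (a y)) →
      b2laba_L U a x y (a y) = b2laba_L U a p q (a q) := by
    intro x y h ry
    by_cases h1 : p = y ∨ a p = y
    · have hqy : ok star a q y := by
        refine mk q y ?_ ?_ rq ry
        · rintro rfl
          rcases h1 with h1 | h1
          · exact g h1
          · exact g' h1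
        · intro h2
          rcases h1 with h1 | h1
          · apply g'
            rw [h1, ← h2, ha]
          · apply g
            have : a (a p) = a (a q) := by rw [h1, h2]
            rwa [ha, ha] at this
      rw [b2laba_rep harc h6 hU hvm h hqy (Or.inr rq)]
      exact b2laba_real harc h6 hU hvm hqy.ne hqy.ne' g g' rq ry rp rq
    · push Not at h1
      have hpy : ok star a p y := mk p y h1.1 h1.2 rp ry
      rw [b2laba_rep harc h6 hU hvm h hpy (Or.inr rp)]
      exact b2laba_real harc h6 hU hvm hpy.ne hpy.ne' g g' rp ry rp rq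
  by_cases ry : ¬ star y ∧ ¬ star (a y)
  · exact main x y h ry
  · have rx : ¬ star x ∧ ¬ star (a x) := by
      obtain ⟨c1, c2, c3, c4, c5, c6⟩ := h
      tauto
    rw [← (b2laba_sq1 harc h6 hU hvm h).2.2.2]
    exact main y x (b2laba_oks hvm h) rx

end harc

/-! ### squares -/

omit [Fintype V] in
theorem b2laba_sqq (hU : LS0 star U) {p m1 m2 q : V → V} {x y z w : V}
    (hp : Vm star p) (h1 : ok star p x y) (h2 : ok star p z w)
    (d1 : z ≠ x) (d2 : z ≠ y) (d3 : z ≠ p x) (d4 : z ≠ p y)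
    (d5 : w ≠ x) (d6 : w ≠ y) (d7 : w ≠ p x) (d8 : w ≠ p y)
    (e1 : hk p x y = m1) (e2 : hk p z w = m2) (e3 : hk m1 z w = q) :
    U p m1 * U m1 q = U p m2 * U m2 q := by
  subst e1
  subst e2
  subst e3
  exact hU.sq p x y z w hp h1 h2 d1 d2 d3 d4 d5 d6 d7 d8

omit [Fintype V] in
/-- the square with two opposite stars `v0`, `v3` and one more real arc `d, e` -/
theorem b2laba_two (hU : LS0 star U) {p : V → V} (hvm : Vm star p)
    {v0 v1 v2 v3 v4 v5 d e : V} (hnd : [v0, v1, v2, v3, v4, v5, d, e].Nodup)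
    (p0 : p v0 = v1) (p1 : p v1 = v0) (p2 : p v2 = v3) (p3 : p v3 = v2) (p4 : p v4 = v5)
    (p5 : p v5 = v4) (p6 : p d = e) (p7 : p e = d)
    (s1 : ¬ star v1) (s2 : ¬ star v2) (s4 : ¬ star v4) (s5 : ¬ star v5) (s6 : ¬ star d)
    (s7 : ¬ star e) :
    U p (hk p v0 v5) * U (hk p v0 v5) (hk (hk p v0 v5) v4 v3) =
      U p (hk p v4 v3) * U (hk p v4 v3) (hk (hk p v0 v5) v4 v3) := by
  have hne := hvm.ne
  have hst := hvm.st
  simp only [List.nodup_cons, List.mem_cons, List.not_mem_nil, or_false, not_or,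
        not_false_eq_true, List.nodup_nil, and_true] at hnd
  obtain ⟨n1, hn1⟩ : ∃ m, m = hk p v2 d := ⟨_, rfl⟩
  have E1 : n1 v0 = v1 ∧ n1 v1 = v0 ∧ n1 v2 = d ∧ n1 d = v2 ∧ n1 v3 = e ∧ n1 e = v3 ∧
      n1 v4 = v5 ∧ n1 v5 = v4 ∧ (∀ t, t ≠ v0 → t ≠ v1 → t ≠ v2 → t ≠ v3 → t ≠ v4 → t ≠ v5 →
        t ≠ d → t ≠ e → n1 t = p t) := by
    subst hn1
    simp only [hk]
    grind
  obtain ⟨n2, hn2⟩ : ∃ m, m = hk n1 v5 v0 := ⟨_, rfl⟩
  have E2 : n2 v0 = v5 ∧ n2 v5 = v0 ∧ n2 v2 = d ∧ n2 d = v2 ∧ n2 v3 = e ∧ n2 e = v3 ∧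
      n2 v4 = v1 ∧ n2 v1 = v4 ∧ (∀ t, t ≠ v0 → t ≠ v1 → t ≠ v2 → t ≠ v3 → t ≠ v4 → t ≠ v5 →
        t ≠ d → t ≠ e → n2 t = p t) := by
    clear hn1
    subst hn2
    simp only [hk]
    grind
  obtain ⟨b, hb⟩ : ∃ m, m = hk n1 v5 v2 := ⟨_, rfl⟩
  have Eb : b v0 = v1 ∧ b v1 = v0 ∧ b v2 = v5 ∧ b v5 = v2 ∧ b v3 = e ∧ b e = v3 ∧
      b v4 = d ∧ b d = v4 ∧ (∀ t, t ≠ v0 → t ≠ v1 → t ≠ v2 → t ≠ v3 → t ≠ v4 → t ≠ v5 →
        t ≠ d → t ≠ e → b t = p t) := by
    clear hn1 hn2 E2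
    subst hb
    simp only [hk]
    grind
  obtain ⟨c, hc⟩ : ∃ m, m = hk n2 v1 v2 := ⟨_, rfl⟩
  have Ec : c v0 = v5 ∧ c v5 = v0 ∧ c v2 = v1 ∧ c v1 = v2 ∧ c v3 = e ∧ c e = v3 ∧
      c v4 = d ∧ c d = v4 ∧ (∀ t, t ≠ v0 → t ≠ v1 → t ≠ v2 → t ≠ v3 → t ≠ v4 → t ≠ v5 →
        t ≠ d → t ≠ e → c t = p t) := by
    clear hn1 hn2 hb Eb E1
    subst hc
    simp only [hk]
    grind
  obtain ⟨f, hf⟩ : ∃ m, m = hk p v0 v5 := ⟨_, rfl⟩
  have Ef : f v0 = v5 ∧ f v5 = v0 ∧ f v2 = v3 ∧ f v3 = v2 ∧ f v1 = v4 ∧ f v4 = v1 ∧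
      f e = d ∧ f d = e ∧ (∀ t, t ≠ v0 → t ≠ v1 → t ≠ v2 → t ≠ v3 → t ≠ v4 → t ≠ v5 →
        t ≠ d → t ≠ e → f t = p t) := by
    clear hn1 hn2 hb Eb E1 E2 Ec hc
    subst hf
    simp only [hk]
    grind
  obtain ⟨g, hg⟩ : ∃ m, m = hk p v4 v3 := ⟨_, rfl⟩
  have Eg : g v0 = v1 ∧ g v1 = v0 ∧ g v2 = v5 ∧ g v5 = v2 ∧ g v3 = v4 ∧ g v4 = v3 ∧
      g e = d ∧ g d = e ∧ (∀ t, t ≠ v0 → t ≠ v1 → t ≠ v2 → t ≠ v3 → t ≠ v4 → t ≠ v5 →
        t ≠ d → t ≠ e → g t = p t) := by
    clear hn1 hn2 hb Eb E1 E2 Ec hc Ef hf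
    subst hg
    simp only [hk]
    grind
  obtain ⟨q, hq⟩ : ∃ m, m = hk f v4 v3 := ⟨_, rfl⟩
  have Eq' : q v0 = v5 ∧ q v5 = v0 ∧ q v1 = v2 ∧ q v2 = v1 ∧ q v3 = v4 ∧ q v4 = v3 ∧
      q e = d ∧ q d = e ∧ (∀ t, t ≠ v0 → t ≠ v1 → t ≠ v2 → t ≠ v3 → t ≠ v4 → t ≠ v5 →
        t ≠ d → t ≠ e → q t = p t) := by
    clear hn1 hn2 hb Eb E1 E2 Ec hc hf Eg hg
    subst hq
    simp only [hk]
    grind
  rw [← hf, ← hg, ← hq]
  -- function equalities
  have ext8 : ∀ f g : V → V, f v0 = g v0 → f v1 = g v1 → f v2 = g v2 → f v3 = g v3 →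
      f v4 = g v4 → f v5 = g v5 → f d = g d → f e = g e →
      (∀ t, t ≠ v0 → t ≠ v1 → t ≠ v2 → t ≠ v3 → t ≠ v4 → t ≠ v5 →
        t ≠ d → t ≠ e → f t = g t) → f = g := by
    intro f g g0 g1 g2 g3 g4 g5 g6 g7 g8
    funext t
    by_cases h0 : t = v0
    · rw [h0, g0]
    by_cases h1 : t = v1
    · rw [h1, g1]
    by_cases h2 : t = v2
    · rw [h2, g2]
    by_cases h3 : t = v3
    · rw [h3, g3]
    by_cases h4 : t = v4
    · rw [h4, g4]
    by_cases h5 : t = v5
    · rw [h5, g5]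
    by_cases h6 : t = d
    · rw [h6, g6]
    by_cases h7 : t = e
    · rw [h7, g7]
    exact g8 t h0 h1 h2 h3 h4 h5 h6 h7
  have Q1 : hk n1 d e = p := by
    clear hn1 hn2 hb hc hf hg hq Eb E2 Ec Ef Eg Eq'
    apply ext8 <;> (clear ext8; simp only [hk]; grind)
  have Q2 : hk b d e = g := by
    clear hn1 hn2 hb hc hf hg hq E1 E2 Ec Ef Eq'
    apply ext8 <;> (clear ext8; simp only [hk]; grind)
  have Q3 : hk n2 d e = f := by
    clear hn1 hn2 hb hc hf hg hq E1 Eb Ec Eg Eq'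
    apply ext8 <;> (clear ext8; simp only [hk]; grind)
  have Q4 : hk c d e = q := by
    clear hn1 hn2 hb hc hf hg hq E1 E2 Eb Ef Eg
    apply ext8 <;> (clear ext8; simp only [hk]; grind)
  have Q5 : hk f v2 d = n2 := by
    clear hn1 hn2 hb hc hf hg hq E1 Eb Ec Eg Eq'
    apply ext8 <;> (clear ext8; simp only [hk]; grind)
  have Q6 : hk n1 d v4 = b := by
    clear hn1 hn2 hb hc hf hg hq E2 Ec Ef Eg Eq'
    apply ext8 <;> (clear ext8; simp only [hk]; grind)
  have Q7 : hk b v5 v0 = c := by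
    clear hn1 hn2 hb hc hf hg hq E1 E2 Ef Eg Eq'
    apply ext8 <;> (clear ext8; simp only [hk]; grind)
  have Q8 : hk f v4 v3 = q := hq.symm
  clear ext8 hq
  -- validity
  have o1 : ok star p v2 d := by
    clear hn1 hn2 hb hc hf hg E1 E2 Ef Eg Eb Ec Eq' Q1 Q2 Q3 Q4 Q5 Q6 Q7 Q8
    refine ⟨?_, ?_, ?_, ?_, ?_, ?_⟩ <;> grind
  have V1 : Vm star n1 := by rw [hn1]; exact hk_vm hvm o1
  have o2 : ok star n1 v5 v0 := by
    clear hn1 hn2 hb hc hf hg E2 Ef Eg Eb Ec Eq' Q1 Q2 Q3 Q4 Q5 Q6 Q7 Q8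
    refine ⟨?_, ?_, ?_, ?_, ?_, ?_⟩ <;> grind
  have V2 : Vm star n2 := by rw [hn2]; exact hk_vm V1 o2
  have o3 : ok star n1 v5 v2 := by
    clear hn1 hn2 hb hc hf hg E2 Ef Eg Eb Ec Eq' Q1 Q2 Q3 Q4 Q5 Q6 Q7 Q8
    refine ⟨?_, ?_, ?_, ?_, ?_, ?_⟩ <;> grind
  have Vb : Vm star b := by rw [hb]; exact hk_vm V1 o3
  have hs : ∀ l : List V, l.Nodup → ∀ z, (∀ u ∈ l, star u → u = z) →
      ∀ u ∈ l, ∀ v ∈ l, star u → star v → u = v := by
    intro l _ z h u hu v hv h1 h2
    rw [h u hu h1, h v hv h2]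
  have HA : U n1 b * U b g = U n1 p * U p g := by
    have nd : [v4, v5, v2, d, e, v3].Nodup := by
      simp only [List.nodup_cons, List.mem_cons, List.not_mem_nil, or_false, not_or,
        not_false_eq_true, List.nodup_nil, and_true]
      clear hn1 hn2 hb hc hf hg E1 E2 Ef Eg Eb Ec Eq' Q1 Q2 Q3 Q4 Q5 Q6 Q7 Q8
      grind
    refine b2laba_hex hU (v0 := v4) (v1 := v5) (v2 := v2) (v3 := d) (v4 := e) (v5 := v3) V1
      nd (by rw [E1.2.2.2.2.2.2.1]) (by rw [E1.2.2.1]) (by rw [E1.2.2.2.2.2.1])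
      (hs _ nd v3 ?_) hb.symm Q1 Q2
    intro u hu hsu
    simp only [List.mem_cons, List.not_mem_nil, or_false] at hu
    rcases hu with rfl | rfl | rfl | rfl | rfl | rfl <;> first | rfl | contradiction
  have HB : U n2 c * U c q = U n2 f * U f q := by
    have nd : [v4, v1, v2, d, e, v3].Nodup := by
      simp only [List.nodup_cons, List.mem_cons, List.not_mem_nil, or_false, not_or,
        not_false_eq_true, List.nodup_nil, and_true]
      clear hn1 hn2 hb hc hf hg E1 E2 Ef Eg Eb Ec Eq' Q1 Q2 Q3 Q4 Q5 Q6 Q7 Q8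
      grind
    refine b2laba_hex hU (v0 := v4) (v1 := v1) (v2 := v2) (v3 := d) (v4 := e) (v5 := v3) V2
      nd (by rw [E2.2.2.2.2.2.2.1]) (by rw [E2.2.2.1]) (by rw [E2.2.2.2.2.2.1])
      (hs _ nd v3 ?_) hc.symm Q3 Q4
    intro u hu hsu
    simp only [List.mem_cons, List.not_mem_nil, or_false] at hu
    rcases hu with rfl | rfl | rfl | rfl | rfl | rfl <;> first | rfl | contradiction
  have HC : U n1 b * U b c = U n1 n2 * U n2 c := by
    have nd : [v2, d, v4, v5, v0, v1].Nodup := by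
      simp only [List.nodup_cons, List.mem_cons, List.not_mem_nil, or_false, not_or,
        not_false_eq_true, List.nodup_nil, and_true]
      clear hn1 hn2 hb hc hf hg E1 E2 Ef Eg Eb Ec Eq' Q1 Q2 Q3 Q4 Q5 Q6 Q7 Q8
      grind
    refine b2laba_hex hU (v0 := v2) (v1 := d) (v2 := v4) (v3 := v5) (v4 := v0) (v5 := v1) V1
      nd (by rw [E1.2.2.1]) (by rw [E1.2.2.2.2.2.2.1]) (by rw [E1.1])
      (hs _ nd v0 ?_) Q6 hn2.symm Q7
    intro u hu hsu
    simp only [List.mem_cons, List.not_mem_nil, or_false] at hu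
    rcases hu with rfl | rfl | rfl | rfl | rfl | rfl <;> first | rfl | contradiction
  have o4 : ok star p v0 v5 := by
    clear hn1 hn2 hb hc hf hg E1 E2 Ef Eg Eb Ec Eq' Q1 Q2 Q3 Q4 Q5 Q6 Q7 Q8 HA HB HC
    refine ⟨?_, ?_, ?_, ?_, ?_, ?_⟩ <;> grind
  have S1 : U p f * U f n2 = U p n1 * U n1 n2 := by
    refine b2laba_sqq hU hvm o4 o1 ?_ ?_ ?_ ?_ ?_ ?_ ?_ ?_ hf.symm hn1.symm Q5 <;>
    (clear hn1 hn2 hb hc hf hg E1 E2 Ef Eg Eb Ec Eq' Q1 Q2 Q3 Q4 Q5 Q6 Q7 Q8 HA HB HC; grind)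
  have o5 : ok star b v5 v0 := by
    clear hn1 hn2 hb hc hf hg E1 E2 Ef Eg Ec Eq' Q1 Q2 Q3 Q4 Q5 Q6 Q7 Q8 HA HB HC S1
    refine ⟨?_, ?_, ?_, ?_, ?_, ?_⟩ <;> grind
  have o6 : ok star b d e := by
    clear hn1 hn2 hb hc hf hg E1 E2 Ef Eg Ec Eq' Q1 Q2 Q3 Q4 Q5 Q6 Q7 Q8 HA HB HC S1
    refine ⟨?_, ?_, ?_, ?_, ?_, ?_⟩ <;> grind
  have S2 : U b c * U c q = U b g * U g q := by
    refine b2laba_sqq hU Vb o5 o6 ?_ ?_ ?_ ?_ ?_ ?_ ?_ ?_ Q7 Q2 Q4 <;>
    (clear hn1 hn2 hb hc hf hg E1 E2 Ef Eg Ec Eq' Q1 Q2 Q3 Q4 Q5 Q6 Q7 Q8 HA HB HC; grind)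
  have o7 : ok star n2 d e := by
    clear hn1 hn2 hb hc hf hg E1 Ef Eg Eb Ec Eq' Q1 Q2 Q3 Q4 Q5 Q6 Q7 Q8 HA HB HC S1
    refine ⟨?_, ?_, ?_, ?_, ?_, ?_⟩ <;> grind
  have i1 : U p n1 * U n1 p = 1 := (b2laba_E.mk hvm ⟨v2, d, o1, hn1⟩ : b2laba_E star p n1).inv hU
  have i2 : U f n2 * U n2 f = 1 :=
    (b2laba_E.mk V2 ⟨d, e, o7, Q3.symm⟩ : b2laba_E star n2 f).symm.inv hU
  symm
  calc U p g * U g q = (U p n1 * U n1 p) * U p g * U g q := by rw [i1]; group
    _ = U p n1 * (U n1 p * U p g) * U g q := by group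
    _ = U p n1 * U n1 b * (U b g * U g q) := by rw [← HA]; group
    _ = U p n1 * (U n1 b * U b c) * U c q := by rw [← S2]; group
    _ = (U p n1 * U n1 n2) * (U n2 c * U c q) := by rw [HC]; group
    _ = U p f * (U f n2 * U n2 f) * U f q := by rw [← S1, HB]; group
    _ = U p f * U f q := by rw [i2]; group

omit [Fintype V] in
theorem b2laba_com1 (hU : LS0 star U)
    (harc : ∀ a, Vm star a → ∃ x y, x ≠ y ∧ a x ≠ y ∧ ¬ star x ∧ ¬ star (a x) ∧ ¬ star y ∧
      ¬ star (a y)) {a : V → V} (hvm : Vm star a) {x y w : V} (h1 : ok star a x y)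
    (h2 : ok star a (a y) w) (h3 : ok star (hk a x y) (a y) w)
    (h4 : ok star (hk a (a y) w) x y) (n1 : x ≠ w) (n2 : y ≠ w) (n3 : x ≠ a y) :
    U a (hk a x y) * U (hk a x y) (hk (hk a x y) (a y) w) =
      U a (hk a (a y) w) * U (hk a (a y) w) (hk (hk a x y) (a y) w) := by
  have ha := hvm.inv
  have hne := hvm.ne
  have hst := hvm.st
  have w1 : w ≠ a x := by
    have h := h3.ne'
    simp only [hk] at h
    clear h2 h3 h4
    have h11 := h1.ne
    have h12 := h1.ne'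
    grind
  have hx1 := h1.ne
  have hx2 := h1.ne'
  have hw1 := h2.ne
  have hw2 := h2.ne'
  by_cases hc : star x ∧ star w
  · obtain ⟨hcx, hcw⟩ := hc
    have sx : ¬ star (a x) := hst x hcx
    have sw : ¬ star (a w) := hst w hcw
    have sy : ¬ star y := fun h => h1.s1 ⟨hcx, h⟩
    have sy' : ¬ star (a y) := fun h => h1.s2 ⟨hcx, h⟩
    obtain ⟨d, hd1, hd2, hd3, hd4⟩ : ∃ d, d ≠ y ∧ d ≠ a y ∧ ¬ star d ∧ ¬ star (a d) := by
      obtain ⟨p, q, hpq, hpq', hp, hp', hq, hq'⟩ := harc a hvm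
      by_cases hc : p ≠ y ∧ p ≠ a y
      · exact ⟨p, hc.1, hc.2, hp, hp'⟩
      · refine ⟨q, ?_, ?_, hq, hq'⟩
        · clear h1 h2 h3 h4 harc hU
          grind
        · clear h1 h2 h3 h4 harc hU
          grind
    clear harc
    refine b2laba_two hU hvm (v0 := x) (v1 := a x) (v2 := a w) (v3 := w) (v4 := a y) (v5 := y)
      (d := d) (e := a d) ?_ rfl (ha x) (ha w) rfl (ha y) rfl rfl (ha d) sx sw sy' sy hd3 hd4
    simp only [List.nodup_cons, List.mem_cons, List.not_mem_nil, or_false, not_or,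
        not_false_eq_true, List.nodup_nil, and_true]
    clear h1 h2 h3 h4 hU
    have k1 : d ≠ x := by rintro rfl; exact hd3 hcx
    have k2 : d ≠ w := by rintro rfl; exact hd3 hcw
    have k3 : d ≠ a x := by rintro rfl; rw [ha] at hd4; exact hd4 hcx
    have k4 : d ≠ a w := by rintro rfl; rw [ha] at hd4; exact hd4 hcw
    have K : ∀ u v, u ≠ v → u ≠ a v →
        u ≠ v ∧ u ≠ a v ∧ a u ≠ v ∧ a u ≠ a v ∧ v ≠ a u ∧ a v ≠ a u := by
      intro u v h1 h2
      have h3 : a u ≠ v := fun h => h2 (by rw [← h, ha])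
      have h4 : a u ≠ a v := fun h => h1 (by rw [← ha u, h, ha])
      exact ⟨h1, h2, h3, h4, h3.symm, h4.symm⟩
    have K1 := K x y hx1 n3
    have K2 := K w x n1.symm w1
    have K3 := K d x k1 k3
    have K4 := K w y n2.symm (Ne.symm hw1)
    have K5 := K d y hd1 hd2
    have K6 := K d w k2 k4
    have K7 := hne x
    have K8 := hne y
    have K9 := hne w
    have K10 := hne d
    clear hst K ha hne hvm
    grind
  · refine b2laba_hex hU (v0 := a x) (v1 := x) (v2 := y) (v3 := a y) (v4 := w) (v5 := a w) hvm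
      ?_ (ha x) rfl rfl ?_ rfl rfl rfl
    · simp only [List.nodup_cons, List.mem_cons, List.not_mem_nil, or_false, not_or,
        not_false_eq_true, List.nodup_nil, and_true]
      clear h1 h2 h3 h4 hU harc hc hst
      grind
    · -- stars
      have e1 : hk a x y (a y) = a x := by simp only [hk]; grind
      have e2 : hk a x y w = a w := by simp only [hk]; grind
      have e3 : hk a (a y) w x = a x := by simp only [hk]; grind
      have e4 : hk a (a y) w y = a w := by simp only [hk]; grind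
      obtain ⟨_, _, a1, a2, a3, a4⟩ := h1
      obtain ⟨_, _, b1, b2, b3, b4⟩ := h2
      obtain ⟨_, _, c1, c2, c3, c4⟩ := h3
      obtain ⟨_, _, d1, d2, d3, d4⟩ := h4
      rw [ha] at b3 b4
      rw [e2] at c2 c4
      rw [e1] at c3 c4
      rw [e4] at d2 d4
      rw [e3] at d3 d4
      have hx' := hst x
      have hy' := hst y
      have hw' := hst w
      intro u hu v hv hsu hsv
      simp only [List.mem_cons, List.not_mem_nil, or_false] at hu hv
      clear e1 e2 e3 e4 harc hU hvm ha hne hst w1 hx1 hx2 hw1 hw2 n1 n2 n3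
      by_contra huv
      grind

omit [Fintype V] in
theorem b2laba_com (hU : LS0 star U)
    (harc : ∀ a, Vm star a → ∃ x y, x ≠ y ∧ a x ≠ y ∧ ¬ star x ∧ ¬ star (a x) ∧ ¬ star y ∧
      ¬ star (a y)) (a : V → V) (x y z w : V) (hvm : Vm star a) (hxz : x ≠ z) (hxw : x ≠ w)
    (hyz : y ≠ z) (hyw : y ≠ w) (h1 : ok star a x y)
    (h2 : ok star a z w) (h3 : ok star (hk a x y) z w)
    (h4 : ok star (hk a z w) x y) :
    U a (hk a x y) * U (hk a x y) (hk (hk a x y) z w) =
      U a (hk a z w) * U (hk a z w) (hk (hk a x y) z w) := by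
  have ha := hvm.inv
  have vA := hk_vm hvm h1
  have vB := hk_vm hvm h2
  -- the core
  have core : ∀ x y z w, x ≠ z → x ≠ w → y ≠ w → ok star a x y → ok star a z w →
      ok star (hk a x y) z w → ok star (hk a z w) x y → z = a y →
      U a (hk a x y) * U (hk a x y) (hk (hk a x y) z w) =
      U a (hk a z w) * U (hk a z w) (hk (hk a x y) z w) := by
    rintro x y z w hxz hxw hyw h1 h2 h3 h4 rfl
    exact b2laba_com1 hU harc hvm h1 h2 h3 h4 hxw hyw hxz
  have sA : hk a x y = hk a y x := b2laba_symm ha x y h1.ne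
  have sB : hk a z w = hk a w z := b2laba_symm ha z w h2.ne
  have sC : hk (hk a x y) z w = hk (hk a x y) w z := b2laba_symm vA.inv z w h3.ne
  by_cases c1 : z = a y
  · exact core x y z w hxz hxw hyw h1 h2 h3 h4 c1
  by_cases c2 : z = a x
  · rw [sA]
    exact core y x z w hyz hyw hxw (b2laba_oks hvm h1) h2 (by rwa [← sA]) (b2laba_oks vB h4) c2
  by_cases c3 : w = a y
  · rw [sC, sB]
    exact core x y w z hxw hxz hyz h1 (b2laba_oks hvm h2) (b2laba_oks vA h3) (by rwa [← sB]) c3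
  by_cases c4 : w = a x
  · rw [sC, sB, sA]
    refine core y x w z hyw hyz hxz (b2laba_oks hvm h1) (b2laba_oks hvm h2) ?_ ?_ c4
    · rw [← sA]; exact b2laba_oks vA h3
    · rw [← sB]; exact b2laba_oks vB h4
  exact hU.sq a x y z w hvm h1 h2 hxz.symm hyz.symm c2 c1 hxw.symm hyw.symm c4 c3

theorem ls_twist (hU : LS0 star U)
    (harc : ∀ a, Vm star a → ∃ x y, x ≠ y ∧ a x ≠ y ∧ ¬ star x ∧ ¬ star (a x) ∧ ¬ star y ∧
      ¬ star (a y)) (h6 : 6 ≤ Fintype.card V) :
    ∃ Z : (V → V) → H, (∀ a, Vm star a → Z a * Z a = 1) ∧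
      (∀ a x y, Vm star a → ok star a x y → Z a * U a (hk a x y) = U a (hk a x y) * Z (hk a x y)) ∧
      (∀ a x y, Vm star a → ok star a x y →
        Z a = U a (hk a x y) * U (hk a x y) (hk a x (a y)) * U (hk a x (a y)) a) ∧
      LS1 star (fun a a' => if a = a' then 1 else U a a' * Z a') := by
  classical
  haveI : Nonempty V := Fintype.card_pos_iff.mp (by omega)
  choose! p q hpq using harc
  have harc : ∀ a, Vm star a → ∃ x y, x ≠ y ∧ a x ≠ y ∧ ¬ star x ∧ ¬ star (a x) ∧ ¬ star y ∧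
      ¬ star (a y) := fun a ha => ⟨p a, q a, hpq a ha⟩
  obtain ⟨Z, hZ⟩ : ∃ Z : (V → V) → H, ∀ a, Z a = b2laba_L U a (p a) (q a) (a (q a)) :=
    ⟨_, fun a => rfl⟩
  have Z3 : ∀ a x y, Vm star a → ok star a x y → Z a = b2laba_L U a x y (a y) := by
    intro a x y hvm h
    obtain ⟨g1, g2, g3, g4, g5, g6⟩ := hpq a hvm
    rw [hZ]
    exact (b2laba_all harc h6 hU hvm h g1 g2 ⟨g3, g4⟩ ⟨g5, g6⟩).symm
  have okpq : ∀ a, Vm star a → ok star a (p a) (q a) := by
    intro a hvm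
    obtain ⟨g1, g2, g3, g4, g5, g6⟩ := hpq a hvm
    refine ⟨g1, g2, ?_, ?_, ?_, ?_⟩ <;> tauto
  have Z1 : ∀ a, Vm star a → Z a * Z a = 1 := by
    intro a hvm
    rw [hZ]
    exact (b2laba_sq1 harc h6 hU hvm (okpq a hvm)).1
  have Z2 : ∀ a x y, Vm star a → ok star a x y →
      Z a * U a (hk a x y) = U a (hk a x y) * Z (hk a x y) := by
    intro a x y hvm h
    have vP := hk_vm hvm h
    have ha := hvm.inv
    have hne := hvm.ne
    have hst := hvm.st
    have okz : ok star (hk a x y) x (a y) := by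
      obtain ⟨h4, h5, h6, h7, h8, h9⟩ := h
      clear hpq harc Z3 okpq Z1 hZ
      refine ⟨?_, ?_, ?_, ?_, ?_, ?_⟩ <;> (try unfold hk) <;> grind
    have e1 : hk (hk a x y) x (a y) = hk a x (a y) := by
      obtain ⟨h4, h5, h6, h7, h8, h9⟩ := h
      clear hpq harc Z3 okpq Z1 hZ okz
      funext p; simp only [hk]; grind (splits := 60)
    have e2 : hk a x y (a y) = a x := by
      obtain ⟨h4, h5, h6, h7, h8, h9⟩ := h
      clear hpq harc Z3 okpq Z1 hZ okz e1
      simp only [hk]; grind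
    have e3 : hk (hk a x y) x (a x) = a := hk_back ha hne h.ne
    have k1 := Z3 a x y hvm h
    have k2 := Z3 (hk a x y) x (a y) vP okz
    rw [e2] at k2
    unfold b2laba_L at k1 k2
    rw [e1, e3] at k2
    rw [k1, k2]
    group
  have edge : ∀ a x y, Vm star a → ok star a x y → b2laba_E star a (hk a x y) :=
    fun a x y h1 h2 => ⟨h1, x, y, h2, rfl⟩
  have comm : ∀ a a', b2laba_E star a a' → Z a * U a a' = U a a' * Z a' := by
    rintro a a' ⟨hvm, x, y, h, rfl⟩
    exact Z2 a x y hvm h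
  refine ⟨Z, Z1, Z2, Z3, ?_, ?_, ?_, ?_⟩
  · intro a _
    simp
  · intro a x y hvm h
    have e := edge a x y hvm h
    have n := e.ne
    simp only [if_neg n, if_neg n.symm]
    have h1 := comm _ _ e.symm
    have h2 := e.inv hU
    calc U a (hk a x y) * Z (hk a x y) * (U (hk a x y) a * Z a)
        = U a (hk a x y) * (Z (hk a x y) * U (hk a x y) a) * Z a := by group
      _ = (U a (hk a x y) * U (hk a x y) a) * (Z a * Z a) := by rw [h1]; group
      _ = 1 := by rw [h2, Z1 a hvm, one_mul]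
  · intro a x y z w hvm hxz hxw hyz hyw h1 h2 h3 h4
    have e1 := edge a x y hvm h1
    have e2 := edge a z w hvm h2
    have e3 := edge (hk a x y) z w (hk_vm hvm h1) h3
    have e4 : b2laba_E star (hk a z w) (hk (hk a x y) z w) := by
      refine ⟨hk_vm hvm h2, x, y, h4, ?_⟩
      exact hk_comm hvm.inv hvm.ne h1.ne h2.ne hxz hxw hyz hyw
    have vC := hk_vm (hk_vm hvm h1) h3
    have k1 := comm _ _ e3
    have k2 := comm _ _ e4
    have key := b2laba_com hU harc a x y z w hvm hxz hxw hyz hyw h1 h2 h3 h4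
    simp only [if_neg e1.ne, if_neg e2.ne, if_neg e3.ne, if_neg e4.ne]
    have ZC := Z1 _ vC
    calc U a (hk a x y) * Z (hk a x y) * (U (hk a x y) (hk (hk a x y) z w) *
          Z (hk (hk a x y) z w))
        = U a (hk a x y) * (Z (hk a x y) * U (hk a x y) (hk (hk a x y) z w)) *
          Z (hk (hk a x y) z w) := by group
      _ = (U a (hk a x y) * U (hk a x y) (hk (hk a x y) z w)) *
          (Z (hk (hk a x y) z w) * Z (hk (hk a x y) z w)) := by rw [k1]; group
      _ = U a (hk a z w) * (U (hk a z w) (hk (hk a x y) z w) * Z (hk (hk a x y) z w)) *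
          Z (hk (hk a x y) z w) := by rw [key]; group
      _ = U a (hk a z w) * (Z (hk a z w) * U (hk a z w) (hk (hk a x y) z w)) *
          Z (hk (hk a x y) z w) := by rw [← k2]
      _ = U a (hk a z w) * Z (hk a z w) * (U (hk a z w) (hk (hk a x y) z w) *
          Z (hk (hk a x y) z w)) := by group
  · intro a x y hvm h
    have e1 := edge a x y hvm h
    have e3 := (edge a x (a y) hvm (b2laba_ok2 hvm h)).symm
    have e2 := b2laba_e12 hvm h
    have k1 := comm _ _ e1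
    have k2 := comm _ _ e2
    have k3 := comm _ _ e3
    have k4 := Z3 a x y hvm h
    have k5 := Z1 a hvm
    unfold b2laba_L at k4
    simp only [if_neg e1.ne, if_neg e2.ne, if_neg e3.ne]
    generalize hk a x y = b at *
    generalize hk a x (a y) = c at *
    calc U a b * Z b * (U b c * Z c) * (U c a * Z a)
        = (U a b * Z b) * U b c * (Z c * U c a) * Z a := by group
      _ = Z a * (U a b * U b c * U c a) * Z a * Z a := by rw [← k1, k3]; group
      _ = (Z a * Z a) * (Z a * Z a) := by rw [← k4]; group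
      _ = 1 := by rw [k5, one_mul]

end

end Pool.Agent.H213PG
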