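import Mathlib.Tactic
import Mathlib.Data.ZMod.Basic

set_option autoImplicit false
set_option linter.unusedSectionVars false

/-!
# The chip systems
-/

namespace Pool.Agent.H213PG

open Finset

/-- `d` chips in bin `j` -/
abbrev sg (j d : ℕ) : ℕ → ℕ := Pi.single j d

/-- a chip system: values of the moves of `a + b + 2` chips from bin `i + 1` to bin `i`, with the
other chips in position `c` -/
structure Sys {H : Type} [Group H] (r : ℕ) (U : ℕ → (ℕ → ℕ) → ℕ → ℕ → H) : Prop where
  R1 : ∀ i c a1 b1 a2 b2, i < r → U i (c + sg (i + 1) (a2 + b2 + 2)) a1 b1 *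
    U i (c + sg i (a1 + b1 + 2)) a2 b2 = U i c a1 (b1 + a2 + b2 + 2)
  R2 : ∀ i c a1 b1 a2 b2, i < r → U i c a1 (b1 + a2 + b2 + 2) = U i c (a1 + b1 + a2 + 2) b2
  CM : ∀ i j c a b a' b', i < r → j < r → i ≠ j →
    U i (c + sg (j + 1) (a' + b' + 2)) a b * U j (c + sg i (a + b + 2)) a' b' =
    U j (c + sg (i + 1) (a + b + 2)) a' b' * U i (c + sg j (a' + b' + 2)) a b

section

variable {H : Type} [Group H] {r : ℕ} {U : ℕ → (ℕ → ℕ) → ℕ → ℕ → H}

/-- gauge transformation -/
def gg (U : ℕ → (ℕ → ℕ) → ℕ → ℕ → H) (h : (ℕ → ℕ) → H) (i : ℕ) (c : ℕ → ℕ) (a b : ℕ) : H :=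
  (h (c + sg (i + 1) (a + b + 2)))⁻¹ * U i c a b * h (c + sg i (a + b + 2))

theorem Sys.gauge (hU : Sys r U) (h : (ℕ → ℕ) → H) : Sys r (gg U h) := by
  constructor
  · intro i c a1 b1 a2 b2 hi
    unfold gg
    rw [← hU.R1 i c a1 b1 a2 b2 hi]
    have e1 : c + sg (i + 1) (a2 + b2 + 2) + sg (i + 1) (a1 + b1 + 2) =
        c + sg (i + 1) (a1 + (b1 + a2 + b2 + 2) + 2) := by
      rw [add_assoc, ← Pi.single_add]; congr 2; ring
    have e2 : c + sg i (a1 + b1 + 2) + sg i (a2 + b2 + 2) =
        c + sg i (a1 + (b1 + a2 + b2 + 2) + 2) := by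
      rw [add_assoc, ← Pi.single_add]; congr 2; ring
    have e3 : c + sg (i + 1) (a2 + b2 + 2) + sg i (a1 + b1 + 2) =
        c + sg i (a1 + b1 + 2) + sg (i + 1) (a2 + b2 + 2) := add_right_comm _ _ _
    rw [e1, e2, e3]
    group
  · intro i c a1 b1 a2 b2 hi
    unfold gg
    rw [hU.R2 i c a1 b1 a2 b2 hi]
    have e1 : a1 + (b1 + a2 + b2 + 2) + 2 = a1 + b1 + a2 + 2 + b2 + 2 := by ring
    rw [e1]
  · intro i j c a b a' b' hi hj hij
    unfold gg
    have e1 : c + sg (j + 1) (a' + b' + 2) + sg (i + 1) (a + b + 2) =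
        c + sg (i + 1) (a + b + 2) + sg (j + 1) (a' + b' + 2) := add_right_comm _ _ _
    have e2 : c + sg (j + 1) (a' + b' + 2) + sg i (a + b + 2) =
        c + sg i (a + b + 2) + sg (j + 1) (a' + b' + 2) := add_right_comm _ _ _
    have e3 : c + sg j (a' + b' + 2) + sg (i + 1) (a + b + 2) =
        c + sg (i + 1) (a + b + 2) + sg j (a' + b' + 2) := add_right_comm _ _ _
    have e4 : c + sg j (a' + b' + 2) + sg i (a + b + 2) =
        c + sg i (a + b + 2) + sg j (a' + b' + 2) := add_right_comm _ _ _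
    rw [e1, e2, e3, e4]
    have := hU.CM i j c a b a' b' hi hj hij
    calc _ = (h (c + sg (i + 1) (a + b + 2) + sg (j + 1) (a' + b' + 2)))⁻¹ *
        (U i (c + sg (j + 1) (a' + b' + 2)) a b * U j (c + sg i (a + b + 2)) a' b') *
        h (c + sg i (a + b + 2) + sg j (a' + b' + 2)) := by group
      _ = _ := by rw [this]; group

theorem gg_eq_one_iff {h : (ℕ → ℕ) → H} {i : ℕ} {c : ℕ → ℕ} {a b : ℕ} :
    gg U h i c a b = 1 ↔ U i c a b = h (c + sg (i + 1) (a + b + 2)) *
      (h (c + sg i (a + b + 2)))⁻¹ := by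
  unfold gg
  constructor
  · intro e
    have : U i c a b = h (c + sg (i + 1) (a + b + 2)) *
        ((h (c + sg (i + 1) (a + b + 2)))⁻¹ * U i c a b * h (c + sg i (a + b + 2))) *
        (h (c + sg i (a + b + 2)))⁻¹ := by group
    rw [this, e]; group
  · intro e; rw [e]; group

theorem gg_gg (h h' : (ℕ → ℕ) → H) : gg (gg U h) h' = gg U (fun g => h g * h' g) := by
  funext i c a b
  unfold gg
  group

/-- weight -/
def Wt (r : ℕ) (g : ℕ → ℕ) : ℕ := ∑ l ∈ range (r + 1), l * g l

theorem Wt_add (g g' : ℕ → ℕ) : Wt r (g + g') = Wt r g + Wt r g' := by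
  unfold Wt; rw [← sum_add_distrib]; congr 1; funext l; simp [mul_add]

theorem Wt_single {l : ℕ} (hl : l ≤ r) (d : ℕ) : Wt r (sg l d) = l * d := by
  unfold Wt
  rw [sum_eq_single l]
  · simp
  · intro b _ hb; simp [Pi.single_eq_of_ne hb]
  · intro h; exfalso; apply h; simp; omega

/-- total -/
def tot (r : ℕ) (g : ℕ → ℕ) : ℕ := ∑ l ∈ range (r + 1), g l

theorem tot_add (g g' : ℕ → ℕ) : tot r (g + g') = tot r g + tot r g' := by
  unfold tot; rw [← sum_add_distrib]; congr 1

theorem tot_single {l : ℕ} (hl : l ≤ r) (d : ℕ) : tot r (sg l d) = d := by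
  unfold tot
  rw [sum_eq_single l]
  · simp
  · intro b _ hb; simp [Pi.single_eq_of_ne hb]
  · intro h; exfalso; apply h; simp; omega

theorem sub_single_add {g : ℕ → ℕ} {j d : ℕ} (h : d ≤ g j) : g - sg j d + sg j d = g := by
  funext l
  by_cases hl : l = j
  · subst hl; simp; omega
  · simp [Pi.single_eq_of_ne hl]

theorem add_single_sub {g : ℕ → ℕ} {j d : ℕ} : g + sg j d - sg j d = g := by
  funext l
  simp

theorem Wt_prev {g : ℕ → ℕ} {j d : ℕ} (h1 : 1 ≤ j) (hj : j ≤ r) (hd : 0 < d) (h : d ≤ g j) :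
    Wt r (g - sg j d + sg (j - 1) d) < Wt r g := by
  conv_rhs => rw [← sub_single_add h]
  rw [Wt_add, Wt_add, Wt_single hj, Wt_single (by omega)]
  obtain ⟨m, rfl⟩ : ∃ m, j = m + 1 := ⟨j - 1, by omega⟩
  simp only [Nat.add_sub_cancel]
  nlinarith

open Classical in
/-- the first natural number satisfying a predicate (`0` if there is none) -/
noncomputable def fst (Q : ℕ → Prop) : ℕ := if h : ∃ j, Q j then Nat.find h else 0

theorem fst_spec {Q : ℕ → Prop} (h : ∃ j, Q j) : Q (fst Q) := by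
  classical
  unfold fst; rw [dif_pos h]; exact Nat.find_spec h

theorem fst_min {Q : ℕ → Prop} {m : ℕ} (hm : m < fst Q) : ¬ Q m := by
  classical
  intro hq
  have h : ∃ j, Q j := ⟨m, hq⟩
  unfold fst at hm; rw [dif_pos h] at hm
  exact Nat.find_min h hm hq

theorem fst_eq {Q : ℕ → Prop} {j : ℕ} (h : Q j) (hmin : ∀ l < j, ¬ Q l) : fst Q = j := by
  rcases lt_trichotomy (fst Q) j with h1 | h1 | h1
  · exact absurd (fst_spec ⟨j, h⟩) (hmin _ h1)
  · exact h1
  · exact absurd h (fst_min h1)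

/-- bins with a movable pair -/
def hasPair (r : ℕ) (g : ℕ → ℕ) (j : ℕ) : Prop := 1 ≤ j ∧ j ≤ r ∧ 2 ≤ g j

open Classical in
/-- the first gauge: all pairs are moved to bin `0` -/
noncomputable def h1 (r : ℕ) (U : ℕ → (ℕ → ℕ) → ℕ → ℕ → H) (g : ℕ → ℕ) : H :=
  if h : ∃ j, hasPair r g j then
    U (fst (hasPair r g) - 1) (g - sg (fst (hasPair r g)) 2) 0 0 *
      h1 r U (g - sg (fst (hasPair r g)) 2 + sg (fst (hasPair r g) - 1) 2)
  else 1
termination_by Wt r g
decreasing_by
  exact Wt_prev (fst_spec h).1 (fst_spec h).2.1 (by omega) (fst_spec h).2.2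

theorem h1_step {g : ℕ → ℕ} {j : ℕ} (h1' : 1 ≤ j) (hj : j ≤ r) (h : 2 ≤ g j)
    (hmin : ∀ l, 1 ≤ l → l < j → g l < 2) :
    h1 r U g = U (j - 1) (g - sg j 2) 0 0 *
      h1 r U (g - sg j 2 + sg (j - 1) 2) := by
  have hex : ∃ j, hasPair r g j := ⟨j, h1', hj, h⟩
  have hf : fst (hasPair r g) = j := by
    apply fst_eq ⟨h1', hj, h⟩
    intro l hl hc
    have := hmin l hc.1 hl
    have := hc.2.2
    omega
  rw [h1, dif_pos hex, hf]

theorem h1_edge (hU : Sys r U) : ∀ (m : ℕ) (i : ℕ) (c : ℕ → ℕ), i < r → Wt r c = m →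
    U i c 0 0 * h1 r U (c + sg i 2) = h1 r U (c + sg (i + 1) 2) := by
  intro m
  induction m using Nat.strong_induction_on with
  | _ m ih =>
    intro i c hi hm
    by_cases hex : ∃ j, hasPair i c j
    · obtain ⟨hj1, hj2, hj3⟩ := fst_spec hex
      have hjm : ∀ l, l < fst (hasPair i c) → ¬ (1 ≤ l ∧ l ≤ i ∧ 2 ≤ c l) := fun l hl => fst_min hl
      set j := fst (hasPair i c) with hj
      have hc0 : c - sg j 2 + sg j 2 = c := sub_single_add hj3
      set c0 := c - sg j 2 with hc0'
      have s1 := h1_step (U := U) (r := r) (g := c + sg (i + 1) 2) (j := j) hj1 (by omega)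
        (by simp only [Pi.add_apply]; omega) (by
          intro l hl1 hl2
          have := hjm l hl2
          have hne : l ≠ i + 1 := by omega
          simp only [Pi.add_apply, Pi.single_eq_of_ne hne]
          by_contra hcon
          exact this ⟨hl1, by omega, by omega⟩)
      have s2 := h1_step (U := U) (r := r) (g := c + sg i 2) (j := j) hj1 (by omega)
        (by simp only [Pi.add_apply]; omega) (by
          intro l hl1 hl2
          have := hjm l hl2
          have hne : l ≠ i := by omega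
          simp only [Pi.add_apply, Pi.single_eq_of_ne hne]
          by_contra hcon
          exact this ⟨hl1, by omega, by omega⟩)
      have t1 : c + sg (i + 1) 2 - sg j 2 = c0 + sg (i + 1) 2 := by
        rw [← hc0, add_assoc, add_comm (sg j 2), ← add_assoc, add_single_sub]
      have t2 : c + sg i 2 - sg j 2 = c0 + sg i 2 := by
        rw [← hc0, add_assoc, add_comm (sg j 2), ← add_assoc, add_single_sub]
      rw [t1] at s1
      rw [t2] at s2
      rw [s1, s2, ← mul_assoc]
      have cm := hU.CM i (j - 1) c0 0 0 0 0 hi (by omega) (by omega)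
      have hjj : j - 1 + 1 = j := by omega
      simp only [hjj, add_zero, zero_add] at cm
      rw [hc0] at cm
      rw [cm, mul_assoc]
      congr 1
      have hw : Wt r (c0 + sg (j - 1) 2) < m := by
        rw [← hm]
        exact Wt_prev hj1 (by omega) (by omega) hj3
      have := ih _ hw i (c0 + sg (j - 1) 2) hi rfl
      rw [add_right_comm c0 (sg (j - 1) 2), add_right_comm c0 (sg (j - 1) 2)] at this
      exact this
    · have s1 := h1_step (U := U) (r := r) (g := c + sg (i + 1) 2) (j := i + 1) (by omega)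
        (by omega) (by simp) (by
          intro l hl1 hl2
          have hne : l ≠ i + 1 := by omega
          simp only [Pi.add_apply, Pi.single_eq_of_ne hne]
          by_contra hcon
          exact hex ⟨l, hl1, by omega, by omega⟩)
      rw [s1, add_single_sub]
      simp only [Nat.add_sub_cancel]

end

end Pool.Agent.H213PG
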