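import Pool.Agent.helper213_PG.Chips

set_option autoImplicit false
set_option linter.unusedSectionVars false

/-!
# The chip systems: the second gauge
-/

namespace Pool.Agent.H213PG

open Finset

section parity

variable {H : Type} [Group H] {r : ℕ}

/-- parity weight -/
def Wp (r : ℕ) (g : ℕ → ℕ) : ℕ := ∑ l ∈ range (r + 1), l * (g l % 2)

theorem Wp_add_single_even {g : ℕ → ℕ} {l : ℕ} (hl : l ≤ r) (h : g l % 2 = 0) :
    Wp r (g + sg l 1) = Wp r g + l := by
  unfold Wp
  rw [← Finset.add_sum_erase (range (r + 1)) _ (mem_range.2 (Nat.lt_succ_of_le hl)),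
    ← Finset.add_sum_erase (range (r + 1)) (fun l => l * (g l % 2)) (mem_range.2 (Nat.lt_succ_of_le hl))]
  have e1 : l * ((g + sg l 1) l % 2) = l := by
    simp only [Pi.add_apply, Pi.single_eq_same]
    have : (g l + 1) % 2 = 1 := by omega
    rw [this, mul_one]
  have e2 : ∀ x ∈ (range (r + 1)).erase l, x * ((g + sg l 1) x % 2) = x * (g x % 2) := by
    intro x hx
    rw [Finset.mem_erase] at hx
    simp [Pi.single_eq_of_ne hx.1]
  rw [Finset.sum_congr rfl e2, e1, h]
  ring

theorem Wp_add_single_odd {g : ℕ → ℕ} {l : ℕ} (hl : l ≤ r) (h : g l % 2 = 1) :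
    Wp r (g + sg l 1) + l = Wp r g := by
  unfold Wp
  rw [← Finset.add_sum_erase (range (r + 1)) _ (mem_range.2 (Nat.lt_succ_of_le hl)),
    ← Finset.add_sum_erase (range (r + 1)) (fun l => l * (g l % 2)) (mem_range.2 (Nat.lt_succ_of_le hl))]
  have e1 : l * ((g + sg l 1) l % 2) = 0 := by
    simp only [Pi.add_apply, Pi.single_eq_same]
    have : (g l + 1) % 2 = 0 := by omega
    rw [this, mul_zero]
  have e2 : ∀ x ∈ (range (r + 1)).erase l, x * ((g + sg l 1) x % 2) = x * (g x % 2) := by
    intro x hx
    rw [Finset.mem_erase] at hx
    simp [Pi.single_eq_of_ne hx.1]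
  rw [Finset.sum_congr rfl e2, e1, h]
  ring

theorem Wp_congr {g g' : ℕ → ℕ} (h : ∀ l ≤ r, g l % 2 = g' l % 2) : Wp r g = Wp r g' := by
  unfold Wp
  apply Finset.sum_congr rfl
  intro l hl
  rw [h l (by simp at hl; omega)]

/-- **the parity system is a coboundary** -/
theorem parity_main (B : ℕ → (ℕ → ℕ) → H) (K : (ℕ → ℕ) → H)
    (hK : ∀ x i, i < r → K (x + sg (i + 1) 2) = K (x + sg i 2))
    (hCM : ∀ i j y, i < r → j < r → i ≠ j →
      B i (y + sg (j + 1) 1) * B j (y + sg i 1) = B j (y + sg (i + 1) 1) * B i (y + sg j 1))
    (hiv : ∀ i y, i < r → B i (y + sg (i + 1) 1) * B i (y + sg i 1) = 1)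
    (hT : ∀ i x, i < r → (∀ l, 1 ≤ l → l ≤ i + 1 → x l % 2 = 0) →
      B i x * K (x + sg i 1) = K (x + sg (i + 1) 1)) :
    ∀ (m i : ℕ) (x : ℕ → ℕ), i < r → max (Wp r (x + sg (i + 1) 1)) (Wp r (x + sg i 1)) = m →
      B i x * K (x + sg i 1) = K (x + sg (i + 1) 1) := by
  intro m
  induction m using Nat.strong_induction_on with
  | _ m ih =>
    -- first the case where bin `i + 1` is even
    have even_case : ∀ (i : ℕ) (x : ℕ → ℕ), i < r → x (i + 1) % 2 = 0 →
        max (Wp r (x + sg (i + 1) 1)) (Wp r (x + sg i 1)) = m →
        B i x * K (x + sg i 1) = K (x + sg (i + 1) 1) := by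
      intro i x hi hev hm
      by_cases hex : ∃ l, 1 ≤ l ∧ l ≤ i ∧ x l % 2 = 1
      · obtain ⟨hl1, hl2, hl3⟩ := fst_spec hex
        have hlm : ∀ l', l' < fst (fun l => 1 ≤ l ∧ l ≤ i ∧ x l % 2 = 1) →
            ¬ (1 ≤ l' ∧ l' ≤ i ∧ x l' % 2 = 1) := fun l' h => fst_min h
        set l := fst (fun l => 1 ≤ l ∧ l ≤ i ∧ x l % 2 = 1) with hl
        obtain ⟨k, hk⟩ : ∃ k, l = k + 1 := ⟨l - 1, by omega⟩
        rw [hk] at hl1 hl2 hl3 hlm
        clear_value l
        have hxy : x - sg (k + 1) 1 + sg (k + 1) 1 = x := sub_single_add (by omega)
        set y := x - sg (k + 1) 1 with hy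
        have hyk : y (k + 1) % 2 = 0 := by
          have := congrFun hxy (k + 1)
          simp only [Pi.add_apply, Pi.single_eq_same] at this
          omega
        have hyl : ∀ l', l' ≠ k + 1 → y l' = x l' := by
          intro l' hne
          have := congrFun hxy l'
          simp only [Pi.add_apply, Pi.single_eq_of_ne hne, add_zero] at this
          exact this
        have hysm : ∀ l', 1 ≤ l' → l' ≤ k → y l' % 2 = 0 := by
          intro l' h1 h2
          rw [hyl l' (by omega)]
          by_contra hcon
          exact hlm l' (by omega) ⟨h1, by omega, by omega⟩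
        have hyi : y (i + 1) % 2 = 0 := by rw [hyl _ (by omega)]; exact hev
        -- parity weights
        have w0 : Wp r (y + sg k 1) = Wp r y + k := by
          by_cases hk0 : k = 0
          · subst hk0
            rcases Nat.mod_two_eq_zero_or_one (y 0) with h | h
            · rw [Wp_add_single_even (by omega) h]
            · have := Wp_add_single_odd (r := r) (by omega) h
              omega
          · exact Wp_add_single_even (by omega) (hysm k (by omega) (le_refl _))
        have w1 : Wp r x = Wp r y + (k + 1) := by
          rw [← hxy]; exact Wp_add_single_even (by omega) hyk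
        by_cases hki : k + 1 = i
        · -- adjacent case
          subst hki
          have cm := hCM k (k + 1) y (by omega) hi (by omega)
          rw [hxy] at cm
          -- B k (y + e_{k+2}) * B (k+1) (y + e_k) = B (k+1) x * B k (y + e_{k+1})
          have t1 := hT k (y + sg (k + 1 + 1) 1) (by omega) (by
            intro l' h1 h2
            have hne : l' ≠ k + 1 + 1 := by omega
            simp only [Pi.add_apply, Pi.single_eq_of_ne hne, add_zero]
            by_cases h3 : l' = k + 1
            · rw [h3]; exact hyk
            · exact hysm l' h1 (by omega))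
          have v1 : Wp r (x + sg (k + 1 + 1) 1) = Wp r y + (k + 1) + (k + 1 + 1) := by
            rw [Wp_add_single_even (by omega) hev, w1]
          have v2 : Wp r (y + sg k 1 + sg (k + 1 + 1) 1) = Wp r y + k + (k + 1 + 1) := by
            rw [Wp_add_single_even (by omega) (by
              have hne : k + 1 + 1 ≠ k := by omega
              simp only [Pi.add_apply, Pi.single_eq_of_ne hne, add_zero]; exact hyi), w0]
          have v3 : Wp r (y + sg k 1 + sg (k + 1) 1) = Wp r y + k + (k + 1) := by
            rw [Wp_add_single_even (by omega) (by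
              have hne : k + 1 ≠ k := by omega
              simp only [Pi.add_apply, Pi.single_eq_of_ne hne, add_zero]; exact hyk), w0]
          have v4 : Wp r (y + sg (k + 1) 1 + sg (k + 1) 1) = Wp r y := by
            apply Wp_congr
            intro l' _
            by_cases h : l' = k + 1
            · subst h; simp; omega
            · simp [Pi.single_eq_of_ne h]
          have hmm : m = Wp r y + (k + 1) + (k + 1 + 1) := by
            rw [← hm, v1, ← hxy, v4]; omega
          have i1 := ih _ (by rw [hmm, v2, v3]; omega) (k + 1) (y + sg k 1) hi rfl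
          have i2 := ih (max (Wp r (y + sg (k + 1) 1 + sg (k + 1) 1))
            (Wp r (y + sg (k + 1) 1 + sg k 1))) (by
              rw [add_right_comm y (sg (k + 1) 1) (sg k 1), v3, v4, hmm]; omega)
            k (y + sg (k + 1) 1) (by omega) rfl
          -- assemble
          rw [hxy] at i2
          have c1 : y + sg k 1 + sg (k + 1 + 1) 1 = y + sg (k + 1 + 1) 1 + sg k 1 :=
            add_right_comm _ _ _
          have c2 : y + sg k 1 + sg (k + 1) 1 = x + sg k 1 := by
            rw [add_right_comm, hxy]
          have c3 : y + sg (k + 1 + 1) 1 + sg (k + 1) 1 = x + sg (k + 1 + 1) 1 := by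
            rw [add_right_comm, hxy]
          rw [c1, c2] at i1
          rw [c3] at t1
          rw [← t1, ← i1, ← mul_assoc, cm, mul_assoc, i2]
        · -- disjoint case
          have cm := hCM i k y hi (by omega) (by omega)
          rw [hxy] at cm
          -- B i x * B k (y + e_i) = B k (y + e_{i+1}) * B i (y + e_k)
          have t1 := hT k (y + sg (i + 1) 1) (by omega) (by
            intro l' h1 h2
            have hne : l' ≠ i + 1 := by omega
            simp only [Pi.add_apply, Pi.single_eq_of_ne hne, add_zero]
            by_cases h3 : l' = k + 1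
            · rw [h3]; exact hyk
            · exact hysm l' h1 (by omega))
          have t2 := hT k (y + sg i 1) (by omega) (by
            intro l' h1 h2
            have hne : l' ≠ i := by omega
            simp only [Pi.add_apply, Pi.single_eq_of_ne hne, add_zero]
            by_cases h3 : l' = k + 1
            · rw [h3]; exact hyk
            · exact hysm l' h1 (by omega))
          have u1 : Wp r (y + sg k 1 + sg (i + 1) 1) < Wp r (x + sg (i + 1) 1) := by
            rw [Wp_add_single_even (by omega) (by
              have hne : i + 1 ≠ k := by omega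
              simp only [Pi.add_apply, Pi.single_eq_of_ne hne, add_zero]; exact hyi),
              Wp_add_single_even (by omega) hev, w0, w1]
            omega
          have u2 : Wp r (y + sg k 1 + sg i 1) < Wp r (x + sg i 1) := by
            have hne : i ≠ k := by omega
            have hyi' : (y + sg k 1) i = x i := by
              simp only [Pi.add_apply, Pi.single_eq_of_ne hne, add_zero]
              exact hyl i (by omega)
            rcases Nat.mod_two_eq_zero_or_one (x i) with h | h
            · rw [Wp_add_single_even (by omega) h, Wp_add_single_even (by omega) (by rw [hyi']; exact h),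
                w0, w1]
              omega
            · have a1 := Wp_add_single_odd (r := r) (g := x) (l := i) (by omega) h
              have a2 := Wp_add_single_odd (r := r) (g := y + sg k 1) (l := i) (by omega)
                (by rw [hyi']; exact h)
              omega
          have i1 := ih _ (by rw [← hm]; omega) i (y + sg k 1) hi rfl
          have c1 : y + sg k 1 + sg (i + 1) 1 = y + sg (i + 1) 1 + sg k 1 := add_right_comm _ _ _
          have c2 : y + sg k 1 + sg i 1 = y + sg i 1 + sg k 1 := add_right_comm _ _ _
          have c3 : y + sg (i + 1) 1 + sg (k + 1) 1 = x + sg (i + 1) 1 := by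
            rw [add_right_comm, hxy]
          have c4 : y + sg i 1 + sg (k + 1) 1 = x + sg i 1 := by
            rw [add_right_comm, hxy]
          rw [c1, c2] at i1
          rw [c3] at t1
          rw [c4] at t2
          rw [← t1, ← i1, ← t2, ← mul_assoc, cm, mul_assoc]
      · apply hT i x hi
        intro l h1 h2
        by_cases h3 : l = i + 1
        · rw [h3]; exact hev
        · by_contra hcon
          exact hex ⟨l, h1, by omega, by omega⟩
    intro i x hi hm
    rcases Nat.mod_two_eq_zero_or_one (x (i + 1)) with hev | hodd
    · exact even_case i x hi hev hm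
    · have hxy : x - sg (i + 1) 1 + sg (i + 1) 1 = x := sub_single_add (by omega)
      set y := x - sg (i + 1) 1 with hy
      have hyi : y (i + 1) % 2 = 0 := by
        have := congrFun hxy (i + 1)
        simp only [Pi.add_apply, Pi.single_eq_same] at this
        omega
      have e := even_case i (y + sg i 1) hi (by
        have hne : i + 1 ≠ i := by omega
        simp only [Pi.add_apply, Pi.single_eq_of_ne hne, add_zero]; exact hyi) (by
        have a1 : Wp r (y + sg i 1 + sg i 1) = Wp r (x + sg (i + 1) 1) := by
          apply Wp_congr
          intro l' _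
          have := congrFun hxy l'
          simp only [Pi.add_apply] at this ⊢
          by_cases h : l' = i
          · subst h
            have hne : l' ≠ l' + 1 := by omega
            simp only [Pi.single_eq_same, Pi.single_eq_of_ne hne] at this ⊢; omega
          · by_cases h2 : l' = i + 1
            · subst h2
              have hne : i + 1 ≠ i := by omega
              simp only [Pi.single_eq_same, Pi.single_eq_of_ne hne] at this ⊢; omega
            · simp only [Pi.single_eq_of_ne h, Pi.single_eq_of_ne h2] at this ⊢; omega
        have a2 : y + sg i 1 + sg (i + 1) 1 = x + sg i 1 := by rw [add_right_comm, hxy]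
        rw [a1, a2, ← hm, max_comm])
      have v := hiv i y hi
      rw [hxy] at v
      have a2 : y + sg i 1 + sg (i + 1) 1 = x + sg i 1 := by rw [add_right_comm, hxy]
      have a3 : y + sg i 1 + sg i 1 = y + sg i 2 := by rw [add_assoc, ← Pi.single_add]
      have a4 : y + sg (i + 1) 1 + sg (i + 1) 1 = y + sg (i + 1) 2 := by
        rw [add_assoc, ← Pi.single_add]
      rw [a2, a3] at e
      rw [← e, ← mul_assoc, v, one_mul, ← hK y i hi, ← a4, hxy]

end parity

end Pool.Agent.H213PG
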