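import Pool.Agent.helper213_PG.Planar
import Pool.Agent.helper213_PG.Abs3

set_option autoImplicit false

/-!
# Definitions for the maximal subgroups of `PG(P(M_n))` and `PG(P(B_n))` (frozen, do not change)
-/

namespace Pool.Agent.H213PG

open PA Pj

section basic

variable {n : ℕ}

open Classical in
/-- through points -/
noncomputable def TT (p : Pj n) : Finset (Fin n) := Finset.univ.filter p.t

theorem mem_TT {p : Pj n} {x : Fin n} : x ∈ TT p ↔ p.t x := by
  classical
  simp [TT]

/-- projections of the Motzkin monoid -/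
abbrev MP (n : ℕ) : Type := {p : Pj n // Planar p}

/-- projections of the Brauer monoid -/
abbrev BP (n : ℕ) : Type := {p : Pj n // Brauer p}

noncomputable instance : PA (MP n) where
  th p s := ⟨cj p.1 s.1, planar_cj p.2 s.2⟩
  th_self p := Subtype.ext (PA.th_self p.1)
  th_idem p s := Subtype.ext (PA.th_idem p.1 s.1)
  th_sw p q := Subtype.ext (PA.th_sw p.1 q.1)
  th_th x p q := Subtype.ext (PA.th_th x.1 p.1 q.1)
  th_p5 x p q := Subtype.ext (PA.th_p5 x.1 p.1 q.1)

noncomputable instance : PA (BP n) where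
  th p s := ⟨cj p.1 s.1, brauer_cj p.2 s.2⟩
  th_self p := Subtype.ext (PA.th_self p.1)
  th_idem p s := Subtype.ext (PA.th_idem p.1 s.1)
  th_sw p q := Subtype.ext (PA.th_sw p.1 q.1)
  th_th x p q := Subtype.ext (PA.th_th x.1 p.1 q.1)
  th_p5 x p q := Subtype.ext (PA.th_p5 x.1 p.1 q.1)

theorem mp_th (p s : MP n) : (th p s).1 = th p.1 s.1 := rfl
theorem bp_th (p s : BP n) : (th p s).1 = th p.1 s.1 := rfl

theorem mp_fr {p q : MP n} : Fr p q ↔ Fr p.1 q.1 :=
  ⟨fun h => ⟨congrArg Subtype.val h.1, congrArg Subtype.val h.2⟩,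
    fun h => ⟨Subtype.ext h.1, Subtype.ext h.2⟩⟩

theorem bp_fr {p q : BP n} : Fr p q ↔ Fr p.1 q.1 :=
  ⟨fun h => ⟨congrArg Subtype.val h.1, congrArg Subtype.val h.2⟩,
    fun h => ⟨Subtype.ext h.1, Subtype.ext h.2⟩⟩

/-- no arcs; the points of `T` are through, the others isolated -/
def pt (T : Finset (Fin n)) : Pj n where
  a x := x
  t x := x ∈ T
  inv _ := rfl
  ht _ _ := rfl

/-- the points of `X` isolated, the others through -/
def eps (X : Finset (Fin n)) : Pj n where
  a x := x
  t x := x ∉ X
  inv _ := rfl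
  ht _ _ := rfl

/-- `pt T` with the arc `{x, y}` added -/
def pa (T : Finset (Fin n)) (x y : Fin n) : Pj n where
  a := Equiv.swap x y
  t z := z ∈ T ∧ z ≠ x ∧ z ≠ y
  inv z := Equiv.swap_apply_self x y z
  ht z hz := Equiv.swap_apply_of_ne_of_ne hz.2.1 hz.2.2

/-- the arc `{x, y}`, the points strictly between `x` and `y` isolated, the others through
(meant for `x < y`) -/
def arc (x y : Fin n) : Pj n where
  a := Equiv.swap x y
  t z := z < x ∧ z < y ∨ x < z ∧ y < z
  inv z := Equiv.swap_apply_self x y z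
  ht z hz := Equiv.swap_apply_of_ne_of_ne (by rcases hz with h | h <;> omega)
    (by rcases hz with h | h <;> omega)

/-- the hook `{x, y}`, all other points through (the identity if `x = y`) -/
def hook (x y : Fin n) : Pj n where
  a := Equiv.swap x y
  t z := Equiv.swap x y z = z
  inv z := Equiv.swap_apply_self x y z
  ht _ hz := hz

theorem planar_pt (T : Finset (Fin n)) : Planar (pt T) := by
  intro x y h1 h2
  exact absurd (h1.trans h2) (lt_irrefl _)

theorem planar_eps (X : Finset (Fin n)) : Planar (eps X) := by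
  intro x y h1 h2
  exact absurd (h1.trans h2) (lt_irrefl _)

theorem brauer_hook (x y : Fin n) : Brauer (hook x y) := fun _ h => h

/-- closure of `E` under `s, t ↦ s t s` -/
inductive Gen {P : Type} [PA P] (E : P → Prop) : P → Prop
  | base {s : P} (h : E s) : Gen E s
  | step {s t : P} (hs : Gen E s) (ht : Gen E t) : Gen E (th t s)

/-- the elementary projections of the Motzkin monoid -/
def EM (e : MP n) : Prop :=
  e.1 = eps ∅ ∨ (∃ x, e.1 = eps {x}) ∨ ∃ x y, x < y ∧ e.1 = arc x y

/-- the elementary projections of the Brauer monoid -/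
def EB (e : BP n) : Prop := e.1 = eps ∅ ∨ ∃ x y, x ≠ y ∧ e.1 = hook x y

/-- move the through point `t` to `l` -/
def mv (T : Finset (Fin n)) (t l : Fin n) : Finset (Fin n) := insert l (T.erase t)

/-- the through point `t` can be moved to the right to `l` -/
def free (T : Finset (Fin n)) (t l : Fin n) : Prop := t ∈ T ∧ t < l ∧ ∀ x, t < x → x ≤ l → x ∉ T

/-- right moves: `t` through in `p`, `l` through in `q`, arcs `{j, l}` of `p`, `{t, j}` of `q` -/
structure Rt (p q : Pj n) (t j l : Fin n) : Prop where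
  tj : t < j
  jl : j < l
  fr : free (TT p) t l
  mv : TT q = mv (TT p) t l
  pj : p.a j = l
  qt : q.a t = j

/-- all pairs of consecutive points outside `T` are in the block of the move -/
def frozen (T : Finset (Fin n)) (t l : Fin n) : Prop :=
  ∀ x y : Fin n, x.1 + 1 = y.1 → x ∉ T → y ∉ T → t < x ∧ x ≤ l

/-- labels -/
abbrev GT (n : ℕ) : Type := Finset (Fin n) × Finset (Fin n) × Fin 3

open Classical in
/-- label value of a move with given positions -/
noncomputable def labv (T : Finset (Fin n)) (t j l : Fin n) : FreeGroup (GT n) :=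
  if frozen T t l ∧ l.1 = t.1 + 3 ∧ j.1 = t.1 + 1 then FreeGroup.of (T, mv T t l, 0)
  else if frozen T t l ∧ l.1 = t.1 + 3 ∧ j.1 = t.1 + 2 then FreeGroup.of (T, mv T t l, 1)
  else if frozen T t l ∧ l.1 = t.1 + 4 ∧ j.1 = t.1 + 2 then FreeGroup.of (T, mv T t l, 2)
  else 1

open Classical in
/-- label of a pair -/
noncomputable def Lb (p q : Pj n) : FreeGroup (GT n) :=
  if h : ∃ t l, free (TT p) t l ∧ TT q = mv (TT p) t l then
    labv (TT p) h.choose (q.a h.choose) h.choose_spec.choose
  else 1

/-- **the lower bound cocycle of the Motzkin monoids** -/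
noncomputable def cM (p q : MP n) : FreeGroup (GT n) := Lb p.1 q.1 * (Lb q.1 p.1)⁻¹

/-- two consecutive points which are not through -/
def HasGap (p : Pj n) : Prop := ∃ x y : Fin n, x.1 + 1 = y.1 ∧ ¬ p.t x ∧ ¬ p.t y

end basic

section bins

/-- position of the `i`-th through point (bins `g 0, …, g r`) -/
def pos (g : ℕ → ℕ) (i : ℕ) : ℕ := i + ∑ l ∈ Finset.range (i + 1), g l

/-- the through set of a state -/
def TG (n r : ℕ) (g : ℕ → ℕ) : Finset (Fin n) :=
  Finset.univ.filter (fun x => ∃ i ∈ Finset.range r, x.1 = pos g i)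

/-- the bins of a through set -/
def bn {n : ℕ} (T : Finset (Fin n)) (l : ℕ) : ℕ :=
  (Finset.univ.filter (fun x => x ∉ T ∧ (T.filter (fun y => y < x)).card = l)).card

end bins

section gen

/-- generators of the maximal subgroups: `(i, S, 0)` alpha (not in the tree), `(i, S, 1)` beta,
`(i, S, 2)` gamma -/
abbrev GenM (r k : ℕ) : Type := {x : Fin r × Finset (Fin (r + 1)) × Fin 3 //
  (x.2.2 = 0 ∧ x.2.1.card + 3 = k ∧ ∃ l ∈ x.2.1, 1 ≤ l.1 ∧ l.1 ≤ x.1.1 + 1) ∨
  (x.2.2 = 1 ∧ x.2.1.card + 3 = k) ∨ (x.2.2 = 2 ∧ x.2.1.card + 4 = k)}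

/-- rank of the maximal subgroups of the Motzkin case -/
def mrank (r k : ℕ) : ℕ :=
  if k ≤ 2 then 0 else if k = 3 then r else
    r * (r + 2).choose (k - 3) + r * (r + 1).choose (k - 3) - (r + 1).choose (k - 2)

end gen

section labelled

variable {V : Type} [DecidableEq V]

/-- matchings of `V`; stars are not matched with each other -/
structure Vm (star : V → Prop) (a : V → V) : Prop where
  inv : ∀ x, a (a x) = x
  ne : ∀ x, a x ≠ x
  st : ∀ x, star x → ¬ star (a x)

/-- the hook move: `x – y`, `a x – a y` -/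
def hk (a : V → V) (x y : V) : V → V := fun z =>
  if z = x then y else if z = y then x else if z = a x then a y else if z = a y then a x else a z

/-- admissible nontrivial hook moves: at most one star among `x, y, a x, a y` -/
structure ok (star : V → Prop) (a : V → V) (x y : V) : Prop where
  ne : x ≠ y
  ne' : a x ≠ y
  s1 : ¬ (star x ∧ star y)
  s2 : ¬ (star x ∧ star (a y))
  s3 : ¬ (star (a x) ∧ star y)
  s4 : ¬ (star (a x) ∧ star (a y))

/-- local systems on labelled matchings, first form -/
structure LS0 (star : V → Prop) {H : Type} [Group H] (U : (V → V) → (V → V) → H) : Prop where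
  self : ∀ a, Vm star a → U a a = 1
  inv : ∀ a x y, Vm star a → ok star a x y → U a (hk a x y) * U (hk a x y) a = 1
  sq : ∀ a x y z w, Vm star a → ok star a x y → ok star a z w →
    z ≠ x → z ≠ y → z ≠ a x → z ≠ a y → w ≠ x → w ≠ y → w ≠ a x → w ≠ a y →
    U a (hk a x y) * U (hk a x y) (hk (hk a x y) z w) =
      U a (hk a z w) * U (hk a z w) (hk (hk a x y) z w)
  hex : ∀ a v0 v1 v2 v3 v4 v5, Vm star a → [v0, v1, v2, v3, v4, v5].Nodup →
    a v0 = v1 → a v2 = v3 → a v4 = v5 →
    [v0, v1, v2, v3, v4, v5].Pairwise (fun x y => ¬ (star x ∧ star y)) →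
    U a (hk a v1 v2) * U (hk a v1 v2) (hk (hk a v1 v2) v3 v4) =
      U a (hk a v3 v4) * U (hk a v3 v4) (hk (hk a v1 v2) v3 v4)

/-- local systems on labelled matchings, second form: all squares and triangles -/
structure LS1 (star : V → Prop) {H : Type} [Group H] (U : (V → V) → (V → V) → H) : Prop where
  self : ∀ a, Vm star a → U a a = 1
  inv : ∀ a x y, Vm star a → ok star a x y → U a (hk a x y) * U (hk a x y) a = 1
  com : ∀ a x y z w, Vm star a → x ≠ z → x ≠ w → y ≠ z → y ≠ w → ok star a x y → ok star a z w →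
    ok star (hk a x y) z w → ok star (hk a z w) x y →
    U a (hk a x y) * U (hk a x y) (hk (hk a x y) z w) =
      U a (hk a z w) * U (hk a z w) (hk (hk a x y) z w)
  tri : ∀ a x y, Vm star a → ok star a x y →
    U a (hk a x y) * U (hk a x y) (hk a x (a y)) * U (hk a x (a y)) a = 1

end labelled

end Pool.Agent.H213PG
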