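import Mathlib.Algebra.Free
import Mathlib.GroupTheory.Congruence.Basic
import Mathlib.Algebra.Group.WithOne.Basic
import Mathlib.GroupTheory.FreeGroup.Basic
import Mathlib.GroupTheory.Perm.Basic
import Mathlib.Data.ZMod.Basic
import Mathlib.Data.Set.Card

set_option autoImplicit false

/-!
# The definitions of the final statement (frozen, do not change)
-/

namespace Pool.Agent.H213PG.Fin

/-- A relation on the `2n` points `[n] ∪ [n]'`: the point `(false, i)` is `i` (upper row) and
`(true, i)` is `i'` (lower row). -/
abbrev Rl (n : ℕ) : Type := Bool × Fin n → Bool × Fin n → Prop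

/-- The points of `α` placed in rows `0` and `1` of the three row picture. -/
def upperPt {n : ℕ} (p : Bool × Fin n) : Fin 3 × Fin n := (if p.1 = true then 1 else 0, p.2)

/-- The points of `β` placed in rows `1` and `2` of the three row picture. -/
def lowerPt {n : ℕ} (p : Bool × Fin n) : Fin 3 × Fin n := (if p.1 = true then 2 else 1, p.2)

/-- The points of the product placed in the outer rows `0` and `2`. -/
def outerPt {n : ℕ} (p : Bool × Fin n) : Fin 3 × Fin n := (if p.1 = true then 2 else 0, p.2)

/-- Adjacency in the combined three row graph of `α` (on rows `0,1`) and `β` (on rows `1,2`). -/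
def Adj {n : ℕ} (α β : Rl n) (x y : Fin 3 × Fin n) : Prop :=
  (∃ p q, α p q ∧ x = upperPt p ∧ y = upperPt q) ∨ (∃ p q, β p q ∧ x = lowerPt p ∧ y = lowerPt q)

/-- The product in the partition monoid: two outer points are related when they are connected in
the combined graph. -/
def pmul {n : ℕ} (α β : Rl n) : Rl n := fun p q => Relation.EqvGen (Adj α β) (outerPt p) (outerPt q)

/-- The involution: the two rows are exchanged. -/
def pstar {n : ℕ} (α : Rl n) : Rl n := fun p q => α (!p.1, p.2) (!q.1, q.2)

/-- The rank: the number of blocks meeting both rows. -/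
noncomputable def rank {n : ℕ} (α : Rl n) : ℕ :=
  Set.ncard {B : Set (Bool × Fin n) | (∃ p, B = {q | α p q}) ∧ (∃ i, (false, i) ∈ B) ∧
    ∃ i, (true, i) ∈ B}

/-- The Brauer monoid `B_n`: the set partitions all of whose blocks have size two. -/
def IsBrauer {n : ℕ} (α : Rl n) : Prop :=
  Equivalence α ∧ ∀ p, Set.ncard {q | α p q} = 2

/-- The position of a point on the boundary of the rectangle, walking from left to right along the
upper row and then from right to left along the lower row. -/
def bd {n : ℕ} (p : Bool × Fin n) : ℕ := if p.1 = true then 2 * n - 1 - p.2.1 else p.2.1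

/-- The Motzkin monoid `M_n`: the set partitions whose blocks have size at most two and do not cross
(there are no points `p, r, q, s` in this order on the boundary of the rectangle such that `p, q` are
in one block and `r, s` are in one block). -/
def IsMotzkin {n : ℕ} (α : Rl n) : Prop :=
  Equivalence α ∧ (∀ p, Set.ncard {q | α p q} ≤ 2) ∧
    ∀ p r q s, α p q → α r s → ¬ (bd p < bd r ∧ bd r < bd q ∧ bd q < bd s)

/-- The projections of the monoid of all `α` with `S α`. -/
abbrev Proj {n : ℕ} (S : Rl n → Prop) : Type := {α : Rl n // S α ∧ pmul α α = α ∧ pstar α = α}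

/-- The defining relations of `PG(P(S))`: `x_p x_p = x_p`, `(x_p x_q)(x_p x_q) = x_p x_q` and
`x_p x_q x_p = x_{pqp}`. -/
inductive DefRel {n : ℕ} (S : Rl n → Prop) : FreeSemigroup (Proj S) → FreeSemigroup (Proj S) → Prop
  | idem (p : Proj S) : DefRel S (FreeSemigroup.of p * FreeSemigroup.of p) (FreeSemigroup.of p)
  | sq (p q : Proj S) : DefRel S ((FreeSemigroup.of p * FreeSemigroup.of q) *
      (FreeSemigroup.of p * FreeSemigroup.of q)) (FreeSemigroup.of p * FreeSemigroup.of q)
  | tri (p q r : Proj S) (h : pmul (pmul p.1 q.1) p.1 = r.1) :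
      DefRel S (FreeSemigroup.of p * FreeSemigroup.of q * FreeSemigroup.of p) (FreeSemigroup.of r)

/-- The free projection-generated regular `*`-semigroup `PG(P(S))`. -/
def PGS {n : ℕ} (S : Rl n → Prop) : Type := (conGen (DefRel S)).Quotient

instance {n : ℕ} (S : Rl n → Prop) : Semigroup (PGS S) :=
  inferInstanceAs (Semigroup (conGen (DefRel S)).Quotient)

/-- The generator `x_p`. -/
def gen {n : ℕ} {S : Rl n → Prop} (p : Proj S) : PGS S :=
  Quotient.mk (conGen (DefRel S)).toSetoid (FreeSemigroup.of p)

/-- Green's relation `H` of a semigroup `T`: `a` and `b` generate the same right ideal and the same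
left ideal (in `T` with an identity adjoined). -/
def GreenH {T : Type} [Semigroup T] (a b : T) : Prop :=
  (∃ u : WithOne T, (a : WithOne T) * u = b) ∧ (∃ u : WithOne T, (b : WithOne T) * u = a) ∧
  (∃ u : WithOne T, u * (a : WithOne T) = b) ∧ (∃ u : WithOne T, u * (b : WithOne T) = a)

/-- The `H`-class of `x_p` in `PG(P(S))` is a group isomorphic to `G`: there is an injective
homomorphism of semigroups from `G` to `PG(P(S))` whose image is the `H`-class of `x_p`. -/
def MaxSubIso {n : ℕ} {S : Rl n → Prop} (p : Proj S) (G : Type) [Group G] : Prop :=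
  ∃ f : G →ₙ* PGS S, Function.Injective f ∧ ∀ a, (∃ g, f g = a) ↔ GreenH a (gen p)

/-- Two consecutive points of the upper row, neither in a block meeting both rows. -/
def Gap {n : ℕ} (α : Rl n) : Prop :=
  ∃ i j : Fin n, i.1 + 1 = j.1 ∧ (∀ k, ¬ α (false, i) (true, k)) ∧ ∀ k, ¬ α (false, j) (true, k)

/-- The rank of the free group in the Motzkin case, for projections of rank `r` with `k = n - r`. -/
def motzkinRank (r k : ℕ) : ℕ :=
  if k ≤ 2 then 0 else if k = 3 then r else
    r * (r + 2).choose (k - 3) + r * (r + 1).choose (k - 3) - (r + 1).choose (k - 2)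

end Pool.Agent.H213PG.Fin
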