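import Pool.Agent.helper213_PG.Defs
import Pool.Agent.helper213_PG.FDefs

set_option autoImplicit false

/-!
# The abstract part of the bridge
-/

namespace Pool.Agent.H213PG

open PA

section f1aGreen

variable {T : Type} [Semigroup T]

/-- the elements of the maximal subgroup at an idempotent are the elements of its `H`-class -/
theorem f1a_green {e : T} (he : e * e = e) (a : T) :
    (∃ m : MaxSub e, m.val = a) ↔ Fin.GreenH a e := by
  constructor
  · rintro ⟨m, rfl⟩
    obtain ⟨b, _, _, h3, h4⟩ := m.hinv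
    refine ⟨⟨(b : WithOne T), ?_⟩, ⟨(m.val : WithOne T), ?_⟩, ⟨(b : WithOne T), ?_⟩,
      ⟨(m.val : WithOne T), ?_⟩⟩
    · rw [← WithOne.coe_mul, h3]
    · rw [← WithOne.coe_mul, m.hl]
    · rw [← WithOne.coe_mul, h4]
    · rw [← WithOne.coe_mul, m.hr]
  · rintro ⟨⟨u1, h1⟩, ⟨u2, h2⟩, ⟨u3, h3⟩, ⟨u4, h4⟩⟩
    have hea : e * a = a := by
      apply WithOne.coe_injective
      rw [WithOne.coe_mul, ← h2, ← mul_assoc, ← WithOne.coe_mul, he]
    have hae : a * e = a := by
      apply WithOne.coe_injective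
      rw [WithOne.coe_mul, ← h4, mul_assoc, ← WithOne.coe_mul, he]
    -- right inverse
    have hR : ∃ b, e * b = b ∧ b * e = b ∧ a * b = e := by
      induction u1 using WithOne.recOneCoe with
      | one =>
        rw [mul_one] at h1
        have := WithOne.coe_injective h1
        subst this
        exact ⟨a, he, he, he⟩
      | coe t =>
        rw [← WithOne.coe_mul] at h1
        have h1' := WithOne.coe_injective h1
        refine ⟨e * t * e, ?_, ?_, ?_⟩
        · rw [← mul_assoc, ← mul_assoc, he]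
        · rw [mul_assoc, he]
        · rw [← mul_assoc, ← mul_assoc, hae, h1', he]
    have hL : ∃ b, e * b = b ∧ b * e = b ∧ b * a = e := by
      induction u3 using WithOne.recOneCoe with
      | one =>
        rw [one_mul] at h3
        have := WithOne.coe_injective h3
        subst this
        exact ⟨a, he, he, he⟩
      | coe t =>
        rw [← WithOne.coe_mul] at h3
        have h3' := WithOne.coe_injective h3
        refine ⟨e * t * e, ?_, ?_, ?_⟩
        · rw [← mul_assoc, ← mul_assoc, he]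
        · rw [mul_assoc, he]
        · rw [mul_assoc, hea, mul_assoc, h3', he]
    obtain ⟨b, b1, b2, b3⟩ := hR
    obtain ⟨c, c1, c2, c3⟩ := hL
    have hbc : b = c := by
      calc b = e * b := b1.symm
        _ = (c * a) * b := by rw [c3]
        _ = c * (a * b) := mul_assoc _ _ _
        _ = c := by rw [b3, c2]
    subst hbc
    exact ⟨⟨a, hea, hae, b, b1, b2, b3, c3⟩, rfl⟩

end f1aGreen

section f1aIso

variable {n : ℕ} {S : Fin.Rl n → Prop} {P : Type} [PA P]

theorem f1a_gen_idem (p : Fin.Proj S) : Fin.gen p * Fin.gen p = Fin.gen p :=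
  Quotient.sound (s := (conGen (Fin.DefRel S)).toSetoid) (ConGen.Rel.of _ _ (Fin.DefRel.idem p))

theorem f1a_gen_sq (p q : Fin.Proj S) :
    (Fin.gen p * Fin.gen q) * (Fin.gen p * Fin.gen q) = Fin.gen p * Fin.gen q :=
  Quotient.sound (s := (conGen (Fin.DefRel S)).toSetoid) (ConGen.Rel.of _ _ (Fin.DefRel.sq p q))

theorem f1a_gen_tri (p q r : Fin.Proj S) (h : Fin.pmul (Fin.pmul p.1 q.1) p.1 = r.1) :
    Fin.gen p * Fin.gen q * Fin.gen p = Fin.gen r :=
  Quotient.sound (s := (conGen (Fin.DefRel S)).toSetoid)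
    (ConGen.Rel.of _ _ (Fin.DefRel.tri p q r h))

/-- the lift of the bijection to words -/
def f1aTo (φ : Fin.Proj S ≃ P) : FreeSemigroup (Fin.Proj S) →ₙ* PG P :=
  FreeSemigroup.lift (fun p => xx (φ p))

theorem f1aTo_of (φ : Fin.Proj S ≃ P) (p : Fin.Proj S) :
    f1aTo φ (FreeSemigroup.of p) = xx (φ p) := rfl

/-- the lift of the inverse bijection to words -/
def f1aFr (φ : Fin.Proj S ≃ P) : FreeSemigroup P →ₙ* Fin.PGS S :=
  FreeSemigroup.lift (fun a => Fin.gen (φ.symm a))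

theorem f1aFr_of (φ : Fin.Proj S ≃ P) (a : P) :
    f1aFr φ (FreeSemigroup.of a) = Fin.gen (φ.symm a) := rfl

theorem f1aTo_ker (φ : Fin.Proj S ≃ P)
    (h : ∀ p q : Fin.Proj S,
      (φ.symm (th (φ p) (φ q))).1 = Fin.pmul (Fin.pmul q.1 p.1) q.1) :
    conGen (Fin.DefRel S) ≤ Con.ker (f1aTo φ) := by
  rw [Con.conGen_le]
  intro x y hxy
  rw [Con.ker_rel]
  cases hxy with
  | idem p => rw [map_mul, f1aTo_of, xx_idem]
  | sq p q => rw [map_mul, map_mul, f1aTo_of, f1aTo_of, xx_sq]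
  | tri p q r hr =>
    rw [map_mul, map_mul, f1aTo_of, f1aTo_of, f1aTo_of, xx_tri]
    congr 1
    rw [← h q p] at hr
    have := Subtype.ext hr
    rw [← this, Equiv.apply_symm_apply]

theorem f1aFr_ker (φ : Fin.Proj S ≃ P)
    (h : ∀ p q : Fin.Proj S,
      (φ.symm (th (φ p) (φ q))).1 = Fin.pmul (Fin.pmul q.1 p.1) q.1) :
    conGen (PGRel P) ≤ Con.ker (f1aFr φ) := by
  rw [Con.conGen_le]
  intro x y hxy
  rw [Con.ker_rel]
  cases hxy with
  | idem p => rw [map_mul, f1aFr_of, f1a_gen_idem]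
  | sq p q => rw [map_mul, map_mul, f1aFr_of, f1aFr_of, f1a_gen_sq]
  | tri p q =>
    rw [map_mul, map_mul, f1aFr_of, f1aFr_of, f1aFr_of]
    apply f1a_gen_tri
    have := h (φ.symm q) (φ.symm p)
    rw [Equiv.apply_symm_apply, Equiv.apply_symm_apply] at this
    exact this.symm

/-- from the concrete to the abstract presentation -/
def f1aTo' (φ : Fin.Proj S ≃ P)
    (h : ∀ p q : Fin.Proj S,
      (φ.symm (th (φ p) (φ q))).1 = Fin.pmul (Fin.pmul q.1 p.1) q.1) : Fin.PGS S →ₙ* PG P where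
  toFun := fun x => Quotient.lift (s := (conGen (Fin.DefRel S)).toSetoid) (fun w => f1aTo φ w)
    (fun _ _ hh => f1aTo_ker φ h hh) x
  map_mul' := by
    intro x y
    induction x using Quotient.inductionOn
    induction y using Quotient.inductionOn
    exact map_mul (f1aTo φ) _ _

/-- from the abstract to the concrete presentation -/
def f1aFr' (φ : Fin.Proj S ≃ P)
    (h : ∀ p q : Fin.Proj S,
      (φ.symm (th (φ p) (φ q))).1 = Fin.pmul (Fin.pmul q.1 p.1) q.1) : PG P →ₙ* Fin.PGS S where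
  toFun := fun x => Quotient.lift (s := (conGen (PGRel P)).toSetoid) (fun w => f1aFr φ w)
    (fun _ _ hh => f1aFr_ker φ h hh) x
  map_mul' := by
    intro x y
    induction x using Quotient.inductionOn
    induction y using Quotient.inductionOn
    exact map_mul (f1aFr φ) _ _

theorem f1aTo'_gen (φ : Fin.Proj S ≃ P)
    (h : ∀ p q : Fin.Proj S,
      (φ.symm (th (φ p) (φ q))).1 = Fin.pmul (Fin.pmul q.1 p.1) q.1) (p : Fin.Proj S) :
    f1aTo' φ h (Fin.gen p) = xx (φ p) := rfl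

theorem f1aFr'_xx (φ : Fin.Proj S ≃ P)
    (h : ∀ p q : Fin.Proj S,
      (φ.symm (th (φ p) (φ q))).1 = Fin.pmul (Fin.pmul q.1 p.1) q.1) (a : P) :
    f1aFr' φ h (xx a) = Fin.gen (φ.symm a) := rfl

/-- class of a word -/
def f1aCl (w : FreeSemigroup (Fin.Proj S)) : Fin.PGS S :=
  Quotient.mk (conGen (Fin.DefRel S)).toSetoid w

theorem f1aCl_surj (x : Fin.PGS S) : ∃ w, f1aCl w = x := Quotient.exists_rep x

theorem f1aCl_of (p : Fin.Proj S) : f1aCl (FreeSemigroup.of p) = Fin.gen p := rfl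

theorem f1aCl_mul (v w : FreeSemigroup (Fin.Proj S)) : f1aCl (v * w) = f1aCl v * f1aCl w := rfl

theorem f1a_fr_to (φ : Fin.Proj S ≃ P)
    (h : ∀ p q : Fin.Proj S,
      (φ.symm (th (φ p) (φ q))).1 = Fin.pmul (Fin.pmul q.1 p.1) q.1) (x : Fin.PGS S) :
    f1aFr' φ h (f1aTo' φ h x) = x := by
  obtain ⟨w, rfl⟩ := f1aCl_surj x
  induction w using FreeSemigroup.recOnMul with
  | ih1 p => rw [f1aCl_of, f1aTo'_gen, f1aFr'_xx, Equiv.symm_apply_apply]
  | ih2 p w ih1 ih2 => rw [f1aCl_mul, map_mul, map_mul, ih1, ih2]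

theorem f1a_to_fr (φ : Fin.Proj S ≃ P)
    (h : ∀ p q : Fin.Proj S,
      (φ.symm (th (φ p) (φ q))).1 = Fin.pmul (Fin.pmul q.1 p.1) q.1) (x : PG P) :
    f1aTo' φ h (f1aFr' φ h x) = x := by
  obtain ⟨w, rfl⟩ := pcl_surj x
  induction w using FreeSemigroup.recOnMul with
  | ih1 p => rw [pcl_of, f1aFr'_xx, f1aTo'_gen, Equiv.apply_symm_apply]
  | ih2 p w ih1 ih2 => rw [pcl_mul, map_mul, map_mul, ih1, ih2]

/-- images of maximal subgroups -/
theorem f1a_map {T T' : Type} [Semigroup T] [Semigroup T'] (f : T →ₙ* T') {e : T} {x : T}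
    (h : ∃ m : MaxSub e, m.val = x) : ∃ m : MaxSub (f e), m.val = f x := by
  obtain ⟨m, rfl⟩ := h
  obtain ⟨b, h1, h2, h3, h4⟩ := m.hinv
  exact ⟨⟨f m.val, by rw [← map_mul, m.hl], by rw [← map_mul, m.hr], f b,
    by rw [← map_mul, h1], by rw [← map_mul, h2], by rw [← map_mul, h3],
    by rw [← map_mul, h4]⟩, rfl⟩

end f1aIso

/-- maximal subgroups do not depend on the presentation: `th (φ p) (φ q)` corresponds to `q p q` -/
theorem bridge_abs {n : ℕ} {S : Fin.Rl n → Prop} {P : Type} [PA P] (φ : Fin.Proj S ≃ P)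
    (h : ∀ p q : Fin.Proj S,
      (φ.symm (th (φ p) (φ q))).1 = Fin.pmul (Fin.pmul q.1 p.1) q.1)
    (p : Fin.Proj S) (G : Type) [Group G] (hG : Nonempty (MaxSub (xx (φ p)) ≃* G)) :
    Fin.MaxSubIso p G := by
  obtain ⟨ψ⟩ := hG
  let F : G →ₙ* Fin.PGS S :=
    { toFun := fun g => f1aFr' φ h (ψ.symm g).val
      map_mul' := by
        intro x y
        rw [map_mul, MaxSub.mul_val, map_mul] }
  have hF : ∀ g, F g = f1aFr' φ h (ψ.symm g).val := fun _ => rfl
  refine ⟨F, ?_, ?_⟩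
  · intro x y hxy
    rw [hF, hF] at hxy
    have := congrArg (f1aTo' φ h) hxy
    rw [f1a_to_fr, f1a_to_fr] at this
    exact ψ.symm.injective (MaxSub.ext this)
  · intro a
    rw [← f1a_green (f1a_gen_idem p)]
    constructor
    · rintro ⟨g, rfl⟩
      have h1 := f1a_map (f1aFr' φ h) ⟨ψ.symm g, rfl⟩
      rw [f1aFr'_xx, Equiv.symm_apply_apply] at h1
      exact h1
    · intro hm
      have h1 := f1a_map (f1aTo' φ h) hm
      rw [f1aTo'_gen] at h1
      obtain ⟨m, hm⟩ := h1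
      refine ⟨ψ m, ?_⟩
      rw [hF, MulEquiv.symm_apply_apply, hm, f1a_fr_to]

end Pool.Agent.H213PG
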