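import Pool.Agent.helper213_PG.Defs
import Pool.Agent.helper213_PG.FDefs
import Pool.Agent.helper213_PG.F1a

set_option autoImplicit false

/-!
# From the partition monoid to the abstract projection algebras
-/

namespace Pool.Agent.H213PG

open PA Pj
open Pool.Agent.H213 (PM)

variable {n : ℕ}

theorem f1_pmul_eq (α β : Fin.Rl n) : Fin.pmul α β = PM.mulr α β := by
  have h : Fin.Adj α β = PM.gen α β := by
    funext x y
    rfl
  funext p q
  unfold Fin.pmul PM.mulr
  rw [h]
  rfl

theorem f1_two {α : Fin.Rl n} (h2 : ∀ p, Set.ncard {q | α p q} ≤ 2) {p u v w : Bool × Fin n}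
    (hu : α p u) (hv : α p v) (hw : α p w) (h1 : u ≠ v) (h3 : u ≠ w) (h4 : v ≠ w) : False := by
  have hsub : ({u, v, w} : Set (Bool × Fin n)) ⊆ {q | α p q} := by
    intro x hx
    simp only [Set.mem_insert_iff, Set.mem_singleton_iff] at hx
    rcases hx with rfl | rfl | rfl
    · exact hu
    · exact hv
    · exact hw
  have h5 := Set.ncard_le_ncard hsub (Set.toFinite _)
  have h6 : ({u, v, w} : Set (Bool × Fin n)).ncard = 3 := by
    rw [Set.ncard_eq_three]
    exact ⟨u, v, w, h1, h3, h4, rfl⟩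
  have := h2 p
  omega

theorem f1_ex_uniq {α : Fin.Rl n} (he : Equivalence α) (h2 : ∀ p, Set.ncard {q | α p q} ≤ 2)
    {x y z : Fin n} (hy : y ≠ x ∧ α (false, x) (false, y)) (hz : z ≠ x ∧ α (false, x) (false, z)) :
    y = z := by
  by_contra h
  exact f1_two h2 (he.refl (false, x)) hy.2 hz.2 (fun e => hy.1 (congrArg Prod.snd e).symm)
    (fun e => hz.1 (congrArg Prod.snd e).symm) (fun e => h (congrArg Prod.snd e))

open Classical in
/-- the projection given by a relation -/
noncomputable def qOf (α : Fin.Rl n) (he : Equivalence α) (h2 : ∀ p, Set.ncard {q | α p q} ≤ 2) :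
    Pj n where
  a x := if h : ∃ y, y ≠ x ∧ α (false, x) (false, y) then h.choose else x
  t x := α (false, x) (true, x)
  inv x := by
    by_cases h : ∃ y, y ≠ x ∧ α (false, x) (false, y)
    · have hs := h.choose_spec
      have h' : ∃ y, y ≠ h.choose ∧ α (false, h.choose) (false, y) :=
        ⟨x, hs.1.symm, he.symm hs.2⟩
      simp only [dif_pos h, dif_pos h']
      exact f1_ex_uniq he h2 h'.choose_spec ⟨hs.1.symm, he.symm hs.2⟩
    · simp only [dif_neg h]
  ht x hx := by
    by_cases h : ∃ y, y ≠ x ∧ α (false, x) (false, y)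
    · exfalso
      have hs := h.choose_spec
      exact f1_two h2 (he.refl (false, x)) hs.2 hx
        (fun e => hs.1 (congrArg Prod.snd e).symm)
        (fun e => by simpa using congrArg Prod.fst e) (fun e => by simpa using congrArg Prod.fst e)
    · simp only [dif_neg h]

theorem f1_qOf_a {α : Fin.Rl n} (he : Equivalence α) (h2 : ∀ p, Set.ncard {q | α p q} ≤ 2)
    {x y : Fin n} : (x = y ∨ (qOf α he h2).a x = y) ↔ α (false, x) (false, y) := by
  classical
  constructor
  · rintro (rfl | rfl)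
    · exact he.refl _
    · by_cases h : ∃ y, y ≠ x ∧ α (false, x) (false, y)
      · have e : (qOf α he h2).a x = h.choose := by simp only [qOf, dif_pos h]
        rw [e]
        exact h.choose_spec.2
      · have e : (qOf α he h2).a x = x := by simp only [qOf, dif_neg h]
        rw [e]
        exact he.refl _
  · intro hxy
    by_cases hne : x = y
    · exact Or.inl hne
    · right
      have h : ∃ y, y ≠ x ∧ α (false, x) (false, y) := ⟨y, Ne.symm hne, hxy⟩
      have e : (qOf α he h2).a x = h.choose := by simp only [qOf, dif_pos h]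
      rw [e]
      exact f1_ex_uniq he h2 h.choose_spec ⟨Ne.symm hne, hxy⟩

theorem f1_cross {α : Fin.Rl n} (he : Equivalence α) (h2 : ∀ p, Set.ncard {q | α p q} ≤ 2)
    (hm : Fin.pmul α α = α) (hs : Fin.pstar α = α) {x y : Fin n} (h : α (false, x) (true, y)) :
    x = y := by
  by_contra hne
  have h' : α (false, y) (true, x) := by
    have : Fin.pstar α (true, x) (false, y) := h
    rw [hs] at this
    exact he.symm this
  have h3 : α (false, x) (true, x) := by
    rw [← hm]
    show Relation.EqvGen (Fin.Adj α α) (Fin.outerPt (false, x)) (Fin.outerPt (true, x))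
    refine Relation.EqvGen.trans _ (1, y) _ ?_ ?_
    · exact Relation.EqvGen.rel _ _ (Or.inl ⟨(false, x), (true, y), h, rfl, rfl⟩)
    · exact Relation.EqvGen.rel _ _ (Or.inr ⟨(false, y), (true, x), h', rfl, rfl⟩)
  exact f1_two h2 (he.refl (false, x)) h h3 (fun e => by simpa using congrArg Prod.fst e)
    (fun e => by simpa using congrArg Prod.fst e) (fun e => hne (congrArg Prod.snd e).symm)

theorem f1_toPM_qOf {α : Fin.Rl n} (he : Equivalence α) (h2 : ∀ p, Set.ncard {q | α p q} ≤ 2)
    (hm : Fin.pmul α α = α) (hs : Fin.pstar α = α) : (toPM (qOf α he h2)).r = α := by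
  have hst : ∀ x y, α (true, x) (true, y) ↔ α (false, x) (false, y) := by
    intro x y
    have : Fin.pstar α (true, x) (true, y) ↔ α (false, x) (false, y) := Iff.rfl
    rw [hs] at this
    exact this
  have hst2 : ∀ x y, α (true, x) (false, y) ↔ α (false, x) (true, y) := by
    intro x y
    have : Fin.pstar α (true, x) (false, y) ↔ α (false, x) (true, y) := Iff.rfl
    rw [hs] at this
    exact this
  have hc : ∀ x y, α (false, x) (true, y) ↔ x = y ∧ (qOf α he h2).t x := by
    intro x y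
    constructor
    · intro h
      have := f1_cross he h2 hm hs h
      subst this
      exact ⟨rfl, h⟩
    · rintro ⟨rfl, h⟩
      exact h
  funext u v
  obtain ⟨b, i⟩ := u
  obtain ⟨c, j⟩ := v
  apply propext
  show ((b = c ∧ (i = j ∨ (qOf α he h2).a i = j)) ∨ (i = j ∧ (qOf α he h2).t i)) ↔ α (b, i) (c, j)
  have hd : (i = j ∧ (qOf α he h2).t i) → (i = j ∨ (qOf α he h2).a i = j) := fun h => Or.inl h.1
  cases b <;> cases c
  · rw [← f1_qOf_a he h2]
    simp only [true_and]
    constructor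
    · rintro (h | h)
      · exact h
      · exact hd h
    · intro h; exact Or.inl h
  · rw [hc]
    simp
  · rw [hst2, hc]
    simp
  · rw [hst, ← f1_qOf_a he h2]
    simp only [true_and]
    constructor
    · rintro (h | h)
      · exact h
      · exact hd h
    · intro h; exact Or.inl h

/-! ### the relation of a projection -/

theorem f1_r (q : Pj n) (b c : Bool) (i j : Fin n) : (toPM q).r (b, i) (c, j) ↔
    (b = c ∧ (i = j ∨ q.a i = j)) ∨ (i = j ∧ q.t i) := Iff.rfl

theorem f1_mul (q : Pj n) : Fin.pmul (toPM q).r (toPM q).r = (toPM q).r := by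
  rw [f1_pmul_eq, ← PM.mul_r, toPM_idem]

theorem f1_star (q : Pj n) : Fin.pstar (toPM q).r = (toPM q).r := by
  funext u v
  obtain ⟨b, i⟩ := u
  obtain ⟨c, j⟩ := v
  apply propext
  show (toPM q).r (!b, i) (!c, j) ↔ (toPM q).r (b, i) (c, j)
  rw [f1_r, f1_r]
  cases b <;> cases c <;> simp

theorem f1_cross_r (q : Pj n) (i j : Fin n) :
    (toPM q).r (false, i) (true, j) ↔ i = j ∧ q.t i := by
  rw [f1_r]
  simp

open Classical in
/-- the block of a point -/
theorem f1_block (q : Pj n) (b : Bool) (i : Fin n) :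
    {u | (toPM q).r (b, i) u} = if q.t i then {(b, i), (!b, i)} else {(b, i), (b, q.a i)} := by
  ext ⟨c, j⟩
  show (toPM q).r (b, i) (c, j) ↔ _
  rw [f1_r]
  by_cases ht : q.t i
  · rw [if_pos ht]
    have ha := q.ht i ht
    simp only [Set.mem_insert_iff, Set.mem_singleton_iff, Prod.mk.injEq]
    rw [ha]
    cases b <;> cases c <;> simp [ht, eq_comm]
  · rw [if_neg ht]
    simp only [Set.mem_insert_iff, Set.mem_singleton_iff, Prod.mk.injEq]
    cases b <;> cases c <;> simp [ht, eq_comm]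

theorem f1_ncard_le (q : Pj n) (u : Bool × Fin n) : Set.ncard {v | (toPM q).r u v} ≤ 2 := by
  obtain ⟨b, i⟩ := u
  rw [f1_block]
  have key : ∀ x y : Bool × Fin n, Set.ncard {x, y} ≤ 2 := fun x y =>
    (Set.ncard_insert_le x {y}).trans (by rw [Set.ncard_singleton])
  split_ifs
  · exact key _ _
  · exact key _ _

theorem f1_isBrauer {q : Pj n} (hq : Brauer q) : Fin.IsBrauer (toPM q).r := by
  refine ⟨(toPM q).eqv, ?_⟩
  rintro ⟨b, i⟩
  rw [f1_block]
  split_ifs with ht
  · apply Set.ncard_pair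
    intro e
    have := congrArg Prod.fst e
    cases b <;> simp at this
  · apply Set.ncard_pair
    intro e
    exact ht (hq i (congrArg Prod.snd e).symm)

theorem f1_bd_false (i : Fin n) : Fin.bd (false, i) = i.1 := rfl
theorem f1_bd_true (i : Fin n) : Fin.bd (true, i) = 2 * n - 1 - i.1 := rfl

theorem f1_isMotzkin {q : Pj n} (hq : Planar q) : Fin.IsMotzkin (toPM q).r := by
  refine ⟨(toPM q).eqv, f1_ncard_le q, ?_⟩
  rintro ⟨b1, i1⟩ ⟨b2, i2⟩ ⟨b3, i3⟩ ⟨b4, i4⟩ h1 h2 ⟨h3, h4, h5⟩
  rw [f1_r] at h1 h2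
  have l1 := i1.2
  have l2 := i2.2
  have l3 := i3.2
  have l4 := i4.2
  cases b1 <;> cases b3
  · -- first block in the upper row
    rw [f1_bd_false] at h3 h4 h5
    have ha : q.a i1 = i3 := by
      rcases h1 with ⟨-, h | h⟩ | ⟨h, -⟩
      · exfalso; subst h; omega
      · exact h
      · exfalso; subst h; omega
    cases b2
    · rw [f1_bd_false] at h3 h4
      have hp := hq i1 i2 (Fin.lt_def.2 h3) (by rw [ha]; exact Fin.lt_def.2 h4)
      rw [ha] at hp
      rcases h2 with ⟨hb, h | h⟩ | ⟨h, h'⟩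
      · subst h; subst hb
        rw [f1_bd_false] at h5
        omega
      · subst hb
        rw [f1_bd_false] at h5
        have := hp.2.2
        rw [h, Fin.lt_def] at this
        omega
      · exact hp.1 h'
    · rw [f1_bd_true] at h3 h4
      omega
  · rw [f1_bd_false] at h3
    rw [f1_bd_true] at h4 h5
    have ht : i1 = i3 ∧ q.t i1 := by
      rcases h1 with ⟨h, -⟩ | h
      · simp at h
      · exact h
    obtain ⟨h6, ht⟩ := ht
    subst h6
    cases b4
    · rw [f1_bd_false] at h5; omega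
    · rw [f1_bd_true] at h5
      cases b2
      · rw [f1_bd_false] at h3 h4
        rcases h2 with ⟨h, -⟩ | ⟨h, -⟩
        · simp at h
        · subst h; omega
      · rw [f1_bd_true] at h3 h4
        rcases h2 with ⟨-, h | h⟩ | ⟨h, -⟩
        · subst h; omega
        · have h7 : q.a i4 = i2 := by rw [← h, q.inv]
          have := (hq i4 i1 (by rw [Fin.lt_def]; omega) (by rw [h7, Fin.lt_def]; omega)).1
          exact this ht
        · subst h; omega
  · rw [f1_bd_true] at h3
    rw [f1_bd_false] at h4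
    omega
  · rw [f1_bd_true] at h3 h4 h5
    have ha : q.a i1 = i3 := by
      rcases h1 with ⟨-, h | h⟩ | ⟨h, -⟩
      · exfalso; subst h; omega
      · exact h
      · exfalso; subst h; omega
    have ha' : q.a i3 = i1 := by rw [← ha, q.inv]
    cases b2
    · rw [f1_bd_false] at h3; omega
    · rw [f1_bd_true] at h3 h4
      have hp := hq i3 i2 (by rw [Fin.lt_def]; omega) (by rw [ha', Fin.lt_def]; omega)
      rw [ha'] at hp
      cases b4
      · rw [f1_bd_false] at h5; omega
      · rw [f1_bd_true] at h5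
        rcases h2 with ⟨hb, h | h⟩ | ⟨h, h'⟩
        · subst h; omega
        · have := hp.2.1
          rw [h, Fin.lt_def] at this
          omega
        · exact hp.1 h'

theorem f1_planar {α : Fin.Rl n} (he : Equivalence α) (h2 : ∀ p, Set.ncard {q | α p q} ≤ 2)
    (hc : ∀ p r q s, α p q → α r s →
      ¬ (Fin.bd p < Fin.bd r ∧ Fin.bd r < Fin.bd q ∧ Fin.bd q < Fin.bd s)) :
    Planar (qOf α he h2) := by
  intro x y hxy hy
  have e1 : α (false, x) (false, (qOf α he h2).a x) := (f1_qOf_a he h2).1 (Or.inr rfl)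
  have e2 : α (false, y) (false, (qOf α he h2).a y) := (f1_qOf_a he h2).1 (Or.inr rfl)
  rw [Fin.lt_def] at hxy hy
  have l1 := y.2
  have l2 := ((qOf α he h2).a x).2
  refine ⟨?_, ?_, ?_⟩
  · intro ht
    have ht' : α (false, y) (true, y) := ht
    apply hc _ _ _ _ e1 ht'
    rw [f1_bd_false, f1_bd_false, f1_bd_false, f1_bd_true]
    omega
  · rw [Fin.lt_def]
    by_contra h
    have hne : (qOf α he h2).a y ≠ x := by
      intro h3
      have : (qOf α he h2).a x = y := by rw [← h3, Pj.inv]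
      rw [this] at hy
      exact lt_irrefl _ hy
    have hne' : ((qOf α he h2).a y).1 ≠ x.1 := fun h3 => hne (Fin.ext h3)
    apply hc _ _ _ _ (he.symm e2) e1
    rw [f1_bd_false, f1_bd_false, f1_bd_false, f1_bd_false]
    omega
  · rw [Fin.lt_def]
    by_contra h
    have hne : (qOf α he h2).a y ≠ (qOf α he h2).a x := by
      intro h3
      have := Pj.a_inj _ h3
      rw [this] at hxy
      exact lt_irrefl _ hxy
    have hne' : ((qOf α he h2).a y).1 ≠ ((qOf α he h2).a x).1 := fun h3 => hne (Fin.ext h3)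
    apply hc _ _ _ _ e1 e2
    rw [f1_bd_false, f1_bd_false, f1_bd_false, f1_bd_false]
    omega

theorem f1_brauer {α : Fin.Rl n} (he : Equivalence α) (h2 : ∀ p, Set.ncard {q | α p q} ≤ 2)
    (hm : Fin.pmul α α = α) (hs : Fin.pstar α = α) (hb : ∀ p, Set.ncard {q | α p q} = 2) :
    Brauer (qOf α he h2) := by
  intro x hx
  by_contra ht
  have e := f1_toPM_qOf he h2 hm hs
  have h := hb (false, x)
  rw [← e, f1_block, if_neg ht, hx, Set.pair_eq_singleton, Set.ncard_singleton] at h
  omega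

theorem f1_rank (q : Pj n) : (TT q).card = Fin.rank (toPM q).r := by
  unfold Fin.rank
  have e : {B : Set (Bool × Fin n) | (∃ p, B = {q_1 | (toPM q).r p q_1}) ∧
      (∃ i, (false, i) ∈ B) ∧ ∃ i, (true, i) ∈ B} =
      (fun i : Fin n => {u | (toPM q).r (false, i) u}) '' (TT q : Set (Fin n)) := by
    ext B
    constructor
    · rintro ⟨⟨p, rfl⟩, ⟨i, hi⟩, ⟨j, hj⟩⟩
      have hi' : (toPM q).r p (false, i) := hi
      have hj' : (toPM q).r p (true, j) := hj
      have h1 := (toPM q).eqv.trans ((toPM q).eqv.symm hi') hj'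
      rw [f1_cross_r] at h1
      refine ⟨i, ?_, ?_⟩
      · exact Finset.mem_coe.2 (mem_TT.2 h1.2)
      · ext u
        show (toPM q).r (false, i) u ↔ (toPM q).r p u
        exact ⟨fun h => (toPM q).eqv.trans hi' h, fun h => (toPM q).eqv.trans ((toPM q).eqv.symm hi') h⟩
    · rintro ⟨i, hi, rfl⟩
      have ht : q.t i := mem_TT.1 (Finset.mem_coe.1 hi)
      refine ⟨⟨(false, i), rfl⟩, ⟨i, (toPM q).eqv.refl _⟩, ⟨i, ?_⟩⟩
      show (toPM q).r (false, i) (true, i)
      rw [f1_cross_r]
      exact ⟨rfl, ht⟩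
  rw [e, Set.InjOn.ncard_image, Set.ncard_coe_finset]
  intro i hi j hj hij
  have ht : q.t i := mem_TT.1 (Finset.mem_coe.1 hi)
  have h1 : (false, j) ∈ {u | (toPM q).r (false, i) u} := by
    have hij' : {u | (toPM q).r (false, i) u} = {u | (toPM q).r (false, j) u} := hij
    rw [hij']
    exact (toPM q).eqv.refl _
  have h2 : (toPM q).r (false, i) (false, j) := h1
  rw [f1_r, q.ht i ht] at h2
  rcases h2 with ⟨-, h | h⟩ | ⟨h, -⟩ <;> exact h

theorem f1_gap (q : Pj n) : HasGap q ↔ Fin.Gap (toPM q).r := by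
  unfold HasGap Fin.Gap
  have h : ∀ i, ¬ q.t i ↔ ∀ k, ¬ (toPM q).r (false, i) (true, k) := by
    intro i
    constructor
    · intro h k h2
      exact h ((f1_cross_r q i k).1 h2).2
    · intro h h2
      exact h i ((f1_cross_r q i i).2 ⟨rfl, h2⟩)
  constructor
  · rintro ⟨i, j, h1, h2, h3⟩
    exact ⟨i, j, h1, (h i).1 h2, (h j).1 h3⟩
  · rintro ⟨i, j, h1, h2, h3⟩
    exact ⟨i, j, h1, (h i).2 h2, (h j).2 h3⟩

theorem f1_th (p q : Pj n) : (toPM (cj p q)).r =
    Fin.pmul (Fin.pmul (toPM q).r (toPM p).r) (toPM q).r := by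
  rw [toPM_cj, PM.mul_r, PM.mul_r, f1_pmul_eq, f1_pmul_eq]

/-- the projections of the Brauer monoid -/
noncomputable def phiB : Fin.Proj (Fin.IsBrauer (n := n)) ≃ BP n where
  toFun p := ⟨qOf p.1 p.2.1.1 (fun u => (p.2.1.2 u).le),
    f1_brauer p.2.1.1 (fun u => (p.2.1.2 u).le) p.2.2.1 p.2.2.2 p.2.1.2⟩
  invFun q := ⟨(toPM q.1).r, f1_isBrauer q.2, f1_mul q.1, f1_star q.1⟩
  left_inv p := Subtype.ext
    (f1_toPM_qOf p.2.1.1 (fun u => (p.2.1.2 u).le) p.2.2.1 p.2.2.2)
  right_inv q := by
    apply Subtype.ext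
    apply toPM_inj
    apply PM.ext
    exact f1_toPM_qOf (toPM q.1).eqv (f1_ncard_le q.1) (f1_mul q.1) (f1_star q.1)

theorem phiB_r (p : Fin.Proj (Fin.IsBrauer (n := n))) : (toPM (phiB p).1).r = p.1 :=
  congrArg Subtype.val (phiB.left_inv p)

/-- the projections of the Motzkin monoid -/
noncomputable def phiM : Fin.Proj (Fin.IsMotzkin (n := n)) ≃ MP n where
  toFun p := ⟨qOf p.1 p.2.1.1 p.2.1.2.1, f1_planar p.2.1.1 p.2.1.2.1 p.2.1.2.2⟩
  invFun q := ⟨(toPM q.1).r, f1_isMotzkin q.2, f1_mul q.1, f1_star q.1⟩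
  left_inv p := Subtype.ext (f1_toPM_qOf p.2.1.1 p.2.1.2.1 p.2.2.1 p.2.2.2)
  right_inv q := by
    apply Subtype.ext
    apply toPM_inj
    apply PM.ext
    exact f1_toPM_qOf (toPM q.1).eqv (f1_ncard_le q.1) (f1_mul q.1) (f1_star q.1)

theorem phiM_r (p : Fin.Proj (Fin.IsMotzkin (n := n))) : (toPM (phiM p).1).r = p.1 :=
  congrArg Subtype.val (phiM.left_inv p)

theorem bridge_B (p : Fin.Proj (Fin.IsBrauer (n := n))) : ∃ q : BP n,
    (TT q.1).card = Fin.rank p.1 ∧
    ∀ (G : Type) (_ : Group G), Nonempty (MaxSub (xx q) ≃* G) → Fin.MaxSubIso p G := by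
  refine ⟨phiB p, ?_, ?_⟩
  · rw [f1_rank, phiB_r]
  · intro G _ hG
    refine bridge_abs phiB ?_ p G hG
    intro p q
    show (toPM (cj (phiB p).1 (phiB q).1)).r = _
    rw [f1_th, phiB_r, phiB_r]

theorem bridge_M (p : Fin.Proj (Fin.IsMotzkin (n := n))) : ∃ q : MP n,
    (TT q.1).card = Fin.rank p.1 ∧ (HasGap q.1 ↔ Fin.Gap p.1) ∧
    ∀ (G : Type) (_ : Group G), Nonempty (MaxSub (xx q) ≃* G) → Fin.MaxSubIso p G := by
  refine ⟨phiM p, ?_, ?_, ?_⟩
  · rw [f1_rank, phiM_r]
  · rw [f1_gap, phiM_r]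
  · intro G _ hG
    refine bridge_abs phiM ?_ p G hG
    intro p q
    show (toPM (cj (phiM p).1 (phiM q).1)).r = _
    rw [f1_th, phiM_r, phiM_r]

end Pool.Agent.H213PG
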