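import Pool.Agent.helper213_PG.M1Fri
import Pool.Agent.helper213_PG.Abs3

set_option autoImplicit false

/-!
# The cases without relations (paper 3, m = 0, m = 1 and (4,0))
-/

namespace Pool.Agent.H213PG

open PA Pj

section

variable {P : Type} [PA P]

/-- reachable in `n` steps -/
def g1_rn (b : P) : ℕ → P → Prop
  | 0, p => p = b
  | n + 1, p => ∃ q, g1_rn b n q ∧ Fr q p

theorem g1_rn_rch {b : P} : ∀ {n : ℕ} {p : P}, g1_rn b n p → Rch b p
  | 0, p, h => by
    have : p = b := h
    rw [this]; exact Rch.rf b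
  | n + 1, p, h => by
    obtain ⟨q, h1, h2⟩ := h
    exact (g1_rn_rch h1).step h2

theorem g1_exists_rn {b p : P} (h : Rch b p) : ∃ n, g1_rn b n p := by
  induction h with
  | refl => exact ⟨0, rfl⟩
  | tail _ h2 ih =>
    obtain ⟨n, hn⟩ := ih
    exact ⟨n + 1, _, hn, h2⟩

/-- distance -/
noncomputable def g1_f (b p : P) : ℕ := sInf {n | g1_rn b n p}

theorem g1_f_b (b : P) : g1_f b b = 0 := by
  have : (0 : ℕ) ∈ {n | g1_rn b n b} := (rfl : b = b)
  exact Nat.le_zero.1 (Nat.sInf_le this)

theorem g1_exists_par {b p : P} (h : Rch b p) (hp : p ≠ b) :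
    ∃ q, Rch b q ∧ Fr q p ∧ g1_f b p = g1_f b q + 1 := by
  have hs : g1_rn b (g1_f b p) p := Nat.sInf_mem (s := {n | g1_rn b n p}) (g1_exists_rn h)
  cases hf : g1_f b p with
  | zero =>
    rw [hf] at hs
    exact absurd hs hp
  | succ n =>
    rw [hf] at hs
    obtain ⟨q, h1, h2⟩ := hs
    refine ⟨q, g1_rn_rch h1, h2, ?_⟩
    have e1 : g1_f b q ≤ n := Nat.sInf_le h1
    have e2 : g1_rn b (g1_f b q) q :=
      Nat.sInf_mem (s := {n | g1_rn b n q}) (g1_exists_rn (g1_rn_rch h1))
    have e3 : g1_f b p ≤ g1_f b q + 1 :=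
      Nat.sInf_le (s := {n | g1_rn b n p}) ⟨q, e2, h2⟩
    omega

open Classical in
/-- parent in the spanning tree -/
noncomputable def g1_par (b p : P) : P :=
  if h : Rch b p ∧ p ≠ b then (g1_exists_par h.1 h.2).choose else b

theorem g1_par_spec {b p : P} (h : Rch b p) (hp : p ≠ b) :
    Rch b (g1_par b p) ∧ Fr (g1_par b p) p ∧ g1_f b p = g1_f b (g1_par b p) + 1 := by
  unfold g1_par
  rw [dif_pos ⟨h, hp⟩]
  exact (g1_exists_par h hp).choose_spec

open Classical in
/-- value of a cocycle along the tree path -/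
noncomputable def g1_wk {H : Type} [Group H] (b : P) (u : P → P → H) : ℕ → P → H
  | 0, _ => 1
  | n + 1, p => if p = b then 1 else g1_wk b u n (g1_par b p) * u (g1_par b p) p

noncomputable def g1_w {H : Type} [Group H] (b : P) (u : P → P → H) (p : P) : H :=
  g1_wk b u (g1_f b p) p

theorem g1_w_b {H : Type} [Group H] (b : P) (u : P → P → H) : g1_w b u b = 1 := by
  unfold g1_w
  rw [g1_f_b]
  rfl

theorem g1_w_par {H : Type} [Group H] {b : P} (u : P → P → H) {p : P} (h : Rch b p)
    (hp : p ≠ b) : g1_w b u p = g1_w b u (g1_par b p) * u (g1_par b p) p := by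
  have e := (g1_par_spec h hp).2.2
  unfold g1_w
  conv_lhs => rw [e]
  rw [g1_wk, if_neg hp]

/-- tree paths have value `1` if the tree edges do -/
theorem g1_pth {H : Type} [Group H] {b : P} {c : P → P → H}
    (hc : ∀ q, Rch b q → q ≠ b → c (g1_par b q) q = 1) :
    ∀ n p, Rch b p → g1_f b p = n → Pth c b p 1 := by
  intro n
  induction n with
  | zero =>
    intro p hp hf
    by_cases hpb : p = b
    · rw [hpb]; exact Pth.nil b
    · have := (g1_par_spec hp hpb).2.2
      omega
  | succ n ih =>
    intro p hp hf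
    by_cases hpb : p = b
    · rw [hpb]; exact Pth.nil b
    · obtain ⟨h1, h2, h3⟩ := g1_par_spec hp hpb
      have e := (ih (g1_par b p) h1 (by omega)).trans (Pth.single (c := c) h2)
      rw [hc p hp hpb, mul_one] at e
      exact e

end

open Finset in
/-- no triangles: the fundamental group of a graph -/
theorem free_case {P : Type} [PA P] [Finite P] (b : P)
    (hmin : ∀ w, Rch b w → th w b = w → w = b)
    (hdeg : ∀ p q s, Rch b p → Fr p q → th q s = q → th s p = p → th p s = p ∨ th p s = q)
    (N : ℕ) (hN : Nat.card {x : P × P // Rch b x.1 ∧ Fr x.1 x.2 ∧ x.1 ≠ x.2} + 2 =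
      2 * (Nat.card {p : P // Rch b p} + N)) :
    Nonempty (MaxSub (xx b) ≃* FreeGroup (Fin N)) := by
  classical
  have : Fintype P := Fintype.ofFinite P
  -- the order
  set e : P → ℕ := fun p => g1_f b p * Fintype.card P + (Fintype.equivFin P p).1 with he
  have hinj : ∀ p q, e p = e q → p = q := by
    intro p q h
    have h1 : (e p) % Fintype.card P = (Fintype.equivFin P p).1 := by
      simp only [he]
      rw [mul_comm, Nat.mul_add_mod, Nat.mod_eq_of_lt (Fintype.equivFin P p).2]
    have h2 : (e q) % Fintype.card P = (Fintype.equivFin P q).1 := by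
      simp only [he]
      rw [mul_comm, Nat.mul_add_mod, Nat.mod_eq_of_lt (Fintype.equivFin P q).2]
    rw [h, h2] at h1
    exact (Fintype.equivFin P).injective (Fin.ext h1.symm)
  have hlt : ∀ p q, g1_f b q = g1_f b p + 1 → e p < e q := by
    intro p q h
    simp only [he]
    rw [h]
    have := (Fintype.equivFin P p).2
    nlinarith
  set V : Finset P := univ.filter (fun p => Rch b p) with hV
  set D : Finset (P × P) := univ.filter (fun x => Rch b x.1 ∧ Fr x.1 x.2 ∧ x.1 ≠ x.2) with hD
  have hN' : D.card + 2 = 2 * (V.card + N) := by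
    have h1 : Nat.card {x : P × P // Rch b x.1 ∧ Fr x.1 x.2 ∧ x.1 ≠ x.2} = D.card := by
      rw [Nat.card_eq_fintype_card, Fintype.card_subtype]
    have h2 : Nat.card {p : P // Rch b p} = V.card := by
      rw [Nat.card_eq_fintype_card, Fintype.card_subtype]
    rw [← h1, ← h2]; exact hN
  set Dp : Finset (P × P) := D.filter (fun x => e x.1 < e x.2) with hDp
  have hmD : ∀ x, x ∈ D ↔ Rch b x.1 ∧ Fr x.1 x.2 ∧ x.1 ≠ x.2 := by
    intro x; rw [hD, mem_filter]; simp
  have hmDp : ∀ x, x ∈ Dp ↔ (Rch b x.1 ∧ Fr x.1 x.2 ∧ x.1 ≠ x.2) ∧ e x.1 < e x.2 := by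
    intro x; rw [hDp, mem_filter, hmD]
  have hcard : D.card = 2 * Dp.card := by
    have h1 := Finset.card_filter_add_card_filter_not (s := D) (fun x => e x.1 < e x.2)
    have h2 : (D.filter (fun x => ¬ e x.1 < e x.2)).card = Dp.card := by
      refine Finset.card_bij' (fun x _ => x.swap) (fun x _ => x.swap) ?_ ?_ (fun _ _ => rfl)
        (fun _ _ => rfl)
      · intro x hx
        rw [mem_filter, hmD] at hx
        rw [hmDp]
        refine ⟨⟨hx.1.1.step hx.1.2.1, hx.1.2.1.symm, hx.1.2.2.symm⟩, ?_⟩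
        have : e x.1 ≠ e x.2 := fun h => hx.1.2.2 (hinj _ _ h)
        simp only [Prod.fst_swap, Prod.snd_swap]
        omega
      · intro x hx
        rw [hmDp] at hx
        rw [mem_filter, hmD]
        refine ⟨⟨hx.1.1.step hx.1.2.1, hx.1.2.1.symm, hx.1.2.2.symm⟩, ?_⟩
        simp only [Prod.fst_swap, Prod.snd_swap]
        omega
    rw [← hDp, h2] at h1
    omega
  set T : Finset (P × P) := (V.erase b).image (fun q => (g1_par b q, q)) with hT
  have hTD : T ⊆ Dp := by
    intro x hx
    rw [hT, mem_image] at hx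
    obtain ⟨q, hq, rfl⟩ := hx
    rw [mem_erase, hV, mem_filter] at hq
    obtain ⟨h1, h2, h3⟩ := g1_par_spec hq.2.2 hq.1
    rw [hmDp]
    refine ⟨⟨h1, h2, ?_⟩, hlt _ _ h3⟩
    intro h
    have h4 : g1_par b q = q := h
    rw [h4] at h3
    omega
  have hTc : T.card = V.card - 1 := by
    rw [hT, Finset.card_image_of_injective _ (fun x y h => (Prod.ext_iff.1 h).2),
      Finset.card_erase_of_mem]
    rw [hV, mem_filter]
    exact ⟨mem_univ _, Rch.rf b⟩
  have hVp : 0 < V.card := Finset.card_pos.2 ⟨b, by rw [hV, mem_filter]; exact ⟨mem_univ _, Rch.rf b⟩⟩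
  set X : Finset (P × P) := Dp \ T with hX
  have hXc : X.card = N := by
    rw [hX, Finset.card_sdiff_of_subset hTD]
    omega
  have hmX : ∀ x, x ∈ X ↔ x ∈ Dp ∧ x ∉ T := by
    intro x; rw [hX, mem_sdiff]
  have hXasym : ∀ p q, (p, q) ∈ X → (q, p) ∉ X := by
    intro p q h1 h2
    have h3 := ((hmDp _).1 ((hmX _).1 h1).1).2
    have h4 := ((hmDp _).1 ((hmX _).1 h2).1).2
    simp only at h3 h4
    omega
  set E : {x // x ∈ X} ≃ Fin N := Finset.equivFinOfCardEq hXc with hE
  set c : P → P → FreeGroup (Fin N) := fun p q =>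
    if h : (p, q) ∈ X then FreeGroup.of (E ⟨(p, q), h⟩)
    else if h' : (q, p) ∈ X then (FreeGroup.of (E ⟨(q, p), h'⟩))⁻¹ else 1 with hcdef
  have c_pos : ∀ p q (h : (p, q) ∈ X), c p q = FreeGroup.of (E ⟨(p, q), h⟩) := by
    intro p q h
    simp only [hcdef, dif_pos h]
  have c_neg : ∀ p q (h : (q, p) ∈ X), c p q = (FreeGroup.of (E ⟨(q, p), h⟩))⁻¹ := by
    intro p q h
    simp only [hcdef, dif_neg (hXasym q p h), dif_pos h]
  have c_none : ∀ p q (_ : (p, q) ∉ X) (_ : (q, p) ∉ X), c p q = 1 := by
    intro p q h h'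
    simp only [hcdef, dif_neg h, dif_neg h']
  have hself : ∀ p, c p p = 1 := by
    intro p
    have : (p, p) ∉ X := by
      intro h
      exact ((hmDp _).1 ((hmX _).1 h).1).1.2.2 rfl
    exact c_none p p this this
  have hcoc : Coc b c := by
    constructor
    · intro p q hp h
      by_cases h1 : (p, q) ∈ X
      · rw [c_pos p q h1, c_neg q p h1, mul_inv_cancel]
      · by_cases h2 : (q, p) ∈ X
        · rw [c_neg p q h2, c_pos q p h2, inv_mul_cancel]
        · rw [c_none p q h1 h2, c_none q p h2 h1, mul_one]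
    · intro p q s hp h h1 h2
      rcases hdeg p q s hp h h1 h2 with h3 | h3
      · rw [h3, hself, one_mul]
      · rw [h3, hself, mul_one]
  have htree : ∀ q, Rch b q → q ≠ b → c (g1_par b q) q = 1 := by
    intro q hq hqb
    have hm : (g1_par b q, q) ∈ T := by
      rw [hT, mem_image]
      exact ⟨q, by rw [mem_erase, hV, mem_filter]; exact ⟨hqb, mem_univ _, hq⟩, rfl⟩
    apply c_none
    · intro h
      exact ((hmX _).1 h).2 hm
    · intro h
      have h3 := ((hmDp _).1 ((hmX _).1 h).1).2
      have h4 := ((hmDp _).1 (hTD hm)).2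
      simp only at h3 h4
      omega
  have hpth : ∀ p, Rch b p → Pth c b p 1 := fun p hp => g1_pth htree _ p hp rfl
  refine maxsub_main hcoc hmin ?_ ?_
  · intro g
    induction g using FreeGroup.induction_on with
    | C1 => exact Pth.nil b
    | of i =>
      obtain ⟨⟨⟨p, q⟩, hx⟩, rfl⟩ := E.surjective i
      have h1 := (hmDp _).1 ((hmX _).1 hx).1
      have hp : Rch b p := h1.1.1
      have hfr : Fr p q := h1.1.2.1
      have a1 := hpth p hp
      have a2 := Pth.single (c := c) hfr
      have a3 := (hpth q (hp.step hfr)).symm hcoc (Rch.rf b)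
      have := (a1.trans a2).trans a3
      rw [one_mul, inv_one, mul_one, c_pos p q hx] at this
      exact this
    | inv_of i ih => exact ih.symm hcoc (Rch.rf b)
    | mul x y hx hy => exact hx.trans hy
  · intro H _ u hu
    refine ⟨FreeGroup.lift (fun i => g1_w b u (E.symm i).1.1 *
      u (E.symm i).1.1 (E.symm i).1.2 * (g1_w b u (E.symm i).1.2)⁻¹), fun p => (g1_w b u p)⁻¹, ?_⟩
    intro p q hp hfr
    have hq : Rch b q := hp.step hfr
    -- the case of an oriented pair
    by_cases h1 : (p, q) ∈ X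
    · rw [c_pos p q h1, FreeGroup.lift_apply_of]
      simp only [Equiv.symm_apply_apply]
      group
    · by_cases h2 : (q, p) ∈ X
      · rw [c_neg p q h2, map_inv, FreeGroup.lift_apply_of]
        simp only [Equiv.symm_apply_apply]
        rw [hu.inv' hq hfr.symm]
        group
      · rw [c_none p q h1 h2, map_one]
        by_cases hpq : p = q
        · subst hpq
          rw [hu.self hp]
          group
        · have key : ∀ p q, Rch b p → Fr p q → (p, q) ∈ T →
              u p q = (g1_w b u p)⁻¹ * 1 * ((g1_w b u q)⁻¹)⁻¹ := by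
            intro p q _ _ hm
            rw [hT, mem_image] at hm
            obtain ⟨q', hq', he⟩ := hm
            have e1 : g1_par b q' = p := congrArg Prod.fst he
            have e2 : q' = q := congrArg Prod.snd he
            subst e2
            rw [mem_erase, hV, mem_filter] at hq'
            rw [g1_w_par u hq'.2.2 hq'.1, e1]
            group
          rcases Nat.lt_or_ge (e p) (e q) with h3 | h3
          · have hm : (p, q) ∈ T := by
              by_contra hm
              exact h1 ((hmX _).2 ⟨(hmDp _).2 ⟨⟨hp, hfr, hpq⟩, h3⟩, hm⟩)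
            exact key p q hp hfr hm
          · have h4 : e q < e p := lt_of_le_of_ne h3 (fun h => hpq (hinj _ _ h.symm))
            have hm : (q, p) ∈ T := by
              by_contra hm
              exact h2 ((hmX _).2 ⟨(hmDp _).2 ⟨⟨hq, hfr.symm, Ne.symm hpq⟩, h4⟩, hm⟩)
            rw [hu.inv' hq hfr.symm, key q p hq hfr.symm hm]
            group

end Pool.Agent.H213PG
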