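import Mathlib.Data.Fintype.Card
import Mathlib.Logic.Relation
import Mathlib.Data.Nat.Find
import Mathlib.Data.Finset.Card
import Mathlib.Order.Interval.Finset.Fin
import Mathlib.Algebra.Ring.Parity
import Mathlib.Tactic

set_option autoImplicit false

/-!
# Two involutions: components of the union of two partial matchings
-/

namespace Pool.Agent.H213PG

section J

variable {α : Type} {f g : α → α}

/-- same component of the union of the two matchings -/
def J (f g : α → α) (x y : α) : Prop := Relation.EqvGen (fun x y => f x = y ∨ g x = y) x y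

theorem J.rfl' (x : α) : J f g x x := Relation.EqvGen.refl x
theorem J.symm' {x y : α} (h : J f g x y) : J f g y x := Relation.EqvGen.symm _ _ h
theorem J.trans' {x y z : α} (h : J f g x y) (h2 : J f g y z) : J f g x z :=
  Relation.EqvGen.trans _ _ _ h h2
theorem J.left (x : α) : J f g x (f x) := Relation.EqvGen.rel _ _ (Or.inl rfl)
theorem J.right (x : α) : J f g x (g x) := Relation.EqvGen.rel _ _ (Or.inr rfl)

theorem J.swap {x y : α} (h : J f g x y) : J g f x y := by
  unfold J at *
  induction h with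
  | rel x y h => exact Relation.EqvGen.rel _ _ h.symm
  | refl x => exact Relation.EqvGen.refl x
  | symm x y _ ih => exact Relation.EqvGen.symm _ _ ih
  | trans x y z _ _ ih1 ih2 => exact Relation.EqvGen.trans _ _ _ ih1 ih2

theorem J.mem_iff (hf : ∀ x, f (f x) = x) (hg : ∀ x, g (g x) = x) (S : Set α)
    (hS : ∀ x ∈ S, f x ∈ S ∧ g x ∈ S) {x y : α} (h : J f g x y) : x ∈ S ↔ y ∈ S := by
  unfold J at h
  induction h with
  | rel x y h =>
    rcases h with h | h
    · constructor
      · intro hx; rw [← h]; exact (hS x hx).1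
      · intro hy
        have := (hS y hy).1
        rwa [← h, hf] at this
    · constructor
      · intro hx; rw [← h]; exact (hS x hx).2
      · intro hy
        have := (hS y hy).2
        rwa [← h, hg] at this
  | refl x => exact Iff.rfl
  | symm x y _ ih => exact ih.symm
  | trans x y z _ _ ih1 ih2 => exact ih1.trans ih2

/-- inclusion of component relations -/
theorem J.mono {f' g' : α → α} (h1 : ∀ x, J f' g' x (f x)) (h2 : ∀ x, J f' g' x (g x)) {x y : α}
    (h : J f g x y) : J f' g' x y := by
  unfold J at h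
  induction h with
  | rel x y h =>
    rcases h with h | h
    · rw [← h]; exact h1 x
    · rw [← h]; exact h2 x
  | refl x => exact J.rfl' x
  | symm x y _ ih => exact ih.symm'
  | trans x y z _ _ ih1 ih2 => exact ih1.trans' ih2

/-- the walk from `x` -/
def wk (f g : α → α) (x : α) : ℕ → α
  | 0 => x
  | n + 1 => if n % 2 = 0 then g (wk f g x n) else f (wk f g x n)

theorem wk_even {x : α} {n : ℕ} (h : n % 2 = 0) : wk f g x (n + 1) = g (wk f g x n) := by
  simp [wk, h]

theorem wk_odd {x : α} {n : ℕ} (h : n % 2 = 1) : wk f g x (n + 1) = f (wk f g x n) := by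
  simp [wk, h]

variable (hf : ∀ x, f (f x) = x) (hg : ∀ x, g (g x) = x)
include hf hg

theorem wk_odd_g {x : α} {n : ℕ} (h : n % 2 = 1) : g (wk f g x n) = wk f g x (n - 1) := by
  obtain ⟨m, rfl⟩ : ∃ m, n = m + 1 := ⟨n - 1, by omega⟩
  rw [wk_even (by omega), hg]
  simp

theorem wk_even_f {x : α} {n : ℕ} (h : n % 2 = 0) (h0 : 0 < n) :
    f (wk f g x n) = wk f g x (n - 1) := by
  obtain ⟨m, rfl⟩ : ∃ m, n = m + 1 := ⟨n - 1, by omega⟩
  rw [wk_odd (by omega), hf]
  simp

theorem wk_cover {x y : α} (hx : f x = x) (h : J f g x y) : ∃ n, y = wk f g x n := by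
  have := (J.mem_iff hf hg {y | ∃ n, y = wk f g x n} ?_ h).1 ⟨0, rfl⟩
  · exact this
  · rintro _ ⟨n, rfl⟩
    rcases Nat.mod_two_eq_zero_or_one n with h | h
    · refine ⟨?_, n + 1, (wk_even h).symm⟩
      rcases Nat.eq_zero_or_pos n with h0 | h0
      · subst h0; exact ⟨0, by simp [wk, hx]⟩
      · exact ⟨n - 1, wk_even_f hf hg h h0⟩
    · exact ⟨⟨n + 1, (wk_odd h).symm⟩, ⟨n - 1, wk_odd_g hf hg h⟩⟩

/-- end points -/
theorem ends_aux {x y z : α} (hx : f x = x) (hxy : J f g x y) (hxz : J f g x z)
    (hy : f y = y ∨ g y = y) (hz : f z = z ∨ g z = z) (h1 : y ≠ x) (h2 : z ≠ x) : y = z := by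
  classical
  obtain ⟨ny, hny⟩ := wk_cover hf hg hx hxy
  have hex : ∃ n, wk f g x n ≠ x ∧ (f (wk f g x n) = wk f g x n ∨ g (wk f g x n) = wk f g x n) :=
    ⟨ny, by rw [← hny]; exact ⟨h1, hy⟩⟩
  -- minimal end
  set m := Nat.find hex with hm
  obtain ⟨hm1, hm2⟩ := Nat.find_spec hex
  have hmin : ∀ j < m, ¬ (wk f g x j ≠ x ∧ (f (wk f g x j) = wk f g x j ∨
      g (wk f g x j) = wk f g x j)) := fun j hj => Nat.find_min hex hj
  have hm0 : 0 < m := by
    rcases Nat.eq_zero_or_pos m with h | h
    · exfalso; apply hm1; rw [← hm, h]; rfl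
    · exact h
  -- the next step is stationary
  have hstat : (m % 2 = 0 → g (wk f g x m) = wk f g x m) ∧
      (m % 2 = 1 → f (wk f g x m) = wk f g x m) := by
    constructor
    · intro h
      rcases hm2 with h3 | h3
      · exfalso
        have e : wk f g x (m - 1) = wk f g x m := by
          rw [← wk_even_f hf hg h hm0]; exact h3
        by_cases hm1' : m - 1 = 0
        · omega
        · apply hmin (m - 1) (by omega)
          rw [e]; exact ⟨hm1, Or.inl h3⟩
      · exact h3
    · intro h
      rcases hm2 with h3 | h3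
      · exact h3
      · exfalso
        have e : wk f g x (m - 1) = wk f g x m := by
          rw [← wk_odd_g hf hg h]; exact h3
        apply hmin (m - 1) (by omega)
        rw [e]; exact ⟨hm1, Or.inr h3⟩
  have hcl : ∀ w, J f g x w → ∃ n ≤ m, w = wk f g x n := by
    intro w hw
    refine (J.mem_iff hf hg {y | ∃ n ≤ m, y = wk f g x n} ?_ hw).1 ⟨0, Nat.zero_le _, rfl⟩
    rintro _ ⟨n, hn, rfl⟩
    rcases Nat.mod_two_eq_zero_or_one n with h | h
    · constructor
      · rcases Nat.eq_zero_or_pos n with h0 | h0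
        · subst h0; exact ⟨0, Nat.zero_le _, by simp [wk, hx]⟩
        · exact ⟨n - 1, by omega, wk_even_f hf hg h h0⟩
      · by_cases hnm : n = m
        · exact ⟨m, le_refl _, by subst hnm; exact hstat.1 h⟩
        · exact ⟨n + 1, by omega, (wk_even h).symm⟩
    · constructor
      · by_cases hnm : n = m
        · exact ⟨m, le_refl _, by subst hnm; exact hstat.2 h⟩
        · exact ⟨n + 1, by omega, (wk_odd h).symm⟩
      · exact ⟨n - 1, by omega, wk_odd_g hf hg h⟩
  have hend : ∀ w, J f g x w → (f w = w ∨ g w = w) → w ≠ x → w = wk f g x m := by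
    intro w hw he hne
    obtain ⟨n, hn, rfl⟩ := hcl w hw
    by_cases hnm : n = m
    · rw [hnm]
    · exact absurd ⟨hne, he⟩ (hmin n (by omega))
  rw [hend y hxy hy h1, hend z hxz hz h2]

/-- a component has at most two end points -/
theorem ends_le_two {x y z : α} (hxy : J f g x y) (hxz : J f g x z)
    (hx : f x = x ∨ g x = x) (hy : f y = y ∨ g y = y) (hz : f z = z ∨ g z = z)
    (h1 : y ≠ x) (h2 : z ≠ x) : y = z := by
  rcases hx with hx | hx
  · exact ends_aux hf hg hx hxy hxz hy hz h1 h2
  · exact ends_aux hg hf hx hxy.swap hxz.swap hy.symm hz.symm h1 h2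

omit hf hg in
theorem J.eq_of_fixed (hf : ∀ x, f (f x) = x) (hg : ∀ x, g (g x) = x) {x y : α} (hx : f x = x)
    (hx2 : g x = x) (h : J f g x y) : y = x := by
  have := (J.mem_iff hf hg {x} (by
    intro z hz; rw [Set.mem_singleton_iff] at hz ⊢; subst hz
    exact ⟨hx, by rw [Set.mem_singleton_iff]; exact hx2⟩) h).1 rfl
  exact this

end J

end Pool.Agent.H213PG
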