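import Pool.Agent.helper213_PG.Defs

set_option autoImplicit false

/-!
# Friendly pairs (paper 1.3, 1.4)
-/

namespace Pool.Agent.H213PG

open PA Pj

section

variable {n : ℕ}

theorem th_eq_iff {p q : Pj n} : th p q = q ↔ ∀ z, q.t z → ∃ x, p.t x ∧ J p.a q.a x z := by
  rw [Pj.th_eq]
  constructor
  · intro h z hz
    have : (cj p q).t z := by rw [h]; exact hz
    obtain ⟨-, x, hx, hj⟩ := cj_t.1 this
    exact ⟨x, hx, hj.symm'.swap⟩
  · intro h
    have ht : ∀ z, (cj p q).t z ↔ q.t z := by
      intro z
      rw [cj_t]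
      constructor
      · exact fun h => h.1
      · intro hz
        obtain ⟨x, hx, hj⟩ := h z hz
        exact ⟨hz, x, hx, hj.symm'.swap⟩
    have ha : ∀ z, (cj p q).a z = q.a z := by
      intro z
      by_cases hz : q.t z
      · obtain ⟨x, hx, hj⟩ := h z hz
        rw [cj_a_none hz, q.ht z hz]
        rintro ⟨w, hw⟩
        exact Lk.not_through p q hw hx hj.symm'.swap
      · exact cj_a_not hz
    apply Pj.ext
    · funext z; exact ha z
    · funext z; exact propext (ht z)

theorem fr_exists {p q : Pj n} (h : Fr p q) {x : Fin n} (hx : p.t x) :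
    ∃ z, q.t z ∧ J p.a q.a x z := by
  obtain ⟨z, hz, hj⟩ := th_eq_iff.1 h.2 x hx
  exact ⟨z, hz, hj.symm'.swap⟩

/-- every point of the component except `x` is matched by `p`, except `z` by `q` -/
theorem fr_struct {p q : Pj n} {x z : Fin n} (hx : p.t x) (hz : q.t z) (hj : J p.a q.a x z) :
    ∀ y, J p.a q.a x y → (y ≠ x → p.a y ≠ y) ∧ (y ≠ z → q.a y ≠ y) := by
  by_cases hxz : x = z
  · subst hxz
    intro y hy
    have := J.eq_of_fixed p.inv q.inv (p.ht _ hx) (q.ht _ hz) hy
    subst this
    exact ⟨fun h => absurd rfl h, fun h => absurd rfl h⟩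
  · intro y hy
    constructor
    · intro hne hpy
      have := ends_le_two p.inv q.inv hy hj (Or.inl (p.ht _ hx)) (Or.inl hpy) (Or.inr (q.ht _ hz))
        hne (Ne.symm hxz)
      subst this
      exact hne (J.eq_of_fixed p.inv q.inv hpy (q.ht _ hz) hj.symm').symm
    · intro hne hqy
      by_cases hyx : y = x
      · subst hyx
        exact hne (J.eq_of_fixed p.inv q.inv (p.ht _ hx) hqy hj).symm
      · exact hne (ends_le_two p.inv q.inv hy hj (Or.inl (p.ht _ hx)) (Or.inr hqy)
          (Or.inr (q.ht _ hz)) hyx (Ne.symm hxz))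

theorem fr_uniq {p q : Pj n} (h : Fr p q) {x y : Fin n} (hx : p.t x) (hy : p.t y)
    (hj : J p.a q.a x y) : x = y := by
  obtain ⟨z, hz, hxz⟩ := fr_exists h hx
  by_contra hne
  exact (fr_struct hx hz hxz y hj).1 (Ne.symm hne) (p.ht _ hy)

theorem fr_card_le {p q : Pj n} (h : Fr p q) : (TT p).card ≤ (TT q).card := by
  classical
  choose! f hf1 hf2 using fun x (hx : p.t x) => fr_exists h hx
  refine Finset.card_le_card_of_injOn f ?_ ?_
  · intro x hx
    have hx' := mem_TT.1 (Finset.mem_coe.1 hx)
    exact Finset.mem_coe.2 (mem_TT.2 (hf1 x hx'))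
  · intro x hx y hy he
    have hx' := mem_TT.1 (Finset.mem_coe.1 hx)
    have hy' := mem_TT.1 (Finset.mem_coe.1 hy)
    apply fr_uniq h hx' hy'
    have h1 := hf2 x hx'
    have h2 := hf2 y hy'
    rw [← he] at h2
    exact h1.trans' h2.symm'

theorem fr_card {p q : Pj n} (h : Fr p q) : (TT p).card = (TT q).card :=
  le_antisymm (fr_card_le h) (fr_card_le h.symm)

theorem rch_card_M {b p : MP n} (h : Rch b p) : (TT p.1).card = (TT b.1).card := by
  induction h with
  | refl => rfl
  | tail _ h2 ih => rw [← ih]; exact (fr_card (mp_fr.1 h2)).symm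

theorem rch_card_B {b p : BP n} (h : Rch b p) : (TT p.1).card = (TT b.1).card := by
  induction h with
  | refl => rfl
  | tail _ h2 ih => rw [← ih]; exact (fr_card (bp_fr.1 h2)).symm

theorem hmin_aux {w b : Pj n} (hc : (TT w).card = (TT b).card) (h : th w b = w) : w = b := by
  have h1 : ∀ x, ¬ b.t x → w.a x = b.a x := by
    intro x hx
    rw [← h]
    exact cj_a_not hx
  have h2 : TT w ⊆ TT b := by
    intro x hx
    rw [mem_TT] at hx ⊢
    rw [← h] at hx
    exact hx.1
  have h3 := Finset.eq_of_subset_of_card_le h2 hc.symm.le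
  have h4 : ∀ x, w.t x ↔ b.t x := by
    intro x
    rw [← mem_TT, ← mem_TT, h3]
  apply Pj.ext
  · funext x
    by_cases hx : b.t x
    · rw [b.ht x hx, w.ht x ((h4 x).2 hx)]
    · exact h1 x hx
  · funext x
    exact propext (h4 x)

theorem hmin_M (b : MP n) : ∀ w, Rch b w → th w b = w → w = b := by
  intro w hw h
  exact Subtype.ext (hmin_aux (rch_card_M hw) (congrArg Subtype.val h))

theorem hmin_B (b : BP n) : ∀ w, Rch b w → th w b = w → w = b := by
  intro w hw h
  exact Subtype.ext (hmin_aux (rch_card_B hw) (congrArg Subtype.val h))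

/-- same through set implies friendly (planar projections) -/
theorem fr_of_TT {p q : MP n} (h : TT p.1 = TT q.1) : Fr p q := by
  rw [mp_fr]
  have ht : ∀ x, p.1.t x ↔ q.1.t x := by
    intro x
    rw [← mem_TT, ← mem_TT, h]
  constructor
  · rw [th_eq_iff]
    intro z hz
    exact ⟨z, (ht z).2 hz, J.rfl' z⟩
  · rw [th_eq_iff]
    intro z hz
    exact ⟨z, (ht z).1 hz, J.rfl' z⟩

/-- parity: an even number of points of the component lie below `x` and below `z` -/
theorem fr_par {p q : MP n} {x z : Fin n} (hx : p.1.t x) (hz : q.1.t z)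
    (hj : J p.1.a q.1.a x z) : cn (cls p.1.a q.1.a x) x = 0 ∧ cn (cls p.1.a q.1.a x) z = 0 := by
  classical
  have hs := fr_struct hx hz hj
  constructor
  · rw [cn_through p.2 cls_left hx]
    have : (Finset.univ.filter (fun c => (c ∈ cls p.1.a q.1.a x ∧ c < x) ∧ p.1.a c = c)) = ∅ := by
      ext c
      simp only [Finset.mem_filter, Finset.mem_univ, true_and, Finset.notMem_empty, iff_false]
      rintro ⟨⟨h3, h4⟩, h5⟩
      exact (hs c h3).1 (ne_of_lt h4) h5
    rw [this]; simp
  · rw [cn_through q.2 cls_right hz]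
    have : (Finset.univ.filter (fun c => (c ∈ cls p.1.a q.1.a x ∧ c < z) ∧ q.1.a c = c)) = ∅ := by
      ext c
      simp only [Finset.mem_filter, Finset.mem_univ, true_and, Finset.notMem_empty, iff_false]
      rintro ⟨⟨h3, h4⟩, h5⟩
      exact (hs c h3).2 (ne_of_lt h4) h5
    rw [this]; simp

open Classical in
theorem cn_succ {C : Set (Fin n)} {x y : Fin n} (h : x.1 + 1 = y.1) :
    cn C y = cn C x + if x ∈ C then 1 else 0 := by
  unfold cn
  by_cases hx : x ∈ C
  · rw [if_pos hx]
    have : (Finset.univ.filter (fun c => c ∈ C ∧ c < y)) =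
        insert x (Finset.univ.filter (fun c => c ∈ C ∧ c < x)) := by
      ext c
      simp only [Finset.mem_filter, Finset.mem_univ, true_and, Finset.mem_insert]
      constructor
      · rintro ⟨h1, h2⟩
        by_cases hc : c = x
        · exact Or.inl hc
        · right
          refine ⟨h1, ?_⟩
          have : c.1 ≠ x.1 := fun h => hc (Fin.ext h)
          rw [Fin.lt_def] at h2 ⊢
          omega
      · rintro (h1 | ⟨h1, h2⟩)
        · subst h1
          exact ⟨hx, by rw [Fin.lt_def]; omega⟩
        · exact ⟨h1, by rw [Fin.lt_def] at h2 ⊢; omega⟩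
    rw [this, Finset.card_insert_of_notMem (by simp)]
    push_cast
    rfl
  · rw [if_neg hx, add_zero]
    have : (Finset.univ.filter (fun c => c ∈ C ∧ c < y)) =
        (Finset.univ.filter (fun c => c ∈ C ∧ c < x)) := by
      ext c
      simp only [Finset.mem_filter, Finset.mem_univ, true_and]
      constructor
      · rintro ⟨h1, h2⟩
        refine ⟨h1, ?_⟩
        have : c.1 ≠ x.1 := fun h => hx (Fin.ext h ▸ h1)
        rw [Fin.lt_def] at h2 ⊢
        omega
      · rintro ⟨h1, h2⟩
        exact ⟨h1, by rw [Fin.lt_def] at h2 ⊢; omega⟩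
    rw [this]

theorem fr_ne_succ {p q : MP n} {x z : Fin n} (hx : p.1.t x) (hz : q.1.t z)
    (hj : J p.1.a q.1.a x z) : x.1 + 1 ≠ z.1 ∧ z.1 + 1 ≠ x.1 := by
  obtain ⟨h1, h2⟩ := fr_par hx hz hj
  constructor
  · intro h
    have := cn_succ (C := cls p.1.a q.1.a x) h
    rw [h1, h2, if_pos (show x ∈ cls p.1.a q.1.a x from J.rfl' x)] at this
    exact absurd this (by decide)
  · intro h
    have := cn_succ (C := cls p.1.a q.1.a x) h
    rw [h1, h2, if_pos (show z ∈ cls p.1.a q.1.a x from hj)] at this
    exact absurd this (by decide)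

/-- the bijection of the through points of friendly planar projections preserves the order -/
theorem fr_order {p q : MP n} (h : Fr p q) {x z x' z' : Fin n} (hx : p.1.t x) (hz : q.1.t z)
    (hj : J p.1.a q.1.a x z) (hx' : p.1.t x') (hz' : q.1.t z') (hj' : J p.1.a q.1.a x' z') :
    x < x' ↔ z < z' := by
  classical
  rw [mp_fr] at h
  by_cases hxx : x = x'
  · subst hxx
    have hzz : z = z' := by
      have := fr_uniq h.symm hz hz' (hj.symm'.trans' hj').swap
      exact this
    subst hzz
    simp
  · have hnj : ¬ J p.1.a q.1.a x x' := fun hc => hxx (fr_uniq h hx hx' hc)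
    have hs := fr_struct hx hz hj
    have hI : NoIso q.1 (cls p.1.a q.1.a x) := by
      intro y hy hyy
      by_cases hyz : y = z
      · subst hyz; exact hz
      · exact absurd hyy ((hs y hy).2 hyz)
    have hI2 : NoIso p.1 (cls p.1.a q.1.a x) := by
      intro y hy hyy
      by_cases hyz : y = x
      · subst hyz; exact hx
      · exact absurd hyy ((hs y hy).1 hyz)
    have e := cn_J (p := q.1) (s := p.1) q.2 p.2 (C := cls p.1.a q.1.a x) cls_right cls_left hI hI2
      (v := x') (w := z') hnj hj'
    have hz'C : z' ∉ cls p.1.a q.1.a x := fun hc => hnj (J.trans' hc hj'.symm')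
    rw [cn_through p.2 cls_left hx', cn_through q.2 cls_right hz'] at e
    have e1 : (Finset.univ.filter (fun c => (c ∈ cls p.1.a q.1.a x ∧ c < x') ∧ p.1.a c = c)) =
        if x < x' then {x} else ∅ := by
      ext c
      simp only [Finset.mem_filter, Finset.mem_univ, true_and]
      constructor
      · rintro ⟨⟨h3, h4⟩, h5⟩
        have : c = x := by
          by_contra hne
          exact (hs c h3).1 hne h5
        subst this
        rw [if_pos h4]
        simp
      · intro hc
        split_ifs at hc with hlt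
        · rw [Finset.mem_singleton] at hc
          subst hc
          exact ⟨⟨J.rfl' _, hlt⟩, p.1.ht _ hx⟩
        · simp at hc
    have e2 : (Finset.univ.filter (fun c => (c ∈ cls p.1.a q.1.a x ∧ c < z') ∧ q.1.a c = c)) =
        if z < z' then {z} else ∅ := by
      ext c
      simp only [Finset.mem_filter, Finset.mem_univ, true_and]
      constructor
      · rintro ⟨⟨h3, h4⟩, h5⟩
        have : c = z := by
          by_contra hne
          exact (hs c h3).2 hne h5
        subst this
        rw [if_pos h4]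
        simp
      · intro hc
        split_ifs at hc with hlt
        · rw [Finset.mem_singleton] at hc
          subst hc
          exact ⟨⟨hj, hlt⟩, q.1.ht _ hz⟩
        · simp at hc
    rw [e1, e2] at e
    by_cases h1 : x < x' <;> by_cases h2 : z < z' <;> simp [h1, h2] at e ⊢

/-- through points with the same index correspond -/
theorem fr_index {p q : MP n} (h : Fr p q) {x z : Fin n} (hx : p.1.t x) (hz : q.1.t z) :
    J p.1.a q.1.a x z ↔
      ((TT p.1).filter (fun y => y < x)).card = ((TT q.1).filter (fun y => y < z)).card := by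
  classical
  have h' := mp_fr.1 h
  choose! f hf1 hf2 using fun x (hx : p.1.t x) => fr_exists h' hx
  -- the key: corresponding points have the same index
  have key : ∀ (p q : MP n), Fr p q → ∀ x z, p.1.t x → q.1.t z → J p.1.a q.1.a x z →
      ((TT p.1).filter (fun y => y < x)).card ≤ ((TT q.1).filter (fun y => y < z)).card := by
    intro p q h x z hx hz hj
    have h' := mp_fr.1 h
    choose! f hf1 hf2 using fun x (hx : p.1.t x) => fr_exists h' hx
    refine Finset.card_le_card_of_injOn f ?_ ?_
    · intro y hy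
      have hy' := Finset.mem_filter.1 (Finset.mem_coe.1 hy)
      have hyt := mem_TT.1 hy'.1
      refine Finset.mem_coe.2 (Finset.mem_filter.2 ⟨mem_TT.2 (hf1 y hyt), ?_⟩)
      exact (fr_order h hyt (hf1 y hyt) (hf2 y hyt) hx hz hj).1 hy'.2
    · intro y hy w hw he
      have hy' := mem_TT.1 (Finset.mem_filter.1 (Finset.mem_coe.1 hy)).1
      have hw' := mem_TT.1 (Finset.mem_filter.1 (Finset.mem_coe.1 hw)).1
      apply fr_uniq h' hy' hw'
      have h1 := hf2 y hy'
      have h2 := hf2 w hw'
      rw [← he] at h2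
      exact h1.trans' h2.symm'
  have key2 : ∀ x z, p.1.t x → q.1.t z → J p.1.a q.1.a x z →
      ((TT p.1).filter (fun y => y < x)).card = ((TT q.1).filter (fun y => y < z)).card := by
    intro x z hx hz hj
    exact le_antisymm (key p q h x z hx hz hj) (key q p h.symm z x hz hx hj.symm'.swap)
  constructor
  · exact key2 x z hx hz
  · intro he
    have h1 := key2 x (f x) hx (hf1 x hx) (hf2 x hx)
    rw [he] at h1
    -- `z` and `f x` have the same index
    have : z = f x := by
      rcases lt_trichotomy z (f x) with hlt | heq | hlt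
      · exfalso
        have : ((TT q.1).filter (fun y => y < z)).card < ((TT q.1).filter (fun y => y < f x)).card := by
          apply Finset.card_lt_card
          rw [Finset.ssubset_iff_of_subset]
          · exact ⟨z, Finset.mem_filter.2 ⟨mem_TT.2 hz, hlt⟩, by simp⟩
          · intro y hy
            rw [Finset.mem_filter] at hy ⊢
            exact ⟨hy.1, hy.2.trans hlt⟩
        omega
      · exact heq
      · exfalso
        have : ((TT q.1).filter (fun y => y < f x)).card < ((TT q.1).filter (fun y => y < z)).card := by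
          apply Finset.card_lt_card
          rw [Finset.ssubset_iff_of_subset]
          · exact ⟨f x, Finset.mem_filter.2 ⟨mem_TT.2 (hf1 x hx), hlt⟩, by simp⟩
          · intro y hy
            rw [Finset.mem_filter] at hy ⊢
            exact ⟨hy.1, hy.2.trans hlt⟩
        omega
    rw [this]
    exact hf2 x hx

/-- no arcs if there is no gap -/
theorem no_gap_arc {p : MP n} (hg : ¬ HasGap p.1) (x : Fin n) : p.1.a x = x := by
  classical
  by_contra hx
  -- a shortest arc
  have hex : ∃ d, ∃ x : Fin n, p.1.a x ≠ x ∧ x < p.1.a x ∧ (p.1.a x).1 - x.1 = d := by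
    rcases lt_or_gt_of_ne hx with h | h
    · exact ⟨_, p.1.a x, by rw [p.1.inv]; exact fun h' => hx h'.symm, by rw [p.1.inv]; exact h, rfl⟩
    · exact ⟨_, x, hx, h, rfl⟩
  obtain ⟨x, h1, h2, h3⟩ := Nat.find_spec hex
  have hmin : ∀ m < Nat.find hex, ¬ ∃ x : Fin n, p.1.a x ≠ x ∧ x < p.1.a x ∧
      (p.1.a x).1 - x.1 = m := fun m hm => Nat.find_min hex hm
  have hlt : x.1 < (p.1.a x).1 := h2
  have hy1 : x.1 + 1 < n := lt_of_le_of_lt hlt (p.1.a x).2
  apply hg
  refine ⟨x, ⟨x.1 + 1, hy1⟩, rfl, fun ht => h1 (p.1.ht _ ht), ?_⟩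
  intro ht
  by_cases hc : (⟨x.1 + 1, hy1⟩ : Fin n) = p.1.a x
  · rw [hc] at ht
    have := p.1.ht _ ht
    rw [p.1.inv] at this
    exact h1 this.symm
  · have hlt2 : (⟨x.1 + 1, hy1⟩ : Fin n) < p.1.a x := by
      rw [Fin.lt_def]
      have : x.1 + 1 ≠ (p.1.a x).1 := fun h => hc (Fin.ext h)
      simp only
      omega
    exact (p.2 x ⟨x.1 + 1, hy1⟩ (by rw [Fin.lt_def]; simp) hlt2).1 ht

/-- alone in the component if there is no gap -/
theorem no_gap_alone {p q : MP n} (h : Fr p q) (hg : ¬ HasGap p.1) : q = p := by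
  have hp := no_gap_arc hg
  rw [mp_fr] at h
  have ht : ∀ x, p.1.t x → q.1.t x := by
    intro x hx
    obtain ⟨z, hz, hj⟩ := fr_exists h hx
    by_cases hzx : z = x
    · rw [← hzx]; exact hz
    · exact absurd (hp z) ((fr_struct hx hz hj z hj).1 hzx)
  have hsub : TT p.1 ⊆ TT q.1 := by
    intro x hx
    rw [mem_TT] at hx ⊢
    exact ht x hx
  have heq := Finset.eq_of_subset_of_card_le hsub (fr_card h).symm.le
  have ht2 : ∀ x, q.1.t x ↔ p.1.t x := by
    intro x
    rw [← mem_TT, ← mem_TT, heq]
  have hgq : ¬ HasGap q.1 := by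
    rintro ⟨x, y, h1, h2, h3⟩
    exact hg ⟨x, y, h1, fun h => h2 ((ht2 x).2 h), fun h => h3 ((ht2 y).2 h)⟩
  have hq := no_gap_arc hgq
  apply Subtype.ext
  apply Pj.ext
  · funext x; rw [hp, hq]
  · funext x; exact propext (ht2 x)

end

end Pool.Agent.H213PG
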