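import Pool.Agent.helper213_PG.M1Fri

set_option autoImplicit false

/-!
# The lower bound cocycle of the Motzkin monoids (paper 2.1)
-/

namespace Pool.Agent.H213PG

open PA Pj

section

variable {n : ℕ}

/-! ## arcs and through points -/

theorem m3low_nt {p : Pj n} (hp : Planar p) {x z : Fin n} (h : x < p.a x) (h1 : x ≤ z)
    (h2 : z ≤ p.a x) : ¬ p.t z := by
  intro hz
  rcases eq_or_lt_of_le h1 with e | h1
  · subst e
    have := p.ht _ hz
    rw [this] at h
    exact absurd h (lt_irrefl _)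
  rcases eq_or_lt_of_le h2 with e | h2
  · subst e
    have := p.ht _ hz
    rw [p.inv] at this
    rw [← this] at h
    exact absurd h (lt_irrefl _)
  exact (hp x z h1 h2).1 hz

theorem m3low_range_aux {p : Pj n} (hp : Planar p) {a b : ℕ}
    (H : ∀ x y : Fin n, x.1 + 1 = y.1 → ¬ p.t x → ¬ p.t y → a ≤ x.1 ∧ y.1 ≤ b) {x : Fin n}
    (hx : x < p.a x) : a ≤ x.1 ∧ (p.a x).1 ≤ b := by
  have hx' : x.1 < (p.a x).1 := hx
  have hl := (p.a x).2
  have h1 : a ≤ x.1 := by
    have := H x ⟨x.1 + 1, by omega⟩ rfl (m3low_nt hp hx le_rfl hx.le)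
      (m3low_nt hp hx (Fin.mk_le_of_le_val (by simp)) (Fin.mk_le_of_le_val (by simpa using hx')))
    exact this.1
  have h2 : (p.a x).1 ≤ b := by
    have := H ⟨(p.a x).1 - 1, by omega⟩ (p.a x) (by simp only; omega)
      (m3low_nt hp hx (by rw [Fin.le_def]; simp only; omega) (by rw [Fin.le_def]; simp only; omega))
      (m3low_nt hp hx hx.le le_rfl)
    exact this.2
  exact ⟨h1, h2⟩

theorem m3low_range {p : Pj n} (hp : Planar p) {a b : ℕ}
    (H : ∀ x y : Fin n, x.1 + 1 = y.1 → ¬ p.t x → ¬ p.t y → a ≤ x.1 ∧ y.1 ≤ b) {x : Fin n}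
    (hx : p.a x ≠ x) : a ≤ x.1 ∧ x.1 ≤ b := by
  rcases lt_or_gt_of_ne hx with h | h
  · have := m3low_range_aux hp H (x := p.a x) (by rw [p.inv]; exact h)
    rw [p.inv] at this
    have h' : (p.a x).1 < x.1 := h
    exact ⟨by omega, this.2⟩
  · have := m3low_range_aux hp H h
    have h' : x.1 < (p.a x).1 := h
    exact ⟨this.1, by omega⟩

/-- arcs of `A` lie in `[t+1, l+1]` -/
theorem m3low_arcA {A : Pj n} (hA : Planar A) {t l : Fin n} (hz : frozen (TT A) t l) {x : Fin n}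
    (hx : A.a x ≠ x) : t.1 + 1 ≤ x.1 ∧ x.1 ≤ l.1 + 1 := by
  refine m3low_range hA ?_ hx
  intro x y h h1 h2
  have := hz x y h (fun h => h1 (mem_TT.1 h)) (fun h => h2 (mem_TT.1 h))
  have e1 : t.1 < x.1 := this.1
  have e2 : x.1 ≤ l.1 := this.2
  omega

theorem m3low_mem_mv {T : Finset (Fin n)} {t l x : Fin n} : x ∈ mv T t l ↔ x = l ∨ x ≠ t ∧ x ∈ T := by
  simp [mv]

/-- arcs of `B` lie in `[t-1, l-1]` -/
theorem m3low_arcB {T : Finset (Fin n)} {B : Pj n} (hB : Planar B) {t l : Fin n} (hf : free T t l)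
    (hm : TT B = mv T t l) (hz : frozen T t l) {x : Fin n}
    (hx : B.a x ≠ x) : t.1 ≤ x.1 + 1 ∧ x.1 + 1 ≤ l.1 := by
  have htl : t.1 < l.1 := hf.2.1
  have := m3low_range hB (a := t.1 - 1) (b := l.1 - 1) (x := x) ?_ hx
  · omega
  intro x y h h1 h2
  have h1' : x ∉ mv T t l := fun h => h1 (mem_TT.1 (hm ▸ h))
  have h2' : y ∉ mv T t l := fun h => h2 (mem_TT.1 (hm ▸ h))
  rw [m3low_mem_mv] at h1' h2'
  push Not at h1' h2'
  by_cases e1 : x = t
  · subst e1
    by_cases e2 : y = l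
    · exact absurd e2 h2'.1
    · have : y.1 ≠ l.1 := fun h => e2 (Fin.ext h)
      omega
  · by_cases e2 : y = t
    · subst e2
      omega
    · have := hz x y h (h1'.2 e1) (h2'.2 e2)
      have e3 : t.1 < x.1 := this.1
      have e4 : x.1 ≤ l.1 := this.2
      have e5 : x.1 ≠ l.1 := fun h => h1'.1 (Fin.ext h)
      have e6 : y.1 ≠ l.1 := fun h => h2'.1 (Fin.ext h)
      omega

/-! ## the index of moved points -/

theorem m3low_filter {T : Finset (Fin n)} {t l : Fin n} (hf : free T t l) :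
    (T.filter (fun y => y < t)).card = ((mv T t l).filter (fun y => y < l)).card := by
  congr 1
  ext y
  simp only [Finset.mem_filter, m3low_mem_mv]
  constructor
  · rintro ⟨h1, h2⟩
    exact ⟨Or.inr ⟨h2.ne, h1⟩, h2.trans hf.2.1⟩
  · rintro ⟨h1 | h1, h2⟩
    · exact absurd h1 h2.ne
    · refine ⟨h1.2, ?_⟩
      by_contra h
      have : t < y := lt_of_le_of_ne (not_lt.1 h) (Ne.symm h1.1)
      exact hf.2.2 y this h2.le h1.2

theorem m3low_filter' {T : Finset (Fin n)} {t l : Fin n} (hf : free T t l) {x : Fin n}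
    (hx : x ∈ T) (hxt : x ≠ t) :
    (T.filter (fun y => y < x)).card = ((mv T t l).filter (fun y => y < x)).card := by
  rcases lt_or_gt_of_ne hxt with h | h
  · congr 1
    ext y
    simp only [Finset.mem_filter, m3low_mem_mv]
    constructor
    · rintro ⟨h1, h2⟩
      exact ⟨Or.inr ⟨(h2.trans h).ne, h1⟩, h2⟩
    · rintro ⟨h1 | h1, h2⟩
      · subst h1
        exact absurd ((h2.trans h).trans hf.2.1) (lt_irrefl _)
      · exact ⟨h1.2, h2⟩
  · have hlx : l < x := by
      by_contra h2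
      exact hf.2.2 x h (not_lt.1 h2) hx
    have e1 : T.filter (fun y => y < x) = insert t ((T.erase t).filter (fun y => y < x)) := by
      ext y
      simp only [Finset.mem_filter, Finset.mem_insert, Finset.mem_erase]
      constructor
      · rintro ⟨h1, h2⟩
        by_cases e : y = t
        · exact Or.inl e
        · exact Or.inr ⟨⟨e, h1⟩, h2⟩
      · rintro (h1 | h1)
        · subst h1; exact ⟨hf.1, h⟩
        · exact ⟨h1.1.2, h1.2⟩
    have e2 : (mv T t l).filter (fun y => y < x) = insert l ((T.erase t).filter (fun y => y < x)) := by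
      ext y
      simp only [Finset.mem_filter, m3low_mem_mv, Finset.mem_insert, Finset.mem_erase]
      constructor
      · rintro ⟨h1, h2⟩
        rcases h1 with h1 | h1
        · exact Or.inl h1
        · exact Or.inr ⟨h1, h2⟩
      · rintro (h1 | h1)
        · subst h1; exact ⟨Or.inl rfl, hlx⟩
        · exact ⟨Or.inr h1.1, h1.2⟩
    rw [e1, e2, Finset.card_insert_of_notMem, Finset.card_insert_of_notMem]
    · simp only [Finset.mem_filter, Finset.mem_erase]
      intro h2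
      exact hf.2.2 l hf.2.1 le_rfl h2.1.2
    · simp

theorem m3low_J {A B : MP n} (h : Fr A B) {t l : Fin n} (hf : free (TT A.1) t l)
    (hm : TT B.1 = mv (TT A.1) t l) : J A.1.a B.1.a t l := by
  rw [fr_index h (mem_TT.1 hf.1) (mem_TT.1 (by rw [hm, m3low_mem_mv]; exact Or.inl rfl)), hm]
  exact m3low_filter hf

/-! ## Lemma C -/

theorem m3low_val_ne {x y : Fin n} (h : x ≠ y) : x.1 ≠ y.1 := fun e => h (Fin.ext e)

/-- Lemma C, blocks of size 3 -/
theorem m3low_C3 {A B : MP n} (h : Fr A B) {t l : Fin n} (hf : free (TT A.1) t l)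
    (hm : TT B.1 = mv (TT A.1) t l) (hz : frozen (TT A.1) t l) (hl : l.1 = t.1 + 3) :
    ((B.1.a t).1 = t.1 + 1 ∨ (B.1.a t).1 = t.1 + 2) ∧ A.1.a l = B.1.a t := by
  have htA : A.1.t t := mem_TT.1 hf.1
  have hlB : B.1.t l := mem_TT.1 (by rw [hm, m3low_mem_mv]; exact Or.inl rfl)
  have hJ := m3low_J h hf hm
  have hs := fr_struct htA hlB hJ
  have htl : t ≠ l := hf.2.1.ne
  set j := B.1.a t with hj
  have hjt : j ≠ t := (hs t (J.rfl' t)).2 htl
  have hKj : J A.1.a B.1.a t j := J.right t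
  have hAj : A.1.a j ≠ j := (hs j hKj).1 hjt
  have hBj : B.1.a j ≠ j := by rw [hj, B.1.inv]; exact hjt.symm
  have r1 := m3low_arcA A.2 hz hAj
  have r2 := m3low_arcB B.2 hf hm hz hBj
  have hj12 : j.1 = t.1 + 1 ∨ j.1 = t.1 + 2 := by omega
  refine ⟨hj12, ?_⟩
  by_contra hcon
  set m := A.1.a j with hmd
  have hml : m ≠ l := by
    intro e
    apply hcon
    rw [← e, hmd, A.1.inv]
  have hKm : J A.1.a B.1.a t m := hKj.trans' (J.left j)
  have hBm : B.1.a m ≠ m := (hs m hKm).2 hml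
  have hAm : A.1.a m ≠ m := by rw [hmd, A.1.inv]; exact hAj.symm
  have r3 := m3low_arcA A.2 hz hAm
  have r4 := m3low_arcB B.2 hf hm hz hBm
  have hm12 : m.1 = t.1 + 1 ∨ m.1 = t.1 + 2 := by omega
  have hmj : m.1 ≠ j.1 := m3low_val_ne hAj
  set w := B.1.a m with hw
  have hKw : J A.1.a B.1.a t w := hKm.trans' (J.right m)
  have hwt : w ≠ t := by
    intro e
    apply hmj
    rw [hj, ← e, hw, B.1.inv]
  have hAw : A.1.a w ≠ w := (hs w hKw).1 hwt
  have hBw : B.1.a w ≠ w := by rw [hw, B.1.inv]; exact hBm.symm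
  have r5 := m3low_arcA A.2 hz hAw
  have r6 := m3low_arcB B.2 hf hm hz hBw
  have hwm : w.1 ≠ m.1 := m3low_val_ne hBm
  have hwj : w = j := Fin.ext (by omega)
  have : m = t := by
    rw [← B.1.inv m, ← hw, hwj, hj, B.1.inv]
  have : m.1 = t.1 := congrArg _ this
  omega

/-- Lemma C, blocks of size 4, first half -/
theorem m3low_C4 {A B : MP n} (h : Fr A B) {t l : Fin n} (hf : free (TT A.1) t l)
    (hm : TT B.1 = mv (TT A.1) t l) (hz : frozen (TT A.1) t l) (hl : l.1 = t.1 + 4)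
    (hjv : (B.1.a t).1 = t.1 + 2) : A.1.a l = B.1.a t := by
  have htA : A.1.t t := mem_TT.1 hf.1
  have hlB : B.1.t l := mem_TT.1 (by rw [hm, m3low_mem_mv]; exact Or.inl rfl)
  have hJ := m3low_J h hf hm
  have hs := fr_struct htA hlB hJ
  have htl : t ≠ l := hf.2.1.ne
  set j := B.1.a t with hj
  have hjt : j ≠ t := (hs t (J.rfl' t)).2 htl
  have hKj : J A.1.a B.1.a t j := J.right t
  have hAj : A.1.a j ≠ j := (hs j hKj).1 hjt
  by_contra hcon
  set m := A.1.a j with hmd
  have hml : m ≠ l := by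
    intro e
    apply hcon
    rw [← e, hmd, A.1.inv]
  have hKm : J A.1.a B.1.a t m := hKj.trans' (J.left j)
  have hBm : B.1.a m ≠ m := (hs m hKm).2 hml
  have hAm : A.1.a m ≠ m := by rw [hmd, A.1.inv]; exact hAj.symm
  have r3 := m3low_arcA A.2 hz hAm
  have r4 := m3low_arcB B.2 hf hm hz hBm
  have hmj : m.1 ≠ j.1 := m3low_val_ne hAj
  have htj : t < B.1.a t := by rw [Fin.lt_def, ← hj]; omega
  have hm1 : m.1 ≠ t.1 + 1 := by
    intro e
    have := B.2 t m (by rw [Fin.lt_def]; omega) (by rw [Fin.lt_def, ← hj]; omega)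
    have e1 : t.1 < (B.1.a m).1 := this.2.1
    have e2 : (B.1.a m).1 < j.1 := this.2.2
    exact hBm (Fin.ext (by omega))
  have hm3 : m.1 = t.1 + 3 := by omega
  set w := B.1.a m with hw
  have hKw : J A.1.a B.1.a t w := hKm.trans' (J.right m)
  have hwt : w ≠ t := by
    intro e
    apply hmj
    rw [hj, ← e, hw, B.1.inv]
  have hAw : A.1.a w ≠ w := (hs w hKw).1 hwt
  have hBw : B.1.a w ≠ w := by rw [hw, B.1.inv]; exact hBm.symm
  have r5 := m3low_arcA A.2 hz hAw
  have r6 := m3low_arcB B.2 hf hm hz hBw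
  have hwm : w.1 ≠ m.1 := m3low_val_ne hBm
  have hwj : w.1 ≠ j.1 := by
    intro e
    have e := Fin.ext e
    have : m = t := by
      rw [← B.1.inv m, ← hw, e, hj, B.1.inv]
    have : m.1 = t.1 := congrArg _ this
    omega
  have hw1 : w.1 = t.1 + 1 := by omega
  have := B.2 t w (by rw [Fin.lt_def]; omega) (by rw [Fin.lt_def, ← hj]; omega)
  have e1 : t.1 < (B.1.a w).1 := this.2.1
  have e2 : (B.1.a w).1 < j.1 := this.2.2
  exact hBw (Fin.ext (by omega))

/-- Lemma C, blocks of size 4, second half -/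
theorem m3low_C4' {A B : MP n} (h : Fr A B) {t l : Fin n} (hf : free (TT A.1) t l)
    (hm : TT B.1 = mv (TT A.1) t l) (hz : frozen (TT A.1) t l) (hl : l.1 = t.1 + 4)
    (hjv : (A.1.a l).1 = t.1 + 2) : A.1.a l = B.1.a t := by
  have htA : A.1.t t := mem_TT.1 hf.1
  have hlB : B.1.t l := mem_TT.1 (by rw [hm, m3low_mem_mv]; exact Or.inl rfl)
  have hJ := m3low_J h hf hm
  have hs := fr_struct htA hlB hJ
  have htl : t ≠ l := hf.2.1.ne
  set j := A.1.a l with hj
  have hjl : j ≠ l := (hs l hJ).1 htl.symm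
  have hKj : J A.1.a B.1.a t j := hJ.trans' (J.left l)
  have hBj : B.1.a j ≠ j := (hs j hKj).2 hjl
  by_contra hcon
  set m := B.1.a j with hmd
  have hmt : m ≠ t := by
    intro e
    apply hcon
    rw [← e, hmd, B.1.inv]
  have hKm : J A.1.a B.1.a t m := hKj.trans' (J.right j)
  have hAm : A.1.a m ≠ m := (hs m hKm).1 hmt
  have hBm : B.1.a m ≠ m := by rw [hmd, B.1.inv]; exact hBj.symm
  have r3 := m3low_arcA A.2 hz hAm
  have r4 := m3low_arcB B.2 hf hm hz hBm
  have hmj : m.1 ≠ j.1 := m3low_val_ne hBj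
  have hAj : A.1.a j = l := by rw [hj, A.1.inv]
  have hm3 : m.1 ≠ t.1 + 3 := by
    intro e
    have := A.2 j m (by rw [Fin.lt_def]; omega) (by rw [Fin.lt_def, hAj]; omega)
    have e1 : j.1 < (A.1.a m).1 := this.2.1
    have e2 : (A.1.a m).1 < l.1 := by have := this.2.2; rwa [hAj] at this
    exact hAm (Fin.ext (by omega))
  have hm1 : m.1 = t.1 + 1 := by omega
  set w := A.1.a m with hw
  have hKw : J A.1.a B.1.a t w := hKm.trans' (J.left m)
  have hwl : w ≠ l := by
    intro e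
    apply hmj
    rw [hj, ← e, hw, A.1.inv]
  have hBw : B.1.a w ≠ w := (hs w hKw).2 hwl
  have hAw : A.1.a w ≠ w := by rw [hw, A.1.inv]; exact hAm.symm
  have r5 := m3low_arcA A.2 hz hAw
  have r6 := m3low_arcB B.2 hf hm hz hBw
  have hwm : w.1 ≠ m.1 := m3low_val_ne hAm
  have hwj : w.1 ≠ j.1 := by
    intro e
    have e := Fin.ext e
    have : m = l := by
      rw [← A.1.inv m, ← hw, e, hAj]
    have : m.1 = l.1 := congrArg _ this
    omega
  have hw3 : w.1 = t.1 + 3 := by omega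
  have := A.2 j w (by rw [Fin.lt_def]; omega) (by rw [Fin.lt_def, hAj]; omega)
  have e1 : j.1 < (A.1.a w).1 := this.2.1
  have e2 : (A.1.a w).1 < l.1 := by have := this.2.2; rwa [hAj] at this
  exact hAw (Fin.ext (by omega))

theorem m3low_C {A B : MP n} (h : Fr A B) {t l : Fin n} (hf : free (TT A.1) t l)
    (hm : TT B.1 = mv (TT A.1) t l) :
    labv (TT A.1) t (B.1.a t) l = labv (TT A.1) t (A.1.a l) l := by
  by_cases hz : frozen (TT A.1) t l
  · by_cases h3 : l.1 = t.1 + 3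
    · rw [(m3low_C3 h hf hm hz h3).2]
    · by_cases h4 : l.1 = t.1 + 4
      · by_cases e1 : (B.1.a t).1 = t.1 + 2
        · rw [m3low_C4 h hf hm hz h4 e1]
        · by_cases e2 : (A.1.a l).1 = t.1 + 2
          · rw [m3low_C4' h hf hm hz h4 e2]
          · simp [labv, h3, e1, e2]
      · simp [labv, h3, h4]
  · simp [labv, hz]

/-! ## Lemma D -/

/-- labelled moves -/
structure m3lowLab (A B : MP n) (t l : Fin n) : Prop where
  fr : Fr A B
  hf : free (TT A.1) t l
  hm : TT B.1 = mv (TT A.1) t l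
  hz : frozen (TT A.1) t l
  cs : l.1 = t.1 + 3 ∧ ((B.1.a t).1 = t.1 + 1 ∨ (B.1.a t).1 = t.1 + 2) ∨
    l.1 = t.1 + 4 ∧ (B.1.a t).1 = t.1 + 2
  eq : A.1.a l = B.1.a t

theorem m3low_lab {A B : MP n} (h : Fr A B) {t l : Fin n} (hf : free (TT A.1) t l)
    (hm : TT B.1 = mv (TT A.1) t l) (hne : labv (TT A.1) t (B.1.a t) l ≠ 1) : m3lowLab A B t l := by
  unfold labv at hne
  split_ifs at hne with h1 h2 h3
  · exact ⟨h, hf, hm, h1.1, Or.inl ⟨h1.2.1, Or.inl h1.2.2⟩, (m3low_C3 h hf hm h1.1 h1.2.1).2⟩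
  · exact ⟨h, hf, hm, h2.1, Or.inl ⟨h2.2.1, Or.inr h2.2.2⟩, (m3low_C3 h hf hm h2.1 h2.2.1).2⟩
  · exact ⟨h, hf, hm, h3.1, Or.inr ⟨h3.2.1, h3.2.2⟩, m3low_C4 h hf hm h3.1 h3.2.1 h3.2.2⟩
  · exact absurd rfl hne

/-- at most one point is matched by both -/
theorem m3low_X {A B : MP n} {t l : Fin n} (h : m3lowLab A B t l) {y : Fin n} (hA : A.1.a y ≠ y)
    (hB : B.1.a y ≠ y) : y = B.1.a t := by
  obtain ⟨hfr, hf, hm, hz, hcs, heq⟩ := h
  have r1 := m3low_arcA A.2 hz hA
  have r2 := m3low_arcB B.2 hf hm hz hB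
  set j := B.1.a t with hj
  have hAj : A.1.a j = l := by rw [← heq, A.1.inv]
  have htj : t.1 < j.1 := by omega
  have hjl : j.1 < l.1 := by omega
  -- points under `{t, j}`
  have u1 : ¬ (t.1 < y.1 ∧ y.1 < j.1) := by
    rintro ⟨h1, h2⟩
    have := B.2 t y (by rw [Fin.lt_def]; omega) (by rw [Fin.lt_def, ← hj]; omega)
    have e1 : t.1 < (B.1.a y).1 := this.2.1
    have e2 : (B.1.a y).1 < j.1 := this.2.2
    exact hB (Fin.ext (by omega))
  have u2 : ¬ (j.1 < y.1 ∧ y.1 < l.1) := by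
    rintro ⟨h1, h2⟩
    have := A.2 j y (by rw [Fin.lt_def]; omega) (by rw [Fin.lt_def, hAj]; omega)
    have e1 : j.1 < (A.1.a y).1 := this.2.1
    have e2 : (A.1.a y).1 < l.1 := by have := this.2.2; rwa [hAj] at this
    exact hA (Fin.ext (by omega))
  apply Fin.ext
  omega

/-- other through points do not move -/
theorem m3low_D1 {A B C : MP n} {t l : Fin n} (h : m3lowLab A B t l) (hAC : Fr A C)
    (hBC : Fr B C) {x : Fin n} (hx : A.1.t x) (hxt : x ≠ t) : C.1.t x := by
  have hxT : x ∈ TT A.1 := mem_TT.2 hx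
  have hxB : B.1.t x := by
    apply mem_TT.1
    rw [h.hm, m3low_mem_mv]
    exact Or.inr ⟨hxt, hxT⟩
  obtain ⟨z, hz, hj⟩ := fr_exists (mp_fr.1 hAC) hx
  have hj2 : J B.1.a C.1.a x z := by
    rw [fr_index hBC hxB hz, h.hm, ← m3low_filter' h.hf hxT hxt]
    exact (fr_index hAC hx hz).1 hj
  by_cases e : z = x
  · rw [← e]; exact hz
  · exfalso
    have s1 := fr_struct hx hz hj
    have s2 := fr_struct hxB hz hj2
    have hCx : C.1.a x ≠ x := (s1 x (J.rfl' x)).2 (Ne.symm e)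
    have e1 := m3low_X h ((s1 z hj).1 e) ((s2 z hj2).1 e)
    have e2 := m3low_X h ((s1 _ (J.right x)).1 hCx) ((s2 _ (J.right x)).1 hCx)
    have : C.1.a x = z := by rw [e1, e2]
    have h3 := C.1.ht _ hz
    rw [← this, C.1.inv] at h3
    exact hCx h3.symm

theorem m3low_D2 {A B C : MP n} {t l : Fin n} (h : m3lowLab A B t l) (hAC : Fr A C)
    (hBC : Fr B C) : C.1.t t ∨ C.1.t l := by
  have htA : A.1.t t := mem_TT.1 h.hf.1
  have hlB : B.1.t l := mem_TT.1 (by rw [h.hm, m3low_mem_mv]; exact Or.inl rfl)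
  obtain ⟨z, hz, hj⟩ := fr_exists (mp_fr.1 hAC) htA
  have hj2 : J B.1.a C.1.a l z := by
    rw [fr_index hBC hlB hz, h.hm, ← m3low_filter h.hf]
    exact (fr_index hAC htA hz).1 hj
  by_contra hcon
  push Not at hcon
  have ht : z ≠ t := fun e => hcon.1 (e ▸ hz)
  have hl : z ≠ l := fun e => hcon.2 (e ▸ hz)
  have s1 := fr_struct htA hz hj
  have s2 := fr_struct hlB hz hj2
  have e1 := m3low_X h ((s1 z hj).1 ht) ((s2 z hj2).1 hl)
  have n1 := fr_ne_succ htA hz hj
  have n2 := fr_ne_succ hlB hz hj2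
  obtain ⟨hfr, hf, hm, hfz, hcs, heq⟩ := h
  have e1' : z.1 = (B.1.a t).1 := congrArg _ e1
  have hl4 : l.1 = t.1 + 4 := by omega
  have hz2 : z.1 = t.1 + 2 := by omega
  have hAz : A.1.a z = l := by rw [e1, ← heq, A.1.inv]
  have hCz : C.1.a z = z := C.1.ht _ hz
  -- `u = C.a t = t + 1`
  have hut : C.1.a t ≠ t := (s1 t (J.rfl' t)).2 ht.symm
  have hKu : J A.1.a C.1.a t (C.1.a t) := J.right t
  have hAu : A.1.a (C.1.a t) ≠ C.1.a t := (s1 _ hKu).1 hut
  have r1 := m3low_arcA A.2 hfz hAu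
  have hu1 : (C.1.a t).1 = t.1 + 1 := by
    have hne : (C.1.a t).1 ≠ z.1 := by
      intro e
      have e := Fin.ext e
      have : t = z := by rw [← C.1.inv t, e, hCz]
      exact ht this.symm
    by_contra hh
    exact m3low_nt C.2 (x := t) (z := z) (by rw [Fin.lt_def]; omega) (by rw [Fin.le_def]; omega)
      (by rw [Fin.le_def]; omega) hz
  -- `C.a l = t + 3`
  have hvl : C.1.a l ≠ l := (s2 l (J.rfl' l)).2 hl.symm
  have hKv : J B.1.a C.1.a l (C.1.a l) := J.right l
  have hBv : B.1.a (C.1.a l) ≠ C.1.a l := (s2 _ hKv).1 hvl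
  have r2 := m3low_arcB B.2 hf hm hfz hBv
  have hv3 : (C.1.a l).1 = t.1 + 3 := by
    have hne : (C.1.a l).1 ≠ z.1 := by
      intro e
      have e := Fin.ext e
      have : l = z := by rw [← C.1.inv l, e, hCz]
      exact hl this.symm
    by_contra hh
    exact m3low_nt C.2 (x := C.1.a l) (z := z) (by rw [Fin.lt_def, C.1.inv]; omega)
      (by rw [Fin.le_def]; omega) (by rw [Fin.le_def, C.1.inv]; omega) hz
  -- `A.a u = t + 5`
  set u := C.1.a t with hu
  set v := C.1.a l with hv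
  set w := A.1.a u with hw
  have hAw : A.1.a w ≠ w := by rw [hw, A.1.inv]; exact hAu.symm
  have r3 := m3low_arcA A.2 hfz hAw
  have hwu : w.1 ≠ u.1 := m3low_val_ne hAu
  have hwz : w.1 ≠ z.1 := by
    intro e
    have e := Fin.ext e
    have : u = l := by rw [← A.1.inv u, ← hw, e, hAz]
    have : u.1 = l.1 := congrArg _ this
    omega
  have hwl : w.1 ≠ l.1 := by
    intro e
    have e := Fin.ext e
    have : u = z := by rw [← A.1.inv u, ← hw, e, ← hAz, A.1.inv]
    have : u.1 = z.1 := congrArg _ this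
    omega
  have hw3 : w.1 ≠ t.1 + 3 := by
    intro e
    have := A.2 z w (by rw [Fin.lt_def]; omega) (by rw [Fin.lt_def, hAz]; omega)
    have e1 : z.1 < (A.1.a w).1 := this.2.1
    rw [hw, A.1.inv] at e1
    omega
  have hw5 : w.1 = t.1 + 5 := by omega
  have hKw : J A.1.a C.1.a t w := hKu.trans' (J.left u)
  have hCw : C.1.a w ≠ w := (s1 w hKw).2 (fun e => hwz (congrArg _ e))
  set y := C.1.a w with hy
  have hCy : C.1.a y = w := by rw [hy, C.1.inv]
  have hKy : J A.1.a C.1.a t y := hKw.trans' (J.right w)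
  have hyt : y ≠ t := by
    intro e
    have : w = u := by rw [← hCy, e, hu]
    exact hwu (congrArg _ this)
  have hAy : A.1.a y ≠ y := (s1 y hKy).1 hyt
  have r4 := m3low_arcA A.2 hfz hAy
  have hyw : y.1 ≠ w.1 := m3low_val_ne hCw
  have hyz : y.1 ≠ z.1 := by
    intro e
    have e := Fin.ext e
    have : w = z := by rw [← hCy, e, hCz]
    exact hwz (congrArg _ this)
  have hyu : y.1 ≠ u.1 := by
    intro e
    have e := Fin.ext e
    have : w = t := by rw [← hCy, e, hu, C.1.inv]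
    have : w.1 = t.1 := congrArg _ this
    omega
  have hyl : y.1 ≠ l.1 := by
    intro e
    have e := Fin.ext e
    have : w = v := by rw [← hCy, e, hv]
    have : w.1 = v.1 := congrArg _ this
    omega
  have hyv : y.1 ≠ v.1 := by
    intro e
    have e := Fin.ext e
    have : w = l := by rw [← hCy, e, hv, C.1.inv]
    exact hwl (congrArg _ this)
  omega

theorem m3low_D {A B C : MP n} {t l : Fin n} (h : m3lowLab A B t l) (hAC : Fr A C)
    (hBC : Fr B C) : TT C.1 = TT A.1 ∨ TT C.1 = TT B.1 := by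
  have hc := fr_card (mp_fr.1 hAC)
  rcases m3low_D2 h hAC hBC with ht | hl
  · left
    symm
    apply Finset.eq_of_subset_of_card_le _ hc.ge
    intro x hx
    by_cases e : x = t
    · subst e; exact mem_TT.2 ht
    · exact mem_TT.2 (m3low_D1 h hAC hBC (mem_TT.1 hx) e)
  · right
    symm
    apply Finset.eq_of_subset_of_card_le _ (by rw [← fr_card (mp_fr.1 hBC)])
    intro x hx
    rw [h.hm, m3low_mem_mv] at hx
    rcases hx with e | hx
    · subst e; exact mem_TT.2 hl
    · exact mem_TT.2 (m3low_D1 h hAC hBC (mem_TT.1 hx.2) hx.1)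

/-! ## the cocycle -/

theorem cM_inv (p q : MP n) : cM p q * cM q p = 1 := by
  unfold cM
  group

theorem m3low_mv_uniq {T : Finset (Fin n)} {t l t' l' : Fin n} (h : free T t l) (h' : free T t' l')
    (e : mv T t l = mv T t' l') : t = t' ∧ l = l' := by
  have hl : l ∉ T := h.2.2 l h.2.1 le_rfl
  have hl' : l' ∉ T := h'.2.2 l' h'.2.1 le_rfl
  have e1 : l = l' := by
    have : l ∈ mv T t' l' := by rw [← e, m3low_mem_mv]; exact Or.inl rfl
    rw [m3low_mem_mv] at this
    rcases this with h1 | h1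
    · exact h1
    · exact absurd h1.2 hl
  refine ⟨?_, e1⟩
  by_contra hne
  have : t ∈ mv T t l := by
    rw [e, m3low_mem_mv]
    exact Or.inr ⟨hne, h.1⟩
  rw [m3low_mem_mv] at this
  rcases this with h1 | h1
  · exact h.2.1.ne h1
  · exact h1.1 rfl

theorem m3low_Lb_eq {p q : Pj n} {t l : Fin n} (hf : free (TT p) t l)
    (hm : TT q = mv (TT p) t l) : Lb p q = labv (TT p) t (q.a t) l := by
  have h : ∃ t l, free (TT p) t l ∧ TT q = mv (TT p) t l := ⟨t, l, hf, hm⟩
  unfold Lb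
  rw [dif_pos h]
  have hs := h.choose_spec.choose_spec
  obtain ⟨e1, e2⟩ := m3low_mv_uniq hs.1 hf (hs.2.symm.trans hm)
  rw [e2, e1]

theorem m3low_Lb_none {p q : Pj n} (h : ¬ ∃ t l, free (TT p) t l ∧ TT q = mv (TT p) t l) :
    Lb p q = 1 := by
  unfold Lb
  rw [dif_neg h]

theorem m3low_Lb_same {p q : Pj n} (h : TT p = TT q) : Lb p q = 1 := by
  apply m3low_Lb_none
  rintro ⟨t, l, hf, hm⟩
  have : l ∈ TT p := by rw [h, hm, m3low_mem_mv]; exact Or.inl rfl
  exact hf.2.2 l hf.2.1 le_rfl this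

theorem m3low_Lb_rev {p q : Pj n} {t l : Fin n} (hf : free (TT p) t l)
    (hm : TT q = mv (TT p) t l) : Lb q p = 1 := by
  apply m3low_Lb_none
  rintro ⟨t', l', hf', hm'⟩
  have h1 : l ∈ TT q := by rw [hm, m3low_mem_mv]; exact Or.inl rfl
  have h2 : l ∉ TT p := hf.2.2 l hf.2.1 le_rfl
  have h3 : t ∉ TT q := by
    rw [hm, m3low_mem_mv]
    rintro (h | h)
    · exact hf.2.1.ne h
    · exact h.1 rfl
  have e1 : l = t' := by
    by_contra hne
    apply h2
    rw [hm', m3low_mem_mv]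
    exact Or.inr ⟨hne, h1⟩
  have e2 : t = l' := by
    have := hf.1
    rw [hm', m3low_mem_mv] at this
    rcases this with h | h
    · exact h
    · exact absurd h.2 h3
  have h4 := hf'.2.1
  rw [← e1, ← e2] at h4
  exact absurd (h4.trans hf.2.1) (lt_irrefl _)

theorem cM_same {p q : MP n} (h : TT p.1 = TT q.1) : cM p q = 1 := by
  unfold cM
  rw [m3low_Lb_same h, m3low_Lb_same h.symm]
  group

theorem m3low_cM_mv {p q : MP n} {t l : Fin n} (hf : free (TT p.1) t l)
    (hm : TT q.1 = mv (TT p.1) t l) : cM p q = labv (TT p.1) t (q.1.a t) l := by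
  unfold cM
  rw [m3low_Lb_eq hf hm, m3low_Lb_rev hf hm, inv_one, mul_one]

theorem cM_rt {p q : MP n} {t j l : Fin n} (h : Rt p.1 q.1 t j l) :
    cM p q = labv (TT p.1) t j l := by
  rw [m3low_cM_mv h.fr h.mv, h.qt]

theorem m3low_symm (p q : MP n) : cM q p = (cM p q)⁻¹ :=
  (inv_eq_of_mul_eq_one_right (cM_inv p q)).symm

/-- triangles with a labelled side -/
theorem m3low_tri {A B C : MP n} {t l : Fin n} (h : m3lowLab A B t l) (hAC : Fr A C)
    (hBC : Fr B C) : cM A B = cM A C * cM C B := by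
  rcases m3low_D h hAC hBC with e | e
  · rw [cM_same e.symm, one_mul]
    have hf : free (TT C.1) t l := by rw [e]; exact h.hf
    have hm : TT B.1 = mv (TT C.1) t l := by rw [e]; exact h.hm
    rw [m3low_cM_mv hf hm, m3low_cM_mv h.hf h.hm, e]
  · rw [cM_same e, mul_one]
    have hm : TT C.1 = mv (TT A.1) t l := by rw [e]; exact h.hm
    rw [m3low_cM_mv h.hf hm, m3low_cM_mv h.hf h.hm, m3low_C h.fr h.hf h.hm, m3low_C hAC h.hf hm]

theorem m3low_ne {p q : MP n} (h : Fr p q) (hne : cM p q ≠ 1) :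
    (∃ t l, m3lowLab p q t l) ∨ ∃ t l, m3lowLab q p t l := by
  by_cases h1 : Lb p.1 q.1 = 1
  · right
    have h2 : Lb q.1 p.1 ≠ 1 := by
      intro h2
      apply hne
      unfold cM
      rw [h1, h2]
      group
    by_cases h3 : ∃ t l, free (TT q.1) t l ∧ TT p.1 = mv (TT q.1) t l
    · obtain ⟨t, l, hf, hm⟩ := h3
      rw [m3low_Lb_eq hf hm] at h2
      exact ⟨t, l, m3low_lab h.symm hf hm h2⟩
    · exact absurd (m3low_Lb_none h3) h2
  · left
    by_cases h3 : ∃ t l, free (TT p.1) t l ∧ TT q.1 = mv (TT p.1) t l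
    · obtain ⟨t, l, hf, hm⟩ := h3
      rw [m3low_Lb_eq hf hm] at h1
      exact ⟨t, l, m3low_lab h hf hm h1⟩
    · exact absurd (m3low_Lb_none h3) h1

/-- triangles with a nontrivial side -/
theorem m3low_tri' {A B C : MP n} (hAB : Fr A B) (hAC : Fr A C) (hBC : Fr B C)
    (hne : cM A B ≠ 1) : cM A B = cM A C * cM C B := by
  rcases m3low_ne hAB hne with ⟨t, l, h⟩ | ⟨t, l, h⟩
  · exact m3low_tri h hAC hBC
  · have := m3low_tri h hBC hAC
    rw [m3low_symm B A, this, mul_inv_rev, ← m3low_symm, ← m3low_symm]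

/-- cocycle identity, in fact for all pairwise friendly triples -/
theorem cM_tri3 {p s q : MP n} (h1 : Fr p s) (h2 : Fr s q) (h3 : Fr p q) :
    cM p q = cM p s * cM s q := by
  by_cases e1 : cM p q = 1
  · by_cases e2 : cM p s = 1
    · by_cases e3 : cM s q = 1
      · rw [e1, e2, e3, one_mul]
      · have := m3low_tri' h2 h1.symm h3.symm e3
        rw [this, ← mul_assoc, cM_inv, one_mul]
    · have := m3low_tri' h1 h3 h2 e2
      rw [this, mul_assoc, cM_inv, mul_one]
  · exact m3low_tri' h3 h1 h2.symm e1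

theorem cM_coc (b : MP n) : Coc b (cM (n := n)) := by
  constructor
  · intro p q _ _
    exact cM_inv p q
  · intro p q s _ h h1 h2
    have ha : Fr p (th p s) := fr_th h2
    have haq : Fr (th p s) q := by
      constructor
      · have k1 : th (th p s) q = th (th (th p s) q) s := by
          conv_lhs => rw [← h1]
          rw [th_th, th_idem]
        have k2 : th p q = th (th (th p s) q) s := by
          conv_lhs => rw [← h1]
          rw [th_th]
        rw [k1, ← k2, h.1]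
      · rw [th_th, h1, h.2]
    exact cM_tri3 ha haq h

end

end Pool.Agent.H213PG
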