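import Pool.Agent.helper213_PG.Defs
import Pool.Agent.helper213_PG.Chips2

set_option autoImplicit false

/-!
# Through sets and bins
-/

namespace Pool.Agent.H213PG

section

variable {n r : ℕ}

/-- start of a bin -/
def m5bin_bs (g : ℕ → ℕ) (l : ℕ) : ℕ := l + ∑ m ∈ Finset.range l, g m

theorem m5bin_pos_eq (g : ℕ → ℕ) (l : ℕ) : pos g l = m5bin_bs g l + g l := by
  unfold pos m5bin_bs
  rw [Finset.sum_range_succ]
  ring

theorem m5bin_bs_succ (g : ℕ → ℕ) (l : ℕ) : m5bin_bs g (l + 1) = pos g l + 1 := by
  unfold pos m5bin_bs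
  ring

theorem m5bin_bs_mono (g : ℕ → ℕ) {i j : ℕ} (h : i ≤ j) : m5bin_bs g i ≤ m5bin_bs g j := by
  unfold m5bin_bs
  have : ∑ m ∈ Finset.range i, g m ≤ ∑ m ∈ Finset.range j, g m :=
    Finset.sum_le_sum_of_subset (Finset.range_mono h)
  omega

theorem m5bin_pos_lt (g : ℕ → ℕ) {i j : ℕ} (h : i < j) : pos g i < pos g j := by
  have h1 := m5bin_bs_mono g (show i + 1 ≤ j from h)
  rw [m5bin_bs_succ] at h1
  have h2 := m5bin_pos_eq g j
  omega

theorem m5bin_pos_inj (g : ℕ → ℕ) {i j : ℕ} (h : pos g i = pos g j) : i = j := by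
  rcases lt_trichotomy i j with h1 | h1 | h1
  · have := m5bin_pos_lt g h1
    omega
  · exact h1
  · have := m5bin_pos_lt g h1
    omega

theorem m5bin_pos_r {g : ℕ → ℕ} (h : tot r g + r = n) : pos g r = n := by
  unfold pos
  unfold tot at h
  omega

theorem m5bin_pos_n {g : ℕ → ℕ} (h : tot r g + r = n) {i : ℕ} (hi : i < r) : pos g i < n := by
  rw [← m5bin_pos_r h]
  exact m5bin_pos_lt g hi

theorem m5bin_mem {g : ℕ → ℕ} {x : Fin n} : x ∈ TG n r g ↔ ∃ i < r, x.1 = pos g i := by
  unfold TG
  simp

/-- counting in `TG` -/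
theorem m5bin_cnt {g : ℕ → ℕ} (h : tot r g + r = n) (Q : ℕ → Prop) [DecidablePred Q] :
    ((TG n r g).filter (fun y => Q y.1)).card = ((Finset.range r).filter (fun i => Q (pos g i))).card := by
  symm
  refine Finset.card_bij (fun i hi => ⟨pos g i, m5bin_pos_n h (Finset.mem_range.1 (Finset.mem_filter.1 hi).1)⟩) ?_ ?_ ?_
  · intro i hi
    rw [Finset.mem_filter] at hi ⊢
    exact ⟨m5bin_mem.2 ⟨i, Finset.mem_range.1 hi.1, rfl⟩, hi.2⟩
  · intro i hi j hj hij
    exact m5bin_pos_inj g (congrArg Fin.val hij)
  · intro x hx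
    rw [Finset.mem_filter] at hx
    obtain ⟨i, hi, hxi⟩ := m5bin_mem.1 hx.1
    refine ⟨i, ?_, Fin.ext hxi.symm⟩
    rw [Finset.mem_filter]
    refine ⟨Finset.mem_range.2 hi, ?_⟩
    rw [← hxi]
    exact hx.2

/-- (b1) -/
theorem card_TG {g : ℕ → ℕ} (h : tot r g + r = n) : (TG n r g).card = r := by
  have := m5bin_cnt h (fun _ => True)
  simpa using this

/-- the bins of `TG` -/
theorem m5bin_iff {g : ℕ → ℕ} (h : tot r g + r = n) {l : ℕ} (hl : l ≤ r) (x : Fin n) :
    (x ∉ TG n r g ∧ ((TG n r g).filter (fun y => y < x)).card = l) ↔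
      m5bin_bs g l ≤ x.1 ∧ x.1 < m5bin_bs g l + g l := by
  have hc : ((TG n r g).filter (fun y => y < x)).card =
      ((Finset.range r).filter (fun i => pos g i < x.1)).card := m5bin_cnt h (fun k => k < x.1)
  rw [hc, ← m5bin_pos_eq]
  constructor
  · rintro ⟨h1, h2⟩
    constructor
    · by_contra hcon
      push Not at hcon
      have hl0 : l ≠ 0 := by
        rintro rfl
        unfold m5bin_bs at hcon
        simp at hcon
      obtain ⟨m, rfl⟩ : ∃ m, l = m + 1 := ⟨l - 1, by omega⟩
      rw [m5bin_bs_succ] at hcon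
      have h3 : (Finset.range r).filter (fun i => pos g i < x.1) ⊆ Finset.range m := by
        intro i hi
        rw [Finset.mem_filter] at hi
        rw [Finset.mem_range]
        by_contra him
        rcases Nat.lt_or_ge m i with h4 | h4
        · have := m5bin_pos_lt g h4
          omega
        · have : i = m := by omega
          subst this
          omega
      have := Finset.card_le_card h3
      rw [Finset.card_range] at this
      omega
    · by_contra hcon
      push Not at hcon
      rcases Nat.lt_or_ge l r with hlr | hlr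
      · have h3 : Finset.range (l + 1) ⊆ (Finset.range r).filter (fun i => pos g i < x.1) := by
          intro i hi
          rw [Finset.mem_range] at hi
          rw [Finset.mem_filter, Finset.mem_range]
          refine ⟨by omega, ?_⟩
          have h4 : pos g i ≤ x.1 := by
            rcases Nat.lt_or_ge i l with h5 | h5
            · have := m5bin_pos_lt g h5
              omega
            · have : i = l := by omega
              subst this
              exact hcon
          rcases Nat.lt_or_ge (pos g i) x.1 with h5 | h5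
          · exact h5
          · exact absurd (m5bin_mem.2 ⟨i, by omega, by omega⟩) h1
        have := Finset.card_le_card h3
        rw [Finset.card_range] at this
        omega
      · have : l = r := by omega
        subst this
        rw [m5bin_pos_r h] at hcon
        have := x.2
        omega
  · rintro ⟨h1, h2⟩
    have h3 : ∀ i, pos g i < x.1 ↔ i < l := by
      intro i
      constructor
      · intro h4
        by_contra h5
        rcases Nat.lt_or_ge l i with h6 | h6
        · have := m5bin_pos_lt g h6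
          omega
        · have : i = l := by omega
          subst this
          omega
      · intro h4
        have := m5bin_bs_mono g (show i + 1 ≤ l from h4)
        rw [m5bin_bs_succ] at this
        omega
    constructor
    · intro h4
      obtain ⟨i, hi, hxi⟩ := m5bin_mem.1 h4
      have h5 := h3 i
      rcases Nat.lt_or_ge i l with h6 | h6
      · have := h5.2 h6
        omega
      · rcases Nat.lt_or_ge l i with h7 | h7
        · have := m5bin_pos_lt g h7
          omega
        · have : i = l := by omega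
          subst this
          omega
    · have h4 : (Finset.range r).filter (fun i => pos g i < x.1) = Finset.range l := by
        ext i
        rw [Finset.mem_filter, Finset.mem_range, Finset.mem_range, h3]
        omega
      rw [h4, Finset.card_range]

theorem m5bin_end {g : ℕ → ℕ} (h : tot r g + r = n) {l : ℕ} (hl : l ≤ r) : m5bin_bs g l + g l ≤ n := by
  rw [← m5bin_pos_eq, ← m5bin_pos_r h]
  rcases Nat.lt_or_ge l r with h1 | h1
  · exact (m5bin_pos_lt g h1).le
  · have : l = r := by omega
    rw [this]

theorem m5bin_cnt_le (T : Finset (Fin n)) (x : Fin n) : (T.filter (fun y => y < x)).card ≤ T.card :=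
  Finset.card_filter_le _ _

theorem bn_TG {g : ℕ → ℕ} (h : tot r g + r = n) (h0 : ∀ l, r < l → g l = 0) :
    bn (TG n r g) = g := by
  funext l
  unfold bn
  rcases Nat.lt_or_ge r l with hl | hl
  · rw [h0 l hl, Finset.card_eq_zero, Finset.filter_eq_empty_iff]
    intro x _ hx
    have h1 := m5bin_cnt_le (TG n r g) x
    rw [card_TG h] at h1
    omega
  · have h1 : (Finset.univ.filter (fun x : Fin n => x ∉ TG n r g ∧
        ((TG n r g).filter (fun y => y < x)).card = l)).map Fin.valEmbedding =
        Finset.Ico (m5bin_bs g l) (m5bin_bs g l + g l) := by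
      ext k
      rw [Finset.mem_map, Finset.mem_Ico]
      constructor
      · rintro ⟨x, hx, rfl⟩
        rw [Finset.mem_filter] at hx
        exact (m5bin_iff h hl x).1 hx.2
      · rintro ⟨h2, h3⟩
        have h4 := m5bin_end h hl
        refine ⟨⟨k, by omega⟩, ?_, rfl⟩
        rw [Finset.mem_filter]
        exact ⟨Finset.mem_univ _, (m5bin_iff h hl ⟨k, by omega⟩).2 ⟨h2, h3⟩⟩
    have h2 := congrArg Finset.card h1
    rw [Finset.card_map, Nat.card_Ico] at h2
    rw [h2]
    omega

theorem m5bin_lt (T : Finset (Fin n)) {x : Fin n} (hx : x ∈ T) : (T.filter (fun y => y < x)).card < T.card := by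
  refine Finset.card_lt_card ⟨Finset.filter_subset _ _, fun h => ?_⟩
  have := h hx
  rw [Finset.mem_filter] at this
  exact lt_irrefl _ this.2

theorem m5bin_mono (T : Finset (Fin n)) {x y : Fin n} (h : x ≤ y) :
    (T.filter (fun z => z < x)).card ≤ (T.filter (fun z => z < y)).card := by
  refine Finset.card_le_card (fun z hz => ?_)
  rw [Finset.mem_filter] at hz ⊢
  exact ⟨hz.1, lt_of_lt_of_le hz.2 h⟩

theorem m5bin_strict (T : Finset (Fin n)) {x y : Fin n} (hx : x ∈ T) (h : x < y) :
    (T.filter (fun z => z < x)).card < (T.filter (fun z => z < y)).card := by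
  refine Finset.card_lt_card ⟨fun z hz => ?_, fun hs => ?_⟩
  · rw [Finset.mem_filter] at hz ⊢
    exact ⟨hz.1, lt_trans hz.2 h⟩
  · have := hs (Finset.mem_filter.2 ⟨hx, h⟩)
    rw [Finset.mem_filter] at this
    exact lt_irrefl _ this.2

theorem m5bin_pos_bn (T : Finset (Fin n)) {x : Fin n} (hx : x ∈ T) :
    x.1 = pos (bn T) (T.filter (fun y => y < x)).card := by
  have h1 : (Finset.univ.filter (fun y : Fin n => y < x)).card = x.1 := by
    rw [Finset.filter_gt_eq_Iio, Fin.card_Iio]
  have h2 : (Finset.univ.filter (fun y : Fin n => y < x)).card =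
      (T.filter (fun y => y < x)).card + (Finset.univ.filter (fun y : Fin n => y ∉ T ∧ y < x)).card := by
    rw [← Finset.card_union_of_disjoint]
    · congr 1
      ext y
      simp only [Finset.mem_filter, Finset.mem_union, Finset.mem_univ, true_and]
      tauto
    · rw [Finset.disjoint_left]
      intro y hy hy'
      exact (Finset.mem_filter.1 hy').2.1 (Finset.mem_filter.1 hy).1
  have h3 : (Finset.univ.filter (fun y : Fin n => y ∉ T ∧ y < x)).card =
      ∑ l ∈ Finset.range ((T.filter (fun y => y < x)).card + 1), bn T l := by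
    rw [Finset.card_eq_sum_card_fiberwise (f := fun y => (T.filter (fun z => z < y)).card)
      (t := Finset.range ((T.filter (fun y => y < x)).card + 1))]
    · refine Finset.sum_congr rfl (fun l hl => ?_)
      rw [Finset.mem_range] at hl
      unfold bn
      congr 1
      ext y
      simp only [Finset.mem_filter, Finset.mem_univ, true_and]
      constructor
      · rintro ⟨⟨h4, _⟩, h5⟩
        exact ⟨h4, h5⟩
      · rintro ⟨h4, h5⟩
        refine ⟨⟨h4, ?_⟩, h5⟩
        by_contra h6
        push Not at h6
        rcases lt_or_eq_of_le h6 with h7 | h7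
        · have := m5bin_strict T hx h7
          omega
        · exact h4 (h7 ▸ hx)
    · intro y hy
      rw [Finset.mem_coe, Finset.mem_filter] at hy
      rw [Finset.mem_coe, Finset.mem_range]
      exact Nat.lt_succ_of_le (m5bin_mono T hy.2.2.le)
  unfold pos
  rw [← h3, ← h2, h1]

theorem bn_zero {T : Finset (Fin n)} (h : T.card = r) : ∀ l, r < l → bn T l = 0 := by
  intro l hl
  unfold bn
  rw [Finset.card_eq_zero, Finset.filter_eq_empty_iff]
  intro x _ hx
  have h1 := m5bin_cnt_le T x
  omega

theorem tot_bn {T : Finset (Fin n)} (h : T.card = r) : tot r (bn T) + r = n := by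
  have h1 : (Finset.univ.filter (fun x : Fin n => x ∉ T)).card = tot r (bn T) := by
    rw [Finset.card_eq_sum_card_fiberwise (f := fun y => (T.filter (fun z => z < y)).card)
      (t := Finset.range (r + 1))]
    · unfold tot
      refine Finset.sum_congr rfl (fun l _ => ?_)
      unfold bn
      congr 1
      ext y
      simp only [Finset.mem_filter, Finset.mem_univ, true_and]
    · intro y _
      rw [Finset.mem_coe, Finset.mem_range]
      exact Nat.lt_succ_of_le ((m5bin_cnt_le T y).trans h.le)
  have h2 : (Finset.univ.filter (fun x : Fin n => x ∉ T)).card + T.card = n := by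
    have h3 : Finset.univ.filter (fun x : Fin n => x ∉ T) = Tᶜ := by
      ext x
      simp
    rw [h3, Finset.card_compl, Fintype.card_fin]
    have := Finset.card_le_univ T
    rw [Fintype.card_fin] at this
    omega
  rw [← h1, ← h]
  exact h2

/-- (b2) -/
theorem TG_bn {T : Finset (Fin n)} (h : T.card = r) : TG n r (bn T) = T := by
  symm
  refine Finset.eq_of_subset_of_card_le (fun x hx => ?_) ?_
  · rw [m5bin_mem]
    refine ⟨_, ?_, m5bin_pos_bn T hx⟩
    rw [← h]
    exact m5bin_lt T hx
  · rw [card_TG (tot_bn h), h]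

theorem m5bin_pos_add (c : ℕ → ℕ) (j d i : ℕ) :
    pos (c + sg j d) i = pos c i + if j ≤ i then d else 0 := by
  unfold pos
  have h1 : ∑ l ∈ Finset.range (i + 1), (c + sg j d) l =
      ∑ l ∈ Finset.range (i + 1), c l + ∑ l ∈ Finset.range (i + 1), sg j d l := by
    rw [← Finset.sum_add_distrib]
    rfl
  have h2 : ∑ l ∈ Finset.range (i + 1), sg j d l = if j ≤ i then d else 0 := by
    split_ifs with h
    · rw [Finset.sum_eq_single_of_mem j (Finset.mem_range.2 (by omega))]
      · simp
      · intro b _ hb
        exact Pi.single_eq_of_ne hb _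
    · refine Finset.sum_eq_zero (fun b hb => ?_)
      rw [Finset.mem_range] at hb
      exact Pi.single_eq_of_ne (by omega) _
  rw [h1, h2]
  ring

theorem pos_lt {c : ℕ → ℕ} {i d : ℕ} (hi : i < r) (h : tot r c + d + r = n) :
    pos c i + d < n := by
  have h1 : tot r (c + sg i d) + r = n := by
    rw [tot_add, tot_single hi.le]
    exact h
  have h2 := m5bin_pos_n h1 hi
  rw [m5bin_pos_add, if_pos le_rfl] at h2
  exact h2

/-- (b3) the move of `d` chips from bin `i + 1` to bin `i` moves the `i`-th through point -/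
theorem TG_move {c : ℕ → ℕ} {i d : ℕ} (hi : i < r) (hd : 0 < d) (h : tot r c + d + r = n)
    (t l : Fin n) (ht : t.1 = pos c i) (hl : l.1 = t.1 + d) :
    free (TG n r (c + sg (i + 1) d)) t l ∧
      mv (TG n r (c + sg (i + 1) d)) t l = TG n r (c + sg i d) := by
  have hh : tot r c + d + r = n := h
  have hpt : pos (c + sg (i + 1) d) i = t.1 := by
    rw [m5bin_pos_add, if_neg (by omega), ht, add_zero]
  refine ⟨⟨m5bin_mem.2 ⟨i, hi, hpt.symm⟩, ?_, ?_⟩, ?_⟩
  · rw [Fin.lt_def]
    omega
  · intro x h1 h2 h3
    obtain ⟨j, hj, hxj⟩ := m5bin_mem.1 h3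
    rw [Fin.lt_def] at h1
    rw [Fin.le_def] at h2
    rw [m5bin_pos_add] at hxj
    rcases Nat.lt_or_ge i j with h4 | h4
    · have := m5bin_pos_lt c h4
      rw [if_pos (by omega)] at hxj
      omega
    · rw [if_neg (by omega)] at hxj
      rcases Nat.lt_or_ge j i with h5 | h5
      · have := m5bin_pos_lt c h5
        omega
      · have : i = j := by omega
        subst this
        omega
  · ext x
    unfold mv
    rw [Finset.mem_insert, Finset.mem_erase, m5bin_mem, m5bin_mem]
    constructor
    · rintro (rfl | ⟨h1, j, hj, hxj⟩)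
      · refine ⟨i, hi, ?_⟩
        rw [m5bin_pos_add, if_pos le_rfl]
        omega
      · refine ⟨j, hj, ?_⟩
        rw [m5bin_pos_add] at hxj ⊢
        rcases Nat.lt_or_ge i j with h4 | h4
        · rw [if_pos (by omega)] at hxj ⊢
          exact hxj
        · rcases Nat.lt_or_ge j i with h5 | h5
          · rw [if_neg (by omega)] at hxj ⊢
            exact hxj
          · exfalso
            have : i = j := by omega
            subst this
            rw [if_neg (by omega)] at hxj
            exact h1 (Fin.ext (by omega))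
    · rintro ⟨j, hj, hxj⟩
      rw [m5bin_pos_add] at hxj
      rcases Nat.lt_or_ge i j with h4 | h4
      · right
        rw [if_pos (by omega)] at hxj
        have := m5bin_pos_lt c h4
        refine ⟨fun h5 => ?_, j, hj, ?_⟩
        · have := congrArg Fin.val h5
          omega
        · rw [m5bin_pos_add, if_pos (by omega)]
          exact hxj
      · rcases Nat.lt_or_ge j i with h5 | h5
        · right
          rw [if_neg (by omega)] at hxj
          have := m5bin_pos_lt c h5
          refine ⟨fun h5 => ?_, j, hj, ?_⟩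
          · have := congrArg Fin.val h5
            omega
          · rw [m5bin_pos_add, if_neg (by omega)]
            exact hxj
        · left
          have : i = j := by omega
          subst this
          rw [if_pos le_rfl] at hxj
          exact Fin.ext (by omega)

/-- (b4) conversely -/
theorem bn_move {T : Finset (Fin n)} {t l : Fin n} (h : free T t l) (hT : T.card = r) :
    ∃ i c, i < r ∧ (∀ m, r < m → c m = 0) ∧ bn T = c + sg (i + 1) (l.1 - t.1) ∧
      bn (mv T t l) = c + sg i (l.1 - t.1) ∧ t.1 = pos c i := by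
  obtain ⟨h1, h2, h3⟩ := h
  rw [Fin.lt_def] at h2
  obtain ⟨i, hi⟩ : ∃ i, i = (T.filter (fun y => y < t)).card := ⟨_, rfl⟩
  have hir : i < r := by
    rw [hi, ← hT]
    exact m5bin_lt T h1
  have hb : l.1 - t.1 ≤ bn T (i + 1) := by
    have h4 : (Finset.Ioc t l) ⊆ Finset.univ.filter (fun x => x ∉ T ∧ (T.filter (fun y => y < x)).card = i + 1) := by
      intro x hx
      rw [Finset.mem_Ioc] at hx
      rw [Finset.mem_filter]
      refine ⟨Finset.mem_univ _, h3 x hx.1 hx.2, ?_⟩
      have h5 : T.filter (fun y => y < x) = insert t (T.filter (fun y => y < t)) := by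
        ext y
        rw [Finset.mem_filter, Finset.mem_insert, Finset.mem_filter]
        constructor
        · rintro ⟨h6, h7⟩
          rcases lt_trichotomy y t with h8 | h8 | h8
          · exact Or.inr ⟨h6, h8⟩
          · exact Or.inl h8
          · exact absurd h6 (h3 y h8 (h7.le.trans hx.2))
        · rintro (rfl | ⟨h6, h7⟩)
          · exact ⟨h1, hx.1⟩
          · exact ⟨h6, h7.trans hx.1⟩
      rw [h5, Finset.card_insert_of_notMem, hi]
      intro h6
      rw [Finset.mem_filter] at h6
      exact lt_irrefl _ h6.2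
    have h5 := Finset.card_le_card h4
    rw [Fin.card_Ioc] at h5
    exact h5
  have hc : bn T = (bn T - sg (i + 1) (l.1 - t.1)) + sg (i + 1) (l.1 - t.1) := (sub_single_add hb).symm
  have htot := tot_bn hT
  have hz := bn_zero hT
  obtain ⟨c, hcd⟩ : ∃ c, c = bn T - sg (i + 1) (l.1 - t.1) := ⟨_, rfl⟩
  rw [← hcd] at hc
  have hcz : ∀ m, r < m → c m = 0 := by
    intro m hm
    have := congrFun hc m
    rw [hz m hm, Pi.add_apply] at this
    omega
  have hct : tot r c + (l.1 - t.1) + r = n := by
    rw [hc, tot_add, tot_single (by omega)] at htot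
    exact htot
  have hp : t.1 = pos c i := by
    have h4 := m5bin_pos_bn T h1
    rw [← hi, hc, m5bin_pos_add, if_neg (by omega)] at h4
    exact h4
  refine ⟨i, c, hir, hcz, hc, ?_, hp⟩
  have h4 := (TG_move hir (by omega : 0 < l.1 - t.1) hct t l hp (by omega)).2
  rw [← hc, TG_bn hT] at h4
  rw [h4]
  refine bn_TG ?_ ?_
  · rw [tot_add, tot_single hir.le]
    exact hct
  · intro m hm
    rw [Pi.add_apply, hcz m hm, zero_add]
    exact Pi.single_eq_of_ne (by omega) _

theorem m5bin_next {T : Finset (Fin n)} {x y : Fin n} (h : x.1 + 1 = y.1) (hx : x ∉ T) :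
    (T.filter (fun z => z < y)).card = (T.filter (fun z => z < x)).card := by
  congr 1
  refine Finset.filter_congr (fun z hz => ?_)
  rw [Fin.lt_def, Fin.lt_def]
  have : z ≠ x := fun h' => hx (h' ▸ hz)
  have h2 : z.1 ≠ x.1 := fun h' => this (Fin.ext h')
  omega

/-- (b5) frozen moves -/
theorem frozen_iff {c : ℕ → ℕ} {i d : ℕ} (hi : i < r) (hd : 0 < d) (h : tot r c + d + r = n)
    (t l : Fin n) (ht : t.1 = pos c i) (hl : l.1 = t.1 + d) :
    frozen (TG n r (c + sg (i + 1) d)) t l ↔ ∀ m ≤ r, c m ≤ 1 := by
  obtain ⟨g, hg⟩ : ∃ g, g = c + sg (i + 1) d := ⟨_, rfl⟩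
  have hgt : tot r g + r = n := by
    rw [hg, tot_add, tot_single (by omega)]
    exact h
  have hpt : pos g i = t.1 := by
    rw [hg, m5bin_pos_add, if_neg (by omega), ht, add_zero]
  have hbs : m5bin_bs g (i + 1) = t.1 + 1 := by rw [m5bin_bs_succ, hpt]
  have hgi : g (i + 1) = c (i + 1) + d := by
    rw [hg, Pi.add_apply]
    congr 1
    exact Pi.single_eq_same _ _
  have hgm : ∀ m, m ≠ i + 1 → g m = c m := by
    intro m hm
    rw [hg, Pi.add_apply]
    have : sg (i + 1) d m = 0 := Pi.single_eq_of_ne hm _
    rw [this, add_zero]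
  rw [← hg]
  constructor
  · intro hf m hm
    by_contra hcon
    push Not at hcon
    have he := m5bin_end hgt hm
    by_cases hmi : m = i + 1
    · subst hmi
      rw [hbs, hgi] at he
      have h1 : (⟨t.1 + 1 + d, by omega⟩ : Fin n) ∉ TG n r g :=
        ((m5bin_iff hgt hm ⟨t.1 + 1 + d, by omega⟩).2 (by rw [hbs, hgi]; constructor <;> simp <;> omega)).1
      have h2 : (⟨t.1 + 1 + d + 1, by omega⟩ : Fin n) ∉ TG n r g :=
        ((m5bin_iff hgt hm ⟨t.1 + 1 + d + 1, by omega⟩).2 (by rw [hbs, hgi]; constructor <;> simp <;> omega)).1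
      have h3 := (hf _ _ rfl h1 h2).2
      rw [Fin.le_def] at h3
      simp only at h3
      omega
    · have h0 := hgm m hmi
      have h1 := (m5bin_iff hgt hm ⟨m5bin_bs g m, by omega⟩).2 (by constructor <;> simp <;> omega)
      have h2 := (m5bin_iff hgt hm ⟨m5bin_bs g m + 1, by omega⟩).2 (by constructor <;> simp <;> omega)
      have h3 := hf _ _ rfl h1.1 h2.1
      rw [Fin.lt_def, Fin.le_def] at h3
      simp only at h3
      have h4 := (m5bin_iff hgt (show i + 1 ≤ r by omega) ⟨m5bin_bs g m, by omega⟩).2 (by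
        rw [hbs, hgi]
        constructor <;> simp <;> omega)
      exact hmi (h1.2.symm.trans h4.2)
  · intro hc x y hxy hx hy
    have hm : ((TG n r g).filter (fun z => z < x)).card ≤ r :=
      (m5bin_cnt_le _ _).trans (card_TG hgt).le
    obtain ⟨m, hm'⟩ : ∃ m, m = ((TG n r g).filter (fun z => z < x)).card := ⟨_, rfl⟩
    rw [← hm'] at hm
    have h1 := (m5bin_iff hgt hm x).1 ⟨hx, hm'.symm⟩
    have h2 := (m5bin_iff hgt hm y).1 ⟨hy, by rw [m5bin_next hxy hx, hm']⟩
    by_cases hmi : m = i + 1
    · subst hmi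
      rw [hbs, hgi] at h1 h2
      have := hc (i + 1) hm
      rw [Fin.lt_def, Fin.le_def]
      omega
    · have := hgm m hmi
      have := hc m hm
      omega

/-- gaps -/
theorem gap_iff {T : Finset (Fin n)} (hT : T.card = r) :
    (∃ x y : Fin n, x.1 + 1 = y.1 ∧ x ∉ T ∧ y ∉ T) ↔ ∃ m ≤ r, 2 ≤ bn T m := by
  have hgt := tot_bn hT
  have hTG := TG_bn hT
  constructor
  · rintro ⟨x, y, hxy, hx, hy⟩
    obtain ⟨m, hm'⟩ : ∃ m, m = (T.filter (fun z => z < x)).card := ⟨_, rfl⟩
    have hm : m ≤ r := by
      rw [← hT, hm']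
      exact m5bin_cnt_le _ _
    have h1 := (m5bin_iff hgt hm x).1 (by rw [hTG]; exact ⟨hx, hm'.symm⟩)
    have h2 := (m5bin_iff hgt hm y).1 (by rw [hTG]; exact ⟨hy, by rw [m5bin_next hxy hx, hm']⟩)
    exact ⟨m, hm, by omega⟩
  · rintro ⟨m, hm, h2⟩
    have he := m5bin_end hgt hm
    have h3 := (m5bin_iff hgt hm ⟨m5bin_bs (bn T) m, by omega⟩).2 (by constructor <;> simp <;> omega)
    have h4 := (m5bin_iff hgt hm ⟨m5bin_bs (bn T) m + 1, by omega⟩).2 (by constructor <;> simp <;> omega)
    rw [hTG] at h3 h4
    exact ⟨_, _, rfl, h3.1, h4.1⟩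

end

end Pool.Agent.H213PG
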