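import Pool.Agent.helper213_PG.Chips2

set_option autoImplicit false
set_option linter.unusedSectionVars false

/-!
# The second gauge (paper 2.4) and the trivial connections
-/

namespace Pool.Agent.H213PG

open Finset

section

variable {H : Type} [Group H] {r : ℕ} {U : ℕ → (ℕ → ℕ) → ℕ → ℕ → H}

/-- the moves which remain after the gauge -/
def Rem (r i : ℕ) (c : ℕ → ℕ) (a b : ℕ) : Prop :=
  (∀ l ≤ r, c l ≤ 1) ∧ ((a = 0 ∧ b = 1 ∧ ∃ l, 1 ≤ l ∧ l ≤ i + 1 ∧ c l ≠ 0) ∨ (a = 1 ∧ b = 0) ∨
    (a = 1 ∧ b = 1))

theorem sg_ne {j d l : ℕ} (h : l ≠ j) : sg j d l = 0 := Pi.single_eq_of_ne h _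

/-- number of odd bins different from bin `0` -/
def od (r : ℕ) (g : ℕ → ℕ) : ℕ := ∑ l ∈ Icc 1 r, g l % 2

theorem tot_eq (r : ℕ) (g : ℕ → ℕ) : tot r g = g 0 + ∑ l ∈ Icc 1 r, g l := by
  unfold tot
  rw [Finset.range_eq_Ico, Finset.sum_eq_sum_Ico_succ_bot (Nat.succ_pos r)]
  congr 1

theorem od_le (r : ℕ) (g : ℕ → ℕ) : od r g ≤ ∑ l ∈ Icc 1 r, g l :=
  Finset.sum_le_sum (fun l _ => Nat.mod_le _ _)

/-- normal form: all pairs are moved to bin `0` -/
def nrm (r : ℕ) (g : ℕ → ℕ) : ℕ → ℕ := fun l =>
  if l = 0 then tot r g - od r g else if l ≤ r then g l % 2 else g l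

theorem nrm_congr {g g' : ℕ → ℕ} (h1 : ∀ l, 1 ≤ l → l ≤ r → g l % 2 = g' l % 2)
    (h2 : tot r g = tot r g') (h3 : ∀ l, r < l → g l = g' l) : nrm r g = nrm r g' := by
  funext l
  unfold nrm
  have ho : od r g = od r g' := by
    unfold od
    apply Finset.sum_congr rfl
    intro l hl
    rw [Finset.mem_Icc] at hl
    exact h1 l hl.1 hl.2
  by_cases hl : l = 0
  · simp only [hl, if_true]
    rw [h2, ho]
  · simp only [hl, if_false]
    by_cases hl2 : l ≤ r
    · simp only [hl2, if_true]
      exact h1 l (by omega) hl2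
    · simp only [hl2, if_false]
      exact h3 l (by omega)

theorem nrm_small {g : ℕ → ℕ} (h : ∀ l, 1 ≤ l → l ≤ r → g l < 2) : nrm r g = g := by
  funext l
  unfold nrm
  by_cases hl : l = 0
  · simp only [hl, if_true]
    have : od r g = ∑ l ∈ Icc 1 r, g l := by
      unfold od
      apply Finset.sum_congr rfl
      intro l hl
      rw [Finset.mem_Icc] at hl
      exact Nat.mod_eq_of_lt (h l hl.1 hl.2)
    rw [tot_eq, this]
    omega
  · simp only [hl, if_false]
    by_cases hl2 : l ≤ r
    · simp only [hl2, if_true]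
      exact Nat.mod_eq_of_lt (h l (by omega) hl2)
    · simp only [hl2, if_false]

open Classical in
/-- the second gauge on normal forms -/
noncomputable def kap (r : ℕ) (V : ℕ → (ℕ → ℕ) → ℕ → ℕ → H) (g : ℕ → ℕ) : H :=
  if h : ∃ j, 1 ≤ j ∧ j ≤ r ∧ g j % 2 = 1 then
    V (fst (fun j => 1 ≤ j ∧ j ≤ r ∧ g j % 2 = 1) - 1)
      (g - sg (fst (fun j => 1 ≤ j ∧ j ≤ r ∧ g j % 2 = 1)) 1 - sg 0 2) 0 1 *
      kap r V (g - sg (fst (fun j => 1 ≤ j ∧ j ≤ r ∧ g j % 2 = 1)) 1 +
        sg (fst (fun j => 1 ≤ j ∧ j ≤ r ∧ g j % 2 = 1) - 1) 1)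
  else 1
termination_by Wt r g
decreasing_by
  have hs := fst_spec h
  exact Wt_prev hs.1 hs.2.1 (by omega) (by omega)

theorem kap_step {V : ℕ → (ℕ → ℕ) → ℕ → ℕ → H} {g : ℕ → ℕ} {j : ℕ} (h1' : 1 ≤ j) (hj : j ≤ r)
    (h : g j % 2 = 1) (hmin : ∀ l, 1 ≤ l → l < j → g l % 2 = 0) :
    kap r V g = V (j - 1) (g - sg j 1 - sg 0 2) 0 1 * kap r V (g - sg j 1 + sg (j - 1) 1) := by
  have hex : ∃ j, 1 ≤ j ∧ j ≤ r ∧ g j % 2 = 1 := ⟨j, h1', hj, h⟩
  have hf : fst (fun j => 1 ≤ j ∧ j ≤ r ∧ g j % 2 = 1) = j := by
    apply fst_eq ⟨h1', hj, h⟩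
    intro l hl hc
    have := hmin l hc.1 hl
    have := hc.2.2
    omega
  rw [kap, dif_pos hex, hf]

section norm

variable {V : ℕ → (ℕ → ℕ) → ℕ → ℕ → H} (hV : Sys r V) (h0 : ∀ i c, i < r → V i c 0 0 = 1)
include hV h0

theorem v_a1 {i : ℕ} (hi : i < r) (c : ℕ → ℕ) (a b : ℕ) :
    V i (c + sg (i + 1) 2) a b = V i c a (b + 2) := by
  have := hV.R1 i c a b 0 0 hi
  rw [h0 i _ hi, mul_one] at this
  exact this

theorem v_a2 {i : ℕ} (hi : i < r) (c : ℕ → ℕ) (a b : ℕ) :
    V i c a (b + 2) = V i c (a + b + 2) 0 := hV.R2 i c a b 0 0 hi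

theorem v_a3 {i : ℕ} (hi : i < r) (c : ℕ → ℕ) (a b : ℕ) :
    V i (c + sg i 2) a b = V i c 0 (a + b + 2) := by
  have := hV.R1 i c 0 0 a b hi
  rw [h0 i _ hi, one_mul] at this
  rw [show a + b + 2 = 0 + a + b + 2 by ring]
  exact this

theorem v_a4 {i : ℕ} (hi : i < r) (c : ℕ → ℕ) (a b : ℕ) :
    V i c 0 (a + b + 2) = V i c (a + 2) b := by
  have := hV.R2 i c 0 0 a b hi
  rw [show a + b + 2 = 0 + a + b + 2 by ring, show a + 2 = 0 + 0 + a + 2 by ring]
  exact this

theorem v_step {i l : ℕ} (hi : i < r) (hl : l < r) (c : ℕ → ℕ) (a b : ℕ) :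
    V i (c + sg (l + 1) 2) a b = V i (c + sg l 2) a b := by
  by_cases h : l = i
  · subst h
    have e := v_a2 hV h0 hi c 0 (a + b)
    rw [show 0 + (a + b) + 2 = a + b + 2 by ring] at e
    rw [v_a1 hV h0 hi, v_a2 hV h0 hi, v_a3 hV h0 hi, e]
  · have := hV.CM i l c a b 0 0 hi hl (fun h' => h h'.symm)
    rw [h0 l _ hl, h0 l _ hl, mul_one, one_mul] at this
    exact this

theorem v_pair0 {i l : ℕ} (hi : i < r) (hl : l ≤ r) (c : ℕ → ℕ) (a b : ℕ) :
    V i (c + sg l 2) a b = V i (c + sg 0 2) a b := by
  induction l with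
  | zero => rfl
  | succ l ih => rw [v_step hV h0 hi (by omega), ih (by omega)]

theorem v_pl {i l : ℕ} (hi : i < r) (hl : l ≤ r) (c : ℕ → ℕ) (a b : ℕ) :
    V i (c + sg l 2) a b = V i c 0 (a + b + 2) := by
  rw [v_pair0 hV h0 hi hl, ← v_pair0 hV h0 hi (l := i) (by omega), v_a3 hV h0 hi]

theorem v_big {i : ℕ} (hi : i < r) (c : ℕ → ℕ) {a b : ℕ} (h : 2 ≤ a ∨ 2 ≤ b) :
    V i c a b = V i c 0 (a + b) := by
  rcases h with h | h
  · obtain ⟨a', rfl⟩ : ∃ a', a = a' + 2 := ⟨a - 2, by omega⟩
    rw [← v_a4 hV h0 hi]
    congr 1; omega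
  · obtain ⟨b', rfl⟩ : ∃ b', b = b' + 2 := ⟨b - 2, by omega⟩
    have e := v_a2 hV h0 hi c 0 (a + b')
    rw [v_a2 hV h0 hi, show a + (b' + 2) = a + b' + 2 by ring, e]
    congr 1; omega

theorem v_nrm {i : ℕ} (hi : i < r) (a b : ℕ) : ∀ (m : ℕ) (c : ℕ → ℕ), Wt r c = m →
    V i c a b = V i (nrm r c) a b := by
  intro m
  induction m using Nat.strong_induction_on with
  | _ m ih =>
    intro c hm
    by_cases hex : ∃ l, 1 ≤ l ∧ l ≤ r ∧ 2 ≤ c l
    · obtain ⟨l, h1, h2, h3⟩ := hex
      have e : c - sg l 2 + sg l 2 = c := sub_single_add h3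
      have e2 : V i c a b = V i (c - sg l 2 + sg (l - 1) 2) a b := by
        conv_lhs => rw [← e]
        rw [v_pair0 hV h0 hi h2, v_pair0 hV h0 hi (l := l - 1) (by omega)]
      have hw := Wt_prev (r := r) h1 h2 (d := 2) (by omega) h3
      rw [e2, ih _ (by rw [← hm]; exact hw) _ rfl]
      congr 1
      apply nrm_congr
      · intro l' _ _
        have := congrFun e l'
        simp only [Pi.add_apply, Pi.single_apply] at this ⊢
        split_ifs at * <;> omega
      · conv_rhs => rw [← e]
        rw [tot_add, tot_add, tot_single h2, tot_single (by omega)]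
      · intro l' hl'
        have := congrFun e l'
        simp only [Pi.add_apply, Pi.single_apply] at this ⊢
        split_ifs at * <;> omega
    · rw [nrm_small]
      intro l h1 h2
      by_contra h3
      exact hex ⟨l, h1, h2, by omega⟩

theorem v_congr {i : ℕ} (hi : i < r) (a b : ℕ) {c c' : ℕ → ℕ}
    (h1 : ∀ l, 1 ≤ l → l ≤ r → c l % 2 = c' l % 2)
    (h2 : tot r c = tot r c') (h3 : ∀ l, r < l → c l = c' l) : V i c a b = V i c' a b := by
  rw [v_nrm hV h0 hi a b _ c rfl, v_nrm hV h0 hi a b _ c' rfl, nrm_congr h1 h2 h3]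

theorem v_even {i : ℕ} (hi : i < r) : ∀ (m : ℕ) (c : ℕ → ℕ), V i c 0 (2 * m) = 1 := by
  intro m
  induction m with
  | zero => intro c; exact h0 i c hi
  | succ m ih =>
    intro c
    rw [show 2 * (m + 1) = 0 + 2 * m + 2 by ring, ← v_pl hV h0 hi (l := 0) (by omega), ih]

theorem v_odd {i : ℕ} (hi : i < r) : ∀ (m : ℕ) (c : ℕ → ℕ),
    V i c 0 (2 * m + 1) = V i (c + sg 0 (2 * m)) 0 1 := by
  intro m
  induction m with
  | zero => intro c; simp
  | succ m ih =>
    intro c
    rw [show 2 * (m + 1) + 1 = 0 + (2 * m + 1) + 2 by ring, ← v_pl hV h0 hi (l := 0) (by omega), ih,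
      add_assoc, ← Pi.single_add]
    congr 3
    ring

/-- the tree edges -/
theorem v_tree {i : ℕ} (hi : i < r) (c : ℕ → ℕ) (hc : ∀ l, 1 ≤ l → l ≤ i + 1 → c l % 2 = 0) :
    V i c 0 1 * kap r V (nrm r (c + sg i 3)) = kap r V (nrm r (c + sg (i + 1) 3)) := by
  have hle := od_le r c
  have ht := tot_eq r c
  have n1 : nrm r (c + sg (i + 1) 3) = nrm r c + sg 0 2 + sg (i + 1) 1 := by
    have ho : od r (c + sg (i + 1) 3) = od r c + 1 := by
      unfold od
      rw [← Finset.add_sum_erase _ _ (show i + 1 ∈ Icc 1 r by simp; omega),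
        ← Finset.add_sum_erase _ (fun l => c l % 2) (show i + 1 ∈ Icc 1 r by simp; omega)]
      have e1 : (c + sg (i + 1) 3) (i + 1) % 2 = 1 := by
        have := hc (i + 1) (by omega) (by omega)
        simp only [Pi.add_apply, Pi.single_eq_same]
        omega
      have e2 := hc (i + 1) (by omega) (by omega)
      have e3 : ∀ x ∈ (Icc 1 r).erase (i + 1), (c + sg (i + 1) 3) x % 2 = c x % 2 := by
        intro x hx
        rw [Finset.mem_erase] at hx
        simp [Pi.single_eq_of_ne hx.1]
      rw [Finset.sum_congr rfl e3, e1, e2]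
      ring
    funext l
    unfold nrm
    by_cases hl : l = 0
    · subst hl
      simp only [if_true, Pi.add_apply, Pi.single_eq_same]
      rw [ho, tot_add, tot_single (by omega)]
      have hne : (0 : ℕ) ≠ i + 1 := by omega
      simp only [Pi.single_eq_of_ne hne]
      omega
    · by_cases hl2 : l ≤ r
      · simp only [hl, hl2, if_true, if_false, Pi.add_apply, Pi.single_apply]
        split_ifs with h
        · subst h
          have := hc (i + 1) (by omega) (by omega)
          omega
        · omega
      · simp only [hl, hl2, if_false, Pi.add_apply, Pi.single_apply]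
        split_ifs <;> omega
  have n2 : nrm r (c + sg i 3) = nrm r c + sg 0 2 + sg i 1 := by
    by_cases hi0 : i = 0
    · subst hi0
      funext l
      unfold nrm
      have ho : od r (c + sg 0 3) = od r c := by
        unfold od
        apply Finset.sum_congr rfl
        intro x hx
        rw [Finset.mem_Icc] at hx
        have hne : x ≠ 0 := by omega
        simp [Pi.single_eq_of_ne hne]
      by_cases hl : l = 0
      · subst hl
        simp only [if_true, Pi.add_apply, Pi.single_eq_same]
        rw [ho, tot_add, tot_single (by omega)]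
        omega
      · simp only [hl, if_false, Pi.add_apply, Pi.single_apply]
        split_ifs <;> omega
    · have ho : od r (c + sg i 3) = od r c + 1 := by
        unfold od
        rw [← Finset.add_sum_erase _ _ (show i ∈ Icc 1 r by simp; omega),
          ← Finset.add_sum_erase _ (fun l => c l % 2) (show i ∈ Icc 1 r by simp; omega)]
        have e1 : (c + sg i 3) i % 2 = 1 := by
          have := hc i (by omega) (by omega)
          simp only [Pi.add_apply, Pi.single_eq_same]
          omega
        have e2 := hc i (by omega) (by omega)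
        have e3 : ∀ x ∈ (Icc 1 r).erase i, (c + sg i 3) x % 2 = c x % 2 := by
          intro x hx
          rw [Finset.mem_erase] at hx
          simp [Pi.single_eq_of_ne hx.1]
        rw [Finset.sum_congr rfl e3, e1, e2]
        ring
      funext l
      unfold nrm
      by_cases hl : l = 0
      · subst hl
        simp only [if_true, Pi.add_apply, Pi.single_eq_same]
        rw [ho, tot_add, tot_single (by omega)]
        have hne : (0 : ℕ) ≠ i := by omega
        simp only [Pi.single_eq_of_ne hne]
        omega
      · by_cases hl2 : l ≤ r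
        · simp only [hl, hl2, if_true, if_false, Pi.add_apply, Pi.single_apply]
          split_ifs with h
          · subst h
            have := hc l (by omega) (by omega)
            omega
          · omega
        · simp only [hl, hl2, if_false, Pi.add_apply, Pi.single_apply]
          split_ifs <;> omega
  have hk := kap_step (V := V) (r := r) (g := nrm r c + sg 0 2 + sg (i + 1) 1) (j := i + 1)
    (by omega) (by omega) (by
      have hne : i + 1 ≠ 0 := by omega
      have hle : i + 1 ≤ r := by omega
      simp only [Pi.add_apply, Pi.single_eq_same, Pi.single_eq_of_ne hne, nrm, hne, hle, if_true,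
        if_false]
      have := hc (i + 1) (by omega) (by omega)
      omega) (by
      intro l hl1 hl2
      have hne : l ≠ i + 1 := by omega
      have hne0 : l ≠ 0 := by omega
      have hle : l ≤ r := by omega
      simp only [Pi.add_apply, Pi.single_eq_of_ne hne, Pi.single_eq_of_ne hne0, nrm, hne0, hle,
        if_true, if_false]
      have := hc l (by omega) (by omega)
      omega)
  rw [add_single_sub, add_single_sub] at hk
  simp only [Nat.add_sub_cancel] at hk
  rw [n1, n2, hk, ← v_nrm hV h0 hi 0 1 _ c rfl]

theorem v_main {i : ℕ} (hi : i < r) (x : ℕ → ℕ) :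
    V i (x + sg 0 2) 0 1 * kap r V (nrm r (x + sg i 1 + sg 0 4)) =
      kap r V (nrm r (x + sg (i + 1) 1 + sg 0 4)) := by
  have hn : ∀ g g' : ℕ → ℕ, (∀ l, 1 ≤ l → l ≤ r → g l % 2 = g' l % 2) → tot r g = tot r g' →
      (∀ l, r < l → g l = g' l) → kap r V (nrm r g) = kap r V (nrm r g') := by
    intro g g' h1 h2 h3
    rw [nrm_congr h1 h2 h3]
  refine parity_main (r := r) (fun i x => V i (x + sg 0 2) 0 1)
    (fun g => kap r V (nrm r (g + sg 0 4))) ?_ ?_ ?_ ?_ _ i x hi rfl
  · intro x i hi
    apply hn
    · intro l _ _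
      simp only [Pi.add_apply, Pi.single_apply]
      split_ifs <;> omega
    · simp only [tot_add]
      rw [tot_single (by omega), tot_single (l := i) (by omega)]
    · intro l _
      simp only [Pi.add_apply, Pi.single_apply]
      split_ifs <;> omega
  · intro i j y hi hj hij
    have := hV.CM i j y 0 1 0 1 hi hj hij
    simp only [zero_add] at this
    rw [show 1 + 2 = 3 from rfl] at this
    have k : ∀ i l, i < r → l ≤ r → V i (y + sg l 3) 0 1 = V i (y + sg l 1 + sg 0 2) 0 1 := by
      intro i l hi hl
      apply v_congr hV h0 hi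
      · intro l _ _
        simp only [Pi.add_apply, Pi.single_apply]
        split_ifs <;> omega
      · simp only [tot_add]
        rw [tot_single hl, tot_single hl, tot_single (by omega)]
      · intro l _
        simp only [Pi.add_apply, Pi.single_apply]
        split_ifs <;> omega
    rw [k i _ hi (by omega), k j _ hj (by omega), k j _ hj (by omega), k i _ hi (by omega)] at this
    exact this
  · intro i y hi
    have := hV.R1 i y 0 1 0 1 hi
    simp only [zero_add] at this
    rw [show 1 + 2 = 3 from rfl, show 1 + 0 + 1 + 2 = 2 * 2 from rfl, v_even hV h0 hi] at this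
    have k : ∀ i l, i < r → l ≤ r → V i (y + sg l 3) 0 1 = V i (y + sg l 1 + sg 0 2) 0 1 := by
      intro i l hi hl
      apply v_congr hV h0 hi
      · intro l _ _
        simp only [Pi.add_apply, Pi.single_apply]
        split_ifs <;> omega
      · simp only [tot_add]
        rw [tot_single hl, tot_single hl, tot_single (by omega)]
      · intro l _
        simp only [Pi.add_apply, Pi.single_apply]
        split_ifs <;> omega
    rw [k i _ hi (by omega), k i _ hi (by omega)] at this
    exact this
  · intro i x hi hx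
    have := v_tree hV h0 hi (x + sg 0 2) (by
      intro l h1 h2
      have hne : l ≠ 0 := by omega
      simp only [Pi.add_apply, Pi.single_eq_of_ne hne, add_zero]
      exact hx l h1 h2)
    have k : ∀ l, l ≤ r → kap r V (nrm r (x + sg 0 2 + sg l 3)) =
        kap r V (nrm r (x + sg l 1 + sg 0 4)) := by
      intro l hl
      apply hn
      · intro l _ _
        simp only [Pi.add_apply, Pi.single_apply]
        split_ifs <;> omega
      · simp only [tot_add]
        rw [tot_single hl, tot_single hl, tot_single (by omega), tot_single (by omega)]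
      · intro l _
        simp only [Pi.add_apply, Pi.single_apply]
        split_ifs <;> omega
    rw [k i (by omega), k (i + 1) (by omega)] at this
    exact this

theorem v_final {i : ℕ} (hi : i < r) (c : ℕ → ℕ) (a b : ℕ) (hR : ¬ Rem r i c a b) :
    V i c a b * kap r V (nrm r (c + sg i (a + b + 2))) =
      kap r V (nrm r (c + sg (i + 1) (a + b + 2))) := by
  have hn : ∀ g g' : ℕ → ℕ, (∀ l, 1 ≤ l → l ≤ r → g l % 2 = g' l % 2) → tot r g = tot r g' →
      (∀ l, r < l → g l = g' l) → kap r V (nrm r g) = kap r V (nrm r g') := by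
    intro g g' h1 h2 h3
    rw [nrm_congr h1 h2 h3]
  -- the case of an even number of chips
  have hev : ∀ D, D % 2 = 0 → kap r V (nrm r (c + sg i D)) = kap r V (nrm r (c + sg (i + 1) D)) := by
    intro D hD
    apply hn
    · intro l _ _
      simp only [Pi.add_apply, Pi.single_apply]
      split_ifs <;> omega
    · simp only [tot_add]
      rw [tot_single (by omega), tot_single (by omega)]
    · intro l _
      simp only [Pi.add_apply, Pi.single_apply]
      split_ifs <;> omega
  -- the case of an odd number of chips and a pair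
  have hod : ∀ (D : ℕ) (x : ℕ → ℕ), D % 2 = 1 → tot r x + 5 = tot r c + D →
      (∀ l, 1 ≤ l → l ≤ r → x l % 2 = c l % 2) → (∀ l, r < l → x l = c l) →
      V i (x + sg 0 2) 0 1 * kap r V (nrm r (c + sg i D)) =
        kap r V (nrm r (c + sg (i + 1) D)) := by
    intro D x hD hx1 hx2 hx3
    have := v_main hV h0 hi x
    have k : ∀ l, l ≤ r → kap r V (nrm r (x + sg l 1 + sg 0 4)) =
        kap r V (nrm r (c + sg l D)) := by
      intro l hl
      apply hn
      · intro l h1 h2
        have := hx2 l h1 h2
        simp only [Pi.add_apply, Pi.single_apply]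
        split_ifs <;> omega
      · simp only [tot_add]
        rw [tot_single hl, tot_single hl, tot_single (by omega)]
        omega
      · intro l hl
        have := hx3 l hl
        simp only [Pi.add_apply, Pi.single_apply]
        split_ifs <;> omega
    rw [k i (by omega), k (i + 1) (by omega)] at this
    exact this
  rcases Nat.even_or_odd' (a + b) with ⟨m, hm | hm⟩
  · -- even
    have hV1 : V i c a b = 1 := by
      by_cases hab : 2 ≤ a ∨ 2 ≤ b
      · rw [v_big hV h0 hi c hab, hm, v_even hV h0 hi]
      · by_cases h00 : a = 0 ∧ b = 0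
        · rw [h00.1, h00.2, h0 i c hi]
        · have h11 : a = 1 ∧ b = 1 := by omega
          have hp : ∃ l, l ≤ r ∧ 2 ≤ c l := by
            by_contra hcon
            apply hR
            refine ⟨fun l hl => ?_, Or.inr (Or.inr h11)⟩
            by_contra h
            exact hcon ⟨l, hl, by omega⟩
          obtain ⟨l, hl, h2⟩ := hp
          rw [← sub_single_add h2, v_pl hV h0 hi hl, h11.1, h11.2,
            show 1 + 1 + 2 = 2 * 2 from rfl, v_even hV h0 hi]
    rw [hV1, one_mul]
    exact hev _ (by omega)
  · -- odd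
    by_cases hab : 2 ≤ a ∨ 2 ≤ b
    · have hm1 : 1 ≤ m := by omega
      rw [v_big hV h0 hi c hab, hm, v_odd hV h0 hi]
      have := hod (2 * m + 1 + 2) (c + sg 0 (2 * m - 2)) (by omega) (by
        rw [tot_add, tot_single (by omega)]; omega) (by
        intro l h1 _
        have hne : l ≠ 0 := by omega
        simp [Pi.single_eq_of_ne hne]) (by
        intro l h1
        have hne : l ≠ 0 := by omega
        simp [Pi.single_eq_of_ne hne])
      rw [add_assoc c, ← Pi.single_add, show 2 * m - 2 + 2 = 2 * m by omega] at this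
      exact this
    · have hm0 : m = 0 := by omega
      have h3 : a + b + 2 = 3 := by omega
      rw [h3]
      by_cases hp : ∃ l, l ≤ r ∧ 2 ≤ c l
      · obtain ⟨l, hl, h2⟩ := hp
        have e := sub_single_add h2
        have hte : tot r (c - sg l 2) + 2 = tot r c := by
          conv_rhs => rw [← e]
          rw [tot_add, tot_single hl]
        have := hod 3 (c - sg l 2) (by omega) (by omega) (by
          intro l' _ _
          have := congrFun e l'
          simp only [Pi.add_apply, Pi.single_apply] at this
          split_ifs at this <;> omega) (by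
          intro l' hl'
          have hne : l' ≠ l := by omega
          simp [Pi.single_eq_of_ne hne])
        rw [← this]
        congr 1
        conv_lhs => rw [← e]
        rw [v_pl hV h0 hi hl, v_pl hV h0 hi (l := 0) (by omega), show a + b + 2 = 0 + 1 + 2 by omega]
      · have hc1 : ∀ l ≤ r, c l ≤ 1 := by
          intro l hl
          by_contra h
          exact hp ⟨l, hl, by omega⟩
        have h01 : a = 0 ∧ b = 1 := by
          by_contra hcon
          apply hR
          exact ⟨hc1, Or.inr (Or.inl (by omega))⟩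
        rw [h01.1, h01.2]
        apply v_tree hV h0 hi
        intro l h1 h2
        by_contra hcon
        apply hR
        refine ⟨hc1, Or.inl ⟨h01.1, h01.2, l, h1, h2, ?_⟩⟩
        intro h; rw [h] at hcon; exact hcon rfl

end norm

/-- **the theorem on chip systems** -/
theorem chips_main (hU : Sys r U) : ∃ h : (ℕ → ℕ) → H, ∀ i c a b, i < r →
    ¬ Rem r i c a b → gg U h i c a b = 1 := by
  have hV := hU.gauge (h1 r U)
  have h0 : ∀ i c, i < r → gg U (h1 r U) i c 0 0 = 1 := by
    intro i c hi
    rw [gg_eq_one_iff]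
    have := h1_edge hU _ i c hi rfl
    rw [eq_mul_inv_iff_mul_eq]
    exact this
  refine ⟨fun g => h1 r U g * kap r (gg U (h1 r U)) (nrm r g), ?_⟩
  intro i c a b hi hR
  rw [← gg_gg (U := U) (h1 r U) (fun g => kap r (gg U (h1 r U)) (nrm r g)), gg_eq_one_iff,
    eq_mul_inv_iff_mul_eq]
  exact v_final hV h0 hi c a b hR

/-- the trivial moves connect all states with a pair -/
theorem chips_conn (R : (ℕ → ℕ) → (ℕ → ℕ) → Prop) (hR : Equivalence R)
    (hmv : ∀ i c a b, i < r → (∀ l, r < l → c l = 0) → ¬ Rem r i c a b →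
      R (c + sg (i + 1) (a + b + 2)) (c + sg i (a + b + 2))) :
    ∀ g : ℕ → ℕ, (∀ l, r < l → g l = 0) → (∃ l ≤ r, 2 ≤ g l) → R g (sg 0 (tot r g)) := by
  have h2 : ∀ i c, i < r → (∀ l, r < l → c l = 0) → R (c + sg (i + 1) 2) (c + sg i 2) := by
    intro i c hi hc
    exact hmv i c 0 0 hi hc (by
      rintro ⟨-, h | h | h⟩
      · omega
      · omega
      · omega)
  have h2' : ∀ l c, l ≤ r → (∀ l, r < l → c l = 0) → R (c + sg l 2) (c + sg 0 2) := by
    intro l c hl hc
    induction l with
    | zero => exact hR.refl _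
    | succ l ih => exact hR.trans (h2 l c (by omega) hc) (ih (by omega))
  have key : ∀ (m : ℕ) (g : ℕ → ℕ), Wt r g = m → (∀ l, r < l → g l = 0) → (∃ l ≤ r, 2 ≤ g l) →
      R g (sg 0 (tot r g)) := by
    intro m
    induction m using Nat.strong_induction_on with
    | _ m ih =>
      intro g hm hg hp
      by_cases hex : ∃ j, 1 ≤ j ∧ j ≤ r ∧ 2 ≤ g j
      · obtain ⟨j, hj1, hj2, hj3⟩ := hex
        have e := sub_single_add hj3
        have hc : ∀ l, r < l → (g - sg j 2) l = 0 := by
          intro l hl
          simp [hg l hl]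
        have s1 : R g (g - sg j 2 + sg (j - 1) 2) := by
          have a1 := h2' j _ hj2 hc
          have a2 := h2' (j - 1) _ (by omega) hc
          rw [e] at a1
          exact hR.trans a1 (hR.symm a2)
        have ht : tot r (g - sg j 2 + sg (j - 1) 2) = tot r g := by
          conv_rhs => rw [← e]
          rw [tot_add, tot_add, tot_single hj2, tot_single (by omega)]
        have s2 := ih _ (by rw [← hm]; exact Wt_prev hj1 hj2 (by omega) hj3)
          (g - sg j 2 + sg (j - 1) 2) rfl (by
            intro l hl
            have hne : l ≠ j - 1 := by omega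
            rw [Pi.add_apply, sg_ne hne, hc l hl]) ⟨j - 1, by omega, by
            simp only [Pi.add_apply, Pi.single_eq_same]; omega⟩
        rw [ht] at s2
        exact hR.trans s1 s2
      · have hsm : ∀ l, 1 ≤ l → l ≤ r → g l ≤ 1 := by
          intro l h1 h2
          by_contra h
          exact hex ⟨l, h1, h2, by omega⟩
        have hg0 : 2 ≤ g 0 := by
          obtain ⟨l, h1, h2⟩ := hp
          rcases Nat.eq_zero_or_pos l with h | h
          · rwa [h] at h2
          · have := hsm l h h1; omega
        by_cases hex2 : ∃ j, 1 ≤ j ∧ j ≤ r ∧ g j = 1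
        · obtain ⟨hj1, hj2, hj3⟩ := fst_spec hex2
          have hmin : ∀ l, l < fst (fun j => 1 ≤ j ∧ j ≤ r ∧ g j = 1) →
              ¬ (1 ≤ l ∧ l ≤ r ∧ g l = 1) := fun l h => fst_min h
          set j := fst (fun j => 1 ≤ j ∧ j ≤ r ∧ g j = 1) with hj
          clear_value j
          obtain ⟨i, rfl⟩ : ∃ i, j = i + 1 := ⟨j - 1, by omega⟩
          have e1 : g - sg (i + 1) 1 + sg (i + 1) 1 = g := sub_single_add (by omega)
          have hne : (0 : ℕ) ≠ i + 1 := by omega
          have e2 : g - sg (i + 1) 1 - sg 0 2 + sg 0 2 = g - sg (i + 1) 1 := sub_single_add (by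
            simp only [Pi.sub_apply, Pi.single_eq_of_ne hne]; omega)
          set x := g - sg (i + 1) 1 - sg 0 2 with hx
          have hxc : ∀ l, r < l → x l = 0 := by
            intro l hl
            simp [hx, hg l hl]
          have hxl : ∀ l, 1 ≤ l → l ≤ i + 1 → x l = 0 := by
            intro l h1 h2
            have hne0 : l ≠ 0 := by omega
            by_cases h3 : l = i + 1
            · subst h3
              simp only [hx, Pi.sub_apply, Pi.single_eq_same, Pi.single_eq_of_ne hne0]
              omega
            · have := hmin l (by omega)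
              have := hsm l h1 (by omega)
              simp only [hx, Pi.sub_apply, Pi.single_eq_of_ne hne0, Pi.single_eq_of_ne h3]
              omega
          -- g = x + e_{i+1} + 2 e_0
          have eg : g = x + sg (i + 1) 1 + sg 0 2 := by
            rw [add_right_comm, e2, e1]
          have hc1 : ∀ l, r < l → (x + sg (i + 1) 1) l = 0 := by
            intro l hl
            have hne : l ≠ i + 1 := by omega
            rw [Pi.add_apply, sg_ne hne, hxc l hl]
          have hc2 : ∀ l, r < l → (x + sg i 1) l = 0 := by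
            intro l hl
            have hne : l ≠ i := by omega
            rw [Pi.add_apply, sg_ne hne, hxc l hl]
          have s1 : R g (x + sg (i + 1) 3) := by
            have := h2' (i + 1) (x + sg (i + 1) 1) hj2 hc1
            rw [← eg, add_assoc, ← Pi.single_add] at this
            exact hR.symm this
          have s2 : R (x + sg (i + 1) 3) (x + sg i 3) := hmv i x 0 1 (by omega) hxc (by
            rintro ⟨-, ⟨-, -, l, h1, h2, h3⟩ | h | h⟩
            · exact h3 (hxl l h1 h2)
            · omega
            · omega)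
          have s3 : R (x + sg i 3) (x + sg i 1 + sg 0 2) := by
            have := h2' i (x + sg i 1) (by omega) hc2
            rw [add_assoc, ← Pi.single_add] at this
            exact this
          have ht : tot r (x + sg i 1 + sg 0 2) = tot r g := by
            rw [eg]
            simp only [tot_add]
            rw [tot_single hj2, tot_single (by omega)]
          have hW : Wt r (x + sg i 1 + sg 0 2) < m := by
            rw [← hm, eg]
            simp only [Wt_add]
            rw [Wt_single hj2, Wt_single (by omega)]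
            omega
          have s4 := ih _ hW (x + sg i 1 + sg 0 2) rfl (by
            intro l hl
            have hne : l ≠ 0 := by omega
            rw [Pi.add_apply, sg_ne hne, hc2 l hl]) ⟨0, by omega, by
            simp only [Pi.add_apply, Pi.single_eq_same]; omega⟩
          rw [ht] at s4
          exact hR.trans s1 (hR.trans s2 (hR.trans s3 s4))
        · have : g = sg 0 (tot r g) := by
            have hz : ∀ l, 1 ≤ l → l ≤ r → g l = 0 := by
              intro l h1 h2
              have := hsm l h1 h2
              by_contra h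
              exact hex2 ⟨l, h1, h2, by omega⟩
            funext l
            by_cases hl : l = 0
            · subst hl
              have : (sg 0 (tot r g)) 0 = tot r g := Pi.single_eq_same _ _
              rw [this, tot_eq, Finset.sum_eq_zero]
              · rfl
              · intro l hl
                rw [Finset.mem_Icc] at hl
                exact hz l hl.1 hl.2
            · rw [sg_ne hl]
              by_cases h2 : l ≤ r
              · exact hz l (by omega) h2
              · exact hg l (by omega)
          rw [← this]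
          exact hR.refl _
  intro g
  exact key _ g rfl

end

end Pool.Agent.H213PG
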