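import Pool.Agent.helper213_PG.Defs

set_option autoImplicit false

/-!
# Counting the generators (paper 2.5)
-/

namespace Pool.Agent.H213PG

theorem m7cnt_pow (m j : ℕ) (W : Finset (Fin m)) :
    (Finset.univ.filter (fun S : Finset (Fin m) => S.card = j ∧ S ⊆ W)).card = W.card.choose j := by
  rw [← Finset.card_powersetCard]
  congr 1
  ext S
  rw [Finset.mem_filter, Finset.mem_powersetCard]
  simp only [Finset.mem_univ, true_and]
  tauto

theorem m7cnt_W (r i : ℕ) (hi : i < r) :
    (Finset.univ.filter (fun l : Fin (r + 1) => ¬ (1 ≤ l.1 ∧ l.1 ≤ i + 1))).card = r - i := by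
  have h1 : (Finset.univ.filter (fun l : Fin (r + 1) => ¬ (1 ≤ l.1 ∧ l.1 ≤ i + 1))).map Fin.valEmbedding =
      insert 0 (Finset.Ico (i + 2) (r + 1)) := by
    ext x
    simp only [Finset.mem_map, Finset.mem_filter, Finset.mem_univ, true_and, Finset.mem_insert,
      Finset.mem_Ico, Fin.valEmbedding_apply]
    constructor
    · rintro ⟨l, hl, rfl⟩
      have := l.2
      omega
    · intro h
      exact ⟨⟨x, by omega⟩, by simp only; omega, rfl⟩
  have h2 := congrArg Finset.card h1
  rw [Finset.card_map, Finset.card_insert_of_notMem (by simp), Nat.card_Ico] at h2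
  omega

theorem m7cnt_hockey (r j : ℕ) (hj : 1 ≤ j) :
    ∑ i ∈ Finset.range r, (r - i).choose j = (r + 1).choose (j + 1) := by
  induction r with
  | zero =>
    rw [Finset.range_zero, Finset.sum_empty]
    symm
    exact Nat.choose_eq_zero_of_lt (by omega)
  | succ r ih =>
    rw [Finset.sum_range_succ']
    have h1 : ∑ i ∈ Finset.range r, (r + 1 - (i + 1)).choose j = (r + 1).choose (j + 1) := by
      rw [← ih]
      refine Finset.sum_congr rfl (fun i _ => ?_)
      congr 1
      omega
    rw [h1, Nat.sub_zero, Nat.choose_succ_succ (r + 1) j]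
    ring

open Classical in
theorem m7cnt_split (r k : ℕ) : Nat.card (GenM r k) =
    ∑ i : Fin r, ((Finset.univ.filter (fun S : Finset (Fin (r + 1)) => S.card + 3 = k ∧
      ∃ l ∈ S, 1 ≤ l.1 ∧ l.1 ≤ i.1 + 1)).card +
      (Finset.univ.filter (fun S : Finset (Fin (r + 1)) => S.card + 3 = k)).card +
      (Finset.univ.filter (fun S : Finset (Fin (r + 1)) => S.card + 4 = k)).card) := by
  rw [Nat.card_eq_fintype_card, Fintype.card_subtype, Finset.card_filter, Fintype.sum_prod_type]
  refine Finset.sum_congr rfl (fun i _ => ?_)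
  rw [Fintype.sum_prod_type, Finset.card_filter, Finset.card_filter, Finset.card_filter,
    ← Finset.sum_add_distrib, ← Finset.sum_add_distrib]
  refine Finset.sum_congr rfl (fun S _ => ?_)
  rw [Fin.sum_univ_three]
  simp

theorem card_GenM (r k : ℕ) : Nat.card (GenM r k) = mrank r k := by
  classical
  rw [m7cnt_split]
  unfold mrank
  split_ifs with h1 h2
  · refine Finset.sum_eq_zero (fun i _ => ?_)
    have e1 : (Finset.univ.filter (fun S : Finset (Fin (r + 1)) => S.card + 3 = k ∧
        ∃ l ∈ S, 1 ≤ l.1 ∧ l.1 ≤ i.1 + 1)).card = 0 := by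
      rw [Finset.card_eq_zero, Finset.filter_eq_empty_iff]
      intro S _ hS
      omega
    have e2 : (Finset.univ.filter (fun S : Finset (Fin (r + 1)) => S.card + 3 = k)).card = 0 := by
      rw [Finset.card_eq_zero, Finset.filter_eq_empty_iff]
      intro S _ hS
      omega
    have e3 : (Finset.univ.filter (fun S : Finset (Fin (r + 1)) => S.card + 4 = k)).card = 0 := by
      rw [Finset.card_eq_zero, Finset.filter_eq_empty_iff]
      intro S _ hS
      omega
    simp only [e1, e2, e3, add_zero]
  · subst h2
    have h3 : ∀ i : Fin r, ((Finset.univ.filter (fun S : Finset (Fin (r + 1)) => S.card + 3 = 3 ∧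
      ∃ l ∈ S, 1 ≤ l.1 ∧ l.1 ≤ i.1 + 1)).card +
      (Finset.univ.filter (fun S : Finset (Fin (r + 1)) => S.card + 3 = 3)).card +
      (Finset.univ.filter (fun S : Finset (Fin (r + 1)) => S.card + 4 = 3)).card) = 1 := by
      intro i
      have e1 : (Finset.univ.filter (fun S : Finset (Fin (r + 1)) => S.card + 3 = 3 ∧
        ∃ l ∈ S, 1 ≤ l.1 ∧ l.1 ≤ i.1 + 1)).card = 0 := by
        rw [Finset.card_eq_zero, Finset.filter_eq_empty_iff]
        rintro S _ ⟨hS, l, hl, _⟩
        have : S = ∅ := Finset.card_eq_zero.1 (by omega)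
        rw [this] at hl
        exact absurd hl (Finset.notMem_empty l)
      have e2 : (Finset.univ.filter (fun S : Finset (Fin (r + 1)) => S.card + 3 = 3)).card = 1 := by
        rw [Finset.card_eq_one]
        refine ⟨∅, ?_⟩
        ext S
        rw [Finset.mem_filter, Finset.mem_singleton, ← Finset.card_eq_zero]
        simp
      have e3 : (Finset.univ.filter (fun S : Finset (Fin (r + 1)) => S.card + 4 = 3)).card = 0 := by
        rw [Finset.card_eq_zero, Finset.filter_eq_empty_iff]
        intro S _ hS
        omega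
      rw [e1, e2, e3]
    rw [Finset.sum_congr rfl (fun i _ => h3 i)]
    simp
  · obtain ⟨j, rfl⟩ : ∃ j, k = j + 4 := ⟨k - 4, by omega⟩
    have e2 : (Finset.univ.filter (fun S : Finset (Fin (r + 1)) => S.card + 3 = j + 4)).card =
        (r + 1).choose (j + 1) := by
      have := m7cnt_pow (r + 1) (j + 1) Finset.univ
      rw [Finset.card_univ, Fintype.card_fin] at this
      rw [← this]
      congr 1
      refine Finset.filter_congr (fun S _ => ?_)
      constructor
      · intro h
        exact ⟨by omega, Finset.subset_univ _⟩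
      · intro h
        omega
    have e3 : (Finset.univ.filter (fun S : Finset (Fin (r + 1)) => S.card + 4 = j + 4)).card =
        (r + 1).choose j := by
      have := m7cnt_pow (r + 1) j Finset.univ
      rw [Finset.card_univ, Fintype.card_fin] at this
      rw [← this]
      congr 1
      refine Finset.filter_congr (fun S _ => ?_)
      constructor
      · intro h
        exact ⟨by omega, Finset.subset_univ _⟩
      · intro h
        omega
    have e1 : ∀ i : Fin r, (Finset.univ.filter (fun S : Finset (Fin (r + 1)) => S.card + 3 = j + 4 ∧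
        ∃ l ∈ S, 1 ≤ l.1 ∧ l.1 ≤ i.1 + 1)).card + (r - i.1).choose (j + 1) = (r + 1).choose (j + 1) := by
      intro i
      have h5 := m7cnt_pow (r + 1) (j + 1) (Finset.univ.filter (fun l : Fin (r + 1) => ¬ (1 ≤ l.1 ∧ l.1 ≤ i.1 + 1)))
      rw [m7cnt_W r i.1 i.2] at h5
      rw [← h5, ← e2, ← Finset.card_union_of_disjoint]
      · congr 1
        ext S
        simp only [Finset.mem_union, Finset.mem_filter, Finset.mem_univ, true_and]
        constructor
        · rintro (h | h)
          · exact h.1
          · omega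
        · intro h
          by_cases h6 : ∃ l ∈ S, 1 ≤ l.1 ∧ l.1 ≤ i.1 + 1
          · exact Or.inl ⟨h, h6⟩
          · refine Or.inr ⟨by omega, fun l hl => ?_⟩
            rw [Finset.mem_filter]
            exact ⟨Finset.mem_univ _, fun h7 => h6 ⟨l, hl, h7⟩⟩
      · rw [Finset.disjoint_left]
        intro S hS hS'
        rw [Finset.mem_filter] at hS hS'
        obtain ⟨_, _, l, hl, h7⟩ := hS
        exact (Finset.mem_filter.1 (hS'.2.2 hl)).2 h7
    have h6 : ∑ i : Fin r, ((Finset.univ.filter (fun S : Finset (Fin (r + 1)) => S.card + 3 = j + 4 ∧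
        ∃ l ∈ S, 1 ≤ l.1 ∧ l.1 ≤ i.1 + 1)).card + (r - i.1).choose (j + 1)) = r * (r + 1).choose (j + 1) := by
      rw [Finset.sum_congr rfl (fun i _ => e1 i)]
      simp
    rw [Finset.sum_add_distrib] at h6
    have h7 : ∑ i : Fin r, (r - i.1).choose (j + 1) = (r + 1).choose (j + 2) := by
      rw [← m7cnt_hockey r (j + 1) (by omega), Finset.sum_range]
    rw [h7] at h6
    rw [Finset.sum_add_distrib, Finset.sum_add_distrib, e2, e3]
    simp only [Finset.sum_const, Finset.card_univ, Fintype.card_fin, smul_eq_mul]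
    have h8 : j + 4 - 3 = j + 1 := by omega
    have h9 : j + 4 - 2 = j + 2 := by omega
    rw [h8, h9, Nat.choose_succ_succ (r + 1) j, Nat.mul_add, Nat.succ_eq_add_one]
    omega

end Pool.Agent.H213PG
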