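import Pool.Agent.helper213_PG.M3Low
import Pool.Agent.helper213_PG.M5Bin
import Pool.Agent.helper213_PG.M6Chip
import Pool.Agent.helper213_PG.M7Cnt

set_option autoImplicit false
set_option linter.unusedSectionVars false

/-!
# Labels and generators (helper213)
-/

namespace Pool.Agent.H213PG

open PA Pj Finset

section

variable {n r k : ℕ}

/-- indicator of a set of bins -/
def cS (S : Finset (Fin (r + 1))) : ℕ → ℕ := fun l =>
  if h : l < r + 1 then (if (⟨l, h⟩ : Fin (r + 1)) ∈ S then 1 else 0) else 0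

theorem cS_zero (S : Finset (Fin (r + 1))) : ∀ l, r < l → cS S l = 0 := by
  intro l hl
  unfold cS
  rw [dif_neg (by omega)]

theorem cS_le (S : Finset (Fin (r + 1))) (l : ℕ) : cS S l ≤ 1 := by
  unfold cS
  split_ifs <;> omega

theorem cS_fin (S : Finset (Fin (r + 1))) (l : Fin (r + 1)) :
    cS S l.1 = if l ∈ S then 1 else 0 := by
  unfold cS
  rw [dif_pos l.2]

theorem cS_inj {S S' : Finset (Fin (r + 1))} (h : cS S = cS S') : S = S' := by
  ext l
  have := congrFun h l.1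
  rw [cS_fin, cS_fin] at this
  by_cases h1 : l ∈ S <;> by_cases h2 : l ∈ S' <;> simp [h1, h2] at this ⊢

theorem cS_surj {c : ℕ → ℕ} (h0 : ∀ l, r < l → c l = 0) (h1 : ∀ l ≤ r, c l ≤ 1) :
    ∃ S : Finset (Fin (r + 1)), cS S = c := by
  refine ⟨univ.filter (fun l => c l.1 = 1), ?_⟩
  funext l
  by_cases hl : l < r + 1
  · have := cS_fin (univ.filter (fun l : Fin (r + 1) => c l.1 = 1)) ⟨l, hl⟩
    simp only [mem_filter, mem_univ, true_and] at this
    rw [this]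
    have := h1 l (by omega)
    split_ifs <;> omega
  · rw [cS_zero _ l (by omega), h0 l (by omega)]

theorem tot_cS (S : Finset (Fin (r + 1))) : tot r (cS S) = S.card := by
  unfold tot
  rw [Finset.sum_range]
  simp only [cS_fin]
  simp

/-- number of chips -/
def ta (τ : Fin 3) : ℕ := if τ = 0 then 0 else 1

/-- number of chips -/
def tb (τ : Fin 3) : ℕ := if τ = 1 then 0 else 1

theorem gen_tot (hk : r + k = n) (y : GenM r k) :
    tot r (cS y.1.2.1) + (ta y.1.2.2 + tb y.1.2.2 + 2) + r = n := by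
  rw [tot_cS]
  obtain ⟨⟨i, S, τ⟩, h⟩ := y
  simp only at h ⊢
  rcases h with ⟨rfl, h, -⟩ | ⟨rfl, h⟩ | ⟨rfl, h⟩ <;> simp [ta, tb] <;> omega

theorem gen_rem (y : GenM r k) :
    Rem r y.1.1 (cS y.1.2.1) (ta y.1.2.2) (tb y.1.2.2) := by
  obtain ⟨⟨i, S, τ⟩, h⟩ := y
  simp only at h ⊢
  refine ⟨fun l _ => cS_le S l, ?_⟩
  rcases h with ⟨rfl, -, l, hl, h1, h2⟩ | ⟨rfl, -⟩ | ⟨rfl, -⟩
  · left
    refine ⟨by simp [ta], by simp [tb], l.1, h1, h2, ?_⟩
    rw [cS_fin, if_pos hl]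
    exact one_ne_zero
  · right; left; simp [ta, tb]
  · right; right; simp [ta, tb]

theorem rem_gen (hk : r + k = n) {i : ℕ} {c : ℕ → ℕ} {a b : ℕ} (hi : i < r)
    (h0 : ∀ l, r < l → c l = 0) (ht : tot r c + (a + b + 2) + r = n) (h : Rem r i c a b) :
    ∃ y : GenM r k, y.1.1.1 = i ∧ cS y.1.2.1 = c ∧ ta y.1.2.2 = a ∧ tb y.1.2.2 = b := by
  obtain ⟨S, rfl⟩ := cS_surj h0 h.1
  rw [tot_cS] at ht
  rcases h.2 with ⟨rfl, rfl, l, h1, h2, h3⟩ | ⟨rfl, rfl⟩ | ⟨rfl, rfl⟩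
  · refine ⟨⟨(⟨i, hi⟩, S, 0), Or.inl ⟨rfl, by simp only; omega, ?_⟩⟩, rfl, rfl, by simp [ta],
      by simp [tb]⟩
    have hl : l < r + 1 := by omega
    refine ⟨⟨l, hl⟩, ?_, h1, h2⟩
    have := cS_fin S ⟨l, hl⟩
    simp only at this
    rw [this] at h3
    by_contra hcon
    rw [if_neg hcon] at h3
    exact h3 rfl
  · exact ⟨⟨(⟨i, hi⟩, S, 1), Or.inr (Or.inl ⟨rfl, by simp only; omega⟩)⟩, rfl, rfl, by simp [ta],
      by simp [tb]⟩
  · exact ⟨⟨(⟨i, hi⟩, S, 2), Or.inr (Or.inr ⟨rfl, by simp only; omega⟩)⟩, rfl, rfl, by simp [ta],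
      by simp [tb]⟩

theorem tg_inj {i i' d d' : ℕ} {c c' : ℕ → ℕ} (hi : i < r) (hi' : i' < r) (hd : 0 < d)
    (h0 : ∀ l, r < l → c l = 0) (h0' : ∀ l, r < l → c' l = 0)
    (ht : tot r c + d + r = n) (ht' : tot r c' + d' + r = n)
    (h1 : TG n r (c + sg (i + 1) d) = TG n r (c' + sg (i' + 1) d'))
    (h2 : TG n r (c + sg i d) = TG n r (c' + sg i' d')) : i = i' ∧ d = d' ∧ c = c' := by
  have z : ∀ (c : ℕ → ℕ) (j d : ℕ), (∀ l, r < l → c l = 0) → j ≤ r →
      ∀ l, r < l → (c + sg j d) l = 0 := by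
    intro c j d hc hj l hl
    rw [Pi.add_apply, sg_ne (by omega), hc l hl]
  have e1 : c + sg (i + 1) d = c' + sg (i' + 1) d' := by
    have := congrArg (bn (n := n)) h1
    rw [bn_TG (by rw [tot_add, tot_single (by omega)]; omega) (z _ _ _ h0 (by omega)),
      bn_TG (by rw [tot_add, tot_single (by omega)]; omega) (z _ _ _ h0' (by omega))] at this
    exact this
  have e2 : c + sg i d = c' + sg i' d' := by
    have := congrArg (bn (n := n)) h2
    rw [bn_TG (by rw [tot_add, tot_single (by omega)]; omega) (z _ _ _ h0 (by omega)),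
      bn_TG (by rw [tot_add, tot_single (by omega)]; omega) (z _ _ _ h0' (by omega))] at this
    exact this
  have a1 := congrFun e1 (i + 1)
  have a2 := congrFun e2 (i + 1)
  simp only [Pi.add_apply, Pi.single_apply] at a1 a2
  have hii : i = i' ∧ d = d' := by
    split_ifs at a1 a2 <;> omega
  obtain ⟨rfl, rfl⟩ := hii
  exact ⟨rfl, rfl, add_right_cancel e1⟩

/-- the label belonging to a generator -/
def Mt (x : GT n) (y : GenM r k) : Prop :=
  x.2.2 = y.1.2.2 ∧ x.1 = TG n r (cS y.1.2.1 + sg (y.1.1.1 + 1) (ta y.1.2.2 + tb y.1.2.2 + 2)) ∧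
    x.2.1 = TG n r (cS y.1.2.1 + sg y.1.1.1 (ta y.1.2.2 + tb y.1.2.2 + 2))

theorem mt_uniq (hk : r + k = n) {x : GT n} {y y' : GenM r k} (h : Mt x y) (h' : Mt x y') :
    y = y' := by
  obtain ⟨e1, e2, e3⟩ := tg_inj y.1.1.2 y'.1.1.2 (by omega) (cS_zero _) (cS_zero _)
    (gen_tot hk y) (gen_tot hk y') (h.2.1.symm.trans h'.2.1) (h.2.2.symm.trans h'.2.2)
  apply Subtype.ext
  apply Prod.ext
  · exact Fin.ext e1
  · apply Prod.ext
    · exact cS_inj e3
    · exact h.1.symm.trans h'.1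

open Classical in
/-- from labels to generators -/
noncomputable def psi (n r k : ℕ) : FreeGroup (GT n) →* FreeGroup (GenM r k) :=
  FreeGroup.lift (fun x => if h : ∃ y : GenM r k, Mt x y then FreeGroup.of h.choose else 1)

theorem psi_of (hk : r + k = n) {x : GT n} {y : GenM r k} (h : Mt x y) :
    psi n r k (FreeGroup.of x) = FreeGroup.of y := by
  classical
  unfold psi
  rw [FreeGroup.lift_apply_of]
  have hex : ∃ y : GenM r k, Mt x y := ⟨y, h⟩
  rw [dif_pos hex]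
  congr 1
  exact mt_uniq hk hex.choose_spec h

theorem psi_of_not {x : GT n} (h : ¬ ∃ y : GenM r k, Mt x y) :
    psi n r k (FreeGroup.of x) = 1 := by
  classical
  unfold psi
  rw [FreeGroup.lift_apply_of, dif_neg h]

theorem psi_gen (hk : r + k = n) (y : GenM r k) (t j l : Fin n)
    (ht : t.1 = pos (cS y.1.2.1) y.1.1.1) (hj : j.1 = t.1 + ta y.1.2.2 + 1)
    (hl : l.1 = t.1 + (ta y.1.2.2 + tb y.1.2.2 + 2)) :
    psi n r k (labv (TG n r (cS y.1.2.1 + sg (y.1.1.1 + 1) (ta y.1.2.2 + tb y.1.2.2 + 2))) t j l) =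
      FreeGroup.of y := by
  have htot := gen_tot hk y
  have hfr := (frozen_iff y.1.1.2 (by omega) htot t l ht hl).2 (fun m _ => cS_le _ m)
  obtain ⟨hf, hm⟩ := TG_move y.1.1.2 (by omega) htot t l ht hl
  unfold labv
  rw [hm]
  obtain ⟨⟨i, S, τ⟩, hy⟩ := y
  simp only at hy ht hj hl hfr hf hm htot ⊢
  fin_cases τ
  · rw [if_pos]
    · exact psi_of hk ⟨rfl, rfl, rfl⟩
    · simp [ta, tb] at hj hl
      exact ⟨hfr, hl, hj⟩
  · rw [if_neg, if_pos]
    · exact psi_of hk ⟨rfl, rfl, rfl⟩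
    · simp [ta, tb] at hj hl
      exact ⟨hfr, hl, hj⟩
    · simp [ta, tb] at hj hl
      rintro ⟨-, -, h⟩
      omega
  · rw [if_neg, if_neg, if_pos]
    · exact psi_of hk ⟨rfl, rfl, rfl⟩
    · simp [ta, tb] at hj hl
      exact ⟨hfr, hl, hj⟩
    · simp [ta, tb] at hj hl
      rintro ⟨-, h, -⟩
      omega
    · simp [ta, tb] at hj hl
      rintro ⟨-, h, -⟩
      omega

theorem psi_not_rem {i : ℕ} {c : ℕ → ℕ} {a b : ℕ} (hk : r + k = n) (hi : i < r)
    (h0 : ∀ l, r < l → c l = 0) (htot : tot r c + (a + b + 2) + r = n) (hR : ¬ Rem r i c a b)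
    (t j l : Fin n) (ht : t.1 = pos c i) (hj : j.1 = t.1 + a + 1)
    (hl : l.1 = t.1 + (a + b + 2)) :
    psi n r k (labv (TG n r (c + sg (i + 1) (a + b + 2))) t j l) = 1 := by
  have hfr := frozen_iff hi (by omega) htot t l ht hl
  obtain ⟨hf, hm⟩ := TG_move hi (by omega) htot t l ht hl
  unfold labv
  rw [hm, hfr]
  split_ifs with h1 h2 h3
  · apply psi_of_not
    rintro ⟨y, hy1, hy2, hy3⟩
    obtain ⟨e1, e2, e3⟩ := tg_inj hi y.1.1.2 (by omega) h0 (cS_zero _) htot (gen_tot hk y) hy2 hy3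
    apply hR
    have := gen_rem y
    rw [← e1, ← e3, ← hy1] at this
    have ha : a = ta 0 := by simp [ta]; omega
    have hb : b = tb 0 := by simp [tb]; omega
    rw [ha, hb]
    exact this
  · exact absurd ⟨h2.1, Or.inr (Or.inl ⟨by omega, by omega⟩)⟩ hR
  · exact absurd ⟨h3.1, Or.inr (Or.inr ⟨by omega, by omega⟩)⟩ hR
  · exact map_one _

end

end Pool.Agent.H213PG
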