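import Pool.Agent.helper213_PG.Abs
import Pool.Agent.helper213_PG.Inv
import Pool.Agent.helper213_IG.Pn

set_option autoImplicit false

/-!
# Projections with blocks of size at most two
-/

namespace Pool.Agent.H213PG

open Pool.Agent.H213 (PM Vec ev)

/-- a projection of the partial Brauer monoid: the partial matching `a` of the points and the set
`t` of the points lying in through strings -/
@[ext] structure Pj (n : ℕ) where
  a : Fin n → Fin n
  t : Fin n → Prop
  inv : ∀ x, a (a x) = x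
  ht : ∀ x, t x → a x = x

namespace Pj

variable {n : ℕ}

theorem a_inj (p : Pj n) {x y : Fin n} (h : p.a x = p.a y) : x = y := by
  rw [← p.inv x, h, p.inv]

theorem a_eq_iff (p : Pj n) {x y : Fin n} : p.a x = y ↔ x = p.a y := by
  constructor
  · rintro rfl; rw [p.inv]
  · rintro rfl; rw [p.inv]

/-- the underlying partition -/
def toPM (p : Pj n) : PM n where
  r x y := (x.1 = y.1 ∧ (x.2 = y.2 ∨ p.a x.2 = y.2)) ∨ (x.2 = y.2 ∧ p.t x.2)
  eqv := by
    refine ⟨fun x => Or.inl ⟨rfl, Or.inl rfl⟩, ?_, ?_⟩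
    · rintro ⟨b, i⟩ ⟨c, j⟩ h
      rcases h with ⟨h1, h2 | h2⟩ | ⟨h1, h2⟩
      · simp only at h1 h2; subst h1; subst h2; exact Or.inl ⟨rfl, Or.inl rfl⟩
      · simp only at h1 h2; subst h1; subst h2; exact Or.inl ⟨rfl, Or.inr (p.inv _)⟩
      · simp only at h1 h2; subst h1; exact Or.inr ⟨rfl, h2⟩
    · rintro ⟨b, i⟩ ⟨c, j⟩ ⟨d, k⟩ h h'
      have inv := p.inv
      have ht := p.ht
      rcases h with ⟨h1, h2 | h2⟩ | ⟨h1, h2⟩ <;> rcases h' with ⟨h3, h4 | h4⟩ | ⟨h3, h4⟩ <;>
        simp only at h1 h2 h3 h4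
      · subst h1; subst h2; subst h3; subst h4; exact Or.inl ⟨rfl, Or.inl rfl⟩
      · subst h1; subst h2; subst h3; subst h4; exact Or.inl ⟨rfl, Or.inr rfl⟩
      · subst h1; subst h2; subst h3; exact Or.inr ⟨rfl, h4⟩
      · subst h1; subst h2; subst h3; subst h4; exact Or.inl ⟨rfl, Or.inr rfl⟩
      · subst h1; subst h2; subst h3; subst h4; exact Or.inl ⟨rfl, Or.inl (inv i).symm⟩
      · subst h1; subst h2; subst h3
        have := ht _ h4
        rw [inv] at this
        exact Or.inr ⟨this, by rw [this]; exact h4⟩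
      · subst h1; subst h3; subst h4; exact Or.inr ⟨rfl, h2⟩
      · subst h1; subst h3; subst h4; exact Or.inr ⟨(ht _ h2).symm, h2⟩
      · subst h1; subst h3; exact Or.inr ⟨rfl, h2⟩

theorem mem_C_toPM (p : Pj n) {f g : Vec n} : (f, g) ∈ (toPM p).C ↔
    (∀ i, f (p.a i) = f i) ∧ (∀ i, g (p.a i) = g i) ∧ ∀ i, p.t i → f i = g i := by
  rw [PM.mem_C]
  constructor
  · intro h
    refine ⟨fun i => ?_, fun i => ?_, fun i hi => ?_⟩
    · have := h (false, i) (false, p.a i) (Or.inl ⟨rfl, Or.inr rfl⟩)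
      simpa using this.symm
    · have := h (true, i) (true, p.a i) (Or.inl ⟨rfl, Or.inr rfl⟩)
      simpa using this.symm
    · have := h (false, i) (true, i) (Or.inr ⟨rfl, hi⟩)
      simpa using this
  · rintro ⟨h1, h2, h3⟩ ⟨b, i⟩ ⟨c, j⟩ h
    rcases h with ⟨h4, h5 | h5⟩ | ⟨h4, h5⟩ <;> simp only at h4 h5
    · subst h4; subst h5; rfl
    · subst h4; subst h5
      cases b <;> simp [h1, h2]
    · subst h4
      cases b <;> cases c <;> simp [h3 _ h5]

theorem toPM_inj {p q : Pj n} (h : toPM p = toPM q) : p = q := by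
  have hr : ∀ x y, (toPM p).r x y ↔ (toPM q).r x y := fun x y => by rw [h]
  have h1 : ∀ i, p.t i ↔ q.t i := by
    intro i
    have := hr (false, i) (true, i)
    simpa [toPM] using this
  have h2 : ∀ i, p.a i = q.a i := by
    intro i
    have e1 := (hr (false, i) (false, p.a i)).1 (Or.inl ⟨rfl, Or.inr rfl⟩)
    have e2 := (hr (false, i) (false, q.a i)).2 (Or.inl ⟨rfl, Or.inr rfl⟩)
    rcases e1 with ⟨-, h3 | h3⟩ | ⟨h3, -⟩ <;> simp only at h3
    · rcases e2 with ⟨-, h4 | h4⟩ | ⟨h4, -⟩ <;> simp only at h4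
      · rw [← h3]; exact h4
      · exact h4
      · rw [← h3]; exact h4
    · exact h3.symm
    · rcases e2 with ⟨-, h4 | h4⟩ | ⟨h4, -⟩ <;> simp only at h4
      · rw [← h3]; exact h4
      · exact h4
      · rw [← h3]; exact h4
  ext i
  · exact congrArg _ (h2 i)
  · exact h1 i

/-- end points -/
theorem end_of_t {p : Pj n} {x : Fin n} (h : p.t x) : p.a x = x := p.ht x h

variable (p s : Pj n)

/-- in `s p s`: the point `x` is matched to the point `y` through `p` -/
def Lk (x y : Fin n) : Prop := s.t x ∧ s.t y ∧ y ≠ x ∧ J s.a p.a x y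

theorem Lk.symm' {x y : Fin n} (h : Lk p s x y) : Lk p s y x :=
  ⟨h.2.1, h.1, h.2.2.1.symm, h.2.2.2.symm'⟩

theorem Lk.uniq {x y z : Fin n} (h : Lk p s x y) (h2 : Lk p s x z) : y = z :=
  ends_le_two s.inv p.inv h.2.2.2 h2.2.2.2 (Or.inl (s.ht _ h.1)) (Or.inl (s.ht _ h.2.1))
    (Or.inl (s.ht _ h2.2.1)) h.2.2.1 h2.2.2.1

theorem Lk.not_through {x y z : Fin n} (h : Lk p s x y) (hz : p.t z) : ¬ J s.a p.a x z := by
  intro h2
  by_cases hzx : z = x
  · subst hzx
    exact h.2.2.1 (J.eq_of_fixed s.inv p.inv (s.ht _ h.1) (p.ht _ hz) h.2.2.2)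
  · have e := ends_le_two s.inv p.inv h.2.2.2 h2 (Or.inl (s.ht _ h.1)) (Or.inl (s.ht _ h.2.1))
      (Or.inr (p.ht _ hz)) h.2.2.1 hzx
    subst e
    exact h.2.2.1 (J.eq_of_fixed s.inv p.inv (s.ht _ h.2.1) (p.ht _ hz) h2.symm').symm

open Classical in
/-- `cj p s = s p s` -/
noncomputable def cj : Pj n where
  a x := if s.t x then (if h : ∃ y, Lk p s x y then h.choose else x) else s.a x
  t x := s.t x ∧ ∃ z, p.t z ∧ J s.a p.a x z
  inv x := by
    by_cases hx : s.t x
    · by_cases h : ∃ y, Lk p s x y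
      · simp only [hx, if_true, dif_pos h]
        have h1 := h.choose_spec
        have h2 : ∃ y, Lk p s h.choose y := ⟨x, h1.symm'⟩
        simp only [h1.2.1, if_true, dif_pos h2]
        exact (Lk.uniq p s h1.symm' h2.choose_spec).symm
      · simp only [hx, if_true, dif_neg h]
    · have : ¬ s.t (s.a x) := by
        intro h
        apply hx
        have := s.ht _ h
        rw [s.inv] at this
        rwa [← this] at h
      simp only [hx, if_false, this, s.inv]
  ht x := by
    rintro ⟨hx, z, hz, hj⟩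
    by_cases h : ∃ y, Lk p s x y
    · exact absurd hj (Lk.not_through p s h.choose_spec hz)
    · simp only [hx, if_true, dif_neg h]

variable {p s}

theorem cj_t {x : Fin n} : (cj p s).t x ↔ s.t x ∧ ∃ z, p.t z ∧ J s.a p.a x z := Iff.rfl

theorem cj_a_not {x : Fin n} (hx : ¬ s.t x) : (cj p s).a x = s.a x := by
  simp [cj, hx]

theorem cj_a_lk {x y : Fin n} (h : Lk p s x y) : (cj p s).a x = y := by
  classical
  have h1 : ∃ y, Lk p s x y := ⟨y, h⟩
  simp only [cj, h.1, if_true, dif_pos h1]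
  exact Lk.uniq p s h1.choose_spec h

theorem cj_a_none {x : Fin n} (hx : s.t x) (h : ¬ ∃ y, Lk p s x y) : (cj p s).a x = x := by
  classical
  simp only [cj, hx, if_true, dif_neg h]

/-- functions on the points constant on the components -/
theorem J.const {f g : Fin n → Fin n} {h : Vec n} (h1 : ∀ i, h (f i) = h i) (h2 : ∀ i, h (g i) = h i)
    {x y : Fin n} (hj : J f g x y) : h x = h y := by
  unfold J at hj
  induction hj with
  | rel x y hh =>
    rcases hh with hh | hh
    · rw [← hh, h1]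
    · rw [← hh, h2]
  | refl x => rfl
  | symm x y _ ih => exact ih.symm
  | trans x y z _ _ ih1 ih2 => exact ih1.trans ih2

open Classical in
theorem toPM_cj : toPM (cj p s) = toPM s * toPM p * toPM s := by
  apply PM.ext_C
  intro f g
  rw [PM.mem_C_mul]
  constructor
  · intro h
    rw [mem_C_toPM] at h
    obtain ⟨hf, hg, hfg⟩ := h
    -- the fold functions
    have key : ∀ f : Vec n, (∀ i, f ((cj p s).a i) = f i) →
        ∃ k : Vec n, (∀ i, k (s.a i) = k i) ∧ (∀ i, k (p.a i) = k i) ∧ (∀ i, s.t i → f i = k i) ∧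
          ∀ z, (¬ ∃ x, s.t x ∧ J s.a p.a z x) → k z = 0 := by
      intro f hf
      refine ⟨fun z => if h : ∃ x, s.t x ∧ J s.a p.a z x then f h.choose else 0, ?_, ?_, ?_, ?_⟩
      · intro i
        by_cases h : ∃ x, s.t x ∧ J s.a p.a i x
        · have h' : ∃ x, s.t x ∧ J s.a p.a (s.a i) x :=
            ⟨h.choose, h.choose_spec.1, (J.left i).symm'.trans' h.choose_spec.2⟩
          simp only [dif_pos h, dif_pos h']
          have c1 := h.choose_spec
          have c2 := h'.choose_spec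
          by_cases he : h'.choose = h.choose
          · rw [he]
          · have : Lk p s h.choose h'.choose :=
              ⟨c1.1, c2.1, he, c1.2.symm'.trans' ((J.left i).trans' c2.2)⟩
            rw [← cj_a_lk this, hf]
        · have h' : ¬ ∃ x, s.t x ∧ J s.a p.a (s.a i) x := by
            rintro ⟨x, h1, h2⟩
            exact h ⟨x, h1, (J.left i).trans' h2⟩
          simp only [dif_neg h, dif_neg h']
      · intro i
        by_cases h : ∃ x, s.t x ∧ J s.a p.a i x
        · have h' : ∃ x, s.t x ∧ J s.a p.a (p.a i) x :=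
            ⟨h.choose, h.choose_spec.1, (J.right i).symm'.trans' h.choose_spec.2⟩
          simp only [dif_pos h, dif_pos h']
          have c1 := h.choose_spec
          have c2 := h'.choose_spec
          by_cases he : h'.choose = h.choose
          · rw [he]
          · have : Lk p s h.choose h'.choose :=
              ⟨c1.1, c2.1, he, c1.2.symm'.trans' ((J.right i).trans' c2.2)⟩
            rw [← cj_a_lk this, hf]
        · have h' : ¬ ∃ x, s.t x ∧ J s.a p.a (p.a i) x := by
            rintro ⟨x, h1, h2⟩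
            exact h ⟨x, h1, (J.right i).trans' h2⟩
          simp only [dif_neg h, dif_neg h']
      · intro i hi
        have h : ∃ x, s.t x ∧ J s.a p.a i x := ⟨i, hi, J.rfl' i⟩
        simp only [dif_pos h]
        have c1 := h.choose_spec
        by_cases he : h.choose = i
        · rw [he]
        · have : Lk p s i h.choose := ⟨hi, c1.1, he, c1.2⟩
          rw [← cj_a_lk this, hf]
      · intro z hz
        simp only [dif_neg hz]
    obtain ⟨k1, a1, a2, a3, a4⟩ := key f hf
    obtain ⟨k2, b1, b2, b3, b4⟩ := key g hg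
    refine ⟨k2, ?_, ?_⟩
    · rw [PM.mem_C_mul]
      refine ⟨k1, ?_, ?_⟩
      · rw [mem_C_toPM]
        refine ⟨fun i => ?_, a1, a3⟩
        by_cases hi : s.t i
        · rw [s.ht _ hi]
        · rw [← cj_a_not hi, hf]
      · rw [mem_C_toPM]
        refine ⟨a2, b2, ?_⟩
        intro z hz
        by_cases h : ∃ x, s.t x ∧ J s.a p.a z x
        · obtain ⟨x, hx, hj⟩ := h
          rw [J.const a1 a2 hj, J.const b1 b2 hj, ← a3 x hx, ← b3 x hx]
          exact hfg x ⟨hx, z, hz, hj.symm'⟩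
        · rw [a4 z h, b4 z h]
    · rw [mem_C_toPM]
      refine ⟨b1, fun i => ?_, fun i hi => (b3 i hi).symm⟩
      by_cases hi : s.t i
      · rw [s.ht _ hi]
      · rw [← cj_a_not hi, hg]
  · rintro ⟨k2, h1, h2⟩
    rw [PM.mem_C_mul] at h1
    obtain ⟨k1, h0, h1⟩ := h1
    rw [mem_C_toPM] at h0 h1 h2
    obtain ⟨c1, c2, c3⟩ := h0
    obtain ⟨d1, d2, d3⟩ := h1
    obtain ⟨e1, e2, e3⟩ := h2
    rw [mem_C_toPM]
    refine ⟨fun i => ?_, fun i => ?_, fun i hi => ?_⟩
    · by_cases hi : s.t i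
      · by_cases h : ∃ y, Lk p s i y
        · obtain ⟨y, hy⟩ := h
          rw [cj_a_lk hy, c3 y hy.2.1, c3 i hi]
          exact (J.const c2 d1 hy.2.2.2).symm
        · rw [cj_a_none hi h]
      · rw [cj_a_not hi, c1]
    · by_cases hi : s.t i
      · by_cases h : ∃ y, Lk p s i y
        · obtain ⟨y, hy⟩ := h
          rw [cj_a_lk hy, ← e3 y hy.2.1, ← e3 i hi]
          exact (J.const e1 d2 hy.2.2.2).symm
        · rw [cj_a_none hi h]
      · rw [cj_a_not hi, e2]
    · obtain ⟨hi, z, hz, hj⟩ := hi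
      rw [c3 i hi, ← e3 i hi, J.const c2 d1 hj, J.const e1 d2 hj, d3 z hz]

theorem toPM_idem : toPM p * toPM p = toPM p := by
  apply PM.ext_C
  intro f g
  rw [PM.mem_C_mul]
  constructor
  · rintro ⟨h, h1, h2⟩
    rw [mem_C_toPM] at *
    exact ⟨h1.1, h2.2.1, fun i hi => (h1.2.2 i hi).trans (h2.2.2 i hi)⟩
  · intro h
    refine ⟨f, ?_, h⟩
    rw [mem_C_toPM] at *
    exact ⟨h.1, h.1, fun _ _ => rfl⟩

theorem toPM_swap {f g : Vec n} (h : (f, g) ∈ (toPM p).C) : (g, f) ∈ (toPM p).C := by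
  rw [mem_C_toPM] at *
  exact ⟨h.2.1, h.1, fun i hi => (h.2.2 i hi).symm⟩

theorem toPM_fst {f g : Vec n} (h : (f, g) ∈ (toPM p).C) : (f, f) ∈ (toPM p).C := by
  rw [mem_C_toPM] at *
  exact ⟨h.1, h.1, fun _ _ => rfl⟩

theorem toPM_snd {f g : Vec n} (h : (f, g) ∈ (toPM p).C) : (g, g) ∈ (toPM p).C := by
  rw [mem_C_toPM] at *
  exact ⟨h.2.1, h.2.1, fun _ _ => rfl⟩

theorem toPM_pqpq : toPM p * toPM s * toPM p * toPM s = toPM p * toPM s := by
  apply PM.ext_C
  intro f g
  constructor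
  · intro h
    rw [PM.mem_C_mul] at h
    obtain ⟨h2, h3, b2⟩ := h
    rw [PM.mem_C_mul] at h3
    obtain ⟨k, h4, b1⟩ := h3
    have r1 : (f, k) ∈ (toPM p * toPM s).C := h4
    rw [PM.mem_C_mul] at h4
    obtain ⟨h1, a1, a2⟩ := h4
    have r2 : (h2, k) ∈ (toPM p * toPM s).C :=
      PM.mem_C_mul.2 ⟨k, toPM_swap b1, toPM_snd a2⟩
    have r3 : (h2, g) ∈ (toPM p * toPM s).C :=
      PM.mem_C_mul.2 ⟨h2, toPM_snd b1, b2⟩
    have := (toPM p * toPM s).C.add_mem ((toPM p * toPM s).C.sub_mem r1 r2) r3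
    simpa using this
  · intro h
    rw [PM.mem_C_mul] at h
    obtain ⟨m, a1, a2⟩ := h
    refine PM.mem_C_mul.2 ⟨m, PM.mem_C_mul.2 ⟨m, PM.mem_C_mul.2 ⟨m, a1, toPM_fst a2⟩, toPM_snd a1⟩, a2⟩

noncomputable instance : PA (Pj n) where
  th := cj
  th_self p := by
    apply toPM_inj
    rw [toPM_cj, toPM_idem, toPM_idem]
  th_idem p s := by
    apply toPM_inj
    rw [toPM_cj, toPM_cj]
    simp only [mul_assoc, toPM_idem]
    rw [← mul_assoc (toPM s) (toPM s), toPM_idem]
  th_sw p q := by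
    apply toPM_inj
    simp only [toPM_cj, ← mul_assoc]
    rw [toPM_pqpq]
  th_th x p q := by
    apply toPM_inj
    simp only [toPM_cj, mul_assoc]
  th_p5 x p q := by
    apply toPM_inj
    simp only [toPM_cj, mul_assoc]
    have e : toPM q * (toPM p * (toPM q * toPM p)) = toPM q * toPM p := by
      have := toPM_pqpq (p := q) (s := p)
      simpa only [mul_assoc] using this
    have e2 : ∀ z : PM n, toPM q * (toPM p * (toPM q * (toPM p * z))) = toPM q * (toPM p * z) := by
      intro z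
      have := congrArg (fun y => y * z) e
      simpa only [mul_assoc] using this
    have e3 : toPM p * (toPM q * (toPM p * toPM q)) = toPM p * toPM q := by
      have := toPM_pqpq (p := p) (s := q)
      simpa only [mul_assoc] using this
    rw [e2, e3]

theorem th_eq (p s : Pj n) : PA.th p s = cj p s := rfl

end Pj

end Pool.Agent.H213PG
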