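import Pool.Agent.helper213_PG.Pj
import Mathlib.Algebra.BigOperators.Ring.Finset
import Mathlib.Algebra.CharP.Two

set_option autoImplicit false

/-!
# Planarity, parity and closure
-/

namespace Pool.Agent.H213PG

open PA

theorem card_zero_of_inv {α : Type} [DecidableEq α] (S : Finset α) (f : α → α)
    (hS : ∀ x ∈ S, f x ∈ S) (hne : ∀ x ∈ S, f x ≠ x) (hinv : ∀ x ∈ S, f (f x) = x) :
    (S.card : ZMod 2) = 0 := by
  rw [Finset.card_eq_sum_ones, Nat.cast_sum]
  apply Finset.sum_involution (fun a _ => f a)
  · intro a _; decide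
  · intro a ha _; exact hne a ha
  · intro a ha; exact hS a ha
  · intro a ha; exact hinv a ha

/-- planar projections: arcs do not cross and do not cover through points -/
def Planar {n : ℕ} (p : Pj n) : Prop :=
  ∀ x y, x < y → y < p.a x → ¬ p.t y ∧ x < p.a y ∧ p.a y < p.a x

section par

variable {n : ℕ}

open Classical in
/-- number of elements of `C` to the left of `v` modulo 2 -/
noncomputable def cn (C : Set (Fin n)) (v : Fin n) : ZMod 2 :=
  ((Finset.univ.filter (fun c => c ∈ C ∧ c < v)).card : ZMod 2)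

open Classical in
theorem cn_through {p : Pj n} (hp : Planar p) {C : Set (Fin n)} (hC : ∀ x ∈ C, p.a x ∈ C)
    {v : Fin n} (hv : p.t v) : cn C v =
      ((Finset.univ.filter (fun c => (c ∈ C ∧ c < v) ∧ p.a c = c)).card : ZMod 2) := by
  unfold cn
  rw [← Finset.card_filter_add_card_filter_not (s := Finset.univ.filter (fun c => c ∈ C ∧ c < v))
    (fun c => p.a c = c)]
  rw [Nat.cast_add, Finset.filter_filter, Finset.filter_filter]
  have := card_zero_of_inv (Finset.univ.filter (fun c => (c ∈ C ∧ c < v) ∧ ¬ p.a c = c)) p.a ?_ ?_ ?_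
  · rw [this, add_zero]
  · intro x hx
    simp only [Finset.mem_filter, Finset.mem_univ, true_and] at hx ⊢
    refine ⟨⟨hC x hx.1.1, ?_⟩, ?_⟩
    · by_contra h
      rcases lt_or_eq_of_le (not_lt.1 h) with h2 | h2
      · exact (hp x v hx.1.2 h2).1 hv
      · have := p.ht v hv
        rw [h2, p.inv] at this
        exact hx.2 this.symm
    · rw [p.inv]; exact fun h => hx.2 h.symm
  · intro x hx
    simp only [Finset.mem_filter, Finset.mem_univ, true_and] at hx
    exact hx.2
  · intro x _
    exact p.inv x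

/-- `C` contains no isolated points of `p` -/
def NoIso (p : Pj n) (C : Set (Fin n)) : Prop := ∀ x ∈ C, p.a x = x → p.t x

open Classical in
theorem cn_arc_aux {p : Pj n} (hp : Planar p) {C : Set (Fin n)} (hC : ∀ x ∈ C, p.a x ∈ C)
    (hI : NoIso p C) {v : Fin n} (hv : v ∉ C) (hlt : v < p.a v) : cn C (p.a v) = cn C v := by
  unfold cn
  rw [← Finset.card_filter_add_card_filter_not
    (s := Finset.univ.filter (fun c => c ∈ C ∧ c < p.a v)) (fun c => c < v)]
  rw [Nat.cast_add, Finset.filter_filter, Finset.filter_filter]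
  have e1 : (Finset.univ.filter (fun c => (c ∈ C ∧ c < p.a v) ∧ c < v)) =
      (Finset.univ.filter (fun c => c ∈ C ∧ c < v)) := by
    ext c
    simp only [Finset.mem_filter, Finset.mem_univ, true_and]
    constructor
    · rintro ⟨⟨h1, h2⟩, h3⟩; exact ⟨h1, h3⟩
    · rintro ⟨h1, h3⟩; exact ⟨⟨h1, h3.trans hlt⟩, h3⟩
  have := card_zero_of_inv (Finset.univ.filter (fun c => (c ∈ C ∧ c < p.a v) ∧ ¬ c < v)) p.a ?_ ?_ ?_
  · rw [this, add_zero, e1]
  · intro x hx
    simp only [Finset.mem_filter, Finset.mem_univ, true_and] at hx ⊢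
    have hvx : v < x := lt_of_le_of_ne (not_lt.1 hx.2) (fun h => hv (h ▸ hx.1.1))
    have := hp v x hvx hx.1.2
    exact ⟨⟨hC x hx.1.1, this.2.2⟩, not_lt.2 this.2.1.le⟩
  · intro x hx h
    simp only [Finset.mem_filter, Finset.mem_univ, true_and] at hx
    have hvx : v < x := lt_of_le_of_ne (not_lt.1 hx.2) (fun h => hv (h ▸ hx.1.1))
    exact (hp v x hvx hx.1.2).1 (hI x hx.1.1 h)
  · intro x _
    exact p.inv x

theorem cn_arc {p : Pj n} (hp : Planar p) {C : Set (Fin n)} (hC : ∀ x ∈ C, p.a x ∈ C)
    (hI : NoIso p C) {v : Fin n} (hv : v ∉ C) : cn C (p.a v) = cn C v := by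
  rcases lt_trichotomy v (p.a v) with h | h | h
  · exact cn_arc_aux hp hC hI hv h
  · rw [← h]
  · have hv' : p.a v ∉ C := by
      intro h2
      have := hC _ h2
      rw [p.inv] at this
      exact hv this
    have := cn_arc_aux hp hC hI hv' (by rw [p.inv]; exact h)
    rw [p.inv] at this
    exact this.symm

/-- parity is constant on the other components -/
theorem cn_J {p s : Pj n} (hp : Planar p) (hs : Planar s) {C : Set (Fin n)}
    (hC : ∀ x ∈ C, p.a x ∈ C) (hC2 : ∀ x ∈ C, s.a x ∈ C) (hI : NoIso p C) (hI2 : NoIso s C)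
    {v w : Fin n} (hv : v ∉ C) (h : J s.a p.a v w) : cn C v = cn C w := by
  have := (J.mem_iff s.inv p.inv {w | w ∉ C ∧ cn C v = cn C w} ?_ h).1 ⟨hv, rfl⟩
  · exact this.2
  · rintro x ⟨hx, e⟩
    refine ⟨⟨?_, ?_⟩, ⟨?_, ?_⟩⟩
    · intro h2
      have := hC2 _ h2
      rw [s.inv] at this
      exact hx this
    · rw [cn_arc hs hC2 hI2 hx]; exact e
    · intro h2
      have := hC _ h2
      rw [p.inv] at this
      exact hx this
    · rw [cn_arc hp hC hI hx]; exact e

/-- the component of a point -/
def cls (f g : Fin n → Fin n) (x : Fin n) : Set (Fin n) := {y | J f g x y}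

theorem cls_left {f g : Fin n → Fin n} {x : Fin n} : ∀ y ∈ cls f g x, f y ∈ cls f g x :=
  fun _ h => J.trans' h (J.left _)

theorem cls_right {f g : Fin n → Fin n} {x : Fin n} : ∀ y ∈ cls f g x, g y ∈ cls f g x :=
  fun _ h => J.trans' h (J.right _)

end par

namespace Pj

variable {n : ℕ} {p s : Pj n}

/-- in a linked component every point is matched by `p`, and the points not matched by `s` are the
two ends -/
theorem Lk.struct {x w : Fin n} (h : Lk p s x w) :
    (∀ y ∈ cls s.a p.a x, p.a y ≠ y) ∧ (∀ y ∈ cls s.a p.a x, s.a y = y → y = x ∨ y = w) := by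
  have h2 : ∀ y ∈ cls s.a p.a x, s.a y = y → y = x ∨ y = w := by
    intro y hy hsy
    by_cases hyx : y = x
    · exact Or.inl hyx
    · exact Or.inr (ends_le_two s.inv p.inv hy h.2.2.2 (Or.inl (s.ht _ h.1)) (Or.inl hsy)
        (Or.inl (s.ht _ h.2.1)) hyx h.2.2.1)
  refine ⟨?_, h2⟩
  intro y hy hpy
  have hyx : y ≠ x := by
    intro e
    subst e
    exact h.2.2.1 (J.eq_of_fixed s.inv p.inv (s.ht _ h.1) hpy h.2.2.2)
  have := ends_le_two s.inv p.inv hy h.2.2.2 (Or.inl (s.ht _ h.1)) (Or.inr hpy)
        (Or.inl (s.ht _ h.2.1)) hyx h.2.2.1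
  subst this
  exact hyx (J.eq_of_fixed s.inv p.inv (s.ht _ h.2.1) hpy h.2.2.2.symm').symm

open Classical in
theorem Lk.cn_val (hs : Planar s) {x w v : Fin n} (h : Lk p s x w) (hv : s.t v) (hxw : x < w)
    (hvx : v ≠ x) (hvw : v ≠ w) :
    cn (cls s.a p.a x) v = if x < v ∧ v < w then 1 else 0 := by
  rw [cn_through hs cls_left hv]
  have hst := h.struct
  have hx : x ∈ cls s.a p.a x := J.rfl' x
  have hw : w ∈ cls s.a p.a x := h.2.2.2
  by_cases h1 : x < v
  · by_cases h2 : v < w
    · rw [if_pos ⟨h1, h2⟩]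
      have : (Finset.univ.filter (fun c => (c ∈ cls s.a p.a x ∧ c < v) ∧ s.a c = c)) = {x} := by
        ext c
        simp only [Finset.mem_filter, Finset.mem_univ, true_and, Finset.mem_singleton]
        constructor
        · rintro ⟨⟨h3, h4⟩, h5⟩
          rcases hst.2 c h3 h5 with e | e
          · exact e
          · subst e; exact absurd (h4.trans h2) (lt_irrefl _)
        · rintro rfl; exact ⟨⟨hx, h1⟩, s.ht _ h.1⟩
      rw [this]; simp
    · rw [if_neg (by tauto)]
      have hwv : w < v := lt_of_le_of_ne (not_lt.1 h2) hvw.symm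
      have : (Finset.univ.filter (fun c => (c ∈ cls s.a p.a x ∧ c < v) ∧ s.a c = c)) = {x, w} := by
        ext c
        simp only [Finset.mem_filter, Finset.mem_univ, true_and, Finset.mem_singleton,
          Finset.mem_insert]
        constructor
        · rintro ⟨⟨h3, h4⟩, h5⟩
          exact hst.2 c h3 h5
        · rintro (rfl | rfl)
          · exact ⟨⟨hx, h1⟩, s.ht _ h.1⟩
          · exact ⟨⟨hw, hwv⟩, s.ht _ h.2.1⟩
      rw [this, Finset.card_pair hxw.ne]; rfl
  · rw [if_neg (by tauto)]
    have hvx' : v < x := lt_of_le_of_ne (not_lt.1 h1) hvx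
    have : (Finset.univ.filter (fun c => (c ∈ cls s.a p.a x ∧ c < v) ∧ s.a c = c)) = ∅ := by
      ext c
      simp only [Finset.mem_filter, Finset.mem_univ, true_and, Finset.notMem_empty, iff_false]
      rintro ⟨⟨h3, h4⟩, h5⟩
      rcases hst.2 c h3 h5 with e | e
      · subst e; exact absurd (h4.trans hvx') (lt_irrefl _)
      · subst e; exact absurd (h4.trans (hvx'.trans hxw)) (lt_irrefl _)
    rw [this]; simp

theorem planar_cj (hp : Planar p) (hs : Planar s) : Planar (cj p s) := by
  intro x y hxy hy
  by_cases hx : s.t x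
  · by_cases hl : ∃ w, Lk p s x w
    · obtain ⟨w, hw⟩ := hl
      rw [cj_a_lk hw] at hy ⊢
      have hxw : x < w := hxy.trans hy
      have hst := hw.struct
      have hI : NoIso p (cls s.a p.a x) := fun z hz h => absurd h (hst.1 z hz)
      have hI2 : NoIso s (cls s.a p.a x) := by
        intro z hz h
        rcases hst.2 z hz h with e | e
        · subst e; exact hw.1
        · subst e; exact hw.2.1
      have hyC : s.t y → y ∉ cls s.a p.a x := by
        intro hty h
        rcases hst.2 y h (s.ht _ hty) with e | e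
        · exact hxy.ne' e
        · exact hy.ne e
      refine ⟨?_, ?_⟩
      · rintro ⟨hty, z, hz, hj⟩
        have e1 := cn_J hp hs cls_right cls_left hI hI2 (hyC hty) hj
        rw [hw.cn_val hs hty hxw hxy.ne' hy.ne, if_pos ⟨hxy, hy⟩] at e1
        classical
        rw [cn_through hp cls_right hz] at e1
        have : (Finset.univ.filter (fun c => (c ∈ cls s.a p.a x ∧ c < z) ∧ p.a c = c)) = ∅ := by
          ext c
          simp only [Finset.mem_filter, Finset.mem_univ, true_and, Finset.notMem_empty, iff_false]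
          rintro ⟨⟨h3, h4⟩, h5⟩
          exact hst.1 c h3 h5
        rw [this] at e1
        simp at e1
      · by_cases hty : s.t y
        · by_cases hl2 : ∃ v, Lk p s y v
          · obtain ⟨v, hv⟩ := hl2
            rw [cj_a_lk hv]
            have e1 := cn_J hp hs cls_right cls_left hI hI2 (hyC hty) hv.2.2.2
            have hvC : v ∉ cls s.a p.a x := fun h => hyC hty (J.trans' h hv.2.2.2.symm')
            have hvx : v ≠ x := fun h => hvC (h ▸ J.rfl' x)
            have hvw : v ≠ w := fun h => hvC (h ▸ hw.2.2.2)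
            rw [hw.cn_val hs hty hxw hxy.ne' hy.ne, if_pos ⟨hxy, hy⟩,
              hw.cn_val hs hv.2.1 hxw hvx hvw] at e1
            by_contra h
            rw [if_neg h] at e1
            exact one_ne_zero e1
          · rw [cj_a_none hty hl2]; exact ⟨hxy, hy⟩
        · rw [cj_a_not hty]
          have hsx : s.a x = x := s.ht _ hx
          have hsw : s.a w = w := s.ht _ hw.2.1
          constructor
          · rcases lt_trichotomy x (s.a y) with h | h | h
            · exact h
            · exfalso; rw [h, s.inv] at hsx; rw [← h] at hsx; exact hxy.ne' hsx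
            · exact absurd hx (hs (s.a y) x h (by rw [s.inv]; exact hxy)).1
          · rcases lt_trichotomy (s.a y) w with h | h | h
            · exact h
            · exfalso; rw [← h, s.inv] at hsw; rw [h] at hsw; exact hy.ne hsw
            · exact absurd hw.2.1 (hs y w hy h).1
    · rw [cj_a_none hx hl] at hy
      exact absurd (hxy.trans hy) (lt_irrefl _)
  · rw [cj_a_not hx] at hy ⊢
    have := hs x y hxy hy
    rw [cj_a_not this.1]
    exact ⟨fun h => this.1 h.1, this.2⟩

/-- Brauer projections -/
def Brauer (p : Pj n) : Prop := ∀ x, p.a x = x → p.t x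

open Classical in
theorem brauer_cj (hp : Brauer p) (hs : Brauer s) : Brauer (cj p s) := by
  intro x hx
  have hsx : s.t x := by
    by_contra h
    rw [cj_a_not h] at hx
    exact h (hs x hx)
  have hl : ¬ ∃ w, Lk p s x w := by
    rintro ⟨w, hw⟩
    rw [cj_a_lk hw] at hx
    exact hw.2.2.1 hx
  by_contra hcon
  have hno : ∀ z, J s.a p.a x z → p.a z ≠ z := by
    intro z hz h
    exact hcon ⟨hsx, z, hp z h, hz⟩
  have hno2 : ∀ z, J s.a p.a x z → s.a z = z → z = x := by
    intro z hz h
    by_contra hne
    exact hl ⟨z, hsx, hs z h, hne, hz⟩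
  have e1 := card_zero_of_inv (Finset.univ.filter (fun c => c ∈ cls s.a p.a x)) p.a
    (fun y hy => by
      simp only [Finset.mem_filter, Finset.mem_univ, true_and] at hy ⊢
      exact cls_right y hy)
    (fun y hy => by
      simp only [Finset.mem_filter, Finset.mem_univ, true_and] at hy
      exact hno y hy) (fun y _ => p.inv y)
  have e2 := card_zero_of_inv ((Finset.univ.filter (fun c => c ∈ cls s.a p.a x)).erase x) s.a
    (fun y hy => by
      simp only [Finset.mem_filter, Finset.mem_univ, true_and, Finset.mem_erase] at hy ⊢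
      refine ⟨?_, cls_left y hy.2⟩
      intro h
      have : y = s.a x := by rw [← h, s.inv]
      rw [s.ht _ hsx] at this
      exact hy.1 this)
    (fun y hy => by
      simp only [Finset.mem_filter, Finset.mem_univ, true_and, Finset.mem_erase] at hy
      intro h
      exact hy.1 (hno2 y hy.2 h)) (fun y _ => s.inv y)
  have hmem : x ∈ (Finset.univ.filter (fun c => c ∈ cls s.a p.a x)) := by
    simp only [Finset.mem_filter, Finset.mem_univ, true_and]
    exact J.rfl' x
  have e3 := Finset.card_erase_add_one hmem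
  rw [← e3, Nat.cast_add, e2] at e1
  simp at e1

end Pj

end Pool.Agent.H213PG
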